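import Pool.Agent.GA.Defs
import Pool.Agent.GA.ADefs

/-!
# GL Defs: logarithmic symmetric differentials on the complement of hyperplane sections

PROJECT GG-LOG (note 4599).  `P` is a homogeneous prime ideal, `X` its projective variety, `B` a finite set of coordinates; `D` is the union of the hyperplane
sections `x i = 0`, `i ∈ B`, and `U = X \ D`.  A logarithmic tangent vector of `(X, D)` at a point `x` of the cone (on `D` too) is given by its coordinates `ξ`: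
`ξ i = v i / x i` for `i ∈ B` and `ξ i = v i` otherwise, where `v = act B x ξ` is a tangent vector of the cone.  For `B = ∅` this is `GG.Defs`.

In the affine case one works in the chart `x b = 1` for one fixed `b ∈ B`: `Uc P B b` is the set of the points, `Tc P b x` the tangent space.
To get polynomials one adds the coordinate `1 / ∏ x i` (`emb`, `embV`), so the phase space is `Ph (N + 1)`.
-/

set_option autoImplicit false

open MvPolynomial Topology Filter Metric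
open Pool.Agent.H13.SM (conTan cone)
open Pool.Agent.H17 (PN VanishesAt)
open Pool.Agent.GG
open Pool.Agent.GA

noncomputable section

namespace Pool.Agent.GL

variable {N : ℕ}

/-- the tangent vector with the logarithmic coordinates `ξ` -/
def act (B : Finset (Fin (N + 1))) (x ξ : Fin (N + 1) → ℂ) : Fin (N + 1) → ℂ := fun i => if i ∈ B then x i * ξ i else ξ i

/-- the logarithmic coordinates of the radial vector `x` -/
def eul (B : Finset (Fin (N + 1))) (x : Fin (N + 1) → ℂ) : Fin (N + 1) → ℂ := fun i => if i ∈ B then 1 else x i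

/-- the logarithmic coordinates of the tangent vector `v` -/
def lv (B : Finset (Fin (N + 1))) (x v : Fin (N + 1) → ℂ) : Fin (N + 1) → ℂ := fun i => if i ∈ B then (x i)⁻¹ * v i else v i

/-- the logarithmic coordinates at `c • x` of the tangent vector `c • v`, if `ξ` are those of `v` at `x` -/
def lsc (B : Finset (Fin (N + 1))) (c : ℂ) (ξ : Fin (N + 1) → ℂ) : Fin (N + 1) → ℂ := fun i => if i ∈ B then ξ i else c * ξ i

/-- A logarithmic symmetric differential of degree `m` on the projective variety of `P`, with poles on the hyperplane sections `x i = 0`, `i ∈ B`. -/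
structure LogSec (P : Ideal (MvPolynomial (Fin (N + 1)) ℂ)) (B : Finset (Fin (N + 1))) (m : ℕ) where
  /-- the section -/
  toFun : (Fin (N + 1) → ℂ) → (Fin (N + 1) → ℂ) → ℂ
  regular : ∀ i, ∃ (e : ℕ) (A : MvPolynomial (Fin (N + 1) ⊕ Fin (N + 1)) ℂ),
    ∀ x ∈ cone P, ∀ ξ, act B x ξ ∈ conTan P x → x i ^ e * toFun x ξ = eval (Sum.elim x ξ) A
  add_smul : ∀ x ∈ cone P, ∀ ξ, act B x ξ ∈ conTan P x → ∀ a : ℂ, toFun x (ξ + a • eul B x) = toFun x ξ
  smul : ∀ x ∈ cone P, ∀ ξ, act B x ξ ∈ conTan P x → ∀ a : ℂ, toFun x (a • ξ) = a ^ m * toFun x ξ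
  scale : ∀ x ∈ cone P, ∀ ξ, act B x ξ ∈ conTan P x → ∀ c : ℂ, c ≠ 0 → toFun (c • x) (lsc B c ξ) = toFun x ξ

/-- For all nonzero logarithmic tangent vectors `ξ`, `η` at a point of `X` one of the polar forms `θ_k (ξ, …, ξ, η)` is not `0`. -/
def LogPolar {P : Ideal (MvPolynomial (Fin (N + 1)) ℂ)} {B : Finset (Fin (N + 1))} {J : ℕ} {m : Fin J → ℕ} (θ : ∀ k, LogSec P B (m k)) : Prop :=
  ∀ x ∈ cone P, ∀ ξ, act B x ξ ∈ conTan P x → ∀ η, act B x η ∈ conTan P x → ξ ∉ Submodule.span ℂ {eul B x} → η ∉ Submodule.span ℂ {eul B x} →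
    ∃ k, deriv (fun t : ℂ => (θ k).toFun x (ξ + t • η)) 0 ≠ 0

/-- A section of `(K + D)^M (-1)` on `(X, D)`, `X` of dimension `n`. -/
structure LogCan (P : Ideal (MvPolynomial (Fin (N + 1)) ℂ)) (B : Finset (Fin (N + 1))) (n M : ℕ) where
  /-- the section -/
  toFun : (Fin (N + 1) → ℂ) → (Fin n → Fin (N + 1) → ℂ) → ℂ
  regular : ∀ i, ∃ (e : ℕ) (A : MvPolynomial (Fin (N + 1) ⊕ (Fin n × Fin (N + 1))) ℂ),
    ∀ x ∈ cone P, ∀ ξ : Fin n → Fin (N + 1) → ℂ, (∀ j, act B x (ξ j) ∈ conTan P x) →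
      x i ^ e * toFun x ξ = eval (Sum.elim x fun p => ξ p.1 p.2) A
  add_smul : ∀ x ∈ cone P, ∀ ξ : Fin n → Fin (N + 1) → ℂ, (∀ j, act B x (ξ j) ∈ conTan P x) → ∀ a : Fin n → ℂ,
    toFun x (fun j => ξ j + a j • eul B x) = toFun x ξ
  det : ∀ x ∈ cone P, ∀ ξ : Fin n → Fin (N + 1) → ℂ, (∀ j, act B x (ξ j) ∈ conTan P x) → ∀ C : Matrix (Fin n) (Fin n) ℂ,
    toFun x (fun j => ∑ k, C j k • ξ k) = C.det ^ M * toFun x ξ
  scale : ∀ x ∈ cone P, ∀ ξ : Fin n → Fin (N + 1) → ℂ, (∀ j, act B x (ξ j) ∈ conTan P x) → ∀ c : ℂ, c ≠ 0 →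
    c * toFun (c • x) (fun j => lsc B c (ξ j)) = toFun x ξ

/-- The section `Ω` has no zeros off `D` and the hypersurface `R = 0`. -/
def LogCan.NonzeroOff {P : Ideal (MvPolynomial (Fin (N + 1)) ℂ)} {B : Finset (Fin (N + 1))} {n M : ℕ} (Ω : LogCan P B n M)
    (R : MvPolynomial (Fin (N + 1)) ℂ) : Prop :=
  ∀ x ∈ cone P, (∀ i ∈ B, x i ≠ 0) → eval x R ≠ 0 → ∀ ξ : Fin n → Fin (N + 1) → ℂ, (∀ j, act B x (ξ j) ∈ conTan P x) →
    (∀ (a : ℂ) (c : Fin n → ℂ), a • eul B x + ∑ j, c j • ξ j = 0 → c = 0) → Ω.toFun x ξ ≠ 0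

/-! ## the chart `x b = 1`, `b ∈ B` -/

/-- the points of `U` in the chart `x b = 1` -/
def Uc (P : Ideal (MvPolynomial (Fin (N + 1)) ℂ)) (B : Finset (Fin (N + 1))) (b : Fin (N + 1)) : Set (Fin (N + 1) → ℂ) :=
  {x | x ∈ cone P ∧ x b = 1 ∧ ∀ i ∈ B, x i ≠ 0}

/-- the tangent vectors of `U` in the chart `x b = 1` -/
def Tc (P : Ideal (MvPolynomial (Fin (N + 1)) ℂ)) (b : Fin (N + 1)) (x : Fin (N + 1) → ℂ) : Set (Fin (N + 1) → ℂ) :=
  {v | v ∈ conTan P x ∧ v b = 0}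

/-- the logarithmic length, up to bounded factors (in the chart) -/
def LL (B : Finset (Fin (N + 1))) (x v : Fin (N + 1) → ℂ) : ℝ := ‖v‖ / ‖x‖ + ∑ i ∈ B, ‖v i‖ / ‖x i‖

/-- the height: it is `≥ 0` in the chart, and proper -/
def Rho (B : Finset (Fin (N + 1))) (x : Fin (N + 1) → ℂ) : ℝ := Real.log ‖x‖ + ∑ i ∈ B, (Real.log ‖x‖ - Real.log ‖x i‖)

/-- the point with the additional coordinate `1 / ∏ x i` -/
def emb (B : Finset (Fin (N + 1))) (x : Fin (N + 1) → ℂ) : Fin (N + 2) → ℂ := Fin.snoc (α := fun _ => ℂ) x (∏ i ∈ B, x i)⁻¹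

/-- the tangent vector of `emb` -/
def embV (B : Finset (Fin (N + 1))) (x v : Fin (N + 1) → ℂ) : Fin (N + 2) → ℂ :=
  Fin.snoc (α := fun _ => ℂ) v (-((∏ i ∈ B, x i)⁻¹ * ∑ i ∈ B, (x i)⁻¹ * v i))

/-- the point `(x, v)` of the tangent bundle of `U`, as a point of the phase space -/
def ePt (B : Finset (Fin (N + 1))) (x v : Fin (N + 1) → ℂ) : Ph (N + 1) → ℂ := pt (emb B x) (embV B x v)

variable {P : Ideal (MvPolynomial (Fin (N + 1)) ℂ)} {B : Finset (Fin (N + 1))} {J : ℕ} {m : Fin J → ℕ}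

/-- generators of the ideal, and polynomials for the logarithmic symmetric differentials in the chart -/
structure LFrame (θ : ∀ k, LogSec P B (m k)) (b : Fin (N + 1)) where
  /-- the number of the generators -/
  q : ℕ
  /-- the generators -/
  Q : Fin q → MvPolynomial (Fin (N + 1)) ℂ
  span : Ideal.span (Set.range Q) = P
  /-- the polynomials -/
  A : Fin J → MvPolynomial (Ph N) ℂ
  hA : ∀ k, ∀ x ∈ cone P, x b = 1 → ∀ ξ, act B x ξ ∈ conTan P x → (θ k).toFun x ξ = eval (pt x ξ) (A k)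
  hom : ∀ k, IsWeightedHomogeneous (Sum.elim (fun _ => 0) (fun _ => 1) : Ph N → ℕ) (A k) (m k)

/-- the logarithmic coordinates as polynomials in the coordinates of `ePt` -/
def lsub (B : Finset (Fin (N + 1))) : Ph N → MvPolynomial (Ph (N + 1)) ℂ :=
  Sum.elim (fun j => X (Sum.inl j.castSucc)) fun i =>
    if i ∈ B then X (Sum.inr i.castSucc) * (X (Sum.inl (Fin.last (N + 1))) * ∏ l ∈ B.erase i, X (Sum.inl l.castSucc)) else X (Sum.inr i.castSucc)

/-- the index set of the family -/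
abbrev GIx (q J : ℕ) : Type := ((Unit ⊕ Unit) ⊕ (Fin q ⊕ Fin q)) ⊕ ((Unit ⊕ Unit) ⊕ Fin J)

/-- the functions `x_b`, `v_b`, `Q_j (x)`, `dQ_j (x) v`, `y ∏ x_i`, `d (y ∏ x_i)`, `θ_k (x, v)` on the phase space, `y` is the last coordinate -/
def gfamL {θ : ∀ k, LogSec P B (m k)} {b : Fin (N + 1)} (f : LFrame θ b) : GIx f.q J → MvPolynomial (Ph (N + 1)) ℂ :=
  Sum.elim
    (Sum.elim (Sum.elim (fun _ => X (Sum.inl b.castSucc)) fun _ => X (Sum.inr b.castSucc))
      (Sum.elim (fun j => rename (fun i : Fin (N + 1) => (Sum.inl i.castSucc : Ph (N + 1))) (f.Q j))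
        fun j => ∑ i, rename (fun i : Fin (N + 1) => (Sum.inl i.castSucc : Ph (N + 1))) (pderiv i (f.Q j)) * X (Sum.inr i.castSucc)))
    (Sum.elim
      (Sum.elim (fun _ => X (Sum.inl (Fin.last (N + 1))) * ∏ l ∈ B, X (Sum.inl l.castSucc)) fun _ =>
        X (Sum.inr (Fin.last (N + 1))) * ∏ l ∈ B, X (Sum.inl l.castSucc) +
          X (Sum.inl (Fin.last (N + 1))) * ∑ i ∈ B, X (Sum.inr i.castSucc) * ∏ l ∈ B.erase i, X (Sum.inl l.castSucc))
      fun k => aeval (lsub B) (f.A k))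

/-- the values of the family at `ePt B x v`, `x ∈ Uc`, `v ∈ Tc`, `θ (x, v) = c` -/
def gval {q J : ℕ} (c : Fin J → ℂ) : GIx q J → ℂ :=
  Sum.elim (Sum.elim (Sum.elim (fun _ => 1) fun _ => 0) (Sum.elim (fun _ => 0) fun _ => 0)) (Sum.elim (Sum.elim (fun _ => 1) fun _ => 0) c)

/-- the values of the logarithmic symmetric differentials on `v`, in the chart -/
def thv (θ : ∀ k, LogSec P B (m k)) (x v : Fin (N + 1) → ℂ) : Fin J → ℂ := fun k => (θ k).toFun x (lv B x v)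

/-! ## nonautonomous equations -/

/-- `Φ` is near `q = (z, s)` a holomorphic family of solutions of `G_l (x, x') = C_l (z, s)` -/
def NSol {ι : Type} {d : ℕ} (G : ι → MvPolynomial (Ph N) ℂ) (C : ι → ℂ × (Fin d → ℂ) → ℂ) (Φ : ℂ × (Fin d → ℂ) → Fin (N + 1) → ℂ)
    (q : ℂ × (Fin d → ℂ)) : Prop :=
  AnalyticAt ℂ Φ q ∧ ∀ᶠ p in 𝓝 q, ∀ l, eval (pt (Φ p) (deriv (fun z => Φ (z, p.2)) p.1)) (G l) = C l p

/-- `Φ` is near `q` a holomorphic family of curves in `U` (in the chart), with `θ (∂Φ/∂z) = c` -/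
def LFam (θ : ∀ k, LogSec P B (m k)) (b : Fin (N + 1)) {d : ℕ} (c : ℂ × (Fin d → ℂ) → Fin J → ℂ) (Φ : ℂ × (Fin d → ℂ) → Fin (N + 1) → ℂ)
    (q : ℂ × (Fin d → ℂ)) : Prop :=
  AnalyticAt ℂ Φ q ∧ ∀ᶠ p in 𝓝 q, Φ p ∈ Uc P B b ∧ thv θ (Φ p) (deriv (fun z => Φ (z, p.2)) p.1) = c p

/-! ## curves in the half-plane -/

/-- a holomorphic periodic curve in `U`, in the chart `x b = 1` -/
structure LCurve (P : Ideal (MvPolynomial (Fin (N + 1)) ℂ)) (B : Finset (Fin (N + 1))) (b : Fin (N + 1)) (F : ℂ → Fin (N + 1) → ℂ) : Prop where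
  curve : HCurve P F
  one : ∀ w, F w b = 1
  ne : ∀ w ∈ HP, ∀ i ∈ B, F w i ≠ 0

/-- the curve with the additional coordinate -/
def eF (B : Finset (Fin (N + 1))) (F : ℂ → Fin (N + 1) → ℂ) (w : ℂ) : Fin (N + 2) → ℂ := emb B (F w)

end Pool.Agent.GL
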