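import Pool.Agent.GL.ChA
import Pool.Agent.GG.Chart

/-!
# GL ChB: the family `gfamL`, second part

`of_gval`: from `y ∏ x_i = 1` the coordinates `x i`, `i ∈ B`, are not `0`, and `y` is the last coordinate of `emb`; the derivative of this equation gives the last coordinate of `embV`; then `eval_gfamL`.  `analyticAt_thv`: `LFrame.hA` (`exists_lframe`).
-/

set_option autoImplicit false

open MvPolynomial Topology Filter Metric
open Pool.Agent.H13.SM (conTan cone)
open Pool.Agent.H62.FC (Homog)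
open Pool.Agent.GG Pool.Agent.GA

namespace Pool.Agent.GL

variable {N : ℕ} {P : Ideal (MvPolynomial (Fin (N + 1)) ℂ)} {B : Finset (Fin (N + 1))} {J : ℕ} {m : Fin J → ℕ} {θ : ∀ k, LogSec P B (m k)} {b : Fin (N + 1)}

/-- a point of the cone, by generators of the ideal -/
theorem chB_cone {q : ℕ} {Q : Fin q → MvPolynomial (Fin (N + 1)) ℂ} (hspan : Ideal.span (Set.range Q) = P) {x : Fin (N + 1) → ℂ}
    (h0 : x ≠ 0) (h : ∀ j, eval x (Q j) = 0) : x ∈ cone P := by
  refine ⟨h0, fun R hR => ?_⟩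
  rw [← hspan] at hR
  have : Ideal.span (Set.range Q) ≤ RingHom.ker (eval x : MvPolynomial (Fin (N + 1)) ℂ →+* ℂ) := by
    rw [Ideal.span_le]
    rintro _ ⟨j, rfl⟩
    exact h j
  exact this hR

/-- a tangent vector of the cone, by generators of the ideal -/
theorem chB_tan {q : ℕ} {Q : Fin q → MvPolynomial (Fin (N + 1)) ℂ} (hspan : Ideal.span (Set.range Q) = P) {x v : Fin (N + 1) → ℂ}
    (h : ∀ j, eval x (Q j) = 0) (h' : ∀ j, ∑ i, v i * eval x (pderiv i (Q j)) = 0) : v ∈ conTan P x := by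
  intro R hR
  rw [← hspan] at hR
  have key : eval x R = 0 ∧ ∑ i, v i * eval x (pderiv i R) = 0 := by
    refine Submodule.span_induction (p := fun R _ => eval x R = 0 ∧ ∑ i, v i * eval x (pderiv i R) = 0) ?_ ?_ ?_ ?_ hR
    · rintro _ ⟨j, rfl⟩
      exact ⟨h j, h' j⟩
    · simp
    · rintro p q - - ⟨h1, h2⟩ ⟨h3, h4⟩
      refine ⟨by rw [map_add, h1, h3, add_zero], ?_⟩
      simp only [map_add, mul_add, Finset.sum_add_distrib, h2, h4, add_zero]
    · rintro p q - ⟨h1, h2⟩
      refine ⟨by rw [smul_eq_mul, map_mul, h1, mul_zero], ?_⟩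
      have : ∀ i, v i * eval x (pderiv i (p • q)) = eval x p * (v i * eval x (pderiv i q)) + (v i * eval x (pderiv i p)) * eval x q := by
        intro i
        rw [smul_eq_mul, Derivation.leibniz, map_add, smul_eq_mul, smul_eq_mul, map_mul, map_mul]
        ring
      simp only [this, h1, mul_zero, add_zero, ← Finset.mul_sum, h2]
  exact key.2

/-- `∏_(l ≠ i) x_l = (x_i)⁻¹ ∏ x_l` -/
theorem chB_erase {x : Fin (N + 1) → ℂ} {i : Fin (N + 1)} (hi : i ∈ B) (h : x i ≠ 0) : ∏ l ∈ B.erase i, x l = (x i)⁻¹ * ∏ l ∈ B, x l := by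
  rw [← Finset.mul_prod_erase B x hi, ← mul_assoc, inv_mul_cancel₀ h, one_mul]

theorem of_gval (f : LFrame θ b) {c : Fin J → ℂ} {y : Ph (N + 1) → ℂ} (h : ∀ l, eval y (gfamL f l) = gval c l) :
    ∃ x v, y = ePt B x v ∧ x ∈ Uc P B b ∧ v ∈ Tc P b x ∧ thv θ x v = c := by
  obtain ⟨x, hx⟩ : ∃ x : Fin (N + 1) → ℂ, x = fun i => y (Sum.inl i.castSucc) := ⟨_, rfl⟩
  obtain ⟨v, hv⟩ : ∃ v : Fin (N + 1) → ℂ, v = fun i => y (Sum.inr i.castSucc) := ⟨_, rfl⟩
  obtain ⟨s, hs⟩ : ∃ s : ℂ, s = y (Sum.inl (Fin.last (N + 1))) := ⟨_, rfl⟩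
  obtain ⟨t, ht⟩ : ∃ t : ℂ, t = y (Sum.inr (Fin.last (N + 1))) := ⟨_, rfl⟩
  have hxi : ∀ i : Fin (N + 1), y (Sum.inl i.castSucc) = x i := fun i => by rw [hx]
  have hvi : ∀ i : Fin (N + 1), y (Sum.inr i.castSucc) = v i := fun i => by rw [hv]
  have h1 : x b = 1 := by
    have := h (Sum.inl (Sum.inl (Sum.inl ())))
    simpa [gfamL, gval, hxi] using this
  have h2 : v b = 0 := by
    have := h (Sum.inl (Sum.inl (Sum.inr ())))
    simpa [gfamL, gval, hvi] using this
  have hco : (y ∘ fun i : Fin (N + 1) => (Sum.inl i.castSucc : Ph (N + 1))) = x := by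
    funext i
    exact hxi i
  have h3 : ∀ j, eval x (f.Q j) = 0 := fun j => by
    have := h (Sum.inl (Sum.inr (Sum.inl j)))
    simp only [gfamL, gval, Sum.elim_inl, Sum.elim_inr, eval_rename, hco] at this
    exact this
  have h4 : ∀ j, ∑ i, v i * eval x (pderiv i (f.Q j)) = 0 := fun j => by
    have := h (Sum.inl (Sum.inr (Sum.inr j)))
    simp only [gfamL, gval, Sum.elim_inl, Sum.elim_inr, map_sum, map_mul, eval_rename, hco, eval_X, hvi] at this
    rw [← this]
    exact Finset.sum_congr rfl fun i _ => mul_comm _ _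
  have h5 : s * ∏ l ∈ B, x l = 1 := by
    have := h (Sum.inr (Sum.inl (Sum.inl ())))
    simp only [gfamL, gval, Sum.elim_inl, Sum.elim_inr, map_mul, map_prod, eval_X, hxi, ← hs] at this
    exact this
  have h6 : t * ∏ l ∈ B, x l + s * ∑ i ∈ B, v i * ∏ l ∈ B.erase i, x l = 0 := by
    have := h (Sum.inr (Sum.inl (Sum.inr ())))
    simp only [gfamL, gval, Sum.elim_inl, Sum.elim_inr, map_add, map_sum, map_mul, map_prod, eval_X, hxi, hvi, ← hs, ← ht] at this
    exact this
  have hp : ∏ l ∈ B, x l ≠ 0 := by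
    intro h0
    rw [h0, mul_zero] at h5
    exact zero_ne_one h5
  have hne : ∀ i ∈ B, x i ≠ 0 := fun i hi => (Finset.prod_ne_zero_iff.1 hp) i hi
  have hsi : s = (∏ l ∈ B, x l)⁻¹ := eq_inv_of_mul_eq_one_left h5
  have hx0 : x ≠ 0 := by
    intro h0
    rw [h0] at h1
    exact zero_ne_one h1
  have hsum : ∑ i ∈ B, v i * ∏ l ∈ B.erase i, x l = (∏ l ∈ B, x l) * ∑ i ∈ B, (x i)⁻¹ * v i := by
    rw [Finset.mul_sum]
    refine Finset.sum_congr rfl fun i hi => ?_
    rw [chB_erase hi (hne i hi)]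
    ring
  have hti : t = -((∏ l ∈ B, x l)⁻¹ * ∑ i ∈ B, (x i)⁻¹ * v i) := by
    rw [hsum, ← mul_assoc, h5, one_mul] at h6
    have h7 : t = -(∑ i ∈ B, (x i)⁻¹ * v i) * (∏ l ∈ B, x l)⁻¹ := by
      rw [eq_mul_inv_iff_mul_eq₀ hp]
      exact eq_neg_of_add_eq_zero_left h6
    rw [h7]
    ring
  have hy : y = ePt B x v := by
    funext p
    rcases p with i | i
    · refine Fin.lastCases ?_ (fun i => ?_) i
      · show y (Sum.inl (Fin.last (N + 1))) = emb B x (Fin.last (N + 1))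
        unfold emb
        rw [Fin.snoc_last, ← hs, hsi]
      · show y (Sum.inl i.castSucc) = emb B x i.castSucc
        unfold emb
        rw [Fin.snoc_castSucc, hxi]
    · refine Fin.lastCases ?_ (fun i => ?_) i
      · show y (Sum.inr (Fin.last (N + 1))) = embV B x v (Fin.last (N + 1))
        unfold embV
        rw [Fin.snoc_last, ← ht, hti]
      · show y (Sum.inr i.castSucc) = embV B x v i.castSucc
        unfold embV
        rw [Fin.snoc_castSucc, hvi]
  have hU : x ∈ Uc P B b := ⟨chB_cone f.span hx0 h3, h1, hne⟩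
  have hT : v ∈ Tc P b x := ⟨chB_tan f.span h3 h4, h2⟩
  refine ⟨x, v, hy, hU, hT, ?_⟩
  funext k
  have h7 := h (Sum.inr (Sum.inr k))
  rw [hy, eval_gfamL f hU hT] at h7
  exact h7

theorem analyticAt_emb {x : ℂ → Fin (N + 1) → ℂ} {z : ℂ} (hx : AnalyticAt ℂ x z) (h : ∀ i ∈ B, x z i ≠ 0) : AnalyticAt ℂ (fun w => emb B (x w)) z := by
  have hi : ∀ i, AnalyticAt ℂ (fun w => x w i) z := fun i => (analyticAt_pi_iff.1 hx) i
  refine AnalyticAt.pi fun j => ?_
  refine Fin.lastCases ?_ (fun i => ?_) j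
  · have e : (fun w => emb B (x w) (Fin.last (N + 1))) = fun w => (∏ i ∈ B, x w i)⁻¹ := by
      funext w
      unfold emb
      rw [Fin.snoc_last]
    rw [e]
    exact (Finset.analyticAt_fun_prod B fun i _ => hi i).inv (Finset.prod_ne_zero_iff.2 h)
  · have e : (fun w => emb B (x w) i.castSucc) = fun w => x w i := by
      funext w
      unfold emb
      rw [Fin.snoc_castSucc]
    rw [e]
    exact hi i

theorem deriv_emb {x : ℂ → Fin (N + 1) → ℂ} {z : ℂ} (hx : AnalyticAt ℂ x z) (h : ∀ i ∈ B, x z i ≠ 0) :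
    deriv (fun w => emb B (x w)) z = embV B (x z) (deriv x z) := by
  have hi : ∀ i, HasDerivAt (fun w => x w i) (deriv x z i) z := fun i => (hasDerivAt_pi.1 hx.differentiableAt.hasDerivAt) i
  have hp : ∏ i ∈ B, x z i ≠ 0 := Finset.prod_ne_zero_iff.2 h
  refine (hasDerivAt_pi.2 fun j => ?_).deriv
  refine Fin.lastCases ?_ (fun i => ?_) j
  · have e : (fun w => emb B (x w) (Fin.last (N + 1))) = fun w => (∏ i ∈ B, x w i)⁻¹ := by
      funext w
      unfold emb
      rw [Fin.snoc_last]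
    have e2 : embV B (x z) (deriv x z) (Fin.last (N + 1)) = -(∑ i ∈ B, (∏ l ∈ B.erase i, x z l) • deriv x z i) / (∏ i ∈ B, x z i) ^ 2 := by
      unfold embV
      rw [Fin.snoc_last]
      have hsum : ∑ i ∈ B, (∏ l ∈ B.erase i, x z l) • deriv x z i = (∏ l ∈ B, x z l) * ∑ i ∈ B, (x z i)⁻¹ * deriv x z i := by
        rw [Finset.mul_sum]
        refine Finset.sum_congr rfl fun i hi' => ?_
        rw [chB_erase hi' (h i hi'), smul_eq_mul]
        ring
      rw [hsum]
      field_simp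
    rw [e, e2]
    exact (HasDerivAt.fun_finsetProd fun i _ => hi i).fun_inv hp
  · have e : (fun w => emb B (x w) i.castSucc) = fun w => x w i := by
      funext w
      unfold emb
      rw [Fin.snoc_castSucc]
    have e2 : embV B (x z) (deriv x z) i.castSucc = deriv x z i := by
      unfold embV
      rw [Fin.snoc_castSucc]
    rw [e, e2]
    exact hi i

/-- a curve in the chart is tangent to it -/
theorem deriv_mem_Tc {x : ℂ → Fin (N + 1) → ℂ} {z : ℂ} (hx : AnalyticAt ℂ x z) (h : ∀ᶠ w in 𝓝 z, x w ∈ Uc P B b) : deriv x z ∈ Tc P b (x z) := by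
  refine ⟨Chart_tan hx.differentiableAt (h.mono fun w hw => hw.1), ?_⟩
  have h1 : HasDerivAt (fun w => x w b) (deriv x z b) z := (hasDerivAt_pi.1 hx.differentiableAt.hasDerivAt) b
  have h2 : HasDerivAt (fun w => x w b) 0 z := by
    refine (hasDerivAt_const z (1 : ℂ)).congr_of_eventuallyEq ?_
    filter_upwards [h] with w hw using hw.2.1
  exact h1.unique h2

/-- evaluation of a polynomial along analytic functions -/
theorem chB_eval {ι : Type} {g : ι → ℂ → ℂ} {z : ℂ} (hg : ∀ i, AnalyticAt ℂ (g i) z) (Q : MvPolynomial ι ℂ) : AnalyticAt ℂ (fun w => eval (fun i => g i w) Q) z := by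
  induction Q using MvPolynomial.induction_on with
  | C a =>
    simp only [eval_C]
    exact analyticAt_const
  | add p q hp hq =>
    simp only [map_add]
    exact hp.add hq
  | mul_X p i hp =>
    simp only [map_mul, eval_X]
    exact hp.mul (hg i)

theorem analyticAt_thv {x v : ℂ → Fin (N + 1) → ℂ} {z : ℂ} (hx : AnalyticAt ℂ x z) (hv : AnalyticAt ℂ v z) (h : ∀ᶠ w in 𝓝 z, x w ∈ Uc P B b ∧ v w ∈ Tc P b (x w))
    (k : Fin J) : AnalyticAt ℂ (fun w => thv θ (x w) (v w) k) z := by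
  obtain ⟨f⟩ := exists_lframe θ b
  have hxi : ∀ i, AnalyticAt ℂ (fun w => x w i) z := fun i => (analyticAt_pi_iff.1 hx) i
  have hvi : ∀ i, AnalyticAt ℂ (fun w => v w i) z := fun i => (analyticAt_pi_iff.1 hv) i
  have hz := h.self_of_nhds.1.2.2
  have h1 : AnalyticAt ℂ (fun w => eval (fun p : Ph N => pt (x w) (lv B (x w) (v w)) p) (f.A k)) z := by
    refine chB_eval (g := fun p w => pt (x w) (lv B (x w) (v w)) p) (fun p => ?_) _
    rcases p with i | i
    · exact hxi i
    · show AnalyticAt ℂ (fun w => lv B (x w) (v w) i) z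
      unfold lv
      by_cases hi : i ∈ B
      · simp only [if_pos hi]
        exact ((hxi i).inv (hz i hi)).mul (hvi i)
      · simp only [if_neg hi]
        exact hvi i
  refine h1.congr ?_
  filter_upwards [h] with w hw
  obtain ⟨⟨h2, h3, h4⟩, h5, h6⟩ := hw
  show eval (pt (x w) (lv B (x w) (v w))) (f.A k) = (θ k).toFun (x w) (lv B (x w) (v w))
  rw [f.hA k (x w) h2 h3]
  rw [act_lv h4]
  exact h5

end Pool.Agent.GL
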