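import Pool.Agent.GL.Chart
import Pool.Agent.GG.Row

/-!
# GL Row: a minor of the family is not zero

As `GG.row_zero`, `GG.exists_row`: if `w : Fin (N + 2) → ℂ` is killed by all `∂_v G_l` at `ePt B x v` then `w_b = 0`, `w = embV B x w'` with `w' ∈ conTan P x` (from `dQ_j` and from `d (y ∏ x_i)`), and the
derivative of `θ_k (x, lv (v + t w'))` at `t = 0` is `0` for all `k`; `lv B x v` and `lv B x w'` are not in the span of `eul B x` (their coordinate `b` is `0`), so `w' = 0` by `LogPolar`.
-/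

set_option autoImplicit false

open MvPolynomial Topology Filter Metric
open Pool.Agent.H13.SM (conTan cone)
open Pool.Agent.H62.FC (Homog)
open Pool.Agent.GG Pool.Agent.GA

namespace Pool.Agent.GL

variable {N : ℕ} {P : Ideal (MvPolynomial (Fin (N + 1)) ℂ)} {B : Finset (Fin (N + 1))} {J : ℕ} {m : Fin J → ℕ} {θ : ∀ k, LogSec P B (m k)} {b : Fin (N + 1)}

private theorem row_aff {g : ℂ → ℂ} {a c : ℂ} (h : HasDerivAt g 0 0) (hg : ∀ t, g t = a + t * c) : c = 0 := by
  have h1 : HasDerivAt g (1 * c) 0 := by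
    have h2 : g = fun t => a + t * c := funext hg
    rw [h2]
    exact ((hasDerivAt_id (0 : ℂ)).mul_const c).const_add a
  have h3 := h1.unique h
  rwa [one_mul] at h3

private theorem row_minor {ι : Type} {M : ℕ} (r : ι → Fin M → ℂ) (h : ∀ w : Fin M → ℂ, (∀ l, ∑ b, r l b * w b = 0) → w = 0) :
    ∃ I : Fin M → ι, LinearIndependent ℂ (r ∘ I) := by
  classical
  have hspan : Submodule.span ℂ (Set.range r) = ⊤ := by
    by_contra hne
    obtain ⟨φ, hφ, hle⟩ := Submodule.exists_le_ker_of_lt_top _ (lt_top_iff_ne_top.mpr hne)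
    apply hφ
    have h1 : (fun b => φ (Pi.single b 1)) = (0 : Fin M → ℂ) := by
      apply h
      intro l
      have h2 : φ (r l) = 0 := hle (Submodule.subset_span ⟨l, rfl⟩)
      rw [← h2]
      conv_rhs => rw [pi_eq_sum_univ' (r l), map_sum]
      exact Finset.sum_congr rfl fun b _ => by
        rw [map_smul, smul_eq_mul]
    refine LinearMap.pi_ext' fun b => ?_
    ext
    simpa using congrFun h1 b
  obtain ⟨κ, g, -, hg, hli⟩ := exists_linearIndependent' ℂ r
  have : Finite κ := hli.finite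
  have : Fintype κ := Fintype.ofFinite κ
  rw [hspan] at hg
  have hcard : Fintype.card κ = M := by
    have hb := Module.finrank_eq_card_basis (Module.Basis.mk hli hg.ge)
    simpa using hb.symm
  let e : Fin M ≃ κ := (Fintype.equivFinOfCardEq hcard).symm
  exact ⟨g ∘ e, hli.comp e e.injective⟩

private theorem row_lv_add (x v w : Fin (N + 1) → ℂ) (t : ℂ) : lv B x (v + t • w) = lv B x v + t • lv B x w := by
  funext i
  simp only [lv, Pi.add_apply, Pi.smul_apply, smul_eq_mul]
  split_ifs
  · ring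
  · rfl

private theorem row_act_lv {x : Fin (N + 1) → ℂ} (h : ∀ i ∈ B, x i ≠ 0) (v : Fin (N + 1) → ℂ) : act B x (lv B x v) = v := by
  funext i
  simp only [act, lv]
  split_ifs with hi
  · rw [mul_inv_cancel_left₀ (h i hi)]
  · rfl

private theorem row_not_span {x v : Fin (N + 1) → ℂ} (h : ∀ i ∈ B, x i ≠ 0) (hb : b ∈ B) (hvb : v b = 0) (hv : v ≠ 0) :
    lv B x v ∉ Submodule.span ℂ {eul B x} := by
  intro hs
  obtain ⟨s, hs⟩ := Submodule.mem_span_singleton.mp hs
  have h1 := congrFun hs b
  simp only [Pi.smul_apply, eul, lv, if_pos hb, smul_eq_mul, mul_one, hvb, mul_zero] at h1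
  rw [h1, zero_smul] at hs
  apply hv
  rw [← row_act_lv h v, ← hs]
  funext i
  simp [act]

private theorem row_eval_lsub {x : Fin (N + 1) → ℂ} (h : ∀ i ∈ B, x i ≠ 0) (V : Fin (N + 2) → ℂ) (A : MvPolynomial (Ph N) ℂ) :
    eval (pt (emb B x) V) (aeval (lsub B) A) = eval (pt x (lv B x fun i => V i.castSucc)) A := by
  classical
  have h1 : ∀ A : MvPolynomial (Ph N) ℂ, eval (pt (emb B x) V) (aeval (lsub B) A) = eval (fun s => eval (pt (emb B x) V) (lsub B s)) A := by
    intro A
    induction A using MvPolynomial.induction_on with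
    | C a => simp only [algHom_C, algebraMap_eq, eval_C]
    | add p q hp hq => rw [map_add, map_add, hp, hq, map_add]
    | mul_X p s hp => rw [map_mul, map_mul, hp, map_mul, aeval_X, eval_X]
  rw [h1]
  congr 2
  funext s
  rcases s with j | i
  · simp only [lsub, Sum.elim_inl, eval_X, pt, emb, Fin.snoc_castSucc]
  · simp only [lsub, Sum.elim_inr, pt, lv]
    by_cases hi : i ∈ B
    · rw [if_pos hi, if_pos hi]
      simp only [map_mul, map_prod, eval_X, Sum.elim_inl, Sum.elim_inr, emb, Fin.snoc_castSucc, Fin.snoc_last]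
      rw [← Finset.mul_prod_erase B (fun i => x i) hi, mul_inv, mul_assoc, inv_mul_cancel₀, mul_one, mul_comm]
      exact Finset.prod_ne_zero_iff.2 fun l hl => h l (Finset.mem_of_mem_erase hl)
    · rw [if_neg hi, if_neg hi]
      simp only [eval_X, Sum.elim_inr]

/-- the rows span -/
theorem rowL_zero (hθ : LogPolar θ) (f : LFrame θ b) (hb : b ∈ B) {x v : Fin (N + 1) → ℂ} (hx : x ∈ Uc P B b) (hv : v ∈ Tc P b x) (h0 : v ≠ 0)
    (w : Fin (N + 2) → ℂ) (hw : ∀ l, ∑ i, eval (ePt B x v) (pderiv (Sum.inr i) (gfamL f l)) * w i = 0) : w = 0 := by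
  classical
  obtain ⟨hxc, hxb, hxB⟩ := hx
  obtain ⟨hvT, hvb⟩ := hv
  have hD : ∀ l, HasDerivAt (fun t : ℂ => eval (pt (emb B x) (embV B x v + t • w)) (gfamL f l)) 0 0 := by
    intro l
    have h1 := hasDerivAt_evalV (gfamL f l) (emb B x) (embV B x v) w
    have h2 := hw l
    rw [ePt] at h2
    rwa [h2] at h1
  set w' : Fin (N + 1) → ℂ := fun i => w i.castSucc with hw'
  have hV : ∀ (t : ℂ) (i : Fin (N + 1)), (embV B x v + t • w) i.castSucc = v i + t * w' i := by
    intro t i
    simp only [Pi.add_apply, Pi.smul_apply, smul_eq_mul, embV, Fin.snoc_castSucc, hw']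
  have hwb : w' b = 0 := by
    refine row_aff (a := v b) (hD (Sum.inl (Sum.inl (Sum.inr ())))) fun t => ?_
    simp only [gfamL, Sum.elim_inl, Sum.elim_inr, eval_X, pt]
    exact hV t b
  have hwQ : ∀ j, ∑ i, w' i * eval x (pderiv i (f.Q j)) = 0 := by
    intro j
    refine row_aff (a := ∑ i, v i * eval x (pderiv i (f.Q j))) (hD (Sum.inl (Sum.inr (Sum.inr j)))) fun t => ?_
    simp only [gfamL, Sum.elim_inl, Sum.elim_inr, map_sum, map_mul, eval_X, pt]
    rw [Finset.mul_sum, ← Finset.sum_add_distrib]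
    refine Finset.sum_congr rfl fun i _ => ?_
    rw [hV, eval_rename]
    have h1 : (Sum.elim (emb B x) (embV B x v + t • w) ∘ fun i : Fin (N + 1) => (Sum.inl i.castSucc : Ph (N + 1))) = x := by
      funext i
      simp only [Function.comp_apply, Sum.elim_inl, emb, Fin.snoc_castSucc]
    rw [h1]
    ring
  have hwT : w' ∈ conTan P x := by
    intro Q hQ
    rw [← f.span] at hQ
    induction hQ using Submodule.span_induction with
    | mem Q hQ =>
      obtain ⟨j, rfl⟩ := hQ
      exact hwQ j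
    | zero => simp
    | add Q R _ _ hQ hR =>
      simp only [map_add, mul_add, Finset.sum_add_distrib, hQ, hR, add_zero]
    | smul g Q hQm hQ =>
      have hQ0 : eval x Q = 0 := by
        apply hxc.2
        rw [← f.span]
        exact hQm
      simp only [smul_eq_mul, Derivation.leibniz, map_add, map_mul, hQ0, zero_mul, add_zero]
      rw [show (∑ i, w' i * (eval x g * eval x (pderiv i Q))) = eval x g * ∑ i, w' i * eval x (pderiv i Q) by
        rw [Finset.mul_sum]; exact Finset.sum_congr rfl fun b _ => by ring]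
      rw [hQ, mul_zero]
  have hw0 : w' = 0 := by
    by_contra hne
    obtain ⟨k, hk⟩ := hθ x hxc (lv B x v) (by rw [row_act_lv hxB]; exact hvT) (lv B x w') (by rw [row_act_lv hxB]; exact hwT)
      (row_not_span hxB hb hvb h0) (row_not_span hxB hb hwb hne)
    apply hk
    have h1 : (fun t : ℂ => (θ k).toFun x (lv B x v + t • lv B x w')) = fun t : ℂ => eval (pt (emb B x) (embV B x v + t • w)) (gfamL f (Sum.inr (Sum.inr k))) := by
      funext t
      have h2 : gfamL f (Sum.inr (Sum.inr k)) = aeval (lsub B) (f.A k) := rfl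
      rw [h2, row_eval_lsub hxB, ← row_lv_add]
      have h3 : (fun i : Fin (N + 1) => (embV B x v + t • w) i.castSucc) = v + t • w' := by
        funext i
        rw [hV]
        rfl
      rw [h3]
      exact f.hA k x hxc hxb _ (by
        rw [row_act_lv hxB]
        exact (conTan P x).add_mem hvT ((conTan P x).smul_mem t hwT))
    rw [h1]
    exact (hD (Sum.inr (Sum.inr k))).deriv
  have hlast : w (Fin.last (N + 1)) * ∏ l ∈ B, x l = 0 := by
    have h1 := row_aff (a := (embV B x v (Fin.last (N + 1))) * (∏ l ∈ B, x l) + (∏ l ∈ B, x l)⁻¹ * ∑ i ∈ B, v i * ∏ l ∈ B.erase i, x l)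
      (c := w (Fin.last (N + 1)) * (∏ l ∈ B, x l) + (∏ l ∈ B, x l)⁻¹ * ∑ i ∈ B, w' i * ∏ l ∈ B.erase i, x l)
      (hD (Sum.inr (Sum.inl (Sum.inr ())))) fun t => by
        simp only [gfamL, Sum.elim_inl, Sum.elim_inr, map_add, map_sum, map_mul, map_prod, eval_X, pt, hV]
        have e1 : ∀ l : Fin (N + 1), emb B x l.castSucc = x l := fun l => by simp only [emb, Fin.snoc_castSucc]
        have e2 : emb B x (Fin.last (N + 1)) = (∏ l ∈ B, x l)⁻¹ := by simp only [emb, Fin.snoc_last]
        simp only [e1, e2, Pi.add_apply, Pi.smul_apply, smul_eq_mul, add_mul, Finset.sum_add_distrib, mul_assoc, ← Finset.mul_sum]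
        ring
    rw [hw0] at h1
    simpa using h1
  have hprod : ∏ l ∈ B, x l ≠ 0 := Finset.prod_ne_zero_iff.2 hxB
  have hl : w (Fin.last (N + 1)) = 0 := (mul_eq_zero.1 hlast).resolve_right hprod
  funext i
  induction i using Fin.lastCases with
  | last => exact hl
  | cast i => exact congrFun hw0 i

theorem exists_rowL (hθ : LogPolar θ) (f : LFrame θ b) (hb : b ∈ B) {x v : Fin (N + 1) → ℂ} (hx : x ∈ Uc P B b) (hv : v ∈ Tc P b x) (h0 : v ≠ 0) :
    ∃ I : Fin (N + 2) → GIx f.q J, eval (ePt B x v) (vdet (gfamL f) I) ≠ 0 := by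
  classical
  obtain ⟨I, hI⟩ := row_minor (fun l i => eval (ePt B x v) (pderiv (Sum.inr i) (gfamL f l))) fun w hw => rowL_zero hθ f hb hx hv h0 w hw
  refine ⟨I, ?_⟩
  have h2 : LinearIndependent ℂ ((vmat (gfamL f) I).map (eval (ePt B x v))).row := hI
  have h4 := Matrix.linearIndependent_rows_iff_isUnit.mp h2
  rw [vdet, RingHom.map_det]
  exact ((Matrix.isUnit_iff_isUnit_det _).mp h4).ne_zero

end Pool.Agent.GL
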