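import Pool.Agent.GL.Defs
import Pool.Agent.H17EF.Bridge

/-!
# GL Conc: the conclusion of the theorem
-/

set_option autoImplicit false

open MvPolynomial Topology Filter Metric
open Pool.Agent.H17 (PN VanishesAt HolomorphicInto puncturedDisc)
open Pool.Agent.H17EF (projVar)

namespace Pool.Agent.GL

variable {N : ℕ}

/-- the open subset `X \ D` of the projective variety `X` of `P`, where `D` is the union of the hyperplane sections `x i = 0`, `i ∈ B` -/
def openPart (P : Ideal (MvPolynomial (Fin (N + 1)) ℂ)) (B : Finset (Fin (N + 1))) : Set (PN N) :=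
  {x | x ∈ projVar P ∧ ∀ i ∈ B, ¬ VanishesAt (X i) x}

/-- the conclusion, for the hypersurface `R = 0` -/
structure ConclusionL (P : Ideal (MvPolynomial (Fin (N + 1)) ℂ)) (B : Finset (Fin (N + 1))) (R : MvPolynomial (Fin (N + 1)) ℂ) : Prop where
  /-- the form `R` is not `0` on `X` -/
  form : (∃ e, R.IsHomogeneous e) ∧ R ∉ P
  /-- a holomorphic map from the punctured disc to `X \ D` with a value off `R = 0` extends to a holomorphic map from the disc to the projective space -/
  disc : ∀ f : ℂ → PN N, HolomorphicInto f puncturedDisc → (∀ z ∈ puncturedDisc, f z ∈ openPart P B) → (∃ z ∈ puncturedDisc, ¬ VanishesAt R (f z)) →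
    ∃ g : ℂ → PN N, HolomorphicInto g (ball 0 1) ∧ ∀ z ∈ puncturedDisc, g z = f z
  /-- a nonconstant entire curve in `X \ D` lies in `R = 0` -/
  entire : ∀ f : ℂ → PN N, HolomorphicInto f Set.univ → (∀ z, f z ∈ openPart P B) → (∃ z w, f z ≠ f w) → ∀ z, VanishesAt R (f z)

end Pool.Agent.GL
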