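import Pool.Agent.GL.Crv
import Pool.Agent.GG.CritArc

/-!
# GL Ent1: an initial vector with constant `θ` gives an entire curve

`exists_famL` for `d = 0`: `Y` constant.
-/

set_option autoImplicit false

open MvPolynomial Topology Filter Metric
open Pool.Agent.H13.SM (conTan cone)
open Pool.Agent.H62.FC (Homog)
open Pool.Agent.GG Pool.Agent.GA

namespace Pool.Agent.GL

variable {N : ℕ} {P : Ideal (MvPolynomial (Fin (N + 1)) ℂ)} {B : Finset (Fin (N + 1))} {J : ℕ} {m : Fin J → ℕ} {θ : ∀ k, LogSec P B (m k)} {b : Fin (N + 1)}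

private theorem Ent1_split {x v x' v' : Fin (N + 1) → ℂ} (h : ePt B x v = ePt B x' v') : x = x' ∧ v = v' := by
  constructor
  · funext i
    have h1 := congrFun h (Sum.inl i.castSucc)
    have h2 : ∀ x : Fin (N + 1) → ℂ, emb B x i.castSucc = x i := fun x => by
      unfold emb
      exact Fin.snoc_castSucc (α := fun _ => ℂ) _ _ _
    exact (h2 x).symm.trans (h1.trans (h2 x'))
  · funext i
    have h1 := congrFun h (Sum.inr i.castSucc)
    have h2 : ∀ x v : Fin (N + 1) → ℂ, embV B x v i.castSucc = v i := fun x v => by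
      unfold embV
      exact Fin.snoc_castSucc (α := fun _ => ℂ) _ _ _
    exact (h2 x v).symm.trans (h1.trans (h2 x' v'))

/-- The entire curve with a given initial vector. -/
theorem exists_entire (hP : Homog P) (hθ : LogPolar θ) (hm : ∀ k, 1 ≤ m k) (hb : b ∈ B) (f : LFrame θ b) {x v : Fin (N + 1) → ℂ} (hx : x ∈ Uc P B b)
    (hv : v ∈ Tc P b x) (h0 : v ≠ 0) (hi : IsInit (gfamL f) (ePt B x v)) :
    ∃ F : ℂ → Fin (N + 1) → ℂ, (∀ z, AnalyticAt ℂ F z) ∧ (∀ z, F z ∈ Uc P B b) ∧ F 0 = x ∧ deriv F 0 = v ∧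
      (∃ c : Fin J → ℂ, c ≠ 0 ∧ ∀ z, thv θ (F z) (deriv F z) = c) ∧ ∃ C : ℝ, ∀ z, Rho B (F z) ≤ C * (1 + ‖z‖) := by
  obtain ⟨ρ, hρ, Φ, c, hc, hΦ, hY, C, hC⟩ := exists_famL (Y := fun _ : Fin 0 → ℂ => ePt B x v) hP hθ hm hb f analyticAt_const
    (Eventually.of_forall fun s => ⟨x, v, rfl, hx, hv, h0, hi⟩)
  have hn : ‖(0 : Fin 0 → ℂ)‖ < ρ := by rwa [norm_zero]
  obtain ⟨h1, h2⟩ := Ent1_split (hY 0 hn)
  refine ⟨fun z => Φ (z, 0), fun z => ?_, fun z => ?_, h1.symm, h2.symm, ⟨c 0, hc, fun z => ?_⟩, C, fun z => hC z 0 hn⟩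
  · exact AnalyticAt.comp_of_eq (f := fun w : ℂ => (w, (0 : Fin 0 → ℂ))) (hΦ (z, 0) hn).1 (analyticAt_id.prod analyticAt_const) rfl
  · exact (hΦ (z, 0) hn).2.self_of_nhds.1
  · exact (hΦ (z, 0) hn).2.self_of_nhds.2

/-- The entire curve through a point, with the algebraic criterion. -/
theorem exists_entire_of_crit (hP : Homog P) (hθ : LogPolar θ) (hm : ∀ k, 1 ≤ m k) (hb : b ∈ B) (f : LFrame θ b) {K : Fin (N + 2) → GIx f.q J}
    {x v : Fin (N + 1) → ℂ} (hx : x ∈ Uc P B b) (hv : v ∈ Tc P b x) (h0 : v ≠ 0) (hc : Crit (gfamL f) K (ePt B x v)) :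
    ∃ F : ℂ → Fin (N + 1) → ℂ, (∀ z, AnalyticAt ℂ F z) ∧ (∀ z, F z ∈ Uc P B b) ∧ F 0 = x ∧ deriv F 0 = v ∧
      (∃ c : Fin J → ℂ, c ≠ 0 ∧ ∀ z, thv θ (F z) (deriv F z) = c) ∧ ∃ C : ℝ, ∀ z, Rho B (F z) ≤ C * (1 + ‖z‖) :=
  exists_entire hP hθ hm hb f hx hv h0 (isInit_of_crit hc)

end Pool.Agent.GL
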