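import Pool.Agent.GL.Defs
import Pool.Agent.GA.SmlCore
import Pool.Agent.MQ.FS

/-!
# GL AvX: the potential `κ² + κ + ∑ (log |F i|)²`

`κ = log ‖F‖` (Euclidean norm).  Its Laplacian is at least a multiple of the square of the logarithmic length.
-/

set_option autoImplicit false

open Topology Filter Metric Complex Laplacian MeasureTheory
open Pool.Agent.GG Pool.Agent.GA Pool.Agent.MQ
open Pool.Agent.H30M (gg)
open Pool.Agent.H36.BP (EN)

noncomputable section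

namespace Pool.Agent.GL

variable {N : ℕ}

/-- the curve in the Euclidean space -/
def avG (F : ℂ → Fin (N + 1) → ℂ) (z : ℂ) : EN N := WithLp.toLp 2 (F z)

theorem avG_an {F : ℂ → Fin (N + 1) → ℂ} {z : ℂ} (hF : AnalyticAt ℂ F z) : AnalyticAt ℂ (avG F) z :=
  ((PiLp.continuousLinearEquiv 2 ℂ (fun _ : Fin (N + 1) => ℂ)).symm.toContinuousLinearMap.analyticAt _).comp hF

theorem avG_deriv {F : ℂ → Fin (N + 1) → ℂ} {z : ℂ} (hF : AnalyticAt ℂ F z) : deriv (avG F) z = WithLp.toLp 2 (deriv F z) :=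
  ((PiLp.continuousLinearEquiv 2 ℂ (fun _ : Fin (N + 1) => ℂ)).symm.toContinuousLinearMap.hasFDerivAt.comp_hasDerivAt z
    hF.differentiableAt.hasDerivAt).deriv

theorem avG_ne {F : ℂ → Fin (N + 1) → ℂ} {z : ℂ} (hF : F z ≠ 0) : avG F z ≠ 0 := fun h => hF (WithLp.toLp_injective 2 h)

/-- the potential -/
def avPhi (B : Finset (Fin (N + 1))) (F : ℂ → Fin (N + 1) → ℂ) (z : ℂ) : ℝ :=
  (Real.log ‖avG F z‖ ^ 2 + Real.log ‖avG F z‖) + ∑ i ∈ B, Real.log ‖F z i‖ ^ 2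

variable {B : Finset (Fin (N + 1))} {F : ℂ → Fin (N + 1) → ℂ} {z : ℂ}

theorem contDiffAt_logi {h : ℂ → ℂ} (hh : AnalyticAt ℂ h z) (h0 : h z ≠ 0) : ContDiffAt ℝ 2 (fun w => Real.log ‖h w‖) z :=
  contDiffAt_log_norm hh h0

theorem contDiffAt_avPhi (hF : AnalyticAt ℂ F z) (h0 : F z ≠ 0) (hi : ∀ i ∈ B, F z i ≠ 0) : ContDiffAt ℝ 2 (avPhi B F) z := by
  have h1 : ContDiffAt ℝ 2 (fun w => Real.log ‖avG F w‖) z := contDiffAt_log_norm (avG_an hF) (avG_ne h0)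
  unfold avPhi
  refine ((h1.pow 2).add h1).add (ContDiffAt.sum fun i hiB => ?_)
  exact (contDiffAt_logi ((analyticAt_pi_iff.1 hF) i) (hi i hiB)).pow 2

/-- the Laplacian of the square of the logarithm of the modulus -/
theorem lap_sq_log {h : ℂ → ℂ} (hh : AnalyticAt ℂ h z) (h0 : h z ≠ 0) : Δ (fun w => Real.log ‖h w‖ ^ 2) z = 2 * (‖deriv h z‖ / ‖h z‖) ^ 2 := by
  have hu : ContDiffAt ℝ 2 (fun w => Real.log ‖h w‖) z := contDiffAt_log_norm hh h0
  have d1 : deriv (fun t : ℝ => t ^ 2) = fun t => 2 * t := by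
    funext t
    simp
  have d2 : deriv (deriv (fun t : ℝ => t ^ 2)) (Real.log ‖h z‖) = 2 := by
    rw [d1]
    simp
  have hl : Δ (fun w => Real.log ‖h w‖) z = 0 := by
    rw [lap_log_normV hh h0]
    unfold fsd
    have : ‖inner ℂ (h z) (deriv h z)‖ = ‖h z‖ * ‖deriv h z‖ := by
      rw [RCLike.inner_apply, norm_mul, RCLike.norm_conj, mul_comm]
    rw [this]
    ring_nf
  rw [Pool.Agent.H30M.lap_comp (φ := fun t : ℝ => t ^ 2) (by fun_prop) hu, d2, hl, gg_self, gr_log_norm hh.differentiableAt h0]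
  rw [RCLike.norm_conj, norm_div]
  ring

theorem lap_kap (hF : AnalyticAt ℂ F z) (h0 : F z ≠ 0) (hk : 0 ≤ Real.log ‖avG F z‖) :
    2 * (‖deriv (avG F) z‖ / ‖avG F z‖) ^ 2 ≤ Δ (fun w => Real.log ‖avG F w‖ ^ 2 + Real.log ‖avG F w‖) z := by
  have hG := avG_an hF
  have hG0 := avG_ne h0
  have hn : 0 < ‖avG F z‖ := norm_pos_iff.2 hG0
  have hu : ContDiffAt ℝ 2 (fun w => Real.log ‖avG F w‖) z := contDiffAt_log_norm hG hG0
  have d1 : deriv (fun t : ℝ => t ^ 2 + t) = fun t => 2 * t + 1 := by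
    funext t
    have : HasDerivAt (fun t : ℝ => t ^ 2 + t) (2 * t + 1) t :=
      ((hasDerivAt_pow 2 t).fun_add (hasDerivAt_id' t)).congr_deriv (by norm_num)
    exact this.deriv
  have d2 : deriv (deriv (fun t : ℝ => t ^ 2 + t)) (Real.log ‖avG F z‖) = 2 := by
    rw [d1]
    have : HasDerivAt (fun t : ℝ => 2 * t + 1) 2 (Real.log ‖avG F z‖) := by
      have := ((hasDerivAt_id (Real.log ‖avG F z‖)).const_mul 2).add_const (1 : ℝ)
      simpa using this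
    exact this.deriv
  rw [Pool.Agent.H30M.lap_comp (φ := fun t : ℝ => t ^ 2 + t) (by fun_prop) hu, d2, d1, gg_self, gr_log_normV hG.differentiableAt.hasDerivAt hG0,
    lap_log_normV hG hG0]
  have e1 : ‖((((‖avG F z‖ ^ 2)⁻¹ : ℝ) : ℂ)) * (starRingEnd ℂ) (inner ℂ (avG F z) (deriv (avG F) z))‖ ^ 2 =
      ‖inner ℂ (avG F z) (deriv (avG F) z)‖ ^ 2 / ‖avG F z‖ ^ 4 := by
    rw [norm_mul, RCLike.norm_conj, Complex.norm_real, Real.norm_eq_abs, abs_of_nonneg (by positivity)]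
    field_simp
  have e2 : 2 * (‖deriv (avG F) z‖ / ‖avG F z‖) ^ 2 = fsd (avG F z) (deriv (avG F) z) + 2 * (‖inner ℂ (avG F z) (deriv (avG F) z)‖ ^ 2 / ‖avG F z‖ ^ 4) := by
    unfold fsd
    field_simp
    ring
  have e3 : 0 ≤ Real.log ‖avG F z‖ * fsd (avG F z) (deriv (avG F) z) := mul_nonneg hk (fsd_nonneg _ _)
  rw [e1, e2]
  nlinarith

theorem lap_avPhi (hF : AnalyticAt ℂ F z) (h0 : F z ≠ 0) (hi : ∀ i ∈ B, F z i ≠ 0) (hk : 0 ≤ Real.log ‖avG F z‖) :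
    2 * (‖deriv (avG F) z‖ / ‖avG F z‖) ^ 2 + ∑ i ∈ B, 2 * (‖deriv F z i‖ / ‖F z i‖) ^ 2 ≤ Δ (avPhi B F) z := by
  have h1 : ContDiffAt ℝ 2 (fun w => Real.log ‖avG F w‖) z := contDiffAt_log_norm (avG_an hF) (avG_ne h0)
  have h2 : ContDiffAt ℝ 2 (fun w => Real.log ‖avG F w‖ ^ 2 + Real.log ‖avG F w‖) z := (h1.pow 2).add h1
  have h3 : ∀ i ∈ B, ContDiffAt ℝ 2 (fun w => Real.log ‖F w i‖ ^ 2) z := fun i hiB =>
    (contDiffAt_logi ((analyticAt_pi_iff.1 hF) i) (hi i hiB)).pow 2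
  have e1 : avPhi B F = (fun w => Real.log ‖avG F w‖ ^ 2 + Real.log ‖avG F w‖) + ∑ i ∈ B, fun w => Real.log ‖F w i‖ ^ 2 := by
    funext w
    simp [avPhi]
  have e2 : Δ (∑ i ∈ B, fun w => Real.log ‖F w i‖ ^ 2) z = ∑ i ∈ B, Δ (fun w => Real.log ‖F w i‖ ^ 2) z := by
    clear e1 h2 hk
    induction B using Finset.induction_on with
    | empty =>
      have h9 : Δ (0 : ℂ → ℝ) z = 0 := by
        rw [Pool.Agent.H30M.lap_eq (u := (0 : ℂ → ℝ)) contDiffAt_const]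
        simp
      simpa using h9
    | insert i B hiB ih =>
      rw [Finset.sum_insert hiB, Finset.sum_insert hiB]
      have h4 : ContDiffAt ℝ 2 (∑ i ∈ B, fun w => Real.log ‖F w i‖ ^ 2) z := by
        have : (∑ i ∈ B, fun w : ℂ => Real.log ‖F w i‖ ^ 2) = fun w => ∑ i ∈ B, Real.log ‖F w i‖ ^ 2 := by
          funext w
          simp
        rw [this]
        exact ContDiffAt.sum fun i hi' => h3 i (Finset.mem_insert_of_mem hi')
      rw [ContDiffAt.laplacian_add (h3 i (Finset.mem_insert_self _ _)) h4,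
        ih (fun j hj => hi j (Finset.mem_insert_of_mem hj)) (fun j hj => h3 j (Finset.mem_insert_of_mem hj))]
  have h5 : ContDiffAt ℝ 2 (∑ i ∈ B, fun w => Real.log ‖F w i‖ ^ 2) z := by
    have : (∑ i ∈ B, fun w : ℂ => Real.log ‖F w i‖ ^ 2) = fun w => ∑ i ∈ B, Real.log ‖F w i‖ ^ 2 := by
      funext w
      simp
    rw [this]
    exact ContDiffAt.sum fun i hi' => h3 i hi'
  rw [e1, ContDiffAt.laplacian_add h2 h5, e2]
  refine add_le_add (lap_kap hF h0 hk) (Finset.sum_le_sum fun i hiB => ?_)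
  have h6 := lap_sq_log ((analyticAt_pi_iff.1 hF) i) (hi i hiB)
  have h7 : deriv (fun w => F w i) z = deriv F z i := by
    have := (hasDerivAt_pi.1 hF.differentiableAt.hasDerivAt i)
    exact this.deriv
  rw [h6, h7]

end Pool.Agent.GL
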