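import Pool.Agent.GL.Grow
import Pool.Agent.GL.AvX

/-!
# GL Av: the averaging lemma (AV)

Let `F` be holomorphic near the disc `closedBall a R`, with `F b = 1`, `F i ≠ 0` for `i ∈ B`, and height `≤ M`.  With the Euclidean norm, `κ = log ‖F‖ ≥ 0` and `φ = κ² + κ + ∑ (log |F i|)²`:
`Δ φ ≥ c LL²` (`AvX`), `0 ≤ φ ≤ C (M + 1)²`, so the integral of `LL²` over `closedBall a (R / 2)` is `≤ C (M + 1)²` (cut-off function).  If `|g| ≤ C LL (F, F')^k` then `|g|^(2/k) ≤ C' LL²`, and `|g (a)|^(2/k)` is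
at most the mean of `|g|^(2/k)` over a disc (`GA/SmlCore`: `rpow_le_area`), so `|g (a)| ≤ C (K (M + 1) / R)^k`.
-/

set_option autoImplicit false

open MvPolynomial Topology Filter Metric
open Pool.Agent.GG Pool.Agent.GA

namespace Pool.Agent.GL

variable {N : ℕ}

open Laplacian MeasureTheory in
private theorem av_unit (B : Finset (Fin (N + 1))) (b : Fin (N + 1)) : ∃ K > 0, ∀ (F : ℂ → Fin (N + 1) → ℂ) (M : ℝ),
    (∀ z ∈ closedBall (0 : ℂ) 1, AnalyticAt ℂ F z) → (∀ z ∈ closedBall (0 : ℂ) 1, F z b = 1) → (∀ z ∈ closedBall (0 : ℂ) 1, ∀ i ∈ B, F z i ≠ 0) →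
    (∀ z ∈ closedBall (0 : ℂ) 1, Rho B (F z) ≤ M) → ∀ (g : ℂ → ℂ) (C : ℝ) (k : ℕ), (∀ z ∈ closedBall (0 : ℂ) 1, AnalyticAt ℂ g z) → 0 ≤ C →
    (∀ z ∈ closedBall (0 : ℂ) 1, ‖g z‖ ≤ C * LL B (F z) (deriv F z) ^ k) → ‖g 0‖ ≤ C * (K * (M + 1)) ^ k := by
  classical
  -- the cut-off function
  let χ : ContDiffBump (0 : ℂ) := ⟨1 / 2, 3 / 4, by norm_num, by norm_num⟩
  have hχc : HasCompactSupport (fun z => χ z) := χ.hasCompactSupport
  have hχd : ContDiff ℝ 2 (fun z => χ z) := χ.contDiff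
  have hχs : tsupport (fun z => χ z) = closedBall 0 (3 / 4) := χ.tsupport_eq
  set D : ℝ := ∫ z, ‖Δ (fun z => χ z) z‖ with hD
  have hD0 : 0 ≤ D := integral_nonneg fun z => norm_nonneg _
  set A : ℝ := (1 + B.card) * (N + 1) with hA
  have hA0 : 0 < A := by positivity
  set E : ℝ := 2 * (N + 1) ^ 2 + B.card with hE
  have hE0 : 0 < E := by positivity
  refine ⟨Real.sqrt (4 / Real.pi * (A * (D * E)) + 1), Real.sqrt_pos.2 (by positivity), ?_⟩
  intro F M hF hFb hFi hFM g C k hg hC hgC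
  set K : ℝ := Real.sqrt (4 / Real.pi * (A * (D * E)) + 1) with hK
  have hK2 : K ^ 2 = 4 / Real.pi * (A * (D * E)) + 1 := Real.sq_sqrt (by positivity)
  have hK0 : 0 ≤ K := Real.sqrt_nonneg _
  have h00 : (0 : ℂ) ∈ closedBall (0 : ℂ) 1 := by simp
  -- the height
  have hFn : ∀ z ∈ closedBall (0 : ℂ) 1, 1 ≤ ‖F z‖ := fun z hz => by
    have := norm_le_pi_norm (F z) b
    rwa [hFb z hz, norm_one] at this
  have hF0 : ∀ z ∈ closedBall (0 : ℂ) 1, F z ≠ 0 := fun z hz h => by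
    have := hFn z hz
    rw [h, norm_zero] at this
    linarith
  have hlF : ∀ z ∈ closedBall (0 : ℂ) 1, 0 ≤ Real.log ‖F z‖ := fun z hz => Real.log_nonneg (hFn z hz)
  have hli : ∀ z ∈ closedBall (0 : ℂ) 1, ∀ i ∈ B, 0 ≤ Real.log ‖F z‖ - Real.log ‖F z i‖ := by
    intro z hz i hi
    have h1 : ‖F z i‖ ≤ ‖F z‖ := norm_le_pi_norm _ _
    have := Real.log_le_log (norm_pos_iff.2 (hFi z hz i hi)) h1
    linarith
  have hlM : ∀ z ∈ closedBall (0 : ℂ) 1, Real.log ‖F z‖ ≤ M := by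
    intro z hz
    have h1 := hFM z hz
    unfold Rho at h1
    have h2 : 0 ≤ ∑ i ∈ B, (Real.log ‖F z‖ - Real.log ‖F z i‖) := Finset.sum_nonneg fun i hi => hli z hz i hi
    linarith
  have hliM : ∀ z ∈ closedBall (0 : ℂ) 1, ∀ i ∈ B, Real.log ‖F z‖ - Real.log ‖F z i‖ ≤ M := by
    intro z hz i hi
    have h1 := hFM z hz
    unfold Rho at h1
    have h2 : Real.log ‖F z‖ - Real.log ‖F z i‖ ≤ ∑ i ∈ B, (Real.log ‖F z‖ - Real.log ‖F z i‖) :=
      Finset.single_le_sum (f := fun i => Real.log ‖F z‖ - Real.log ‖F z i‖) (fun i hi => hli z hz i hi) hi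
    linarith [hlF z hz]
  have hM : 0 ≤ M := (hlF 0 h00).trans (hlM 0 h00)
  -- the Euclidean norm
  have hGle : ∀ z, ‖F z‖ ≤ ‖avG F z‖ := fun z => by
    refine (pi_norm_le_iff_of_nonneg (norm_nonneg _)).2 fun i => ?_
    exact PiLp.norm_apply_le (avG F z) i
  have hGge : ∀ z, ‖avG F z‖ ^ 2 ≤ (N + 1) * ‖F z‖ ^ 2 := fun z => by
    rw [EuclideanSpace.norm_sq_eq]
    calc ∑ i, ‖avG F z i‖ ^ 2 ≤ ∑ _i : Fin (N + 1), ‖F z‖ ^ 2 := by
          refine Finset.sum_le_sum fun i _ => pow_le_pow_left₀ (norm_nonneg _) ?_ 2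
          exact norm_le_pi_norm (F z) i
      _ = (N + 1) * ‖F z‖ ^ 2 := by simp
  have hkap0 : ∀ z ∈ closedBall (0 : ℂ) 1, 0 ≤ Real.log ‖avG F z‖ := fun z hz => Real.log_nonneg ((hFn z hz).trans (hGle z))
  have hkapM : ∀ z ∈ closedBall (0 : ℂ) 1, Real.log ‖avG F z‖ ≤ (N + 1) * (M + 1) := by
    intro z hz
    have hFp : 0 < ‖F z‖ := norm_pos_iff.2 (hF0 z hz)
    have h1 : Real.log (‖avG F z‖ ^ 2) ≤ Real.log ((N + 1) * ‖F z‖ ^ 2) :=
      Real.log_le_log (by have := norm_pos_iff.2 (avG_ne (hF0 z hz)); positivity) (hGge z)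
    rw [Real.log_mul (by positivity) (by positivity), Real.log_pow, Real.log_pow] at h1
    have h2 : Real.log ((N : ℝ) + 1) ≤ N := by
      have := Real.log_le_sub_one_of_pos (show (0 : ℝ) < N + 1 by positivity)
      linarith
    have h3 := hlM z hz
    have h4 : (0 : ℝ) ≤ N := Nat.cast_nonneg N
    push_cast at h1
    nlinarith [mul_nonneg h4 hM]
  -- the bound of the potential
  have hφ0 : ∀ z ∈ closedBall (0 : ℂ) 1, 0 ≤ avPhi B F z := fun z hz => by
    have := hkap0 z hz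
    unfold avPhi
    positivity
  have hφ : ∀ z ∈ closedBall (0 : ℂ) 1, avPhi B F z ≤ E * (M + 1) ^ 2 := by
    intro z hz
    have h1 := hkap0 z hz
    have h2 := hkapM z hz
    have h3 : ∑ i ∈ B, Real.log ‖F z i‖ ^ 2 ≤ B.card * (M + 1) ^ 2 := by
      rw [← nsmul_eq_mul]
      refine Finset.sum_le_card_nsmul _ _ _ fun i hi => ?_
      have h4 := hliM z hz i hi
      have h5 := hli z hz i hi
      have h6 := hlM z hz
      have h7 := hlF z hz
      apply sq_le_sq'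
      · linarith
      · linarith
    unfold avPhi
    have h8 : Real.log ‖avG F z‖ ^ 2 ≤ ((N + 1) * (M + 1)) ^ 2 := pow_le_pow_left₀ h1 h2 2
    have h9 : (N + 1 : ℝ) * (M + 1) ≤ ((N + 1) * (M + 1)) ^ 2 := by
      have h10 : (1 : ℝ) ≤ (N + 1) * (M + 1) := by
        have : (0 : ℝ) ≤ N := Nat.cast_nonneg N
        nlinarith [mul_nonneg this hM]
      nlinarith
    calc _ ≤ (((N + 1) * (M + 1)) ^ 2 + ((N + 1) * (M + 1)) ^ 2) + B.card * (M + 1) ^ 2 := by linarith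
      _ = E * (M + 1) ^ 2 := by rw [hE]; ring
  -- `LL² ≤ A Δ φ`
  have hsub : closedBall (0 : ℂ) (3 / 4) ⊆ closedBall 0 1 := closedBall_subset_closedBall (by norm_num)
  have hLL : ∀ z ∈ closedBall (0 : ℂ) 1, LL B (F z) (deriv F z) ^ 2 ≤ A * Δ (avPhi B F) z := by
    intro z hz
    have h1 := lap_avPhi (hF z hz) (hF0 z hz) (hFi z hz) (hkap0 z hz)
    have hFp : 0 < ‖F z‖ := norm_pos_iff.2 (hF0 z hz)
    have hGp : 0 < ‖avG F z‖ := norm_pos_iff.2 (avG_ne (hF0 z hz))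
    have h2 : (‖deriv F z‖ / ‖F z‖) ^ 2 ≤ (N + 1) * (‖deriv (avG F) z‖ / ‖avG F z‖) ^ 2 := by
      have h3 : ‖deriv F z‖ ≤ ‖deriv (avG F) z‖ := by
        rw [avG_deriv (hF z hz)]
        refine (pi_norm_le_iff_of_nonneg (norm_nonneg _)).2 fun i => ?_
        exact PiLp.norm_apply_le (WithLp.toLp 2 (deriv F z) : Pool.Agent.H36.BP.EN N) i
      rw [div_pow, div_pow, mul_div_assoc', div_le_div_iff₀ (by positivity) (by positivity)]
      have h4 : ‖deriv F z‖ ^ 2 ≤ ‖deriv (avG F) z‖ ^ 2 := pow_le_pow_left₀ (norm_nonneg _) h3 2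
      calc ‖deriv F z‖ ^ 2 * ‖avG F z‖ ^ 2 ≤ ‖deriv (avG F) z‖ ^ 2 * ((N + 1) * ‖F z‖ ^ 2) :=
            mul_le_mul h4 (hGge z) (by positivity) (by positivity)
        _ = (N + 1) * ‖deriv (avG F) z‖ ^ 2 * ‖F z‖ ^ 2 := by ring
    have h5 : LL B (F z) (deriv F z) ^ 2 ≤ (1 + B.card) * ((‖deriv F z‖ / ‖F z‖) ^ 2 + ∑ i ∈ B, (‖deriv F z i‖ / ‖F z i‖) ^ 2) := by
      unfold LL
      have h6 := sq_sum_le_card_mul_sum_sq (s := B) (f := fun i => ‖deriv F z i‖ / ‖F z i‖)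
      set u := ‖deriv F z‖ / ‖F z‖
      set S := ∑ i ∈ B, ‖deriv F z i‖ / ‖F z i‖
      set Q := ∑ i ∈ B, (‖deriv F z i‖ / ‖F z i‖) ^ 2
      have hQ : 0 ≤ Q := Finset.sum_nonneg fun i _ => sq_nonneg _
      rcases Finset.eq_empty_or_nonempty B with hB | hB
      · have hS : S = 0 := by simp [S, hB]
        have hc : (B.card : ℝ) = 0 := by simp [hB]
        rw [hS, hc]
        nlinarith
      · have hc : (1 : ℝ) ≤ B.card := by exact_mod_cast hB.card_pos
        have hc0 : (0 : ℝ) < B.card := by linarith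
        -- `2 u S ≤ card u² + S² / card`
        have h7 : 2 * u * S ≤ B.card * u ^ 2 + S ^ 2 / B.card := by
          have h8 : 0 ≤ (B.card * u - S) ^ 2 / B.card := by positivity
          have h9 : (B.card * u - S) ^ 2 / B.card = B.card * u ^ 2 - 2 * u * S + S ^ 2 / B.card := by
            field_simp
            ring
          linarith
        have h10 : S ^ 2 / B.card ≤ Q := by
          rw [div_le_iff₀ hc0]
          linarith
        nlinarith
    have h11 : ∑ i ∈ B, (‖deriv F z i‖ / ‖F z i‖) ^ 2 ≤ (N + 1) * ∑ i ∈ B, (‖deriv F z i‖ / ‖F z i‖) ^ 2 := by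
      have : 0 ≤ ∑ i ∈ B, (‖deriv F z i‖ / ‖F z i‖) ^ 2 := Finset.sum_nonneg fun i _ => sq_nonneg _
      have h12 : (0 : ℝ) ≤ N := Nat.cast_nonneg N
      nlinarith
    have h13 : ∑ i ∈ B, 2 * (‖deriv F z i‖ / ‖F z i‖) ^ 2 = 2 * ∑ i ∈ B, (‖deriv F z i‖ / ‖F z i‖) ^ 2 := by rw [Finset.mul_sum]
    rw [h13] at h1
    have h14 : 0 ≤ (‖deriv (avG F) z‖ / ‖avG F z‖) ^ 2 := sq_nonneg _
    have h15 : 0 ≤ ∑ i ∈ B, (‖deriv F z i‖ / ‖F z i‖) ^ 2 := Finset.sum_nonneg fun i _ => sq_nonneg _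
    calc LL B (F z) (deriv F z) ^ 2 ≤ (1 + B.card) * ((‖deriv F z‖ / ‖F z‖) ^ 2 + ∑ i ∈ B, (‖deriv F z i‖ / ‖F z i‖) ^ 2) := h5
      _ ≤ (1 + B.card) * ((N + 1) * ((‖deriv (avG F) z‖ / ‖avG F z‖) ^ 2 + ∑ i ∈ B, (‖deriv F z i‖ / ‖F z i‖) ^ 2)) := by
        gcongr
        linarith
      _ ≤ (1 + B.card) * ((N + 1) * Δ (avPhi B F) z) := by
        gcongr
        linarith
      _ = A * Δ (avPhi B F) z := by rw [hA]; ring
  -- Green's identity
  have hcd : ∀ z ∈ closedBall (0 : ℂ) 1, ContDiffAt ℝ 2 (avPhi B F) z := fun z hz => contDiffAt_avPhi (hF z hz) (hF0 z hz) (hFi z hz)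
  have hgreen := Pool.Agent.H30M.green2 hχd hχc (u := avPhi B F) (fun z hz => hcd z (hsub (by rwa [hχs] at hz)))
  have hlapc : ∀ z ∈ tsupport (fun z => χ z), ContinuousAt (Δ (avPhi B F)) z := by
    intro z hz
    rw [hχs] at hz
    have hz1 : z ∈ ball (0 : ℂ) 1 := closedBall_subset_ball (by norm_num) hz
    have h1 : (fun w => fderiv ℝ (fun v => fderiv ℝ (avPhi B F) v 1) w 1 + fderiv ℝ (fun v => fderiv ℝ (avPhi B F) v Complex.I) w Complex.I) =ᶠ[𝓝 z]
        Δ (avPhi B F) := by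
      filter_upwards [isOpen_ball.mem_nhds hz1] with w hw
      rw [Pool.Agent.H30M.lap_eq (hcd w (ball_subset_closedBall hw))]
    have h2 := hcd z (hsub hz)
    have h3 : ∀ v : ℂ, ContinuousAt (fun w => fderiv ℝ (fun u => fderiv ℝ (avPhi B F) u v) w v) z := fun v =>
      (((Pool.Agent.H30M.contDiffAt_d h2 v).fderiv_right (m := 0) (by norm_num)).clm_apply contDiffAt_const).continuousAt
    exact ((h3 1).add (h3 Complex.I)).congr h1
  have hint : Integrable (fun z => χ z * Δ (avPhi B F) z) := by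
    have hs : tsupport (fun z => χ z * Δ (avPhi B F) z) ⊆ tsupport (fun z => χ z) :=
      tsupport_mul_subset_left (f := fun z => χ z) (g := Δ (avPhi B F))
    exact Pool.Agent.H30M.integrable_of_ts (fun z hz => hχd.continuous.continuousAt.mul (hlapc z (hs hz))) (Pool.Agent.H30M.hcs_of_sub hχc hs)
  have hlap0 : ∀ z ∈ closedBall (0 : ℂ) 1, 0 ≤ Δ (avPhi B F) z := fun z hz => by
    have := (sq_nonneg _).trans (hLL z hz)
    exact (mul_nonneg_iff_of_pos_left hA0).1 this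
  have hup : ∫ z, χ z * Δ (avPhi B F) z ≤ D * (E * (M + 1) ^ 2) := by
    rw [hgreen, hD, ← integral_mul_const]
    have hcL : Continuous (Δ (fun z => χ z)) := by
      rw [continuous_iff_continuousAt]
      intro z
      have h1 : (fun w => fderiv ℝ (fun v => fderiv ℝ (fun z => χ z) v 1) w 1 + fderiv ℝ (fun v => fderiv ℝ (fun z => χ z) v Complex.I) w Complex.I) =ᶠ[𝓝 z]
          Δ (fun z => χ z) := by
        filter_upwards with w
        rw [Pool.Agent.H30M.lap_eq hχd.contDiffAt]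
      have h3 : ∀ v : ℂ, ContinuousAt (fun w => fderiv ℝ (fun u => fderiv ℝ (fun z => χ z) u v) w v) z := fun v =>
        (((Pool.Agent.H30M.contDiffAt_d hχd.contDiffAt v).fderiv_right (m := 0) (by norm_num)).clm_apply contDiffAt_const).continuousAt
      exact ((h3 1).add (h3 Complex.I)).congr h1
    have hts : tsupport (Δ (fun z => χ z)) ⊆ tsupport (fun z => χ z) := by
      refine closure_minimal (fun z hz => ?_) (isClosed_tsupport _)
      by_contra hcon
      exact hz (Pool.Agent.H30M.lap_of_not_ts hcon)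
    have hcs : HasCompactSupport (Δ (fun z => χ z)) := Pool.Agent.H30M.hcs_of_sub hχc hts
    have hi1 : Integrable (fun z => ‖Δ (fun z => χ z) z‖ * (E * (M + 1) ^ 2)) := (hcL.integrable_of_hasCompactSupport hcs).norm.mul_const _
    have hi0 : Integrable (fun z => Δ (fun z => χ z) z * avPhi B F z) := by
      have hs : tsupport (fun z => Δ (fun z => χ z) z * avPhi B F z) ⊆ tsupport (fun z => χ z) :=
        (tsupport_mul_subset_left (f := Δ (fun z => χ z)) (g := avPhi B F)).trans ((closure_minimal (fun z hz => by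
          by_contra hcon
          exact hz (Pool.Agent.H30M.lap_of_not_ts hcon)) (isClosed_tsupport _)))
      refine Pool.Agent.H30M.integrable_of_ts (fun z hz => ?_) (Pool.Agent.H30M.hcs_of_sub hχc hs)
      have hz' := hs hz
      rw [hχs] at hz'
      exact hcL.continuousAt.mul (hcd z (hsub hz')).continuousAt
    refine integral_mono hi0 hi1 fun z => ?_
    by_cases hz : z ∈ closedBall (0 : ℂ) 1
    · calc Δ (fun z => χ z) z * avPhi B F z ≤ ‖Δ (fun z => χ z) z‖ * avPhi B F z :=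
            mul_le_mul_of_nonneg_right (Real.le_norm_self _) (hφ0 z hz)
        _ ≤ _ := mul_le_mul_of_nonneg_left (hφ z hz) (norm_nonneg _)
    · have h1 : Δ (fun z => χ z) z = 0 := by
        apply Pool.Agent.H30M.lap_of_not_ts
        rw [hχs]
        exact fun h => hz (hsub h)
      simp only [h1, zero_mul, norm_zero, le_refl]
  rcases Nat.eq_zero_or_pos k with hk | hk
  · have := hgC 0 h00
    simpa [hk] using this
  have hkp : (0 : ℝ) < k := by exact_mod_cast hk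
  have hp : (0 : ℝ) < 2 / k := by positivity
  have hLLn : ∀ z, 0 ≤ LL B (F z) (deriv F z) := fun z => by unfold LL; positivity
  have hb : ball (0 : ℂ) (1 / 2) ⊆ closedBall 0 1 := (ball_subset_ball (by norm_num)).trans ball_subset_closedBall
  have harea := rpow_le_area (s := g) (c := 0) (h := 1 / 2) (p := 2 / k) (by norm_num) hp
    (fun z hz => hg z (closedBall_subset_closedBall (by norm_num) hz))
  have hmono : ∫ z in ball (0 : ℂ) (1 / 2), ‖g z‖ ^ (2 / k : ℝ) ≤ ∫ z in ball (0 : ℂ) (1 / 2), C ^ (2 / k : ℝ) * A * (χ z * Δ (avPhi B F) z) := by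
    refine setIntegral_mono_on ?_ (hint.const_mul _).integrableOn measurableSet_ball fun z hz => ?_
    · have h1 : ContinuousOn (fun z => ‖g z‖ ^ (2 / k : ℝ)) (closedBall (0 : ℂ) 1) :=
        ContinuousOn.rpow_const (fun z hz => (hg z hz).continuousAt.norm.continuousWithinAt) fun z _ => Or.inr hp.le
      exact (h1.integrableOn_compact (isCompact_closedBall _ _)).mono_set hb
    · have h1 : χ z = 1 := χ.one_of_mem_closedBall (ball_subset_closedBall hz)
      rw [h1, one_mul]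
      have h2 : ‖g z‖ ^ (2 / k : ℝ) ≤ (C * LL B (F z) (deriv F z) ^ k) ^ (2 / k : ℝ) :=
        Real.rpow_le_rpow (norm_nonneg _) (hgC z (hb hz)) hp.le
      refine h2.trans ?_
      rw [Real.mul_rpow hC (pow_nonneg (hLLn z) _), ← Real.rpow_natCast, ← Real.rpow_mul (hLLn z)]
      have h3 : (k : ℝ) * (2 / k) = 2 := by field_simp
      rw [h3, mul_assoc]
      refine mul_le_mul_of_nonneg_left ?_ (Real.rpow_nonneg hC _)
      have h4 := hLL z (hb hz)
      rwa [← Real.rpow_natCast _ 2, Nat.cast_ofNat] at h4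
  have hset : ∫ z in ball (0 : ℂ) (1 / 2), C ^ (2 / k : ℝ) * A * (χ z * Δ (avPhi B F) z) ≤ C ^ (2 / k : ℝ) * A * (D * (E * (M + 1) ^ 2)) := by
    rw [integral_const_mul]
    refine mul_le_mul_of_nonneg_left ?_ (by have := Real.rpow_nonneg hC (2 / k : ℝ); positivity)
    refine (setIntegral_le_integral hint (Eventually.of_forall fun z => ?_)).trans hup
    by_cases hz : z ∈ closedBall (0 : ℂ) 1
    · exact mul_nonneg χ.nonneg (hlap0 z hz)
    · have h1 : χ z = 0 := by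
        have : z ∉ tsupport (fun z => χ z) := by
          rw [hχs]
          exact fun h => hz (hsub h)
        exact image_eq_zero_of_notMem_tsupport this
      simp only [h1, zero_mul, Pi.zero_apply, le_refl]
  have hchain := harea.trans (hmono.trans hset)
  have hM1 : 0 ≤ M + 1 := by linarith
  have hfin : ‖g 0‖ ^ (2 / k : ℝ) ≤ (C * (K * (M + 1)) ^ k) ^ (2 / k : ℝ) := by
    rw [Real.mul_rpow hC (by positivity), ← Real.rpow_natCast _ k, ← Real.rpow_mul (by positivity)]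
    have h3 : (k : ℝ) * (2 / k) = 2 := by field_simp
    rw [h3]
    have h4 : (K * (M + 1)) ^ (2 : ℝ) = K ^ 2 * (M + 1) ^ 2 := by
      rw [Real.rpow_two]
      ring
    rw [h4, hK2]
    have hCp : 0 ≤ C ^ (2 / k : ℝ) := Real.rpow_nonneg hC _
    have h5 : ‖g 0‖ ^ (2 / k : ℝ) ≤ C ^ (2 / k : ℝ) * (4 / Real.pi * (A * (D * E)) * (M + 1) ^ 2) := by
      have h6 : Real.pi * (1 / 2) ^ 2 * ‖g 0‖ ^ (2 / k : ℝ) ≤ C ^ (2 / k : ℝ) * A * (D * (E * (M + 1) ^ 2)) := hchain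
      have h7 : Real.pi * (1 / 2) ^ 2 * (C ^ (2 / k : ℝ) * (4 / Real.pi * (A * (D * E)) * (M + 1) ^ 2)) = C ^ (2 / k : ℝ) * A * (D * (E * (M + 1) ^ 2)) := by
        field_simp
        ring
      rw [← h7] at h6
      exact le_of_mul_le_mul_left h6 (by positivity)
    refine h5.trans (mul_le_mul_of_nonneg_left ?_ hCp)
    nlinarith [sq_nonneg (M + 1)]
  exact (Real.rpow_le_rpow_iff (norm_nonneg _) (by positivity) hp).1 hfin

theorem exists_av (B : Finset (Fin (N + 1))) (b : Fin (N + 1)) : ∃ K > 0, ∀ (F : ℂ → Fin (N + 1) → ℂ) (a : ℂ) (R M : ℝ), 0 < R →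
    (∀ z ∈ closedBall a R, AnalyticAt ℂ F z) → (∀ z ∈ closedBall a R, F z b = 1) → (∀ z ∈ closedBall a R, ∀ i ∈ B, F z i ≠ 0) →
    (∀ z ∈ closedBall a R, Rho B (F z) ≤ M) → ∀ (g : ℂ → ℂ) (C : ℝ) (k : ℕ), (∀ z ∈ closedBall a R, AnalyticAt ℂ g z) → 0 ≤ C →
    (∀ z ∈ closedBall a R, ‖g z‖ ≤ C * LL B (F z) (deriv F z) ^ k) → ‖g a‖ ≤ C * (K * (M + 1) / R) ^ k := by
  obtain ⟨K, hK, h⟩ := av_unit B b
  refine ⟨K, hK, fun F a R M hR hF hFb hFi hFM g C k hg hC hgC => ?_⟩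
  have hmem : ∀ w ∈ closedBall (0 : ℂ) 1, a + (R : ℂ) * w ∈ closedBall a R := by
    intro w hw
    rw [mem_closedBall, dist_eq_norm] at hw ⊢
    rw [sub_zero] at hw
    rw [add_sub_cancel_left, norm_mul, Complex.norm_real, Real.norm_eq_abs, abs_of_pos hR]
    calc R * ‖w‖ ≤ R * 1 := by gcongr
      _ = R := mul_one R
  have han : ∀ w : ℂ, AnalyticAt ℂ (fun w : ℂ => a + (R : ℂ) * w) w := fun w => by fun_prop
  have hdF : ∀ w ∈ closedBall (0 : ℂ) 1, deriv (fun w : ℂ => F (a + (R : ℂ) * w)) w = (R : ℂ) • deriv F (a + (R : ℂ) * w) := by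
    intro w hw
    have h1 : HasDerivAt (fun w : ℂ => a + (R : ℂ) * w) (R : ℂ) w := by
      simpa using ((hasDerivAt_id w).const_mul (R : ℂ)).const_add a
    exact ((hF _ (hmem w hw)).differentiableAt.hasDerivAt.scomp w h1).deriv
  have hR' : (R : ℝ) ≠ 0 := hR.ne'
  have h1 := h (fun w => F (a + (R : ℂ) * w)) M (fun w hw => (hF _ (hmem w hw)).comp (f := fun w : ℂ => a + (R : ℂ) * w) (han w))
    (fun w hw => hFb _ (hmem w hw)) (fun w hw => hFi _ (hmem w hw)) (fun w hw => hFM _ (hmem w hw))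
    (fun w => g (a + (R : ℂ) * w)) (C / R ^ k) k (fun w hw => (hg _ (hmem w hw)).comp (f := fun w : ℂ => a + (R : ℂ) * w) (han w)) (by positivity) (by
      intro w hw
      have h2 := hgC _ (hmem w hw)
      have h3 : LL B (F (a + (R : ℂ) * w)) (deriv (fun w : ℂ => F (a + (R : ℂ) * w)) w) = R * LL B (F (a + (R : ℂ) * w)) (deriv F (a + (R : ℂ) * w)) := by
        rw [hdF w hw]
        unfold LL
        rw [norm_smul, Complex.norm_real, Real.norm_eq_abs, abs_of_pos hR, mul_add, Finset.mul_sum, mul_div_assoc]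
        congr 1
        refine Finset.sum_congr rfl fun i _ => ?_
        rw [Pi.smul_apply, smul_eq_mul, norm_mul, Complex.norm_real, Real.norm_eq_abs, abs_of_pos hR, mul_div_assoc]
      rw [h3, mul_pow]
      calc ‖g (a + (R : ℂ) * w)‖ ≤ C * LL B (F (a + (R : ℂ) * w)) (deriv F (a + (R : ℂ) * w)) ^ k := h2
        _ = C / R ^ k * (R ^ k * LL B (F (a + (R : ℂ) * w)) (deriv F (a + (R : ℂ) * w)) ^ k) := by field_simp)
  simp only [mul_zero, add_zero] at h1
  refine h1.trans (le_of_eq ?_)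
  rw [div_pow]
  ring

end Pool.Agent.GL
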