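import Pool.Agent.GL.Defs

/-!
# GL ChA: the family `gfamL`, first part

`exists_lframe`: generators by Noether; `A k` = the weighted homogeneous component of degree `m k` (in `ξ`) of the polynomial of `LogSec.regular b` (`x b = 1`; use `smul` for all `a`: the components of the other degrees vanish on the tangent vectors).
`eval_gfamL`: `eval (ePt B x v) (lsub B s) = pt x (lv B x v) s` for `x ∈ Uc` (`(∏ x_l)⁻¹ ∏_(l ≠ i) x_l = (x_i)⁻¹`).  `hom_gfamL`: the polynomials `lsub` are of degree `0`, `1` in `v`.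
-/

set_option autoImplicit false

open MvPolynomial Topology Filter Metric
open Pool.Agent.H13.SM (conTan cone)
open Pool.Agent.H62.FC (Homog)
open Pool.Agent.GG Pool.Agent.GA

namespace Pool.Agent.GL

variable {N : ℕ} {P : Ideal (MvPolynomial (Fin (N + 1)) ℂ)} {B : Finset (Fin (N + 1))} {J : ℕ} {m : Fin J → ℕ} {θ : ∀ k, LogSec P B (m k)} {b : Fin (N + 1)}

theorem act_lv {x : Fin (N + 1) → ℂ} (h : ∀ i ∈ B, x i ≠ 0) (v : Fin (N + 1) → ℂ) : act B x (lv B x v) = v := by
  funext i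
  by_cases hi : i ∈ B
  · simp only [act, lv, if_pos hi]
    rw [← mul_assoc, mul_inv_cancel₀ (h i hi), one_mul]
  · simp only [act, lv, if_neg hi]

/-- the weights -/
private abbrev wv (N : ℕ) : Ph N → ℕ := Sum.elim (fun _ => 0) fun _ => 1

private theorem weight_wv (N : ℕ) (d : Ph N →₀ ℕ) : Finsupp.weight (wv N) d = ∑ i, d (Sum.inr i) := by
  rw [Finsupp.weight_apply, Finsupp.sum_fintype d (fun i c => c • wv N i) fun i => zero_smul ℕ _, Fintype.sum_sum_type]
  simp

private theorem eval_hom {A : MvPolynomial (Ph N) ℂ} {n : ℕ} (hA : IsWeightedHomogeneous (wv N) A n) (x ξ : Fin (N + 1) → ℂ) (a : ℂ) :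
    eval (pt x (a • ξ)) A = a ^ n * eval (pt x ξ) A := by
  rw [eval_eq', eval_eq', Finset.mul_sum]
  refine Finset.sum_congr rfl fun d hd => ?_
  have h1 : ∑ i, d (Sum.inr i) = n := by
    rw [← weight_wv]
    exact hA (mem_support_iff.1 hd)
  rw [Fintype.prod_sum_type, Fintype.prod_sum_type]
  have h2 : ∏ i, pt x (a • ξ) (Sum.inr i) ^ d (Sum.inr i) = a ^ n * ∏ i, pt x ξ (Sum.inr i) ^ d (Sum.inr i) := by
    rw [← h1, ← Finset.prod_pow_eq_pow_sum, ← Finset.prod_mul_distrib]
    refine Finset.prod_congr rfl fun i _ => ?_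
    simp only [Sum.elim_inr, Pi.smul_apply, smul_eq_mul, mul_pow]
  have h3 : ∏ i, pt x (a • ξ) (Sum.inl i) ^ d (Sum.inl i) = ∏ i, pt x ξ (Sum.inl i) ^ d (Sum.inl i) := rfl
  rw [h2, h3]
  ring

private theorem act_smul (x ξ : Fin (N + 1) → ℂ) (a : ℂ) : act B x (a • ξ) = a • act B x ξ := by
  funext i
  simp only [act, Pi.smul_apply, smul_eq_mul]
  split_ifs
  · ring
  · rfl

private theorem comp_eval (A : MvPolynomial (Ph N) ℂ) (n : ℕ) (x ξ : Fin (N + 1) → ℂ) (h : ∀ a : ℂ, eval (pt x (a • ξ)) A = a ^ n * eval (pt x ξ) A) :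
    eval (pt x ξ) A = eval (pt x ξ) (weightedHomogeneousComponent (wv N) n A) := by
  classical
  obtain ⟨S, hn, hS⟩ : ∃ S : Finset ℕ, n ∈ S ∧ A = ∑ k ∈ S, weightedHomogeneousComponent (wv N) k A := by
    have h1 := weightedHomogeneousComponent_finsupp (w := wv N) A
    refine ⟨insert n h1.toFinset, Finset.mem_insert_self _ _, ?_⟩
    have h2 := finsum_eq_sum_of_support_subset (fun k => weightedHomogeneousComponent (wv N) k A) (s := insert n h1.toFinset) (by
      intro k hk
      rw [Finset.coe_insert]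
      right
      exact (Set.Finite.coe_toFinset h1).symm ▸ hk)
    rw [← h2]
    exact (sum_weightedHomogeneousComponent (w := wv N) A).symm
  have h2 : ∀ y : Ph N → ℂ, eval y A = ∑ k ∈ S, eval y (weightedHomogeneousComponent (wv N) k A) := fun y => by
    conv_lhs => rw [hS]
    exact map_sum _ _ _
  set c : ℕ → ℂ := fun k => eval (pt x ξ) (weightedHomogeneousComponent (wv N) k A) with hc
  have h3 : ∀ a : ℂ, ∑ k ∈ S, a ^ k * c k = a ^ n * ∑ k ∈ S, c k := fun a => by
    have h4 := h a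
    rw [h2, h2] at h4
    rw [← h4]
    refine Finset.sum_congr rfl fun k _ => ?_
    exact (eval_hom (weightedHomogeneousComponent_isWeightedHomogeneous k A) x ξ a).symm
  have h4 : (∑ k ∈ S, Polynomial.C (c k) * Polynomial.X ^ k) - Polynomial.C (∑ k ∈ S, c k) * Polynomial.X ^ n = 0 := by
    refine Polynomial.funext fun a => ?_
    simp only [Polynomial.eval_sub, Polynomial.eval_finsetSum, Polynomial.eval_mul, Polynomial.eval_C, Polynomial.eval_pow, Polynomial.eval_X, Polynomial.eval_zero]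
    rw [sub_eq_zero, mul_comm (∑ k ∈ S, c k), ← h3 a]
    exact Finset.sum_congr rfl fun k _ => mul_comm _ _
  have h5 := congrArg (fun p => Polynomial.coeff p n) h4
  simp only [Polynomial.coeff_sub, Polynomial.finsetSum_coeff, Polynomial.coeff_C_mul, Polynomial.coeff_X_pow, mul_ite, mul_one, mul_zero,
    Polynomial.coeff_zero, if_true] at h5
  rw [Finset.sum_ite_eq S n, if_pos hn, sub_eq_zero] at h5
  rw [h2, ← h5]

theorem exists_lframe (θ : ∀ k, LogSec P B (m k)) (b : Fin (N + 1)) : Nonempty (LFrame θ b) := by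
  obtain ⟨q, Q, hQ⟩ := Submodule.fg_iff_exists_fin_generating_family.1 (IsNoetherian.noetherian P)
  choose e A hA using fun k => (θ k).regular b
  have hA' : ∀ k, ∀ x ∈ cone P, x b = 1 → ∀ ξ, act B x ξ ∈ conTan P x → (θ k).toFun x ξ = eval (pt x ξ) (A k) := fun k x hx hb ξ hξ => by
    have h1 := hA k x hx ξ hξ
    rwa [hb, one_pow, one_mul] at h1
  refine ⟨⟨q, Q, hQ, fun k => weightedHomogeneousComponent (wv N) (m k) (A k), fun k x hx hb ξ hξ => ?_,
    fun k => weightedHomogeneousComponent_isWeightedHomogeneous _ _⟩⟩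
  rw [hA' k x hx hb ξ hξ]
  refine comp_eval _ _ _ _ fun a => ?_
  rw [← hA' k x hx hb ξ hξ, ← hA' k x hx hb (a • ξ) (by rw [act_smul]; exact (conTan P x).smul_mem a hξ)]
  exact (θ k).smul x hx ξ hξ a

private theorem emb_cs (x : Fin (N + 1) → ℂ) (i : Fin (N + 1)) : emb B x i.castSucc = x i := Fin.snoc_castSucc _ _ _

private theorem emb_last (x : Fin (N + 1) → ℂ) : emb B x (Fin.last (N + 1)) = (∏ i ∈ B, x i)⁻¹ := Fin.snoc_last _ _

private theorem embV_cs (x v : Fin (N + 1) → ℂ) (i : Fin (N + 1)) : embV B x v i.castSucc = v i := Fin.snoc_castSucc _ _ _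

private theorem embV_last (x v : Fin (N + 1) → ℂ) :
    embV B x v (Fin.last (N + 1)) = -((∏ i ∈ B, x i)⁻¹ * ∑ i ∈ B, (x i)⁻¹ * v i) := Fin.snoc_last _ _

private theorem eval_aeval' {σ τ : Type} (g : σ → MvPolynomial τ ℂ) (A : MvPolynomial σ ℂ) (y : τ → ℂ) :
    eval y (aeval g A) = eval (fun s => eval y (g s)) A := by
  induction A using MvPolynomial.induction_on with
  | C a => simp
  | add p q hp hq => simp only [map_add, hp, hq]
  | mul_X p s hp => simp only [map_mul, hp, aeval_X, eval_X]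

private theorem erase_inv {x : Fin (N + 1) → ℂ} (h : ∀ i ∈ B, x i ≠ 0) {i : Fin (N + 1)} (hi : i ∈ B) :
    (∏ l ∈ B, x l)⁻¹ * ∏ l ∈ B.erase i, x l = (x i)⁻¹ := by
  rw [← Finset.mul_prod_erase B x hi, mul_inv, mul_assoc, inv_mul_cancel₀, mul_one]
  exact Finset.prod_ne_zero_iff.2 fun l hl => h l (Finset.mem_of_mem_erase hl)

private theorem eval_lsub {x : Fin (N + 1) → ℂ} (h : ∀ i ∈ B, x i ≠ 0) (v : Fin (N + 1) → ℂ) (s : Ph N) :
    eval (ePt B x v) (lsub B s) = pt x (lv B x v) s := by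
  rcases s with j | i
  · simp only [lsub, Sum.elim_inl, eval_X, ePt, emb_cs]
  · by_cases hi : i ∈ B
    · simp only [lsub, Sum.elim_inr, if_pos hi, map_mul, eval_X, ePt, Sum.elim_inl, map_prod, emb_cs, embV_cs, emb_last, lv]
      rw [erase_inv h hi]
      ring
    · simp only [lsub, Sum.elim_inr, if_neg hi, eval_X, ePt, embV_cs, lv]

theorem eval_gfamL (f : LFrame θ b) {x v : Fin (N + 1) → ℂ} (hx : x ∈ Uc P B b) (hv : v ∈ Tc P b x) (l : GIx f.q J) :
    eval (ePt B x v) (gfamL f l) = gval (thv θ x v) l := by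
  obtain ⟨hx1, hx2, hx3⟩ := hx
  obtain ⟨hv1, hv2⟩ := hv
  have hQ : ∀ j, f.Q j ∈ P := fun j => by
    have h1 : f.Q j ∈ Ideal.span (Set.range f.Q) := Ideal.subset_span ⟨j, rfl⟩
    rwa [f.span] at h1
  have hp0 : ∏ i ∈ B, x i ≠ 0 := Finset.prod_ne_zero_iff.2 hx3
  have hren : ∀ A : MvPolynomial (Fin (N + 1)) ℂ, eval (ePt B x v) (rename (fun i : Fin (N + 1) => (Sum.inl i.castSucc : Ph (N + 1))) A) = eval x A := fun A => by
    rw [eval_rename]
    congr 1
    refine congrArg _ (funext fun i => ?_)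
    simp only [Function.comp_apply, ePt, Sum.elim_inl, emb_cs]
  rcases l with ((l | l) | (j | j)) | ((l | l) | k)
  · simp only [gfamL, gval, Sum.elim_inl, eval_X, ePt, emb_cs, hx2]
  · simp only [gfamL, gval, Sum.elim_inl, Sum.elim_inr, eval_X, ePt, embV_cs, hv2]
  · simp only [gfamL, gval, Sum.elim_inl, Sum.elim_inr, hren]
    exact hx1.2 _ (hQ j)
  · simp only [gfamL, gval, Sum.elim_inl, Sum.elim_inr, map_sum, map_mul, hren, eval_X]
    simp only [ePt, Sum.elim_inr, embV_cs]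
    have h1 := hv1 _ (hQ j)
    rw [← h1]
    exact Finset.sum_congr rfl fun i _ => mul_comm _ _
  · simp only [gfamL, gval, Sum.elim_inl, Sum.elim_inr, map_mul, map_prod, eval_X, ePt, emb_cs, emb_last]
    exact inv_mul_cancel₀ hp0
  · simp only [gfamL, gval, Sum.elim_inl, Sum.elim_inr, map_add, map_mul, map_sum, map_prod, eval_X, ePt, emb_cs, emb_last, embV_cs, embV_last]
    have h1 : (∏ i ∈ B, x i)⁻¹ * ∑ i ∈ B, v i * ∏ l ∈ B.erase i, x l = ∑ i ∈ B, (x i)⁻¹ * v i := by
      rw [Finset.mul_sum]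
      refine Finset.sum_congr rfl fun i hi => ?_
      rw [← erase_inv hx3 hi]
      ring
    rw [h1, neg_mul, mul_right_comm, inv_mul_cancel₀ hp0, one_mul, neg_add_cancel]
  · simp only [gfamL, gval, Sum.elim_inr]
    rw [eval_aeval']
    have h1 : (fun s => eval (ePt B x v) (lsub B s)) = pt x (lv B x v) := funext fun s => eval_lsub hx3 v s
    rw [h1, ← f.hA k x hx1 hx2 (lv B x v) (by rw [act_lv hx3]; exact hv1)]
    rfl

private theorem lv_smul (x v : Fin (N + 1) → ℂ) (a : ℂ) : lv B x (a • v) = a • lv B x v := by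
  funext i
  simp only [lv, Pi.smul_apply, smul_eq_mul]
  split_ifs
  · ring
  · rfl

theorem thv_smul {x v : Fin (N + 1) → ℂ} (hx : x ∈ Uc P B b) (hv : v ∈ Tc P b x) (a : ℂ) (k : Fin J) : thv θ x (a • v) k = a ^ m k * thv θ x v k := by
  simp only [thv, lv_smul]
  exact (θ k).smul x hx.1 _ (by rw [act_lv hx.2.2]; exact hv.1) a

/-- the homogeneous degrees in `v` of the polynomials of the family -/
def edeg {q J : ℕ} (m : Fin J → ℕ) : GIx q J → ℕ :=
  Sum.elim (Sum.elim (Sum.elim (fun _ => 0) fun _ => 1) (Sum.elim (fun _ => 0) fun _ => 1)) (Sum.elim (Sum.elim (fun _ => 0) fun _ => 1) m)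

private theorem hom_inl (i : Fin (N + 1)) : IsWeightedHomogeneous (wv N) (X (Sum.inl i) : MvPolynomial (Ph N) ℂ) 0 :=
  isWeightedHomogeneous_X ℂ (wv N) (Sum.inl i)

private theorem hom_inr (i : Fin (N + 1)) : IsWeightedHomogeneous (wv N) (X (Sum.inr i) : MvPolynomial (Ph N) ℂ) 1 :=
  isWeightedHomogeneous_X ℂ (wv N) (Sum.inr i)

private theorem hom_prod {ι : Type} (s : Finset ι) (g : ι → Fin (N + 1)) :
    IsWeightedHomogeneous (wv N) (∏ l ∈ s, (X (Sum.inl (g l)) : MvPolynomial (Ph N) ℂ)) 0 := by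
  have h1 := IsWeightedHomogeneous.prod (w := wv N) s (fun l => (X (Sum.inl (g l)) : MvPolynomial (Ph N) ℂ)) (fun _ => 0) fun l _ => hom_inl (g l)
  rwa [Finset.sum_const_zero] at h1

private theorem hom_rename (A : MvPolynomial (Fin (N + 1)) ℂ) :
    IsWeightedHomogeneous (wv (N + 1)) (rename (fun i : Fin (N + 1) => (Sum.inl i.castSucc : Ph (N + 1))) A) 0 := by
  intro d hd
  obtain ⟨u, hu, -⟩ := coeff_rename_ne_zero _ _ _ hd
  rw [weight_wv]
  refine Finset.sum_eq_zero fun i _ => ?_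
  rw [← hu]
  refine Finsupp.mapDomain_of_notMem_range _ _ ?_
  rintro ⟨j, hj⟩
  exact Sum.inl_ne_inr hj

private theorem hom_lsub (s : Ph N) : IsWeightedHomogeneous (wv (N + 1)) (lsub B s) (wv N s) := by
  rcases s with j | i
  · exact hom_inl _
  · by_cases hi : i ∈ B
    · simp only [lsub, Sum.elim_inr, if_pos hi]
      exact (hom_inr i.castSucc).mul ((hom_inl (Fin.last (N + 1))).mul (hom_prod (B.erase i) fun l => l.castSucc))
    · simp only [lsub, Sum.elim_inr, if_neg hi]
      exact hom_inr _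

private theorem hom_aeval {A : MvPolynomial (Ph N) ℂ} {n : ℕ} (hA : IsWeightedHomogeneous (wv N) A n) :
    IsWeightedHomogeneous (wv (N + 1)) (aeval (lsub B) A) n := by
  rw [aeval_def, eval₂_eq']
  refine IsWeightedHomogeneous.sum _ _ _ fun d hd => ?_
  refine IsWeightedHomogeneous.C_mul ?_ _
  have h1 := IsWeightedHomogeneous.prod (w := wv (N + 1)) Finset.univ (fun i => lsub B i ^ d i) (fun i => d i • wv N i) fun i _ => (hom_lsub i).pow (d i)
  have h2 : ∑ i, d i • wv N i = n := by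
    rw [← hA (mem_support_iff.1 hd), Finsupp.weight_apply, Finsupp.sum_fintype d (fun i c => c • wv N i) fun i => zero_smul ℕ _]
  rwa [h2] at h1

theorem hom_gfamL (f : LFrame θ b) (l : GIx f.q J) :
    IsWeightedHomogeneous (Sum.elim (fun _ => 0) (fun _ => 1) : Ph (N + 1) → ℕ) (gfamL f l) (edeg m l) := by
  rcases l with ((l | l) | (j | j)) | ((l | l) | k)
  · exact hom_inl _
  · exact hom_inr _
  · exact hom_rename _
  · show IsWeightedHomogeneous (wv (N + 1)) (∑ i, rename (fun i : Fin (N + 1) => (Sum.inl i.castSucc : Ph (N + 1))) (pderiv i (f.Q j)) *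
      X (Sum.inr i.castSucc)) 1
    exact IsWeightedHomogeneous.sum _ _ 1 fun i _ => (hom_rename _).mul (hom_inr i.castSucc)
  · exact (hom_inl (Fin.last (N + 1))).mul (hom_prod B fun l => l.castSucc)
  · have h1 := (hom_inr (Fin.last (N + 1))).mul (hom_prod B fun l => l.castSucc)
    have h2 : IsWeightedHomogeneous (wv (N + 1)) (∑ i ∈ B, (X (Sum.inr i.castSucc) : MvPolynomial (Ph (N + 1)) ℂ) * ∏ l ∈ B.erase i, X (Sum.inl l.castSucc)) 1 :=
      IsWeightedHomogeneous.sum _ _ 1 fun i _ => (hom_inr i.castSucc).mul (hom_prod (B.erase i) fun l => l.castSucc)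
    have h3 := (hom_inl (Fin.last (N + 1))).mul h2
    rw [zero_add] at h3
    exact h1.add h3
  · exact hom_aeval (f.hom k)

end Pool.Agent.GL
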