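import Pool.Agent.GL.ChB

/-!
# GL ChC: the family `gfamL`, third part

`lFam_iff`, `lFam_of_nSol`: `of_gval`, `eval_gfamL`, `deriv_emb` at the points near `q` (`z ↦ Φ (z, p.2)` is analytic).  `of_lhs`: `lhs (gfamL f l) = 0` for the first families of the index gives `V_b = 0`, `V ∈ conTan`, and the last coordinate
(`x_b = 1`: `V_b`; `Q_j`: `conTan` by the generators; `y ∏ x_i`: the last coordinate).
-/

set_option autoImplicit false

open MvPolynomial Topology Filter Metric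
open Pool.Agent.H13.SM (conTan cone)
open Pool.Agent.H62.FC (Homog)
open Pool.Agent.GG Pool.Agent.GA

namespace Pool.Agent.GL

variable {N : ℕ} {P : Ideal (MvPolynomial (Fin (N + 1)) ℂ)} {B : Finset (Fin (N + 1))} {J : ℕ} {m : Fin J → ℕ} {θ : ∀ k, LogSec P B (m k)} {b : Fin (N + 1)}

/-! ### the additional coordinate -/

private theorem emb_castSucc (x : Fin (N + 1) → ℂ) (i : Fin (N + 1)) : emb B x i.castSucc = x i := by
  simp [emb]

private theorem emb_last (x : Fin (N + 1) → ℂ) : emb B x (Fin.last (N + 1)) = (∏ i ∈ B, x i)⁻¹ := by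
  simp [emb]

private theorem embV_castSucc (x v : Fin (N + 1) → ℂ) (i : Fin (N + 1)) : embV B x v i.castSucc = v i := by
  simp [embV]

private theorem emb_an {E : Type} [NormedAddCommGroup E] [NormedSpace ℂ E] {Φ : E → Fin (N + 1) → ℂ} {q : E} (hΦ : AnalyticAt ℂ Φ q)
    (h : ∀ i ∈ B, Φ q i ≠ 0) : AnalyticAt ℂ (fun p => emb B (Φ p)) q := by
  have h0 : ∀ i, AnalyticAt ℂ (fun p => Φ p i) q := fun i => (analyticAt_pi_iff.1 hΦ) i
  rw [analyticAt_pi_iff]
  intro j
  refine Fin.lastCases ?_ (fun i => ?_) j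
  · simp only [emb_last]
    have h1 : AnalyticAt ℂ (fun p => ∏ i ∈ B, Φ p i) q := by
      have := Finset.analyticAt_fun_prod (𝕜 := ℂ) (f := fun i p => Φ p i) (c := q) B fun i _ => h0 i
      exact this
    exact h1.inv (Finset.prod_ne_zero_iff.2 h)
  · simp only [emb_castSucc]
    exact h0 i

private theorem slice {d : ℕ} (p : ℂ × (Fin d → ℂ)) : AnalyticAt ℂ (fun z : ℂ => ((z, p.2) : ℂ × (Fin d → ℂ))) p.1 :=
  analyticAt_id.prod analyticAt_const

private theorem slice_tendsto {d : ℕ} (p : ℂ × (Fin d → ℂ)) : Tendsto (fun z : ℂ => ((z, p.2) : ℂ × (Fin d → ℂ))) (𝓝 p.1) (𝓝 p) :=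
  (slice p).continuousAt

/-- families in the chart and families of solutions of the equations of `gfamL` -/
theorem lFam_iff (f : LFrame θ b) {d : ℕ} {c : ℂ × (Fin d → ℂ) → Fin J → ℂ} {Φ : ℂ × (Fin d → ℂ) → Fin (N + 1) → ℂ} {q : ℂ × (Fin d → ℂ)}
    (h : LFam θ b c Φ q) : NSol (gfamL f) (fun l p => gval (c p) l) (fun p => emb B (Φ p)) q := by
  refine ⟨emb_an h.1 h.2.self_of_nhds.1.2.2, ?_⟩
  filter_upwards [h.2.eventually_nhds, h.1.eventually_analyticAt] with p hp ha l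
  have hx : AnalyticAt ℂ (fun z => Φ (z, p.2)) p.1 := ha.comp_of_eq (slice p) rfl
  have hU : ∀ᶠ z in 𝓝 p.1, Φ (z, p.2) ∈ Uc P B b := (slice_tendsto p).eventually (hp.mono fun _ g => g.1)
  obtain ⟨hp1, hp2⟩ := hp.self_of_nhds
  have h1 := deriv_emb (B := B) hx hU.self_of_nhds.2.2
  have h2 := deriv_mem_Tc hx hU
  have h3 := eval_gfamL f hp1 h2 l
  rw [ePt, hp2] at h3
  rw [← h3, h1]

theorem lFam_of_nSol (f : LFrame θ b) {d : ℕ} {c : ℂ × (Fin d → ℂ) → Fin J → ℂ} {Ψ : ℂ × (Fin d → ℂ) → Fin (N + 2) → ℂ} {q : ℂ × (Fin d → ℂ)}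
    (h : NSol (gfamL f) (fun l p => gval (c p) l) Ψ q) : LFam θ b c (fun p i => Ψ p i.castSucc) q ∧ ∀ᶠ p in 𝓝 q, Ψ p = emb B (fun i => Ψ p i.castSucc) := by
  have hc : ∀ i, AnalyticAt ℂ (fun p => Ψ p i) q := fun i => (analyticAt_pi_iff.1 h.1) i
  have key : ∀ᶠ p in 𝓝 q, (fun i => Ψ p (Fin.castSucc i)) ∈ Uc P B b ∧ thv θ (fun i => Ψ p (Fin.castSucc i)) (deriv (fun z i => Ψ (z, p.2) (Fin.castSucc i)) p.1) = c p ∧
      Ψ p = emb B (fun i => Ψ p i.castSucc) := by
    filter_upwards [h.2, h.1.eventually_analyticAt] with p hp ha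
    obtain ⟨x, v, h1, h2, h3, h4⟩ := of_gval f hp
    have e1 : Ψ p = emb B x := funext fun j => congrFun h1 (Sum.inl j)
    have e2 : deriv (fun z => Ψ (z, p.2)) p.1 = embV B x v := funext fun j => congrFun h1 (Sum.inr j)
    have e3 : (fun i => Ψ p (Fin.castSucc i)) = x := funext fun i => by rw [e1, emb_castSucc]
    have hx : AnalyticAt ℂ (fun z => Ψ (z, p.2)) p.1 := ha.comp_of_eq (slice p) rfl
    have hd : ∀ j, DifferentiableAt ℂ (fun z => Ψ (z, p.2) j) p.1 := fun j => ((analyticAt_pi_iff.1 hx) j).differentiableAt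
    have e4 : deriv (fun z i => Ψ (z, p.2) (Fin.castSucc i)) p.1 = v := by
      rw [deriv_pi fun i => hd _]
      funext i
      have e5 := congrFun e2 i.castSucc
      rw [deriv_pi hd, embV_castSucc] at e5
      exact e5
    refine ⟨e3 ▸ h2, ?_, ?_⟩
    · rw [e3, e4, h4]
    · rw [e3, e1]
  refine ⟨⟨?_, key.mono fun p hp => ⟨hp.1, hp.2.1⟩⟩, key.mono fun p hp => hp.2.2⟩
  rw [analyticAt_pi_iff]
  exact fun i => hc i.castSucc

/-! ### the linearised equations -/

section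

variable {σ : Type} [Fintype σ]

/-- the derivative of `G` in the direction `W` at `y` -/
private noncomputable def dl (y W : σ → ℂ) (G : MvPolynomial σ ℂ) : ℂ := ∑ s, eval y (pderiv s G) * W s

private theorem dl_C (y W : σ → ℂ) (a : ℂ) : dl y W (C a) = 0 := by
  simp [dl]

private theorem dl_add (y W : σ → ℂ) (G H : MvPolynomial σ ℂ) : dl y W (G + H) = dl y W G + dl y W H := by
  simp only [dl, map_add, add_mul, Finset.sum_add_distrib]

private theorem dl_mul (y W : σ → ℂ) (G H : MvPolynomial σ ℂ) : dl y W (G * H) = eval y G * dl y W H + eval y H * dl y W G := by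
  simp only [dl, Derivation.leibniz, map_add, smul_eq_mul, map_mul, Finset.mul_sum, ← Finset.sum_add_distrib]
  refine Finset.sum_congr rfl fun s _ => ?_
  ring

private theorem dl_X (y W : σ → ℂ) (s : σ) : dl y W (X s) = W s := by
  classical
  simp only [dl, pderiv_X]
  rw [Finset.sum_eq_single s]
  · simp
  · intro t _ ht
    rw [Pi.single_eq_of_ne (Ne.symm ht)]
    simp
  · intro h
    exact absurd (Finset.mem_univ _) h

private theorem dl_rename {τ : Type} [Fintype τ] (φ : τ → σ) (y W : σ → ℂ) (G : MvPolynomial τ ℂ) :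
    dl y W (rename φ G) = dl (fun i => y (φ i)) (fun i => W (φ i)) G := by
  induction G using MvPolynomial.induction_on with
  | C a => rw [rename_C, dl_C, dl_C]
  | add p q hp hq => rw [map_add, dl_add, dl_add, hp, hq]
  | mul_X p i hp =>
    rw [map_mul, rename_X, dl_mul, dl_mul, hp, dl_X, dl_X, eval_X, eval_X, eval_rename]
    rfl

private theorem dl_prod {τ : Type} (φ : τ → σ) (y W : σ → ℂ) (B : Finset τ) (h : ∀ i ∈ B, y (φ i) ≠ 0) :
    dl y W (∏ l ∈ B, X (φ l)) = (∏ l ∈ B, y (φ l)) * ∑ l ∈ B, (y (φ l))⁻¹ * W (φ l) := by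
  classical
  induction B using Finset.induction_on with
  | empty => simp [dl]
  | insert a s ha ih =>
    have h1 : y (φ a) ≠ 0 := h a (Finset.mem_insert_self _ _)
    rw [Finset.prod_insert ha, Finset.prod_insert ha, Finset.sum_insert ha, dl_mul, dl_X, ih fun i hi => h i (Finset.mem_insert_of_mem hi), eval_X, map_prod]
    simp only [eval_X]
    field_simp
    ring

end

private theorem lhs_eq (G : MvPolynomial (Ph (N + 1)) ℂ) (x V : ℂ → Fin (N + 2) → ℂ) (z : ℂ) :
    lhs G x V z = dl (pt (x z) (deriv x z)) (pt (V z) (deriv V z)) G := rfl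

private theorem mem_conTan_gen {q : ℕ} {Q : Fin q → MvPolynomial (Fin (N + 1)) ℂ} (hspan : Ideal.span (Set.range Q) = P) {x v : Fin (N + 1) → ℂ}
    (h : ∀ j, eval x (Q j) = 0) (h' : ∀ j, ∑ i, v i * eval x (pderiv i (Q j)) = 0) : v ∈ conTan P x := by
  intro R hR
  rw [← hspan] at hR
  have key : eval x R = 0 ∧ ∑ i, v i * eval x (pderiv i R) = 0 := by
    refine Submodule.span_induction (p := fun R _ => eval x R = 0 ∧ ∑ i, v i * eval x (pderiv i R) = 0) ?_ ?_ ?_ ?_ hR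
    · rintro _ ⟨j, rfl⟩
      exact ⟨h j, h' j⟩
    · simp
    · rintro p q - - ⟨h1, h2⟩ ⟨h3, h4⟩
      refine ⟨by rw [map_add, h1, h3, add_zero], ?_⟩
      simp only [map_add, mul_add, Finset.sum_add_distrib, h2, h4, add_zero]
    · rintro p q - ⟨h1, h2⟩
      refine ⟨by rw [smul_eq_mul, map_mul, h1, mul_zero], ?_⟩
      have : ∀ i, v i * eval x (pderiv i (p • q)) = eval x p * (v i * eval x (pderiv i q)) + (v i * eval x (pderiv i p)) * eval x q := by
        intro i
        rw [smul_eq_mul, Derivation.leibniz, map_add, smul_eq_mul, smul_eq_mul, map_mul, map_mul]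
        ring
      simp only [this, h1, mul_zero, add_zero, ← Finset.mul_sum, h2]
  exact key.2

/-- a variation of the curve `emb B (F w)` comes from a variation of `F` -/
theorem of_lhs (f : LFrame θ b) {F : ℂ → Fin (N + 1) → ℂ} {V : ℂ → Fin (N + 2) → ℂ} {w : ℂ} (hF : AnalyticAt ℂ F w) (hU : ∀ᶠ z in 𝓝 w, F z ∈ Uc P B b)
    (h : ∀ᶠ z in 𝓝 w, ∀ l, lhs (gfamL f l) (eF B F) V z = 0) :
    ∀ᶠ z in 𝓝 w, (fun i => V z (Fin.castSucc i)) ∈ Tc P b (F z) ∧ V z = embV B (F z) (fun i => V z (Fin.castSucc i)) := by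
  have hQ : ∀ j, f.Q j ∈ P := by
    intro j
    have h1 : f.Q j ∈ Ideal.span (Set.range f.Q) := Ideal.subset_span ⟨j, rfl⟩
    rwa [f.span] at h1
  filter_upwards [hU, h] with z hz hl
  refine ⟨⟨?_, ?_⟩, ?_⟩
  · refine mem_conTan_gen f.span (fun j => hz.1.2 _ (hQ j)) fun j => ?_
    have h1 := hl (Sum.inl (Sum.inr (Sum.inl j)))
    rw [lhs_eq] at h1
    have h2 : gfamL f (Sum.inl (Sum.inr (Sum.inl j))) = rename (fun i : Fin (N + 1) => (Sum.inl i.castSucc : Ph (N + 1))) (f.Q j) := rfl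
    rw [h2, dl_rename] at h1
    rw [← h1, dl]
    refine Finset.sum_congr rfl fun i _ => ?_
    rw [mul_comm]
    congr 2
    congr 1
    funext i
    exact (emb_castSucc (B := B) (F z) i).symm
  · have h1 := hl (Sum.inl (Sum.inl (Sum.inl ())))
    rw [lhs_eq] at h1
    have h2 : gfamL f (Sum.inl (Sum.inl (Sum.inl ()))) = X (Sum.inl b.castSucc) := rfl
    rw [h2, dl_X] at h1
    exact h1
  · have h1 := hl (Sum.inr (Sum.inl (Sum.inl ())))
    rw [lhs_eq] at h1
    have h2 : gfamL f (Sum.inr (Sum.inl (Sum.inl ()))) = X (Sum.inl (Fin.last (N + 1))) * ∏ l ∈ B, X (Sum.inl l.castSucc) := rfl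
    have h3 : ∀ i : Fin (N + 1), (pt (eF B F z) (deriv (eF B F) z) : Ph (N + 1) → ℂ) (Sum.inl i.castSucc) = F z i := fun i => emb_castSucc (B := B) (F z) i
    have h4 : (pt (eF B F z) (deriv (eF B F) z) : Ph (N + 1) → ℂ) (Sum.inl (Fin.last (N + 1))) = (∏ i ∈ B, F z i)⁻¹ := emb_last (B := B) (F z)
    have h5 : ∀ i ∈ B, (pt (eF B F z) (deriv (eF B F) z) : Ph (N + 1) → ℂ) (Sum.inl i.castSucc) ≠ 0 := fun i hi => by
      rw [h3]
      exact hz.2.2 i hi
    rw [h2, dl_mul, dl_X, dl_prod (fun l : Fin (N + 1) => (Sum.inl l.castSucc : Ph (N + 1))) _ _ B h5, map_prod, eval_X, h4] at h1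
    simp only [eval_X, h3] at h1
    have h6 : ∏ i ∈ B, F z i ≠ 0 := Finset.prod_ne_zero_iff.2 hz.2.2
    funext j
    refine Fin.lastCases ?_ (fun i => ?_) j
    · rw [embV, Fin.snoc_last]
      have h7 : (pt (V z) (deriv V z) : Ph (N + 1) → ℂ) (Sum.inl (Fin.last (N + 1))) = V z (Fin.last (N + 1)) := rfl
      have h8 : ∀ i : Fin (N + 1), (pt (V z) (deriv V z) : Ph (N + 1) → ℂ) (Sum.inl i.castSucc) = V z i.castSucc := fun i => rfl
      rw [h7] at h1
      simp only [h8] at h1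
      rw [inv_mul_cancel_left₀ h6] at h1
      have h9 : V z (Fin.last (N + 1)) = (∏ i ∈ B, F z i)⁻¹ * ((∏ i ∈ B, F z i) * V z (Fin.last (N + 1))) := by
        rw [inv_mul_cancel_left₀ h6]
      rw [h9, eq_neg_of_add_eq_zero_right h1, mul_neg]
    · rw [embV_castSucc]

end Pool.Agent.GL
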