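import Pool.Agent.GL.ChC

/-!
# GL Chart: the family `gfamL` and the chart `x b = 1` (all of ChA, ChB, ChC)
-/
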