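import Pool.Agent.GL.Defs

/-!
# GL CmpX: compactness for `Cmp`
-/

set_option autoImplicit false

open MvPolynomial Topology Filter Metric
open Pool.Agent.H13.SM (conTan cone)
open Pool.Agent.H62.FC (Homog)
open Pool.Agent.GG Pool.Agent.GA

noncomputable section

namespace Pool.Agent.GL.CX

variable {N : ℕ} {P : Ideal (MvPolynomial (Fin (N + 1)) ℂ)} {B : Finset (Fin (N + 1))} {J : ℕ} {m : Fin J → ℕ} {θ : ∀ k, LogSec P B (m k)} {b : Fin (N + 1)}

theorem two_bounds {Y : Type} [TopologicalSpace Y] {S : Set Y} (hS : IsCompact S) {J : ℕ} {g : Fin J → Y → ℝ} (hg : ∀ k, Continuous (g k))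
    (h0 : ∀ k y, 0 ≤ g k y) (hpos : ∀ y ∈ S, ∃ k, g k y ≠ 0) :
    ∃ δ > 0, ∃ C > 0, ∀ y ∈ S, (∀ k, g k y ≤ C) ∧ ∃ k, δ ≤ g k y := by
  obtain ⟨G, hG⟩ : ∃ G : Y → ℝ, G = fun y => ∑ k, g k y := ⟨_, rfl⟩
  have hcont : Continuous G := by
    rw [hG]
    exact continuous_finsetSum _ fun k _ => hg k
  have hle : ∀ k y, g k y ≤ G y := by
    intro k y
    rw [hG]
    exact Finset.single_le_sum (f := fun k => g k y) (fun k _ => h0 k y) (Finset.mem_univ k)
  have hGpos : ∀ y ∈ S, 0 < G y := by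
    intro y hy
    obtain ⟨k, hk⟩ := hpos y hy
    exact lt_of_lt_of_le (lt_of_le_of_ne (h0 k y) (Ne.symm hk)) (hle k y)
  obtain ⟨C, hC⟩ := hS.exists_bound_of_continuousOn hcont.continuousOn
  obtain ⟨δ, hδ, h1⟩ : ∃ δ > 0, ∀ y ∈ S, δ ≤ G y := by
    rcases S.eq_empty_or_nonempty with h | h
    · exact ⟨1, one_pos, fun y hy => by rw [h] at hy; exact hy.elim⟩
    · obtain ⟨z, hz, hmin⟩ := hS.exists_isMinOn h hcont.continuousOn
      exact ⟨G z, hGpos z hz, fun y hy => hmin hy⟩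
  refine ⟨δ / (J + 1), by positivity, |C| + 1, by positivity, fun y hy => ⟨fun k => ?_, ?_⟩⟩
  · have h2 := (hle k y).trans ((le_abs_self _).trans (hC y hy))
    linarith [le_abs_self C]
  · by_contra hcon
    push Not at hcon
    have h2 : G y ≤ J * (δ / (J + 1)) := by
      rw [hG]
      calc ∑ k, g k y ≤ ∑ _k : Fin J, δ / (J + 1) := Finset.sum_le_sum fun k _ => (hcon k).le
        _ = J * (δ / (J + 1)) := by simp
    have h3 := h1 y hy
    have h4 : (J : ℝ) * (δ / (J + 1)) < δ := by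
      rw [mul_div_assoc', div_lt_iff₀ (by positivity)]
      nlinarith
    linarith

/-- the unit logarithmic vectors in the chart of the largest coordinate `a` -/
def US (P : Ideal (MvPolynomial (Fin (N + 1)) ℂ)) (B : Finset (Fin (N + 1))) (b a : Fin (N + 1)) : Set (Ph N → ℂ) :=
  {z | ‖z (Sum.inl a)‖ = 1 ∧ (∀ c, ‖z (Sum.inl c)‖ ≤ 1) ∧ z (Sum.inr b) = 0 ∧ ‖fun c => z (Sum.inr c)‖ = 1 ∧
    (∀ Q ∈ P, eval (fun c => z (Sum.inl c)) Q = 0) ∧
    ∀ Q ∈ P, ∑ i, act B (fun c => z (Sum.inl c)) (fun c => z (Sum.inr c)) i * eval (fun c => z (Sum.inl c)) (pderiv i Q) = 0}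

theorem isCompact_US (P : Ideal (MvPolynomial (Fin (N + 1)) ℂ)) (B : Finset (Fin (N + 1))) (b a : Fin (N + 1)) : IsCompact (US P B b a) := by
  have hc : ∀ Q : MvPolynomial (Fin (N + 1)) ℂ, Continuous fun y : Ph N → ℂ => eval (fun b => y (Sum.inl b)) Q := fun Q =>
    (MvPolynomial.continuous_eval Q).comp (continuous_pi fun b => continuous_apply _)
  have ha : ∀ i, Continuous fun z : Ph N → ℂ => act B (fun c => z (Sum.inl c)) (fun c => z (Sum.inr c)) i := by
    intro i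
    unfold act
    by_cases hi : i ∈ B
    · simp only [hi, if_true]
      exact (continuous_apply _).mul (continuous_apply _)
    · simp only [hi, if_false]
      exact continuous_apply _
  have h1 : IsClosed {z : Ph N → ℂ | ‖z (Sum.inl a)‖ = 1} := isClosed_eq (continuous_apply _).norm continuous_const
  have h2 : IsClosed {z : Ph N → ℂ | z (Sum.inr b) = 0} := isClosed_eq (continuous_apply _) continuous_const
  have h3 : IsClosed {z : Ph N → ℂ | ∀ c, ‖z (Sum.inl c)‖ ≤ 1} := by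
    simp only [Set.ofPred_forall]
    exact isClosed_iInter fun b => isClosed_le (continuous_apply _).norm continuous_const
  have h4 : IsClosed {z : Ph N → ℂ | ∀ Q ∈ P, eval (fun c => z (Sum.inl c)) Q = 0} := by
    simp only [Set.ofPred_forall]
    exact isClosed_iInter fun Q => isClosed_iInter fun _ => isClosed_eq (hc Q) continuous_const
  have h5 : IsClosed {z : Ph N → ℂ | ∀ Q ∈ P, ∑ i, act B (fun c => z (Sum.inl c)) (fun c => z (Sum.inr c)) i *
      eval (fun c => z (Sum.inl c)) (pderiv i Q) = 0} := by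
    simp only [Set.ofPred_forall]
    refine isClosed_iInter fun Q => isClosed_iInter fun _ => isClosed_eq ?_ continuous_const
    exact continuous_finsetSum _ fun i _ => (ha i).mul (hc _)
  have h6 : IsClosed {z : Ph N → ℂ | ‖fun c : Fin (N + 1) => z (Sum.inr c)‖ = 1} :=
    isClosed_eq (continuous_pi fun b => continuous_apply (Sum.inr b)).norm continuous_const
  have hcl : IsClosed (US P B b a) := h1.inter (h3.inter (h2.inter (h6.inter (h4.inter h5))))
  refine Metric.isCompact_of_isClosed_isBounded hcl ?_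
  refine (isBounded_closedBall (x := (0 : Ph N → ℂ)) (r := 1)).subset ?_
  rintro y ⟨_, h3, _, h6, _⟩
  rw [mem_closedBall_zero_iff, pi_norm_le_iff_of_nonneg zero_le_one]
  rintro (c | c)
  · exact h3 c
  · rw [← h6]
    exact norm_le_pi_norm (fun c : Fin (N + 1) => y (Sum.inr c)) c

theorem not_mem_span (hb : b ∈ B) {y ξ : Fin (N + 1) → ℂ} (h : ξ b = 0) (h0 : ξ ≠ 0) : ξ ∉ Submodule.span ℂ {eul B y} := by
  intro hs
  obtain ⟨c, rfl⟩ := Submodule.mem_span_singleton.1 hs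
  have h1 : c * 1 = 0 := by
    have : (c • eul B y) b = c * 1 := by
      rw [Pi.smul_apply, smul_eq_mul, eul, if_pos hb]
    rw [← this]; exact h
  rw [mul_one] at h1
  rw [h1, zero_smul] at h0
  exact h0 rfl

theorem exists_ne (hθ : LogPolar θ) (hb : b ∈ B) {y ξ : Fin (N + 1) → ℂ} (hy : y ∈ cone P) (hξ : act B y ξ ∈ conTan P y) (h : ξ b = 0) (h0 : ξ ≠ 0) :
    ∃ k, (θ k).toFun y ξ ≠ 0 := by
  obtain ⟨k, hk⟩ := hθ y hy ξ hξ ξ hξ (not_mem_span hb h h0) (not_mem_span hb h h0)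
  refine ⟨k, fun hz => hk ?_⟩
  have h1 : (fun t : ℂ => (θ k).toFun y (ξ + t • ξ)) = fun _ => 0 := by
    funext t
    have h2 : ξ + t • ξ = (1 + t) • ξ := by rw [add_smul, one_smul]
    rw [h2, (θ k).smul y hy ξ hξ, hz, mul_zero]
  rw [h1]
  simp

/-- the bounds on the unit vectors in one chart -/
theorem unit_one (hθ : LogPolar θ) (hb : b ∈ B) (a : Fin (N + 1)) : ∃ δ > 0, ∃ C > 0, ∀ y ξ : Fin (N + 1) → ℂ, y ∈ cone P → ‖y a‖ = 1 → (∀ c, ‖y c‖ ≤ 1) →
    act B y ξ ∈ conTan P y → ξ b = 0 → ‖ξ‖ = 1 → (∀ k, ‖(θ k).toFun y ξ‖ ≤ C) ∧ ∃ k, δ ≤ ‖(θ k).toFun y ξ‖ := by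
  choose e A hA using fun k => (θ k).regular a
  have key : ∀ y ξ : Fin (N + 1) → ℂ, y ∈ cone P → ‖y a‖ = 1 → act B y ξ ∈ conTan P y → ∀ k, ‖(θ k).toFun y ξ‖ = ‖eval (pt y ξ) (A k)‖ := by
    intro y ξ hy hya hξ k
    have h1 := congrArg norm (hA k y hy ξ hξ)
    rw [norm_mul, norm_pow, hya, one_pow, one_mul] at h1
    exact h1
  obtain ⟨δ, hδ, C, hC, h⟩ := two_bounds (isCompact_US P B b a) (g := fun k z => ‖eval z (A k)‖) (fun k => (MvPolynomial.continuous_eval (A k)).norm)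
    (fun k y => norm_nonneg _) (fun z hz => by
      obtain ⟨z1, z2, z3, z4, z5, z6⟩ := hz
      have hpt : pt (fun c => z (Sum.inl c)) (fun c => z (Sum.inr c)) = z := by
        funext s
        rcases s with s | s <;> rfl
      have hy : (fun c => z (Sum.inl c)) ∈ cone P := ⟨fun h0 => by
        have h1 := congrFun h0 a
        simp only [Pi.zero_apply] at h1
        rw [h1, norm_zero] at z1
        exact zero_ne_one z1, z5⟩
      have h0 : (fun c => z (Sum.inr c)) ≠ 0 := fun h0 => by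
        rw [h0, norm_zero] at z4
        exact zero_ne_one z4
      obtain ⟨k, hk⟩ := exists_ne hθ hb hy z6 z3 h0
      refine ⟨k, ?_⟩
      have h2 := key _ _ hy z1 z6 k
      rw [hpt] at h2
      rw [← h2]
      exact norm_ne_zero_iff.2 hk)
  refine ⟨δ, hδ, C, hC, fun y ξ hy hya hyc hξ hξb hξ1 => ?_⟩
  obtain ⟨h1, k, h2⟩ := h (pt y ξ) ⟨hya, hyc, hξb, hξ1, hy.2, hξ⟩
  refine ⟨fun k => ?_, k, ?_⟩
  · rw [key y ξ hy hya hξ k]
    exact h1 k
  · rw [key y ξ hy hya hξ k]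
    exact h2

theorem unit_bd (hθ : LogPolar θ) (hb : b ∈ B) : ∃ δ > 0, ∃ C > 0, ∀ y ξ : Fin (N + 1) → ℂ, y ∈ cone P → ‖y‖ = 1 →
    act B y ξ ∈ conTan P y → ξ b = 0 → ‖ξ‖ = 1 → (∀ k, ‖(θ k).toFun y ξ‖ ≤ C) ∧ ∃ k, δ ≤ ‖(θ k).toFun y ξ‖ := by
  choose δ hδ C hC h using fun a => unit_one (θ := θ) (P := P) hθ hb a
  refine ⟨(∑ a, (δ a)⁻¹)⁻¹, inv_pos.2 (Finset.sum_pos (fun a _ => inv_pos.2 (hδ a)) ⟨b, Finset.mem_univ b⟩), ∑ a, C a,
    Finset.sum_pos (fun a _ => hC a) ⟨b, Finset.mem_univ b⟩, fun y ξ hy hy1 hξ hξb hξ1 => ?_⟩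
  obtain ⟨a, -, ha⟩ := Finset.exists_max_image Finset.univ (fun b => ‖y b‖) ⟨b, Finset.mem_univ _⟩
  have hya : ‖y a‖ = 1 := by
    rw [← hy1]
    exact le_antisymm (norm_le_pi_norm y a) ((pi_norm_le_iff_of_nonneg (norm_nonneg _)).2 fun b => ha b (Finset.mem_univ b))
  obtain ⟨h1, k, h2⟩ := h a y ξ hy hya (fun c => by rw [← hy1]; exact norm_le_pi_norm y c) hξ hξb hξ1
  refine ⟨fun k => (h1 k).trans (Finset.single_le_sum (fun a _ => (hC a).le) (Finset.mem_univ a)), k, le_trans ?_ h2⟩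
  rw [inv_le_comm₀ (Finset.sum_pos (fun a _ => inv_pos.2 (hδ a)) ⟨b, Finset.mem_univ b⟩) (hδ a)]
  exact Finset.single_le_sum (f := fun a => (δ a)⁻¹) (fun a _ => (inv_pos.2 (hδ a)).le) (Finset.mem_univ a)

/-! ## scaling of the tangent spaces -/

theorem hg {d : ℕ} {Q : MvPolynomial (Fin (N + 1)) ℂ} (hQ : Q.IsHomogeneous d) (c : ℂ)
    (x : Fin (N + 1) → ℂ) : eval (c • x) Q = c ^ d * eval x Q := by
  rw [eval_eq', eval_eq', Finset.mul_sum]
  refine Finset.sum_congr rfl fun m hm => ?_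
  have h1 : ∏ i, (c • x) i ^ m i = c ^ d * ∏ i, x i ^ m i := by
    simp only [Pi.smul_apply, smul_eq_mul, mul_pow, Finset.prod_mul_distrib]
    rw [Finset.prod_pow_eq_pow_sum]
    have h2 := hQ (mem_support_iff.1 hm)
    rw [Finsupp.weight_apply, Finsupp.sum_fintype _ _ (by simp)] at h2
    simp only [Pi.one_apply, smul_eq_mul, mul_one] at h2
    rw [h2]
  rw [h1]
  ring

theorem conTan_le (hP : Homog P) {c : ℂ} (x : Fin (N + 1) → ℂ) : conTan P x ≤ conTan P (c • x) := by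
  intro v hv Q hQ
  have h1 : ∀ d, ∑ i, v i * eval (c • x) (pderiv i (homogeneousComponent d Q)) = 0 := by
    intro d
    have h2 := hv _ (hP Q hQ d)
    have h3 : ∀ i, eval (c • x) (pderiv i (homogeneousComponent d Q)) =
        c ^ (d - 1) * eval x (pderiv i (homogeneousComponent d Q)) := fun i =>
      hg ((homogeneousComponent_isHomogeneous d Q).pderiv) c x
    have h4 : ∑ i, v i * eval (c • x) (pderiv i (homogeneousComponent d Q)) =
        c ^ (d - 1) * ∑ i, v i * eval x (pderiv i (homogeneousComponent d Q)) := by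
      rw [Finset.mul_sum]
      refine Finset.sum_congr rfl fun i _ => ?_
      rw [h3]
      ring
    rw [h4, h2, mul_zero]
  have h5 : ∀ i, eval (c • x) (pderiv i Q) = ∑ d ∈ Finset.range (Q.totalDegree + 1),
      eval (c • x) (pderiv i (homogeneousComponent d Q)) := by
    intro i
    conv_lhs => rw [← sum_homogeneousComponent Q]
    rw [map_sum, map_sum]
  simp only [h5, Finset.mul_sum]
  rw [Finset.sum_comm]
  exact Finset.sum_eq_zero fun d _ => h1 d

end Pool.Agent.GL.CX
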