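import Pool.Agent.GL.Chart
import Pool.Agent.GL.CmpX

/-!
# GL Cmp: the logarithmic symmetric differentials define the logarithmic length

Scale `x` to norm `1`: with `y = ‖x‖⁻¹ • x`, `ξ = lsc B ‖x‖⁻¹ (lv B x v)` one has `θ_k (x, lv v) = θ_k (y, ξ)` (`LogSec.scale`), `ξ_b = 0`, `act B y ξ ∈ conTan P y`, and `‖ξ‖ ≤ LL B x v ≤ (N + 2) * ‖ξ‖ …`
(`|ξ i| = |v i / x i|` for `i ∈ B`, `|ξ j| = |v j| / ‖x‖` otherwise, and `|v i| / ‖x‖ ≤ |v i / x i|`).  On the compact set of the `(y, ξ)` with `y ∈ cone P`, `‖y‖ = 1`, `act B y ξ ∈ conTan P y`, `ξ_b = 0`,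
`‖ξ‖ = 1` (points on `D` included!) the maximum of the `‖θ_k‖` is positive: `LogPolar` with `ξ = η` and `d/dt θ_k (ξ + t ξ) = m_k θ_k (ξ)`; `ξ ∉ span (eul B y)` as `eul` has the coordinate `1` at `b`.
-/

set_option autoImplicit false

open MvPolynomial Topology Filter Metric
open Pool.Agent.H13.SM (conTan cone)
open Pool.Agent.H62.FC (Homog)
open Pool.Agent.GG Pool.Agent.GA

namespace Pool.Agent.GL

variable {N : ℕ} {P : Ideal (MvPolynomial (Fin (N + 1)) ℂ)} {B : Finset (Fin (N + 1))} {J : ℕ} {m : Fin J → ℕ} {θ : ∀ k, LogSec P B (m k)} {b : Fin (N + 1)}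

/-- a normalized tangent vector -/
theorem CX.exists_unit (hP : Homog P) (hb : b ∈ B) {x : Fin (N + 1) → ℂ} (hx : x ∈ Uc P B b) {v : Fin (N + 1) → ℂ} (hv : v ∈ Tc P b x) (h0 : v ≠ 0) :
    ∃ y ξ : Fin (N + 1) → ℂ, ∃ t : ℂ, y ∈ cone P ∧ ‖y‖ = 1 ∧ act B y ξ ∈ conTan P y ∧ ξ b = 0 ∧ ‖ξ‖ = 1 ∧
      (∀ (n : ℕ) (τ : LogSec P B n), τ.toFun x (lv B x v) = t ^ n * τ.toFun y ξ) ∧ ‖t‖ ≤ LL B x v ∧ LL B x v ≤ (B.card + 1) * ‖t‖ := by
  classical
  obtain ⟨hxc, hxb, hxB⟩ := hx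
  obtain ⟨hvt, hvb⟩ := hv
  have hx0 : 0 < ‖x‖ := norm_pos_iff.2 hxc.1
  obtain ⟨ρ, hρ⟩ : ∃ ρ : ℂ, ρ = ((‖x‖⁻¹ : ℝ) : ℂ) := ⟨_, rfl⟩
  have hρn : ‖ρ‖ = ‖x‖⁻¹ := by rw [hρ, Complex.norm_real, Real.norm_of_nonneg (by positivity)]
  have hρ0 : ρ ≠ 0 := by
    rw [← norm_ne_zero_iff, hρn]
    positivity
  have hlv : act B x (lv B x v) = v := act_lv hxB v
  obtain ⟨η, hη⟩ : ∃ η : Fin (N + 1) → ℂ, η = lsc B ρ (lv B x v) := ⟨_, rfl⟩
  have hηB : ∀ i ∈ B, ‖η i‖ = ‖v i‖ / ‖x i‖ := by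
    intro i hi
    rw [hη, lsc, if_pos hi, lv, if_pos hi, norm_mul, norm_inv]
    field_simp
  have hηN : ∀ i, i ∉ B → ‖η i‖ = ‖v i‖ / ‖x‖ := by
    intro i hi
    rw [hη, lsc, if_neg hi, lv, if_neg hi, norm_mul, hρn]
    field_simp
  have hact : act B (ρ • x) η = ρ • v := by
    funext i
    by_cases hi : i ∈ B
    · have hxi : x i ≠ 0 := hxB i hi
      rw [hη, act, if_pos hi, lsc, if_pos hi, lv, if_pos hi, Pi.smul_apply, Pi.smul_apply, smul_eq_mul, smul_eq_mul]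
      field_simp
    · rw [hη, act, if_neg hi, lsc, if_neg hi, lv, if_neg hi, Pi.smul_apply, smul_eq_mul]
  have hLLB : ∀ i ∈ B, ‖v i‖ / ‖x i‖ ≤ ∑ i ∈ B, ‖v i‖ / ‖x i‖ := fun i hi =>
    Finset.single_le_sum (f := fun i => ‖v i‖ / ‖x i‖) (fun i _ => by positivity) hi
  have hS : 0 ≤ ∑ i ∈ B, ‖v i‖ / ‖x i‖ := Finset.sum_nonneg fun i _ => by positivity
  have h1 : ‖η‖ ≤ LL B x v := by
    rw [pi_norm_le_iff_of_nonneg (by unfold LL; positivity)]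
    intro i
    unfold LL
    by_cases hi : i ∈ B
    · rw [hηB i hi]
      have h2 : 0 ≤ ‖v‖ / ‖x‖ := by positivity
      linarith [hLLB i hi]
    · rw [hηN i hi]
      have h2 : ‖v i‖ / ‖x‖ ≤ ‖v‖ / ‖x‖ := by
        gcongr
        exact norm_le_pi_norm v i
      linarith
  have h2 : LL B x v ≤ (B.card + 1) * ‖η‖ := by
    have h3 : ‖v‖ / ‖x‖ ≤ ‖η‖ := by
      rw [div_le_iff₀ hx0, pi_norm_le_iff_of_nonneg (by positivity)]
      intro i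
      rw [← div_le_iff₀ hx0]
      by_cases hi : i ∈ B
      · have hxi : 0 < ‖x i‖ := norm_pos_iff.2 (hxB i hi)
        calc ‖v i‖ / ‖x‖ ≤ ‖v i‖ / ‖x i‖ := by
              gcongr
              exact norm_le_pi_norm x i
          _ = ‖η i‖ := (hηB i hi).symm
          _ ≤ ‖η‖ := norm_le_pi_norm η i
      · rw [← hηN i hi]
        exact norm_le_pi_norm η i
    have h4 : ∑ i ∈ B, ‖v i‖ / ‖x i‖ ≤ B.card * ‖η‖ := by
      calc ∑ i ∈ B, ‖v i‖ / ‖x i‖ ≤ ∑ _i ∈ B, ‖η‖ := Finset.sum_le_sum fun i hi => by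
            rw [← hηB i hi]
            exact norm_le_pi_norm η i
        _ = B.card * ‖η‖ := by rw [Finset.sum_const, nsmul_eq_mul]
    unfold LL
    linarith
  have hη0 : η ≠ 0 := by
    intro h3
    apply h0
    have h4 : ρ • v = 0 := by
      rw [← hact, h3]
      funext i
      unfold act
      split_ifs
      · rw [Pi.zero_apply, mul_zero]
      · rfl
    exact (smul_eq_zero.1 h4).resolve_left hρ0
  have hη1 : 0 < ‖η‖ := norm_pos_iff.2 hη0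
  obtain ⟨t, ht⟩ : ∃ t : ℂ, t = ((‖η‖ : ℝ) : ℂ) := ⟨_, rfl⟩
  have htn : ‖t‖ = ‖η‖ := by rw [ht, Complex.norm_real, norm_norm]
  have ht0 : t ≠ 0 := by
    rw [← norm_ne_zero_iff, htn]
    exact hη1.ne'
  have hyc : ρ • x ∈ cone P := ⟨smul_ne_zero hρ0 hxc.1, Pool.Agent.H13.SM.cone_smul hP hxc.2 ρ⟩
  have hηt : act B (ρ • x) η ∈ conTan P (ρ • x) := by
    rw [hact]
    exact Submodule.smul_mem _ _ (CX.conTan_le hP x hvt)
  have hacts : act B (ρ • x) (t⁻¹ • η) = t⁻¹ • act B (ρ • x) η := by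
    funext i
    unfold act
    simp only [Pi.smul_apply, smul_eq_mul]
    split_ifs
    · ring
    · rfl
  have hξt : act B (ρ • x) (t⁻¹ • η) ∈ conTan P (ρ • x) := by
    rw [hacts]
    exact Submodule.smul_mem _ _ hηt
  refine ⟨ρ • x, t⁻¹ • η, t, hyc, ?_, hξt, ?_, ?_, ?_, ?_, ?_⟩
  · rw [norm_smul, hρn, inv_mul_cancel₀ hx0.ne']
  · rw [Pi.smul_apply, smul_eq_mul]
    have h3 : η b = 0 := by
      rw [hη, lsc, if_pos hb, lv, if_pos hb, hvb, mul_zero]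
    rw [h3, mul_zero]
  · rw [norm_smul, norm_inv, htn, inv_mul_cancel₀ hη1.ne']
  · intro n τ
    have h3 := τ.smul (ρ • x) hyc (t⁻¹ • η) hξt t
    rw [smul_smul, mul_inv_cancel₀ ht0, one_smul] at h3
    rw [← h3, hη]
    exact (τ.scale x hxc (lv B x v) (by rw [hlv]; exact hvt) ρ hρ0).symm
  · rw [htn]
    exact h1
  · rw [htn]
    exact h2

theorem CX.thv_zero (hm : ∀ k, 1 ≤ m k) {x : Fin (N + 1) → ℂ} (hx : x ∈ Uc P B b) (k : Fin J) : thv θ x 0 k = 0 := by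
  have h1 : lv B x 0 = (0 : ℂ) • (0 : Fin (N + 1) → ℂ) := by
    funext i
    unfold lv
    split_ifs
    · simp
    · simp
  have h2 : act B x 0 ∈ conTan P x := by
    have h3 : act B x 0 = 0 := by
      funext i
      unfold act
      split_ifs
      · simp
      · simp
    rw [h3]
    exact Submodule.zero_mem _
  unfold thv
  rw [h1, (θ k).smul x hx.1 0 h2, zero_pow (by have := hm k; omega), zero_mul]

theorem CX.LL_nonneg (x v : Fin (N + 1) → ℂ) : 0 ≤ LL B x v := by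
  unfold LL
  positivity

theorem theta_bdL (hP : Homog P) (hθ : LogPolar θ) (hm : ∀ k, 1 ≤ m k) (hb : b ∈ B) : ∃ c > 0, ∃ C > 0, ∀ x ∈ Uc P B b, ∀ v ∈ Tc P b x,
    (∀ k, ‖thv θ x v k‖ ≤ C * LL B x v ^ m k) ∧ (v ≠ 0 → ∃ k, c * LL B x v ^ m k ≤ ‖thv θ x v k‖) := by
  classical
  obtain ⟨δ, hδ, C, hC, h⟩ := CX.unit_bd (P := P) hθ hb
  have hK : (1 : ℝ) ≤ B.card + 1 := by
    have : (0 : ℝ) ≤ B.card := Nat.cast_nonneg _
    linarith
  refine ⟨δ / ((B.card : ℝ) + 1) ^ ∑ k, m k, by positivity, C, hC, fun x hx v hv => ?_⟩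
  have hL := CX.LL_nonneg (B := B) x v
  by_cases h0 : v = 0
  · refine ⟨fun k => ?_, fun h1 => (h1 h0).elim⟩
    rw [h0, CX.thv_zero hm hx k, norm_zero, ← h0]
    positivity
  obtain ⟨y, ξ, t, hy, hy1, hξ, hξb, hξ1, hτ, ht1, ht2⟩ := CX.exists_unit hP hb hx hv h0
  obtain ⟨h1, k, h2⟩ := h y ξ hy hy1 hξ hξb hξ1
  have h3 : ∀ k, ‖thv θ x v k‖ = ‖t‖ ^ m k * ‖(θ k).toFun y ξ‖ := by
    intro k
    unfold thv
    rw [hτ, norm_mul, norm_pow]
  refine ⟨fun k => ?_, fun _ => ⟨k, ?_⟩⟩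
  · rw [h3, mul_comm]
    exact mul_le_mul (h1 k) (pow_le_pow_left₀ (norm_nonneg _) ht1 _) (by positivity) hC.le
  · rw [h3]
    have h4 : LL B x v ^ m k ≤ ((B.card : ℝ) + 1) ^ (∑ k, m k) * ‖t‖ ^ m k := by
      calc LL B x v ^ m k ≤ (((B.card : ℝ) + 1) * ‖t‖) ^ m k := pow_le_pow_left₀ hL ht2 _
        _ = ((B.card : ℝ) + 1) ^ m k * ‖t‖ ^ m k := mul_pow _ _ _
        _ ≤ ((B.card : ℝ) + 1) ^ (∑ k, m k) * ‖t‖ ^ m k := by
          refine mul_le_mul_of_nonneg_right (pow_le_pow_right₀ hK ?_) (by positivity)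
          exact Finset.single_le_sum (f := m) (fun _ _ => Nat.zero_le _) (Finset.mem_univ k)
    rw [div_mul_eq_mul_div, div_le_iff₀ (by positivity)]
    calc δ * LL B x v ^ m k ≤ ‖(θ k).toFun y ξ‖ * (((B.card : ℝ) + 1) ^ (∑ k, m k) * ‖t‖ ^ m k) :=
          mul_le_mul h2 h4 (by positivity) (norm_nonneg _)
      _ = ‖t‖ ^ m k * ‖(θ k).toFun y ξ‖ * ((B.card : ℝ) + 1) ^ (∑ k, m k) := by ring

/-- a bound of the length by the values -/
theorem exists_LL_bound (hP : Homog P) (hθ : LogPolar θ) (hm : ∀ k, 1 ≤ m k) (hb : b ∈ B) : ∃ C > 0, ∀ x ∈ Uc P B b, ∀ v ∈ Tc P b x, ∀ M : ℝ, 1 ≤ M →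
    (∀ k, ‖thv θ x v k‖ ≤ M) → LL B x v ≤ C * M := by
  obtain ⟨c, hc, C, hC, h⟩ := theta_bdL (P := P) hP hθ hm hb
  refine ⟨1 + 1 / c, by positivity, fun x hx v hv M hM hk => ?_⟩
  have hL := CX.LL_nonneg (B := B) x v
  by_cases h0 : v = 0
  · have h1 : LL B x v = 0 := by
      rw [h0]
      unfold LL
      simp
    rw [h1]
    positivity
  obtain ⟨k, h2⟩ := (h x hx v hv).2 h0
  have h3 : LL B x v ≤ 1 + LL B x v ^ m k := by
    rcases le_total (LL B x v) 1 with h4 | h4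
    · have : 0 ≤ LL B x v ^ m k := by positivity
      linarith
    · have := le_self_pow₀ h4 (show m k ≠ 0 by have := hm k; omega)
      linarith
  have h5 : LL B x v ^ m k ≤ M / c := by
    rw [le_div_iff₀ hc, mul_comm]
    exact h2.trans (hk k)
  have h6 : 1 + M / c ≤ (1 + 1 / c) * M := by
    have : (1 + 1 / c) * M = M + M / c := by ring
    linarith
  linarith

end Pool.Agent.GL
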