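import Pool.Agent.GL.Chart
import Pool.Agent.AD.G.Spec

/-!
# GL CmpC: the bound for the section of `(K + D)^M (-1)`

Compare `GG/Bd.lean` (`can_bound`) and `GL/Cmp` (scaling): in the chart of a largest coordinate `a` of `x` (`x i ^ e * toFun = eval A` for `i = a`), with `y = ‖x‖⁻¹ • x`, `ξ_j = lsc B ‖x‖⁻¹ (lv B x (v j))`:
`toFun y ξ` is bounded on the compact set `‖y‖ = 1`, `‖ξ_j‖ ≤ 1`; homogeneous of degree `M` in each `ξ_j` (`det` with a diagonal matrix; if some `ξ_j = 0` it is `0`, `1 ≤ M`); `scale` gives the factor `‖x‖`.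
-/

set_option autoImplicit false

open MvPolynomial Topology Filter Metric
open Pool.Agent.H13.SM (conTan cone)
open Pool.Agent.H62.FC (Homog)
open Pool.Agent.GG Pool.Agent.GA

namespace Pool.Agent.GL

variable {N : ℕ} {P : Ideal (MvPolynomial (Fin (N + 1)) ℂ)} {B : Finset (Fin (N + 1))} {b : Fin (N + 1)}

/-- a polynomial is bounded on the unit ball -/
private theorem CmpC_eval_bound {σ : Type} [Fintype σ] (A : MvPolynomial σ ℂ) : ∃ C : ℝ, 0 ≤ C ∧ ∀ y : σ → ℂ, ‖y‖ ≤ 1 → ‖eval y A‖ ≤ C := by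
  obtain ⟨C, hC⟩ := (isCompact_closedBall (0 : σ → ℂ) 1).exists_bound_of_continuousOn (f := fun y => eval y A) (MvPolynomial.continuous_eval A).continuousOn
  refine ⟨max C 0, le_max_right _ _, fun y hy => (hC y ?_).trans (le_max_left _ _)⟩
  simpa using hy

private theorem CmpC_act_smul (x ξ : Fin (N + 1) → ℂ) (t : ℂ) : act B x (t • ξ) = t • act B x ξ := by
  funext i
  simp only [act, Pi.smul_apply, smul_eq_mul]
  split_ifs
  · ring
  · rfl

private theorem CmpC_act_lsc (x ξ : Fin (N + 1) → ℂ) (c : ℂ) : act B (c • x) (lsc B c ξ) = c • act B x ξ := by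
  funext i
  simp only [act, lsc, Pi.smul_apply, smul_eq_mul]
  split_ifs
  · ring
  · rfl

private theorem CmpC_LL_nonneg (x v : Fin (N + 1) → ℂ) : 0 ≤ LL B x v := by
  unfold LL
  positivity

theorem can_bdL (hP : Homog P) {n M : ℕ} (hM : 1 ≤ M) (Ω : LogCan P B n M) : ∃ C : ℝ, ∀ x ∈ Uc P B b, ∀ v : Fin n → Fin (N + 1) → ℂ, (∀ j, v j ∈ Tc P b x) →
    ‖Ω.toFun x (fun j => lv B x (v j))‖ * ‖x‖ ≤ C * ∏ j, LL B x (v j) ^ M := by
  classical
  choose e A hA using Ω.regular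
  choose C hC0 hC using fun a => CmpC_eval_bound (A a)
  refine ⟨∑ a, C a, fun x hxU v hvT => ?_⟩
  obtain ⟨hx, -, hxB⟩ := hxU
  have hv : ∀ j, v j ∈ conTan P x := fun j => (hvT j).1
  -- the coordinate of maximal absolute value
  obtain ⟨a, ha⟩ : ∃ a, ‖x a‖ = ‖x‖ := by
    obtain ⟨a, -, ha⟩ := Finset.exists_max_image (Finset.univ : Finset (Fin (N + 1))) (fun a => ‖x a‖) Finset.univ_nonempty
    refine ⟨a, le_antisymm (norm_le_pi_norm x a) ?_⟩
    exact (pi_norm_le_iff_of_nonneg (norm_nonneg _)).2 fun b => ha b (Finset.mem_univ _)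
  have hxn : ‖x‖ ≠ 0 := norm_ne_zero_iff.2 hx.1
  have hxa : x a ≠ 0 := norm_ne_zero_iff.1 (by rw [ha]; exact hxn)
  obtain ⟨c, hc⟩ : ∃ c : ℂ, c = (x a)⁻¹ := ⟨_, rfl⟩
  have hc0 : c ≠ 0 := by rw [hc]; exact inv_ne_zero hxa
  have hcn : ‖c‖ * ‖x‖ = 1 := by rw [hc, norm_inv, ha, inv_mul_cancel₀ hxn]
  obtain ⟨x', hx'⟩ : ∃ x' : Fin (N + 1) → ℂ, x' = c • x := ⟨_, rfl⟩
  have hx'n : ‖x'‖ = 1 := by rw [hx', norm_smul, hcn]
  have hx'a : x' a = 1 := by rw [hx', Pi.smul_apply, smul_eq_mul, hc, inv_mul_cancel₀ hxa]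
  have hx'c : x' ∈ cone P := by rw [hx']; exact Pool.Agent.AD.G.cone_smulC hP hx hc0
  have hξ : ∀ j, act B x (lv B x (v j)) ∈ conTan P x := fun j => by rw [act_lv hxB]; exact hv j
  obtain ⟨v', hv'⟩ : ∃ v' : Fin n → Fin (N + 1) → ℂ, v' = fun j => lsc B c (lv B x (v j)) := ⟨_, rfl⟩
  have hv'j : ∀ j, v' j = lsc B c (lv B x (v j)) := fun j => by rw [hv']
  have hv't : ∀ j, act B x' (v' j) ∈ conTan P x' := fun j => by
    rw [hv'j, hx', CmpC_act_lsc]
    exact Pool.Agent.AD.G.conTan_smulC hP (hξ j) c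
  -- the two sides for `(x', v')`
  have h1 : ‖Ω.toFun x (fun j => lv B x (v j))‖ * ‖x‖ = ‖Ω.toFun x' v'‖ := by
    rw [hv', ← Ω.scale x hx (fun j => lv B x (v j)) hξ c hc0, norm_mul, hx', mul_comm ‖c‖, mul_assoc, hcn, mul_one]
  have h3 : ∀ j, ‖v' j‖ ≤ LL B x (v j) := fun j => by
    refine (pi_norm_le_iff_of_nonneg (CmpC_LL_nonneg _ _)).2 fun i => ?_
    rw [hv'j]
    unfold lsc lv LL
    by_cases hi : i ∈ B
    · simp only [hi, if_true]
      rw [norm_mul, norm_inv, inv_mul_eq_div]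
      have h4 : ‖v j i‖ / ‖x i‖ ≤ ∑ i ∈ B, ‖v j i‖ / ‖x i‖ := Finset.single_le_sum (f := fun i => ‖v j i‖ / ‖x i‖) (fun i _ => by positivity) hi
      have h5 : 0 ≤ ‖v j‖ / ‖x‖ := by positivity
      linarith
    · simp only [hi, if_false]
      rw [norm_mul, hc, norm_inv, ha, inv_mul_eq_div]
      have h4 : ‖v j i‖ / ‖x‖ ≤ ‖v j‖ / ‖x‖ := by
        gcongr
        exact norm_le_pi_norm (v j) i
      have h5 : 0 ≤ ∑ i ∈ B, ‖v j i‖ / ‖x i‖ := Finset.sum_nonneg fun i _ => by positivity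
      linarith
  rw [h1]
  have hS0 : 0 ≤ ∑ a, C a := Finset.sum_nonneg fun a _ => hC0 a
  have hR0 : 0 ≤ (∑ a, C a) * ∏ j, LL B x (v j) ^ M :=
    mul_nonneg hS0 (Finset.prod_nonneg fun j _ => pow_nonneg (CmpC_LL_nonneg _ _) _)
  by_cases h0 : ∃ j, v' j = 0
  · obtain ⟨j, hj⟩ := h0
    have h4 := Ω.det x' hx'c v' hv't (Matrix.diagonal fun i => if i = j then 0 else 1)
    have h5 : (fun i => ∑ k, (Matrix.diagonal fun i => if i = j then (0 : ℂ) else 1) i k • v' k) = v' := by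
      funext i
      rw [Finset.sum_eq_single i]
      · rw [Matrix.diagonal_apply_eq]
        by_cases hij : i = j
        · rw [hij, hj, smul_zero]
        · rw [if_neg hij, one_smul]
      · intro k _ hk
        rw [Matrix.diagonal_apply_ne' _ hk, zero_smul]
      · intro h
        exact absurd (Finset.mem_univ _) h
    have h6 : (Matrix.diagonal fun i => if i = j then (0 : ℂ) else 1).det = 0 := by
      rw [Matrix.det_diagonal]
      exact Finset.prod_eq_zero (Finset.mem_univ j) (if_pos rfl)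
    rw [h5, h6, zero_pow (by omega), zero_mul] at h4
    rw [h4, norm_zero]
    exact hR0
  · push Not at h0
    have hn0 : ∀ j, ‖v' j‖ ≠ 0 := fun j => norm_ne_zero_iff.2 (h0 j)
    obtain ⟨u, hu⟩ : ∃ u : Fin n → Fin (N + 1) → ℂ, u = fun j => ((‖v' j‖⁻¹ : ℝ) : ℂ) • v' j := ⟨_, rfl⟩
    have huj : ∀ j, u j = ((‖v' j‖⁻¹ : ℝ) : ℂ) • v' j := fun j => by rw [hu]
    have hun : ∀ j, ‖u j‖ = 1 := fun j => by
      rw [huj, norm_smul, Complex.norm_real, norm_inv, norm_norm, inv_mul_cancel₀ (hn0 j)]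
    have hut : ∀ j, act B x' (u j) ∈ conTan P x' := fun j => by
      rw [huj, CmpC_act_smul]
      exact (conTan P x').smul_mem _ (hv't j)
    have h4 := Ω.det x' hx'c u hut (Matrix.diagonal fun j => ((‖v' j‖ : ℝ) : ℂ))
    have h5 : (fun i => ∑ k, (Matrix.diagonal fun j => ((‖v' j‖ : ℝ) : ℂ)) i k • u k) = v' := by
      funext i
      rw [Finset.sum_eq_single i]
      · rw [Matrix.diagonal_apply_eq, huj, smul_smul, ← Complex.ofReal_mul, mul_inv_cancel₀ (hn0 i), Complex.ofReal_one, one_smul]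
      · intro k _ hk
        rw [Matrix.diagonal_apply_ne' _ hk, zero_smul]
      · intro h
        exact absurd (Finset.mem_univ _) h
    rw [h5, Matrix.det_diagonal] at h4
    have h6 : ‖Ω.toFun x' u‖ ≤ C a := by
      have h7 := hA a x' hx'c u hut
      rw [hx'a, one_pow, one_mul] at h7
      rw [h7]
      refine hC a _ ?_
      refine (pi_norm_le_iff_of_nonneg zero_le_one).2 fun s => ?_
      rcases s with b | p
      · exact (norm_le_pi_norm x' b).trans hx'n.le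
      · exact (norm_le_pi_norm (u p.1) p.2).trans (hun p.1).le
    rw [h4, norm_mul, norm_pow, norm_prod]
    simp only [Complex.norm_real, norm_norm]
    rw [← Finset.prod_pow, mul_comm]
    refine mul_le_mul (h6.trans (Finset.single_le_sum (fun a _ => hC0 a) (Finset.mem_univ a))) ?_ (Finset.prod_nonneg fun j _ => pow_nonneg (norm_nonneg _) _) hS0
    exact Finset.prod_le_prod (fun j _ => pow_nonneg (norm_nonneg _) _) fun j _ => pow_le_pow_left₀ (norm_nonneg _) (h3 j) _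

end Pool.Agent.GL
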