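import Pool.Agent.GL.HorL
import Pool.Agent.GA.CntA
import Pool.Agent.GA.CntB
import Pool.Agent.GA.Lin0

/-!
# GL CntL: continuation of the variation field

`exists_linL`: near `z₁` write `F' = (z - z₁) ^ p h`, `h (z₁) ≠ 0` (`F' ≠ 0` somewhere, so not identically `0` near `z₁`), and `(eF B F)' = embV B F F' = (z - z₁) ^ p embV B F h`, `h (z) ∈ Tc P b (F z)`; `exists_rowL` at `(F z₁, h z₁)`; by
homogeneity (`hom_gfamL`) `∂_v G_l (x, t^p h) = t^(p (e_l - 1)) ∂_v G_l (x, h)`, `∂_x G_l (x, t^p h) = t^(p e_l) ∂_x G_l (x, h)`, and `e_l ≥ 1` for the rows of a nonzero minor; divide and solve for `V'` (as GA/Lin0).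
`contL`, `detL`: see `CntM`.
-/

set_option autoImplicit false

open MvPolynomial Topology Filter Metric
open Pool.Agent.H13.SM (conTan cone)
open Pool.Agent.GG Pool.Agent.GA

namespace Pool.Agent.GL

variable {N : ℕ} {P : Ideal (MvPolynomial (Fin (N + 1)) ℂ)} {B : Finset (Fin (N + 1))} {J : ℕ} {m : Fin J → ℕ} {θ : ∀ k, LogSec P B (m k)} {b : Fin (N + 1)}
  {F : ℂ → Fin (N + 1) → ℂ} {OO : Subalgebra ℂ (ℂ → ℂ)}

private theorem CntL_eval {y : ℂ → Ph N → ℂ} {t : ℂ} (hy : AnalyticAt ℂ y t) (g : MvPolynomial (Ph N) ℂ) :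
    AnalyticAt ℂ (fun s => eval (y s) g) t :=
  AnalyticAt.comp (g := fun y : Ph N → ℂ => eval y g) (f := y) (AnalyticOnNhd.eval_mvPolynomial g (y t) (Set.mem_univ _)) hy

/-- the linear differential equation of the variations of a curve with `x' = (w - z₁) ^ p h`, for a family which is homogeneous in `v` -/
theorem lin_core {ι : Type} {G : ι → MvPolynomial (Ph N) ℂ} (hG : ∀ l, ∃ e, IsWeightedHomogeneous (wv N) (G l) e) {x h : ℂ → Fin (N + 1) → ℂ} {z₁ : ℂ}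
    {p : ℕ} {U : Set ℂ} (hU : U ∈ 𝓝 z₁) (hx : AnalyticAt ℂ x z₁) (hh : AnalyticAt ℂ h z₁) (hxh : ∀ᶠ w in 𝓝 z₁, deriv x w = (w - z₁) ^ p • h w)
    {I : Fin (N + 1) → ι} (hI : eval (pt (x z₁) (h z₁)) (vdet G I) ≠ 0) :
    ∃ ρ > 0, ball z₁ ρ ⊆ U ∧ ∃ A : ℂ → (Fin (N + 1) → ℂ) →L[ℂ] (Fin (N + 1) → ℂ), (∀ w ∈ ball z₁ ρ, AnalyticAt ℂ A w) ∧
      ∀ z₂ ∈ ball z₁ ρ, ∀ V : ℂ → Fin (N + 1) → ℂ, AnalyticAt ℂ V z₂ → (∀ᶠ w in 𝓝 z₂, ∀ l, lhs (G l) x V w = 0) →
        ∀ᶠ w in 𝓝 z₂, deriv V w = A w (V w) := by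
  set y : ℂ → Ph N → ℂ := fun w => pt (x w) (h w) with hy
  have hya : ∀ w, AnalyticAt ℂ x w → AnalyticAt ℂ h w → AnalyticAt ℂ y w := by
    intro w h1 h2
    rw [analyticAt_pi_iff]
    rintro (i | i)
    · exact (analyticAt_pi_iff.mp h1) i
    · exact (analyticAt_pi_iff.mp h2) i
  have hdet : ∀ᶠ w in 𝓝 z₁, eval (y w) (vdet G I) ≠ 0 := (CntL_eval (hya z₁ hx hh) (vdet G I)).continuousAt.eventually_ne hI
  have hUe : ∀ᶠ w in 𝓝 z₁, w ∈ U := hU
  obtain ⟨ρ, hρ, hB⟩ := Metric.eventually_nhds_iff_ball.1 (hUe.and (hx.eventually_analyticAt.and (hh.eventually_analyticAt.and (hdet.and hxh))))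
  have hy' : ∀ w ∈ ball z₁ ρ, AnalyticAt ℂ y w := fun w hw => hya w (hB w hw).2.1 (hB w hw).2.2.1
  set β : ℂ → Fin (N + 1) → Fin (N + 1) → ℂ := fun w i j =>
    -(w - z₁) ^ p * (eval (y w) (vdet G I))⁻¹ * eval (y w) (∑ k, (vmat G I).adjugate i k * pderiv (Sum.inl j) (G (I k))) with hβ
  have hβa : ∀ w ∈ ball z₁ ρ, AnalyticAt ℂ (fun w => linMap (β w)) w := by
    intro w hw
    refine analyticAt_linMap fun i j => ?_
    have h1 : AnalyticAt ℂ (fun w : ℂ => -(w - z₁) ^ p) w := ((analyticAt_id.sub analyticAt_const).pow p).neg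
    exact (h1.mul ((CntL_eval (hy' w hw) _).inv (hB w hw).2.2.2.1)).mul (CntL_eval (hy' w hw) _)
  refine ⟨ρ, hρ, fun w hw => (hB w hw).1, fun w => linMap (β w), hβa, fun z₂ hz₂ V hV hl => ?_⟩
  have hcont : ContinuousAt (deriv V) z₂ := hV.deriv.continuousAt
  have hcont' : ContinuousAt (fun w => linMap (β w) (V w)) z₂ := (hβa z₂ hz₂).continuousAt.clm_apply hV.continuousAt
  have hne : ∀ᶠ w in 𝓝[≠] z₂, w ≠ z₁ := by
    rcases eq_or_ne z₂ z₁ with h1 | h1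
    · rw [h1]
      exact self_mem_nhdsWithin
    · exact (continuousAt_id.eventually_ne h1).filter_mono nhdsWithin_le_nhds
  have key : ∀ᶠ w in 𝓝[≠] z₂, deriv V w = linMap (β w) (V w) := by
    filter_upwards [hne, (isOpen_ball.eventually_mem hz₂).filter_mono nhdsWithin_le_nhds, hl.filter_mono nhdsWithin_le_nhds] with w hw hwB hwl
    have ht : (w - z₁) ^ p ≠ 0 := pow_ne_zero _ (sub_ne_zero.2 hw)
    have h1 : ∀ l, (w - z₁) ^ p * ∑ c, eval (y w) (pderiv (Sum.inl c) (G (I l))) * V w c +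
        ∑ c, eval (y w) (pderiv (Sum.inr c) (G (I l))) * deriv V w c = 0 := by
      intro l
      obtain ⟨e, he⟩ := hG (I l)
      refine lin_row he ht ?_
      have h2 := hwl (I l)
      rw [lhs, (hB w hwB).2.2.2.2] at h2
      exact h2
    funext i
    rw [linMap_apply, lin_solve (hB w hwB).2.2.2.1 h1 i]
  exact (hcont.eventuallyEq_nhds_iff_eventuallyEq_nhdsNE hcont').1 key

private theorem CntL_embV_smul (x v : Fin (N + 1) → ℂ) (c : ℂ) : embV B x (c • v) = c • embV B x v := by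
  funext j
  refine Fin.lastCases ?_ (fun i => ?_) j
  · have h1 : ∀ v : Fin (N + 1) → ℂ, embV B x v (Fin.last (N + 1)) = -((∏ i ∈ B, x i)⁻¹ * ∑ i ∈ B, (x i)⁻¹ * v i) := fun v => Fin.snoc_last _ _
    rw [Pi.smul_apply, h1, h1, smul_eq_mul, mul_neg, ← mul_assoc c, mul_comm c, mul_assoc _ c, Finset.mul_sum (a := c)]
    refine congrArg (fun s => -((∏ i ∈ B, x i)⁻¹ * s)) (Finset.sum_congr rfl fun i _ => ?_)
    rw [Pi.smul_apply, smul_eq_mul]
    ring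
  · have h1 : ∀ v : Fin (N + 1) → ℂ, embV B x v i.castSucc = v i := fun v => Fin.snoc_castSucc _ _ _
    rw [Pi.smul_apply, h1, h1, Pi.smul_apply]

private theorem CntL_embV_an {x h : ℂ → Fin (N + 1) → ℂ} {z : ℂ} (hx : AnalyticAt ℂ x z) (hh : AnalyticAt ℂ h z) (h0 : ∀ i ∈ B, x z i ≠ 0) :
    AnalyticAt ℂ (fun w => embV B (x w) (h w)) z := by
  have hxi : ∀ i, AnalyticAt ℂ (fun w => x w i) z := fun i => (analyticAt_pi_iff.1 hx) i
  have hhi : ∀ i, AnalyticAt ℂ (fun w => h w i) z := fun i => (analyticAt_pi_iff.1 hh) i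
  refine AnalyticAt.pi fun j => ?_
  refine Fin.lastCases ?_ (fun i => ?_) j
  · have e : (fun w => embV B (x w) (h w) (Fin.last (N + 1))) = fun w => -((∏ i ∈ B, x w i)⁻¹ * ∑ i ∈ B, (x w i)⁻¹ * h w i) := by
      funext w
      exact Fin.snoc_last _ _
    rw [e]
    refine ((((Finset.analyticAt_fun_prod _ fun i _ => hxi i).inv (Finset.prod_ne_zero_iff.2 h0))).mul ?_).neg
    exact Finset.analyticAt_fun_sum _ fun i hi => ((hxi i).inv (h0 i hi)).mul (hhi i)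
  · have e : (fun w => embV B (x w) (h w) i.castSucc) = fun w => h w i := by
      funext w
      exact Fin.snoc_castSucc _ _ _
    rw [e]
    exact hhi i

theorem exists_linL (hθ : LogPolar θ) (hm : ∀ k, 1 ≤ m k) (hb : b ∈ B) (f : LFrame θ b) (hF : LCurve P B b F) (hne : ∃ w ∈ HP, deriv F w ≠ 0) {z₁ : ℂ} (hz : z₁ ∈ HP) :
    ∃ ρ > 0, ball z₁ ρ ⊆ HP ∧ ∃ A : ℂ → (Fin (N + 2) → ℂ) →L[ℂ] (Fin (N + 2) → ℂ), (∀ w ∈ ball z₁ ρ, AnalyticAt ℂ A w) ∧
      ∀ z₂ ∈ ball z₁ ρ, ∀ V : ℂ → Fin (N + 2) → ℂ, AnalyticAt ℂ V z₂ → (∀ᶠ w in 𝓝 z₂, ∀ l, lhs (gfamL f l) (eF B F) V w = 0) →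
        ∀ᶠ w in 𝓝 z₂, deriv V w = A w (V w) := by
  have hHo : IsOpen HP := isOpen_lt continuous_const Complex.continuous_re
  have hHP : ∀ᶠ w in 𝓝 z₁, w ∈ HP := hHo.mem_nhds hz
  have hU : ∀ w ∈ HP, F w ∈ Uc P B b := fun w hw => ⟨hF.curve.cone w hw, hF.one w, hF.ne w hw⟩
  have hFa := hF.curve.an
  have hnz : ¬ ∀ᶠ w in 𝓝 z₁, deriv F w = 0 := by
    intro h
    obtain ⟨w, hw, hw0⟩ := hne
    have h1 : AnalyticOnNhd ℂ (deriv F) HP := fun w hw => (hFa w hw).deriv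
    have h2 : IsPreconnected HP := (convex_halfSpace_re_gt 0).isPreconnected
    exact hw0 (h1.eqOn_zero_of_preconnected_of_eventuallyEq_zero h2 hz h hw)
  obtain ⟨p, h, hha, hh0, hhx⟩ := ((hFa z₁ hz).deriv.exists_eventuallyEq_pow_smul_nonzero_iff).2 hnz
  have hdx : ∀ᶠ w in 𝓝 z₁, deriv F w ∈ Tc P b (F w) := by
    filter_upwards [hHP] with w hw
    exact deriv_mem_Tc (hFa w hw) ((hHo.eventually_mem hw).mono hU)
  have hnz' : ∀ᶠ w in 𝓝[≠] z₁, (w - z₁) ^ p ≠ 0 := by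
    filter_upwards [self_mem_nhdsWithin] with w hw
    exact pow_ne_zero _ (sub_ne_zero.2 hw)
  have hhT : h z₁ ∈ Tc P b (F z₁) := by
    refine ⟨fun Q hQ => ?_, ?_⟩
    · have h1 : ContinuousAt (fun w => ∑ i, h w i * eval (F w) (pderiv i Q)) z₁ := by
        refine tendsto_finsetSum _ fun i _ => ?_
        refine ((continuousAt_pi.1 hha.continuousAt) i).mul ?_
        exact ContinuousAt.comp (g := fun y : Fin (N + 1) → ℂ => eval y (pderiv i Q)) (MvPolynomial.continuous_eval _).continuousAt (hFa z₁ hz).continuousAt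
      have h2 : Tendsto (fun w => ∑ i, h w i * eval (F w) (pderiv i Q)) (𝓝[≠] z₁) (𝓝 0) := by
        refine tendsto_const_nhds.congr' ?_
        filter_upwards [hnz', hdx.filter_mono nhdsWithin_le_nhds, hhx.filter_mono nhdsWithin_le_nhds] with w hw hw' hw''
        have h3 := hw'.1 Q hQ
        rw [hw''] at h3
        simp only [Pi.smul_apply, smul_eq_mul, mul_assoc, ← Finset.mul_sum] at h3
        exact ((mul_eq_zero.1 h3).resolve_left hw).symm
      exact tendsto_nhds_unique (h1.tendsto.mono_left nhdsWithin_le_nhds) h2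
    · have h1 : ContinuousAt (fun w => h w b) z₁ := (continuousAt_pi.1 hha.continuousAt) b
      have h2 : Tendsto (fun w => h w b) (𝓝[≠] z₁) (𝓝 0) := by
        refine tendsto_const_nhds.congr' ?_
        filter_upwards [hnz', hdx.filter_mono nhdsWithin_le_nhds, hhx.filter_mono nhdsWithin_le_nhds] with w hw hw' hw''
        have h3 := hw'.2
        rw [hw''] at h3
        simp only [Pi.smul_apply, smul_eq_mul] at h3
        exact ((mul_eq_zero.1 h3).resolve_left hw).symm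
      exact tendsto_nhds_unique (h1.tendsto.mono_left nhdsWithin_le_nhds) h2
  obtain ⟨I, hI⟩ := exists_rowL hθ f hb (hU z₁ hz) hhT hh0
  have hxh : ∀ᶠ w in 𝓝 z₁, deriv (eF B F) w = (w - z₁) ^ p • embV B (F w) (h w) := by
    filter_upwards [hHP, hhx] with w hw hw'
    have h1 : deriv (eF B F) w = embV B (F w) (deriv F w) := deriv_emb (hFa w hw) (hF.ne w hw)
    rw [h1, hw', CntL_embV_smul]
  exact lin_core (fun l => ⟨_, hom_gfamL f l⟩) hHP (analyticAt_emb (hFa z₁ hz) (hF.ne z₁ hz)) (CntL_embV_an (hFa z₁ hz) hha (hF.ne z₁ hz)) hxh hI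

end Pool.Agent.GL
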