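import Pool.Agent.GL.CntL

/-!
# GL CntM: continuation of the variation field

`contL`: `RelP.lhs` for `G = gfamL f l`, `g = gval (thv θ F F') l` (`eval_curve`); `exists_continuation`, `exists_linear` (GA/CntA, CntB, compare GA/Cnt) with `exists_linL`; relations and linearised relations are analytic on `HP`: identity theorem.
`detL`: uniqueness for the linear equation and identity theorem.
-/

set_option autoImplicit false

open MvPolynomial Topology Filter Metric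
open Pool.Agent.H13.SM (conTan cone)
open Pool.Agent.GG Pool.Agent.GA

namespace Pool.Agent.GL

variable {N : ℕ} {P : Ideal (MvPolynomial (Fin (N + 1)) ℂ)} {B : Finset (Fin (N + 1))} {J : ℕ} {m : Fin J → ℕ} {θ : ∀ k, LogSec P B (m k)} {b : Fin (N + 1)}
  {F : ℂ → Fin (N + 1) → ℂ} {OO : Subalgebra ℂ (ℂ → ℂ)}

private theorem isOpen_hp : IsOpen HP := isOpen_lt continuous_const Complex.continuous_re

private theorem convex_hp : Convex ℝ HP := convex_halfSpace_re_gt 0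

private theorem an_evO {σ : Type} [Fintype σ] {w : ℂ} (hO : ∀ g ∈ OO, AnalyticAt ℂ g w) {y : ℂ → σ → ℂ} (hy : AnalyticAt ℂ y w)
    (R : MvPolynomial σ OO) : AnalyticAt ℂ (evO OO y R) w := by
  have h1 : evO OO y R = fun w => ∑ d ∈ R.support, ((R.coeff d : OO) : ℂ → ℂ) w * ∏ i, y w i ^ d i := by
    funext w
    unfold evO
    rw [eval₂_eq']
    rfl
  rw [h1]
  refine Finset.analyticAt_fun_sum _ fun d _ => ?_
  refine (hO _ (R.coeff d).2).mul ?_
  exact Finset.analyticAt_fun_prod _ fun i _ => (analyticAt_pi_iff.1 hy i).pow _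

private theorem an_pt {x : ℂ → Fin (N + 1) → ℂ} {w : ℂ} (hx : AnalyticAt ℂ x w) : AnalyticAt ℂ (fun w => pt (x w) (deriv x w)) w := by
  rw [analyticAt_pi_iff]
  rintro (b | b)
  · exact analyticAt_pi_iff.1 hx b
  · exact analyticAt_pi_iff.1 hx.deriv b

private theorem an_eF (hF : LCurve P B b F) {w : ℂ} (hw : w ∈ HP) : AnalyticAt ℂ (eF B F) w := analyticAt_emb (hF.curve.an w hw) (hF.ne w hw)

private theorem relP_congr {x V V' : ℂ → Fin (N + 1) → ℂ} {w₀ : ℂ} (h : RelP OO x V w₀) (e : V =ᶠ[𝓝 w₀] V') : RelP OO x V' w₀ := by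
  intro R hR
  filter_upwards [h R hR, eventually_eventually_nhds.2 e] with w h1 h2
  have e1 : V w = V' w := h2.self_of_nhds
  have e2 : deriv V w = deriv V' w := Filter.EventuallyEq.deriv_eq h2
  rw [← e1, ← e2]
  exact h1

/-- relations and linearised relations are analytic: identity theorem -/
private theorem relP_trans (hO : IsSmallRing OO HP) {x V : ℂ → Fin (N + 1) → ℂ} (hx : ∀ w ∈ HP, AnalyticAt ℂ x w) {D : Set ℂ} (hDo : IsOpen D)
    (hDc : IsPreconnected D) (hD : D ⊆ HP) (hV : ∀ w ∈ D, AnalyticAt ℂ V w) {w₀ w₁ : ℂ} (hw₀ : w₀ ∈ D) (hw₁ : w₁ ∈ D) (h : RelP OO x V w₀) :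
    RelP OO x V w₁ := by
  intro R hR
  have hev : ∀ R : MvPolynomial (Ph N) OO, AnalyticOnNhd ℂ (evO OO (fun w => pt (x w) (deriv x w)) R) HP := fun R w hw =>
    an_evO (fun g hg => hO.an g hg w hw) (an_pt (hx w hw)) R
  have h2 : Set.EqOn (evO OO (fun w => pt (x w) (deriv x w)) R) 0 HP :=
    (hev R).eqOn_zero_of_preconnected_of_eventuallyEq_zero convex_hp.isPreconnected (hD hw₁) hR
  have h3 : ∀ᶠ w in 𝓝 w₀, evO OO (fun w => pt (x w) (deriv x w)) R w = 0 := by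
    filter_upwards [isOpen_hp.mem_nhds (hD hw₀)] with w hw using h2 hw
  have h5 : AnalyticOnNhd ℂ (fun w => ∑ s, evO OO (fun w => pt (x w) (deriv x w)) (pderiv s R) w * pt (V w) (deriv V w) s) D := fun w hw =>
    Finset.analyticAt_fun_sum _ fun s _ => (hev _ w (hD hw)).mul (analyticAt_pi_iff.1 (an_pt (hV w hw)) s)
  have h6 := h5.eqOn_zero_of_preconnected_of_eventuallyEq_zero hDc hw₀ (h R h3)
  filter_upwards [hDo.mem_nhds hw₁] with w hw using h6 hw

/-- the linearised equations of the family, from the relations -/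
private theorem lin_of_relP (f : LFrame θ b) (hF : LCurve P B b F)
    (hg : ∀ l : GIx f.q J, (fun w => gval (thv θ (F w) (deriv F w)) l) ∈ OO) {V : ℂ → Fin (N + 2) → ℂ} {s : ℂ} (hs : s ∈ HP)
    (hR : RelP OO (eF B F) V s) : ∀ᶠ t in 𝓝 s, ∀ l, lhs (gfamL f l) (eF B F) V t = 0 := by
  rw [Filter.eventually_all]
  intro l
  refine RelP.lhs hR (hg l) ?_
  filter_upwards [isOpen_hp.mem_nhds hs] with t ht
  exact eval_curve f hF l ht

theorem contL (hθ : LogPolar θ) (hm : ∀ k, 1 ≤ m k) (hb : b ∈ B) (f : LFrame θ b) (hF : LCurve P B b F) (hne : ∃ w ∈ HP, deriv F w ≠ 0) (hO : IsSmallRing OO HP)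
    (hg : ∀ l : GIx f.q J, (fun w => gval (thv θ (F w) (deriv F w)) l) ∈ OO) {w₀ : ℂ} (hw : w₀ ∈ HP) {V : ℂ → Fin (N + 2) → ℂ} (hV : AnalyticAt ℂ V w₀)
    (hR : RelP OO (eF B F) V w₀) :
    ∃ V' : ℂ → Fin (N + 2) → ℂ, (∀ w ∈ HP, AnalyticAt ℂ V' w ∧ RelP OO (eF B F) V' w) ∧ V' =ᶠ[𝓝 w₀] V := by
  have hx : ∀ w ∈ HP, AnalyticAt ℂ (eF B F) w := fun w hw => an_eF hF hw
  refine exists_continuation isOpen_hp convex_hp (Sol := fun σ z => AnalyticAt ℂ σ z ∧ RelP OO (eF B F) σ z)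
    (fun σ σ' z h e => ⟨h.1.congr e, relP_congr h.2 e⟩) ?_ ?_ ?_ hw ⟨hV, hR⟩
  · intro σ z hz h
    obtain ⟨r, hr, hball⟩ := Metric.eventually_nhds_iff_ball.1 (h.1.eventually_analyticAt.and (isOpen_hp.mem_nhds hz))
    filter_upwards [isOpen_ball.mem_nhds (mem_ball_self hr)] with w hw
    exact ⟨(hball w hw).1, relP_trans hO hx isOpen_ball (convex_ball z r).isPreconnected (fun w hw => (hball w hw).2)
      (fun w hw => (hball w hw).1) (mem_ball_self hr) hw h.2⟩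
  · intro W _ hWc _ σ σ' h1 h2 z hz he
    exact AnalyticOnNhd.eqOn_of_preconnected_of_eventuallyEq (fun w hw => (h1 w hw).1) (fun w hw => (h2 w hw).1) hWc.isPreconnected hz he
  · intro z hz
    obtain ⟨ρ, hρ, hρU, A, hA, hAV⟩ := exists_linL hθ hm hb f hF hne hz
    obtain ⟨r, hr, hrρ, hBr, hsol⟩ := exists_linear (hA z (mem_ball_self hρ)) hρ
    have hsub : ball z r ⊆ ball z ρ := ball_subset_ball hrρ
    refine ⟨r, hr, hsub.trans hρU, fun W hWo hWc hWr hWn σ hσ => ?_⟩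
    obtain ⟨w, hwW⟩ := hWn
    have hV₀ : ∀ s ∈ W, HasDerivAt σ (A s (σ s)) s := by
      intro s hs
      have h2 := lin_of_relP f hF hg (hρU (hsub (hWr hs))) (hσ s hs).2
      have h4 := (hAV s (hsub (hWr hs)) σ (hσ s hs).1 h2).self_of_nhds
      rw [← h4]
      exact (hσ s hs).1.differentiableAt.hasDerivAt
    obtain ⟨V', hVw, hV'⟩ := hsol w (hWr hwW) (σ w)
    have hVeq : Set.EqOn V' σ W :=
      linear_unique hWo hWc.isPreconnected hwW (hBr w (hWr hwW)) hVw (fun s hs => hV' s (hWr hs)) hV₀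
    have hVa : AnalyticOnNhd ℂ V' (ball z r) := analyticOnNhd_of_linear isOpen_ball hV'
    have hVσ : σ =ᶠ[𝓝 w] V' := by
      filter_upwards [hWo.mem_nhds hwW] with s hs using (hVeq hs).symm
    refine ⟨V', fun s hs => ⟨hVa s hs, ?_⟩, fun s hs => (hVeq hs).symm⟩
    exact relP_trans hO hx isOpen_ball (convex_ball z r).isPreconnected (hsub.trans hρU) hVa (hWr hwW) hs (relP_congr (hσ w hwW).2 hVσ)

theorem detL (hθ : LogPolar θ) (hm : ∀ k, 1 ≤ m k) (hb : b ∈ B) (f : LFrame θ b) (hF : LCurve P B b F) (hne : ∃ w ∈ HP, deriv F w ≠ 0) (hO : IsSmallRing OO HP)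
    (hg : ∀ l : GIx f.q J, (fun w => gval (thv θ (F w) (deriv F w)) l) ∈ OO) {V : ℂ → Fin (N + 2) → ℂ}
    (hV : ∀ w ∈ HP, AnalyticAt ℂ V w ∧ RelP OO (eF B F) V w) {w₁ : ℂ} (hw : w₁ ∈ HP) (h0 : V w₁ = 0) : ∀ w ∈ HP, V w = 0 := by
  obtain ⟨ρ, hρ, hρU, A, hA, hAV⟩ := exists_linL hθ hm hb f hF hne hw
  have hlin : ∀ s ∈ ball w₁ ρ, HasDerivAt V (A s (V s)) s := by
    intro s hs
    have h2 := lin_of_relP f hF hg (hρU hs) (hV s (hρU hs)).2
    have h4 := (hAV s hs V (hV s (hρU hs)).1 h2).self_of_nhds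
    rw [← h4]
    exact (hV s (hρU hs)).1.differentiableAt.hasDerivAt
  have h1 : V =ᶠ[𝓝 w₁] fun _ => 0 := by
    refine linear_unique_nhds (hA w₁ (mem_ball_self hρ)) h0 ?_ (Filter.Eventually.of_forall fun s => ?_)
    · filter_upwards [isOpen_ball.mem_nhds (mem_ball_self hρ)] with s hs using hlin s hs
    · rw [map_zero]
      exact hasDerivAt_const s _
  intro w hw'
  exact AnalyticOnNhd.eqOn_of_preconnected_of_eventuallyEq (fun w hw => (hV w hw).1) analyticOnNhd_const convex_hp.isPreconnected hw h1 hw'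

end Pool.Agent.GL
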