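import Pool.Agent.GL.Chart
import Pool.Agent.GA.GroCore

/-!
# GL Grow: the height

`log ‖x‖ ≥ 0` as `x b = 1`.  `rho_path`: on the segment `|log ‖x‖|' ≤ ‖x'‖ / ‖x‖` (Gronwall: `GA.norm_le_exp` in `GA/GroCore`, or `‖x (z)‖ ≤ ‖x (z')‖ exp (Λ |z - z'|)` by a differential inequality) and
`|log |x i||' ≤ |x i'| / |x i|` in both directions; sum up.
-/

set_option autoImplicit false

open MvPolynomial Topology Filter Metric
open Pool.Agent.H13.SM (conTan cone)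
open Pool.Agent.GG Pool.Agent.GA

namespace Pool.Agent.GL

variable {N : ℕ} {P : Ideal (MvPolynomial (Fin (N + 1)) ℂ)} {B : Finset (Fin (N + 1))} {b : Fin (N + 1)}

private theorem one_le_norm {x : Fin (N + 1) → ℂ} (hx : x ∈ Uc P B b) : 1 ≤ ‖x‖ := by
  have h := norm_le_pi_norm x b
  rwa [hx.2.1, norm_one] at h

private theorem term_nonneg {x : Fin (N + 1) → ℂ} (hx : x ∈ Uc P B b) {i : Fin (N + 1)} (hi : i ∈ B) : 0 ≤ Real.log ‖x‖ - Real.log ‖x i‖ :=
  sub_nonneg.2 (Real.log_le_log (norm_pos_iff.2 (hx.2.2 i hi)) (norm_le_pi_norm x i))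

private theorem log_le_rho {x : Fin (N + 1) → ℂ} (hx : x ∈ Uc P B b) : Real.log ‖x‖ ≤ Rho B x :=
  le_add_of_nonneg_right (Finset.sum_nonneg fun _ hi => term_nonneg hx hi)

theorem rho_nonneg {x : Fin (N + 1) → ℂ} (hx : x ∈ Uc P B b) : 0 ≤ Rho B x :=
  (Real.log_nonneg (one_le_norm hx)).trans (log_le_rho hx)

theorem norm_le_rho {x : Fin (N + 1) → ℂ} (hx : x ∈ Uc P B b) : ‖x‖ ≤ Real.exp (Rho B x) := by
  rw [← Real.log_le_iff_le_exp (zero_lt_one.trans_le (one_le_norm hx))]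
  exact log_le_rho hx

theorem inv_le_rho {x : Fin (N + 1) → ℂ} (hx : x ∈ Uc P B b) {i : Fin (N + 1)} (hi : i ∈ B) : ‖x i‖⁻¹ ≤ Real.exp (Rho B x) := by
  have h0 : 0 < ‖x i‖ := norm_pos_iff.2 (hx.2.2 i hi)
  rw [← Real.log_le_iff_le_exp (inv_pos.2 h0), Real.log_inv]
  have h1 : Real.log ‖x‖ - Real.log ‖x i‖ ≤ ∑ i ∈ B, (Real.log ‖x‖ - Real.log ‖x i‖) :=
    Finset.single_le_sum (f := fun i => Real.log ‖x‖ - Real.log ‖x i‖) (fun j hj => term_nonneg hx hj) hi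
  have h2 := Real.log_nonneg (one_le_norm hx)
  unfold Rho
  linarith

theorem LL_nonneg (x v : Fin (N + 1) → ℂ) : 0 ≤ LL B x v :=
  add_nonneg (div_nonneg (norm_nonneg _) (norm_nonneg _)) (Finset.sum_nonneg fun _ _ => div_nonneg (norm_nonneg _) (norm_nonneg _))

private theorem norm_div_le_LL (x v : Fin (N + 1) → ℂ) : ‖v‖ / ‖x‖ ≤ LL B x v :=
  le_add_of_nonneg_right (Finset.sum_nonneg fun _ _ => div_nonneg (norm_nonneg _) (norm_nonneg _))

private theorem sum_le_LL (x v : Fin (N + 1) → ℂ) : ∑ i ∈ B, ‖v i‖ / ‖x i‖ ≤ LL B x v :=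
  le_add_of_nonneg_left (div_nonneg (norm_nonneg _) (norm_nonneg _))

theorem norm_le_LL {x : Fin (N + 1) → ℂ} (hx : x ∈ Uc P B b) (v : Fin (N + 1) → ℂ) : ‖v‖ ≤ LL B x v * Real.exp (Rho B x) := by
  have h0 : 0 < ‖x‖ := zero_lt_one.trans_le (one_le_norm hx)
  calc ‖v‖ = ‖v‖ / ‖x‖ * ‖x‖ := (div_mul_cancel₀ _ h0.ne').symm
    _ ≤ LL B x v * Real.exp (Rho B x) := mul_le_mul (norm_div_le_LL x v) (norm_le_rho hx) h0.le (LL_nonneg x v)

/-- the points of the phase space with bounded height and length are in a compact set -/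
theorem ePt_bound (B : Finset (Fin (N + 1))) (R L : ℝ) : ∃ M : ℝ, ∀ (P : Ideal (MvPolynomial (Fin (N + 1)) ℂ)) (b : Fin (N + 1)), ∀ x ∈ Uc P B b, ∀ v : Fin (N + 1) → ℂ,
    Rho B x ≤ R → LL B x v ≤ L → ‖ePt B x v‖ ≤ M := by
  refine ⟨Real.exp R + Real.exp R ^ B.card + |L| * Real.exp R + Real.exp R ^ B.card * |L|, fun P b x hx v hR hL => ?_⟩
  have hE := Real.exp_pos R
  have hE' : 0 < Real.exp R ^ B.card := pow_pos hE _
  have hL0 : 0 ≤ |L| := abs_nonneg L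
  have a1 : 0 ≤ |L| * Real.exp R := by positivity
  have a2 : 0 ≤ Real.exp R ^ B.card * |L| := by positivity
  have hRR : Real.exp (Rho B x) ≤ Real.exp R := Real.exp_le_exp.2 hR
  have hLL : LL B x v ≤ |L| := hL.trans (le_abs_self L)
  have h1 : ∀ i, ‖x i‖ ≤ Real.exp R := fun i => (norm_le_pi_norm x i).trans ((norm_le_rho hx).trans hRR)
  have h2 : ‖(∏ i ∈ B, x i)⁻¹‖ ≤ Real.exp R ^ B.card := by
    rw [norm_inv, norm_prod, ← Finset.prod_inv_distrib]
    refine (Finset.prod_le_prod (fun i _ => inv_nonneg.2 (norm_nonneg _)) fun i hi => (inv_le_rho hx hi).trans hRR).trans (le_of_eq ?_)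
    rw [Finset.prod_const]
  have h3 : ∀ i, ‖v i‖ ≤ |L| * Real.exp R := fun i =>
    (norm_le_pi_norm v i).trans ((norm_le_LL hx v).trans (mul_le_mul hLL hRR (Real.exp_pos _).le hL0))
  have h4 : ‖-((∏ i ∈ B, x i)⁻¹ * ∑ i ∈ B, (x i)⁻¹ * v i)‖ ≤ Real.exp R ^ B.card * |L| := by
    rw [norm_neg, norm_mul]
    refine mul_le_mul h2 ?_ (norm_nonneg _) hE'.le
    refine (norm_sum_le _ _).trans (le_trans (le_of_eq (Finset.sum_congr rfl fun i _ => ?_)) ((sum_le_LL x v).trans hLL))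
    rw [norm_mul, norm_inv, div_eq_inv_mul]
  rw [pi_norm_le_iff_of_nonneg (by linarith)]
  rintro (i | i)
  · show ‖emb B x i‖ ≤ _
    unfold emb
    refine Fin.lastCases ?_ (fun i => ?_) i
    · rw [Fin.snoc_last]
      linarith
    · rw [Fin.snoc_castSucc]
      linarith [h1 i]
  · show ‖embV B x v i‖ ≤ _
    unfold embV
    refine Fin.lastCases ?_ (fun i => ?_) i
    · rw [Fin.snoc_last]
      linarith
    · rw [Fin.snoc_castSucc]
      linarith [h3 i]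

private theorem seg_le {E : Type*} [NormedAddCommGroup E] [NormedSpace ℂ E] {X : ℂ → E} {W : Set ℂ} (hW : Convex ℝ W)
    (hX : ∀ z ∈ W, DifferentiableAt ℂ X z) {Λ : ℝ} (h : ∀ z ∈ W, ‖deriv X z‖ ≤ Λ * ‖X z‖) {z z' : ℂ} (hz : z ∈ W) (hz' : z' ∈ W) :
    ‖X z‖ ≤ ‖X z'‖ * Real.exp (Λ * ‖z - z'‖) := by
  have hmem : ∀ t ∈ Set.Icc (0 : ℝ) 1, z' + t * (z - z') ∈ W := by
    intro t ht
    have h1 := hW.add_smul_sub_mem hz' hz ht
    rwa [Complex.real_smul] at h1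
  have hγ : ∀ t : ℝ, HasDerivAt (fun t : ℝ => z' + t * (z - z')) (z - z') t := by
    intro t
    have h1 : HasDerivAt (fun t : ℝ => (t : ℂ)) 1 t := Complex.ofRealCLM.hasDerivAt
    have h2 := (h1.mul_const (z - z')).const_add z'
    rwa [one_mul] at h2
  have h1 := norm_le_exp (E := E) (f := fun t : ℝ => X (z' + t * (z - z'))) (f' := fun t : ℝ => (z - z') • deriv X (z' + t * (z - z')))
    (k := fun _ => Λ * ‖z - z'‖) zero_le_one (fun t ht => HasDerivAt.scomp (𝕜' := ℂ) t (hX _ (hmem t ht)).hasDerivAt (hγ t)) continuousOn_const (by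
      intro t ht
      rw [norm_smul]
      have h2 := mul_le_mul_of_nonneg_left (h _ (hmem t ht)) (norm_nonneg (z - z'))
      linarith [h2, mul_comm (‖z - z'‖) (Λ * ‖X (z' + t * (z - z'))‖)])
  simpa using h1

theorem rho_path {x : ℂ → Fin (N + 1) → ℂ} {W : Set ℂ} (hW : Convex ℝ W) (hx : ∀ z ∈ W, AnalyticAt ℂ x z ∧ x z ∈ Uc P B b) {Λ : ℝ}
    (hΛ : ∀ z ∈ W, LL B (x z) (deriv x z) ≤ Λ) {z z' : ℂ} (hz : z ∈ W) (hz' : z' ∈ W) : Rho B (x z) ≤ Rho B (x z') + (B.card + 2) * Λ * ‖z - z'‖ := by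
  have hn : ∀ z ∈ W, 0 < ‖x z‖ := fun z hz => zero_lt_one.trans_le (one_le_norm (hx z hz).2)
  have h1 : Real.log ‖x z‖ ≤ Real.log ‖x z'‖ + Λ * ‖z - z'‖ := by
    have h2 := seg_le hW (fun z hz => (hx z hz).1.differentiableAt) (Λ := Λ) (fun z hz => by
      rw [← div_le_iff₀ (hn z hz)]
      exact (norm_div_le_LL _ _).trans (hΛ z hz)) hz hz'
    have h3 := Real.log_le_log (hn z hz) h2
    rwa [Real.log_mul (hn z' hz').ne' (Real.exp_pos _).ne', Real.log_exp] at h3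
  -- the product of the coordinates
  set PR : ℂ → ℂ := fun z => ∏ i ∈ B, x z i with hPR
  have hP0 : ∀ z ∈ W, PR z ≠ 0 := fun z hz => Finset.prod_ne_zero_iff.2 fun i hi => (hx z hz).2.2.2 i hi
  have hd : ∀ z ∈ W, ∀ i, HasDerivAt (fun w => x w i) (deriv x z i) z := fun z hz i =>
    (hasDerivAt_pi.1 (hx z hz).1.differentiableAt.hasDerivAt) i
  have hPd : ∀ z ∈ W, HasDerivAt PR (PR z * ∑ i ∈ B, deriv x z i / x z i) z := by
    intro z hz
    have h2 := HasDerivAt.fun_finsetProd (u := B) (f := fun i w => x w i) (f' := fun i => deriv x z i) (x := z) fun i _ => hd z hz i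
    refine h2.congr_deriv ?_
    rw [Finset.mul_sum]
    refine Finset.sum_congr rfl fun i hi => ?_
    rw [hPR, smul_eq_mul]
    simp only
    rw [← Finset.mul_prod_erase B (fun i => x z i) hi]
    field_simp [(hx z hz).2.2.2 i hi]
  have h2 : Real.log ‖PR z'‖ ≤ Real.log ‖PR z‖ + Λ * ‖z - z'‖ := by
    have h3 := seg_le hW (X := PR) (fun z hz => (hPd z hz).differentiableAt) (Λ := Λ) (fun z hz => by
      rw [(hPd z hz).deriv, norm_mul, mul_comm]
      refine mul_le_mul_of_nonneg_right ?_ (norm_nonneg _)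
      refine (norm_sum_le _ _).trans (le_trans (le_of_eq (Finset.sum_congr rfl fun i _ => ?_)) ((sum_le_LL _ _).trans (hΛ z hz)))
      rw [norm_div]) hz' hz
    have h4 := Real.log_le_log (norm_pos_iff.2 (hP0 z' hz')) h3
    rwa [Real.log_mul (norm_pos_iff.2 (hP0 z hz)).ne' (Real.exp_pos _).ne', Real.log_exp, norm_sub_rev z' z] at h4
  have hR : ∀ z ∈ W, Rho B (x z) = (B.card + 1) * Real.log ‖x z‖ - Real.log ‖PR z‖ := by
    intro z hz
    rw [hPR]
    simp only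
    rw [norm_prod, Real.log_prod fun i hi => (norm_pos_iff.2 ((hx z hz).2.2.2 i hi)).ne']
    unfold Rho
    rw [Finset.sum_sub_distrib, Finset.sum_const, nsmul_eq_mul]
    ring
  rw [hR z hz, hR z' hz']
  have h3 : ((B.card : ℝ) + 1) * Real.log ‖x z‖ ≤ (B.card + 1) * (Real.log ‖x z'‖ + Λ * ‖z - z'‖) := mul_le_mul_of_nonneg_left h1 (by positivity)
  linarith

end Pool.Agent.GL
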