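import Pool.Agent.GL.NaB
import Pool.Agent.GL.Row
import Pool.Agent.GL.Cmp
import Pool.Agent.GL.Grow
import Pool.Agent.GG.Loc

/-!
# GL Crv: families of entire curves with constant `θ`

`Y s = ePt B x v` is the initial vector of an arc (`IsInit`), `c s = thv θ x v`.  `GG.exists_Flow` at `Y 0` (a minor is `≠ 0` by `exists_rowL`) gives the family near `z = 0`, `‖s‖` small: `Φ₀ (z, s) = H (z, Y s)`.  Choose `ρ` such
that `Y`, `c` are analytic on `‖s‖ < 2 ρ`, `Y s` stays in a compact set, `c s ≠ 0`.  `GL.na` on `Ω = ball 0 R` for every `R = n`: `thv = c s` is bounded, so `LL ≤ Λ` (`exists_LL_bound`), `Rho ≤ Rho₀ + (|B| + 2) Λ R` by `rho_path`;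
`K` = the closed set of the `y` with norm at most the bound of `ePt_bound`; regularity by `of_gval`, `exists_rowL` (`v ≠ 0` as `c s ≠ 0`).  The solutions for different `R` agree: one `Φ` on `ℂ`.  `lFam_of_nSol`.
-/

set_option autoImplicit false

open MvPolynomial Topology Filter Metric
open Pool.Agent.H13.SM (conTan cone)
open Pool.Agent.H62.FC (Homog)
open Pool.Agent.GG Pool.Agent.GA

namespace Pool.Agent.GL

variable {N : ℕ} {P : Ideal (MvPolynomial (Fin (N + 1)) ℂ)} {B : Finset (Fin (N + 1))} {J : ℕ} {m : Fin J → ℕ} {θ : ∀ k, LogSec P B (m k)} {b : Fin (N + 1)}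

private theorem Crv_emb (x : Fin (N + 1) → ℂ) (i : Fin (N + 1)) : emb B x i.castSucc = x i := by
  unfold emb
  exact Fin.snoc_castSucc (α := fun _ => ℂ) _ _ _

private theorem Crv_embV (x v : Fin (N + 1) → ℂ) (i : Fin (N + 1)) : embV B x v i.castSucc = v i := by
  unfold embV
  exact Fin.snoc_castSucc (α := fun _ => ℂ) _ _ _

private theorem Crv_split {y : Ph (N + 1) → ℂ} {x v : Fin (N + 1) → ℂ} (h : y = ePt B x v) :
    (fun i : Fin (N + 1) => y (Sum.inl i.castSucc)) = x ∧ (fun i : Fin (N + 1) => y (Sum.inr i.castSucc)) = v := by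
  subst h
  exact ⟨funext fun i => Crv_emb x i, funext fun i => Crv_embV x v i⟩

private theorem Crv_congr {M d : ℕ} {ι : Type} {G : ι → MvPolynomial (Ph M) ℂ} {C : ι → ℂ × (Fin d → ℂ) → ℂ} {Φ Φ' : ℂ × (Fin d → ℂ) → Fin (M + 1) → ℂ}
    {q : ℂ × (Fin d → ℂ)} (h : NSol G C Φ q) (he : Φ =ᶠ[𝓝 q] Φ') : NSol G C Φ' q := by
  refine ⟨h.1.congr he, ?_⟩
  filter_upwards [h.2, he.eventuallyEq_nhds] with p h1 h2 l
  have h3 : (fun z => Φ' (z, p.2)) =ᶠ[𝓝 p.1] fun z => Φ (z, p.2) := by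
    have h4 : Tendsto (fun z : ℂ => (z, p.2)) (𝓝 p.1) (𝓝 p) := (continuous_id.prodMk continuous_const).tendsto' _ _ rfl
    filter_upwards [h4.eventually h2] with z hz using hz.symm
  rw [← h2.self_of_nhds, h3.deriv_eq]
  exact h1 l

/-- the curve of a family -/
private theorem Crv_slice {M d : ℕ} {ι : Type} {G : ι → MvPolynomial (Ph M) ℂ} {C : ι → ℂ × (Fin d → ℂ) → ℂ} {Φ : ℂ × (Fin d → ℂ) → Fin (M + 1) → ℂ}
    {z : ℂ} {s : Fin d → ℂ} (h : NSol G C Φ (z, s)) : AnalyticAt ℂ (fun w => Φ (w, s)) z ∧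
      ∀ l, eval (pt (Φ (z, s)) (deriv (fun w => Φ (w, s)) z)) (G l) = C l (z, s) := by
  refine ⟨?_, fun l => h.2.self_of_nhds l⟩
  exact AnalyticAt.comp_of_eq (f := fun w : ℂ => (w, s)) h.1 (analyticAt_id.prod analyticAt_const) rfl

private theorem Crv_deriv {M : ℕ} {x : ℂ → Fin (M + 2) → ℂ} {z : ℂ} (hx : AnalyticAt ℂ x z) :
    AnalyticAt ℂ (fun w (i : Fin (M + 1)) => x w i.castSucc) z ∧
      deriv (fun w (i : Fin (M + 1)) => x w i.castSucc) z = fun i => deriv x z i.castSucc := by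
  have h1 : AnalyticAt ℂ (fun w (i : Fin (M + 1)) => x w i.castSucc) z := by
    rw [analyticAt_pi_iff]
    exact fun i => analyticAt_pi_iff.1 hx i.castSucc
  refine ⟨h1, ?_⟩
  have h2 := hasDerivAt_pi.1 hx.differentiableAt.hasDerivAt
  exact (hasDerivAt_pi.2 fun i : Fin (M + 1) => h2 i.castSucc).deriv

/-- a solution is a curve in the chart -/
private theorem Crv_of (f : LFrame θ b) {x : ℂ → Fin (N + 2) → ℂ} {z : ℂ} (hx : AnalyticAt ℂ x z) {c : Fin J → ℂ}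
    (h : ∀ l, eval (pt (x z) (deriv x z)) (gfamL f l) = gval c l) :
    (fun i : Fin (N + 1) => x z i.castSucc) ∈ Uc P B b ∧ deriv (fun w (i : Fin (N + 1)) => x w i.castSucc) z ∈ Tc P b (fun i : Fin (N + 1) => x z i.castSucc) ∧
      thv θ (fun i : Fin (N + 1) => x z i.castSucc) (deriv (fun w (i : Fin (N + 1)) => x w i.castSucc) z) = c ∧
      pt (x z) (deriv x z) = ePt B (fun i : Fin (N + 1) => x z i.castSucc) (deriv (fun w (i : Fin (N + 1)) => x w i.castSucc) z) := by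
  obtain ⟨x', v', h1, h2, h3, h4⟩ := of_gval f h
  obtain ⟨h5, h6⟩ := Crv_split h1
  have h7 : (fun i : Fin (N + 1) => x z i.castSucc) = x' := h5
  have h8 : deriv (fun w (i : Fin (N + 1)) => x w i.castSucc) z = v' := by
    rw [(Crv_deriv hx).2]
    exact h6
  rw [h7, h8]
  exact ⟨h2, h3, h4, h1⟩

private theorem Crv_thv0 (hm : ∀ k, 1 ≤ m k) {x v : Fin (N + 1) → ℂ} (hx : x ∈ Uc P B b) (hv : v ∈ Tc P b x) {c : Fin J → ℂ} (h : thv θ x v = c)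
    (hc : c ≠ 0) : v ≠ 0 := by
  intro h0
  apply hc
  rw [← h]
  funext k
  have h1 := thv_smul (θ := θ) hx hv 0 k
  rw [zero_smul] at h1
  rw [h0, h1, zero_pow (by have := hm k; omega), zero_mul]
  rfl

private theorem Crv_gval {d : ℕ} {q J : ℕ} {c : (Fin d → ℂ) → Fin J → ℂ} {p : ℂ × (Fin d → ℂ)} (h : ∀ k, AnalyticAt ℂ (fun s => c s k) p.2) (l : GIx q J) :
    AnalyticAt ℂ (fun p : ℂ × (Fin d → ℂ) => gval (c p.2) l) p := by
  rcases l with (((_ | _) | (_ | _)) | ((_ | _) | k))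
  · exact analyticAt_const
  · exact analyticAt_const
  · exact analyticAt_const
  · exact analyticAt_const
  · exact analyticAt_const
  · exact analyticAt_const
  · exact AnalyticAt.comp_of_eq (f := fun p : ℂ × (Fin d → ℂ) => p.2) (h k) analyticAt_snd rfl

/-- the families on the discs fit together -/
private theorem Crv_glue {M d : ℕ} {ι : Type} {G : ι → MvPolynomial (Ph M) ℂ} {C : ι → ℂ × (Fin d → ℂ) → ℂ} {ρ : ℝ}
    {Φ₀ : ℂ × (Fin d → ℂ) → Fin (M + 1) → ℂ}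
    (h : ∀ n : ℕ, ∃ Φ : ℂ × (Fin d → ℂ) → Fin (M + 1) → ℂ, (∀ q : ℂ × (Fin d → ℂ), q.1 ∈ ball (0 : ℂ) (n + 1) → ‖q.2‖ < ρ → NSol G C Φ q) ∧
      ∀ s, ‖s‖ < ρ → ∀ᶠ z in 𝓝 (0 : ℂ), Φ (z, s) = Φ₀ (z, s)) :
    ∃ Φ : ℂ × (Fin d → ℂ) → Fin (M + 1) → ℂ, (∀ q : ℂ × (Fin d → ℂ), ‖q.2‖ < ρ → NSol G C Φ q) ∧
      ∀ s, ‖s‖ < ρ → ∀ᶠ z in 𝓝 (0 : ℂ), Φ (z, s) = Φ₀ (z, s) := by
  choose Ψ h1 h2 using h
  have hag : ∀ n n' : ℕ, n ≤ n' → ∀ z ∈ ball (0 : ℂ) (n + 1), ∀ s : Fin d → ℂ, ‖s‖ < ρ → Ψ n (z, s) = Ψ n' (z, s) := by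
    intro n n' hn z hz s hs
    have hsub : ball (0 : ℂ) (n + 1) ⊆ ball (0 : ℂ) (n' + 1) := ball_subset_ball (by
      have : (n : ℝ) ≤ n' := Nat.cast_le.2 hn
      linarith)
    have ha : AnalyticOnNhd ℂ (fun w => Ψ n (w, s)) (ball (0 : ℂ) (n + 1)) := fun w hw => (Crv_slice (h1 n (w, s) hw hs)).1
    have hb : AnalyticOnNhd ℂ (fun w => Ψ n' (w, s)) (ball (0 : ℂ) (n + 1)) := fun w hw => (Crv_slice (h1 n' (w, s) (hsub hw) hs)).1
    have he : (fun w => Ψ n (w, s)) =ᶠ[𝓝 0] fun w => Ψ n' (w, s) := by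
      filter_upwards [h2 n s hs, h2 n' s hs] with w e1 e2
      rw [e1, e2]
    exact ha.eqOn_of_preconnected_of_eventuallyEq hb (convex_ball (0 : ℂ) (n + 1)).isPreconnected (mem_ball_self (by positivity)) he hz
  have hnear : ∀ q : ℂ × (Fin d → ℂ), ‖q.2‖ < ρ → ∀ᶠ p in 𝓝 q, Ψ (⌈‖q.1‖⌉₊ + 1) p = Ψ ⌈‖p.1‖⌉₊ p := by
    intro q hq
    have e1 : ∀ᶠ p in 𝓝 q, p.1 ∈ ball q.1 1 := (continuous_fst.continuousAt (x := q)).eventually (ball_mem_nhds _ one_pos)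
    have e2 : ∀ᶠ p in 𝓝 q, ‖p.2‖ < ρ := (continuous_snd.norm.continuousAt (x := q)).eventually (gt_mem_nhds hq)
    filter_upwards [e1, e2] with p h3 h4
    have h5 : ‖p.1‖ ≤ ‖q.1‖ + 1 := by
      rw [mem_ball, dist_eq_norm] at h3
      have := norm_sub_norm_le p.1 q.1
      linarith
    have h6 : ⌈‖p.1‖⌉₊ ≤ ⌈‖q.1‖⌉₊ + 1 := by
      rw [Nat.ceil_le]
      push_cast
      have := Nat.le_ceil ‖q.1‖
      linarith
    have h7 : p.1 ∈ ball (0 : ℂ) (⌈‖p.1‖⌉₊ + 1) := by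
      rw [mem_ball_zero_iff]
      have := Nat.le_ceil ‖p.1‖
      linarith
    exact (hag _ _ h6 p.1 h7 p.2 h4).symm
  refine ⟨fun p => Ψ ⌈‖p.1‖⌉₊ p, fun q hq => ?_, fun s hs => ?_⟩
  · refine Crv_congr (h1 (⌈‖q.1‖⌉₊ + 1) q ?_ hq) (hnear q hq)
    rw [mem_ball_zero_iff]
    push_cast
    have := Nat.le_ceil ‖q.1‖
    linarith
  · have h3 := hnear (0, s) hs
    have h4 : Tendsto (fun z : ℂ => (z, s)) (𝓝 0) (𝓝 ((0 : ℂ), s)) := (continuous_id.prodMk continuous_const).tendsto' _ _ rfl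
    filter_upwards [h4.eventually h3, h2 (⌈‖(0 : ℂ)‖⌉₊ + 1) s hs] with z e1 e2
    show Ψ ⌈‖z‖⌉₊ (z, s) = _
    rw [← e2]
    exact e1.symm

theorem exists_famL (hP : Homog P) (hθ : LogPolar θ) (hm : ∀ k, 1 ≤ m k) (hb : b ∈ B) (f : LFrame θ b) {d : ℕ} {Y : (Fin d → ℂ) → Ph (N + 1) → ℂ}
    (hY : AnalyticAt ℂ Y 0) (hI : ∀ᶠ s in 𝓝 (0 : Fin d → ℂ), ∃ x v, Y s = ePt B x v ∧ x ∈ Uc P B b ∧ v ∈ Tc P b x ∧ v ≠ 0 ∧ IsInit (gfamL f) (Y s)) :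
    ∃ ρ > 0, ∃ (Φ : ℂ × (Fin d → ℂ) → Fin (N + 1) → ℂ) (c : (Fin d → ℂ) → Fin J → ℂ), c 0 ≠ 0 ∧
      (∀ q : ℂ × (Fin d → ℂ), ‖q.2‖ < ρ → LFam θ b (fun p => c p.2) Φ q) ∧
      (∀ s, ‖s‖ < ρ → Y s = ePt B (Φ (0, s)) (deriv (fun z => Φ (z, s)) 0)) ∧ ∃ C : ℝ, ∀ z s, ‖s‖ < ρ → Rho B (Φ (z, s)) ≤ C * (1 + ‖z‖) := by
  classical
  -- the constants
  obtain ⟨c, hc⟩ : ∃ c : (Fin d → ℂ) → Fin J → ℂ, c = fun s k => eval (Y s) (gfamL f (Sum.inr (Sum.inr k))) := ⟨_, rfl⟩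
  have hcY : ∀ s x v, Y s = ePt B x v → x ∈ Uc P B b → v ∈ Tc P b x → c s = thv θ x v ∧ ∀ l, eval (Y s) (gfamL f l) = gval (c s) l := by
    intro s x v h1 h2 h3
    have h4 : c s = thv θ x v := by
      rw [hc]
      funext k
      show eval (Y s) (gfamL f (Sum.inr (Sum.inr k))) = _
      rw [h1, eval_gfamL f h2 h3]
      rfl
    refine ⟨h4, fun l => ?_⟩
    rw [h4, h1, eval_gfamL f h2 h3]
  obtain ⟨x₀, v₀, h01, h02, h03, h04, h05⟩ := hI.self_of_nhds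
  have hc0 : c 0 ≠ 0 := by
    rw [(hcY 0 x₀ v₀ h01 h02 h03).1]
    obtain ⟨c', hc', C', -, h6⟩ := theta_bdL hP hθ hm hb
    obtain ⟨k, hk⟩ := (h6 x₀ h02 v₀ h03).2 h04
    intro h7
    rw [h7, Pi.zero_apply, norm_zero] at hk
    have h8 : 0 < LL B x₀ v₀ := by
      unfold LL
      have h9 : x₀ ≠ 0 := h02.1.1
      have h10 : 0 < ‖v₀‖ / ‖x₀‖ := div_pos (norm_pos_iff.2 h04) (norm_pos_iff.2 h9)
      have h11 : 0 ≤ ∑ i ∈ B, ‖v₀ i‖ / ‖x₀ i‖ := Finset.sum_nonneg fun i _ => by positivity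
      linarith
    have h9 : 0 < c' * LL B x₀ v₀ ^ m k := by positivity
    linarith
  -- the flow
  obtain ⟨I, hIdet⟩ := exists_rowL hθ f hb h02 h03 h04
  rw [← h01] at hIdet
  obtain ⟨r, hr, K₀, H, hH⟩ := exists_Flow hIdet
  -- a common bound
  obtain ⟨CL, hCL, hLL⟩ := exists_LL_bound (θ := θ) hP hθ hm hb
  obtain ⟨M, hM⟩ : ∃ M : ℝ, M = ‖c 0‖ + 1 := ⟨_, rfl⟩
  have hM1 : 1 ≤ M := by rw [hM]; linarith [norm_nonneg (c 0)]
  have hcan : ∀ᶠ s in 𝓝 (0 : Fin d → ℂ), ∀ k, AnalyticAt ℂ (fun s => c s k) s := by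
    filter_upwards [hY.eventually_analyticAt] with s hs k
    rw [hc]
    exact AnalyticAt.comp (g := fun y : Ph (N + 1) → ℂ => eval y (gfamL f (Sum.inr (Sum.inr k)))) (f := Y)
      (AnalyticOnNhd.eval_mvPolynomial _ (Y s) (Set.mem_univ _)) hs
  have hccont : ContinuousAt c 0 := (analyticAt_pi_iff.2 fun k => hcan.self_of_nhds k).continuousAt
  obtain ⟨xs, hxs⟩ : ∃ xs : (Fin d → ℂ) → Fin (N + 1) → ℂ, xs = fun s i => Y s (Sum.inl i.castSucc) := ⟨_, rfl⟩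
  have hxcont : ContinuousAt xs 0 := by
    rw [hxs, continuousAt_pi]
    exact fun i => (analyticAt_pi_iff.1 hY (Sum.inl i.castSucc)).continuousAt
  have hx0 : xs 0 = x₀ := by rw [hxs]; exact (Crv_split h01).1
  have hRcont : ContinuousAt (fun s => Rho B (xs s)) 0 := by
    unfold Rho
    have h1 : ‖xs 0‖ ≠ 0 := by rw [hx0]; exact norm_ne_zero_iff.2 h02.1.1
    have h2 : ContinuousAt (fun s => Real.log ‖xs s‖) 0 := hxcont.norm.log h1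
    refine h2.add (tendsto_finsetSum _ fun i hi => ?_)
    have h3 : ‖xs 0 i‖ ≠ 0 := by rw [hx0]; exact norm_ne_zero_iff.2 (h02.2.2 i hi)
    exact h2.sub (((continuousAt_pi.1 hxcont) i).norm.log h3)
  obtain ⟨R₀, hR₀⟩ : ∃ R₀ : ℝ, R₀ = max 0 (Rho B (xs 0) + 1) := ⟨_, rfl⟩
  -- the radius
  have hall : ∀ᶠ s in 𝓝 (0 : Fin d → ℂ), (∃ x v, Y s = ePt B x v ∧ x ∈ Uc P B b ∧ v ∈ Tc P b x ∧ v ≠ 0 ∧ IsInit (gfamL f) (Y s)) ∧
      AnalyticAt ℂ Y s ∧ (∀ k, AnalyticAt ℂ (fun s => c s k) s) ∧ Y s ∈ ball (Y 0) r ∧ c s ≠ 0 ∧ ‖c s‖ < M ∧ Rho B (xs s) < Rho B (xs 0) + 1 := by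
    refine hI.and (hY.eventually_analyticAt.and (hcan.and ?_))
    refine (hY.continuousAt.eventually (ball_mem_nhds _ hr)).and ((hccont.eventually_ne hc0).and ?_)
    refine (hccont.norm.eventually_lt continuousAt_const ?_).and (hRcont.eventually_lt continuousAt_const (lt_add_one _))
    rw [hM]
    exact lt_add_one _
  obtain ⟨ρ', hρ', hball⟩ := Metric.eventually_nhds_iff_ball.1 hall
  obtain ⟨ρ, hρ⟩ : ∃ ρ : ℝ, ρ = ρ' / 2 := ⟨_, rfl⟩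
  have hρ0 : 0 < ρ := by rw [hρ]; positivity
  have hin' : ∀ s : Fin d → ℂ, ‖s‖ ≤ ρ → s ∈ ball (0 : Fin d → ℂ) ρ' := by
    intro s hs
    rw [mem_ball_zero_iff]
    linarith [hρ]
  have hgood := fun s hs => hball s (hin' s hs)
  -- the first family
  have hY0 : ∀ s : Fin d → ℂ, ‖s‖ ≤ ρ → H (0, Y s) = fun i => Y s (Sum.inl i) := fun s hs => hH.zero _ (hgood s hs).2.2.2.1
  have hN0 : ∀ s : Fin d → ℂ, ‖s‖ < ρ → NSol (gfamL f) (fun l p => gval (c p.2) l) (fun p => H (p.1, Y p.2)) (0, s) := by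
    intro s hs
    have hq : ((0 : ℂ), Y s) ∈ ball (0 : ℂ) r ×ˢ ball (Y 0) r := ⟨mem_ball_self hr, (hgood s hs.le).2.2.2.1⟩
    refine ⟨?_, ?_⟩
    · have h1 : AnalyticAt ℂ (fun p : ℂ × (Fin d → ℂ) => (p.1, Y p.2)) (0, s) := by
        refine analyticAt_fst.prod ?_
        exact AnalyticAt.comp_of_eq (f := fun p : ℂ × (Fin d → ℂ) => p.2) (hgood s hs.le).2.1 analyticAt_snd rfl
      exact AnalyticAt.comp_of_eq (f := fun p : ℂ × (Fin d → ℂ) => (p.1, Y p.2)) (hH.an _ hq) h1 rfl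
    · have e1 : ∀ᶠ p in 𝓝 ((0 : ℂ), s), p.1 ∈ ball (0 : ℂ) r :=
        (continuous_fst.continuousAt (x := ((0 : ℂ), s))).eventually (ball_mem_nhds _ hr)
      have e2 : ∀ᶠ p in 𝓝 ((0 : ℂ), s), ‖p.2‖ < ρ := (continuous_snd.norm.continuousAt (x := ((0 : ℂ), s))).eventually (gt_mem_nhds hs)
      filter_upwards [e1, e2] with p h1 h2 l
      obtain ⟨⟨x, v, g1, g2, g3, g4, g5⟩, -, -, g6, -⟩ := hgood p.2 h2.le
      have h3 := hH.const (Y p.2) g6 g5 p.1 h1 l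
      rw [(hcY p.2 x v g1 g2 g3).2 l] at h3
      exact h3
  -- the length of the curves
  obtain ⟨Λ, hΛ⟩ : ∃ Λ : ℝ, Λ = CL * M := ⟨_, rfl⟩
  have hΛ0 : 0 ≤ Λ := by rw [hΛ]; positivity
  have hcard0 : (0 : ℝ) ≤ (B.card + 2) * Λ := mul_nonneg (by linarith [Nat.cast_nonneg (α := ℝ) B.card]) hΛ0
  have hlen : ∀ s : Fin d → ℂ, ‖s‖ ≤ ρ → ∀ x ∈ Uc P B b, ∀ v ∈ Tc P b x, thv θ x v = c s → LL B x v ≤ Λ := by
    intro s hs x hx v hv h1
    rw [hΛ]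
    refine hLL x hx v hv M hM1 fun k => ?_
    rw [h1]
    exact (norm_le_pi_norm _ k).trans (hgood s hs).2.2.2.2.2.1.le
  have hheight : ∀ s : Fin d → ℂ, ‖s‖ ≤ ρ → ∀ W : Set ℂ, Convex ℝ W → (0 : ℂ) ∈ W → ∀ x : ℂ → Fin (N + 2) → ℂ,
      (∀ z ∈ W, AnalyticAt ℂ x z ∧ ∀ l, eval (pt (x z) (deriv x z)) (gfamL f l) = gval (c s) l) → x 0 = (fun i => Y s (Sum.inl i)) →
      ∀ z ∈ W, Rho B (fun i : Fin (N + 1) => x z i.castSucc) ≤ R₀ + (B.card + 2) * Λ * ‖z‖ := by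
    intro s hs W hWc h0W x hx hx0' z hz
    have h1 := rho_path (P := P) (b := b) (B := B) (x := fun w (i : Fin (N + 1)) => x w i.castSucc) hWc (fun w hw => by
      obtain ⟨g1, g2⟩ := hx w hw
      exact ⟨(Crv_deriv g1).1, (Crv_of f g1 g2).1⟩) (Λ := Λ) (fun w hw => by
      obtain ⟨g1, g2⟩ := hx w hw
      obtain ⟨g3, g4, g5, -⟩ := Crv_of f g1 g2
      exact hlen s hs _ g3 _ g4 g5) hz h0W
    have h2 : (fun i : Fin (N + 1) => x 0 i.castSucc) = xs s := by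
      rw [hxs, hx0']
    have h3 := (hgood s hs).2.2.2.2.2.2
    have h4 : Rho B (fun i : Fin (N + 1) => x 0 i.castSucc) ≤ R₀ := by
      rw [h2, hR₀]
      exact h3.le.trans (le_max_right _ _)
    rw [sub_zero] at h1
    linarith
  -- the families on the discs
  have hfam : ∀ n : ℕ, ∃ Φ : ℂ × (Fin d → ℂ) → Fin (N + 2) → ℂ,
      (∀ q : ℂ × (Fin d → ℂ), q.1 ∈ ball (0 : ℂ) (n + 1) → ‖q.2‖ < ρ → NSol (gfamL f) (fun l p => gval (c p.2) l) Φ q) ∧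
      ∀ s, ‖s‖ < ρ → ∀ᶠ z in 𝓝 (0 : ℂ), Φ (z, s) = H (z, Y s) := by
    intro n
    obtain ⟨Mn, hMn⟩ := ePt_bound B (R₀ + (B.card + 2) * Λ * (n + 1)) Λ
    refine na (gfamL f) (fun l p => gval (c p.2) l) isOpen_ball (convex_ball (0 : ℂ) (n + 1)) isBounded_ball (mem_ball_self (by positivity)) hρ0
      (fun l q _ hq => Crv_gval (hgood q.2 hq).2.2.1 l) (isCompact_closedBall (0 : Ph (N + 1) → ℂ) Mn) ?_ (Φ₀ := fun p => H (p.1, Y p.2)) hN0 ?_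
    · intro q _ hq y _ hy
      obtain ⟨x, v, h1, h2, h3, h4⟩ := of_gval f hy
      rw [h1]
      exact exists_rowL hθ f hb h2 h3 (Crv_thv0 hm h2 h3 h4 (hgood q.2 hq).2.2.2.2.1)
    · intro s hs W hWo hWc h0W hWsub x hx hx0 z hz
      obtain ⟨g1, g2⟩ := hx z hz
      obtain ⟨g3, g4, g5, g6⟩ := Crv_of f g1 g2
      rw [mem_closedBall_zero_iff, g6]
      refine hMn P b _ g3 _ ?_ (hlen s hs.le _ g3 _ g4 g5)
      have h1 := hheight s hs.le W hWc h0W x hx (by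
        have h2 : x 0 = H (0, Y s) := hx0.self_of_nhds
        rw [h2, hY0 s hs.le]) z hz
      have h2 : ‖z‖ ≤ n + 1 := (mem_ball_zero_iff.1 (hWsub hz)).le
      have h3 : (B.card + 2) * Λ * ‖z‖ ≤ (B.card + 2) * Λ * (n + 1) := mul_le_mul_of_nonneg_left h2 hcard0
      linarith
  obtain ⟨Ψ, hΨ, hΨ0⟩ := Crv_glue (Φ₀ := fun p => H (p.1, Y p.2)) hfam
  refine ⟨ρ, hρ0, fun p i => Ψ p i.castSucc, c, hc0, fun q hq => ?_, fun s hs => ?_, ⟨max R₀ ((B.card + 2) * Λ), fun z s hs => ?_⟩⟩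
  · exact (lFam_of_nSol f (c := fun p => c p.2) (hΨ q hq)).1
  · obtain ⟨⟨x, v, g1, g2, g3, g4, g5⟩, -, -, g6, -⟩ := hgood s hs.le
    obtain ⟨h1, h2⟩ := Crv_split g1
    have h3 : (fun z => Ψ (z, s)) =ᶠ[𝓝 0] fun z => H (z, Y s) := hΨ0 s hs
    have h4 : Ψ (0, s) = fun i => Y s (Sum.inl i) := by
      have := h3.self_of_nhds
      rw [← hY0 s hs.le]
      exact this
    have h5 : deriv (fun z => Ψ (z, s)) 0 = fun i => Y s (Sum.inr i) := by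
      rw [h3.deriv_eq]
      exact hH.der _ g6
    have h6 : (fun i : Fin (N + 1) => Ψ (0, s) i.castSucc) = x := by
      rw [h4]
      exact h1
    have h7 : deriv (fun z (i : Fin (N + 1)) => Ψ (z, s) i.castSucc) 0 = v := by
      rw [(Crv_deriv (Crv_slice (hΨ (0, s) hs)).1).2, h5]
      exact h2
    rw [g1]
    show ePt B x v = ePt B (fun i : Fin (N + 1) => Ψ (0, s) i.castSucc) (deriv (fun z (i : Fin (N + 1)) => Ψ (z, s) i.castSucc) 0)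
    rw [h6, h7]
  · have h1 := hheight s hs.le Set.univ convex_univ (Set.mem_univ _) (fun z => Ψ (z, s)) (fun w _ => Crv_slice (hΨ (w, s) hs)) (by
      have h3 : Ψ (0, s) = H (0, Y s) := (hΨ0 s hs).self_of_nhds
      rw [← hY0 s hs.le]
      exact h3) z (Set.mem_univ _)
    have h2 : R₀ ≤ max R₀ ((B.card + 2) * Λ) := le_max_left _ _
    have h3 : (B.card + 2) * Λ ≤ max R₀ ((B.card + 2) * Λ) := le_max_right _ _
    have h4 := mul_le_mul_of_nonneg_right h3 (norm_nonneg z)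
    show Rho B (fun i : Fin (N + 1) => Ψ (z, s) i.castSucc) ≤ _
    calc Rho B (fun i : Fin (N + 1) => Ψ (z, s) i.castSucc) ≤ R₀ + (B.card + 2) * Λ * ‖z‖ := h1
      _ ≤ max R₀ ((B.card + 2) * Λ) * (1 + ‖z‖) := by linarith

end Pool.Agent.GL
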