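import Pool.Agent.GL.Defs
import Pool.Agent.GA.CntB
import Pool.Agent.GA.Lin0

/-!
# GL Dir: the derivative of a family of solutions in the direction of `s`

`V₁ (z) = fderiv ℂ Φ (z, 0) (0, 1)` satisfies `lhs (G l) (Φ (·, 0)) V₁ z = 0` (derivative in `s` of `G_l (Φ, ∂Φ/∂z) = g_l (z)`; `∂_s ∂_z Φ = ∂_z ∂_s Φ`).  Near `w₁` both are solutions of the same linear equation `V' = A V` (the minor `I` of the matrix
`∂_(v b) G_l` is not `0`), so they are equal near `w₁` (`GA.linear_unique_nhds`, GA/CntB), so on `Ω`.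
-/

set_option autoImplicit false

open MvPolynomial Topology Filter Metric
open Pool.Agent.GG Pool.Agent.GA

namespace Pool.Agent.GL

variable {N : ℕ} {ι : Type}

private theorem Dir_eval {E : Type*} [NormedAddCommGroup E] [NormedSpace ℂ E] {y : E → Ph N → ℂ} {t : E} (hy : AnalyticAt ℂ y t) (g : MvPolynomial (Ph N) ℂ) :
    AnalyticAt ℂ (fun s => eval (y s) g) t :=
  AnalyticAt.comp (g := fun y : Ph N → ℂ => eval y g) (f := y) (AnalyticOnNhd.eval_mvPolynomial g (y t) (Set.mem_univ _)) hy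

/-- the derivative of `z ↦ Φ (z, s)` -/
private theorem Dir_dz {Φ : ℂ × (Fin 1 → ℂ) → Fin (N + 1) → ℂ} {p : ℂ × (Fin 1 → ℂ)} (h : AnalyticAt ℂ Φ p) : deriv (fun z => Φ (z, p.2)) p.1 = fderiv ℂ Φ p (1, 0) := by
  have h1 : HasDerivAt (fun z : ℂ => (z, p.2)) ((1 : ℂ), (0 : Fin 1 → ℂ)) p.1 := (hasDerivAt_id p.1).prodMk (hasDerivAt_const p.1 p.2)
  exact (HasFDerivAt.comp_hasDerivAt (l := Φ) (f := fun z : ℂ => (z, p.2)) p.1 h.differentiableAt.hasFDerivAt h1).deriv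

/-- the variation satisfies the linearised equations -/
private theorem Dir_lhs (G : ι → MvPolynomial (Ph N) ℂ) {g : ι → ℂ → ℂ} {Φ : ℂ × (Fin 1 → ℂ) → Fin (N + 1) → ℂ} {z : ℂ}
    (hΦ : NSol G (fun l q => g l q.1) Φ (z, 0)) (l : ι) : lhs (G l) (fun z => Φ (z, 0)) (fun z => fderiv ℂ Φ (z, 0) (0, 1)) z = 0 := by
  obtain ⟨ha, hev⟩ := hΦ
  -- the map `(Φ, ∂Φ/∂z)`
  set H : ℂ × (Fin 1 → ℂ) → Ph N → ℂ := fun p => pt (Φ p) (fderiv ℂ Φ p (1, 0)) with hH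
  have hfa : AnalyticAt ℂ (fderiv ℂ Φ) (z, 0) := ha.fderiv
  have hfa1 : AnalyticAt ℂ (fun p => fderiv ℂ Φ p (1, 0)) (z, 0) :=
    ((ContinuousLinearMap.apply ℂ (Fin (N + 1) → ℂ) ((1 : ℂ), (0 : Fin 1 → ℂ))).analyticAt _).comp hfa
  have hHa : AnalyticAt ℂ H (z, 0) := by
    rw [analyticAt_pi_iff]
    rintro (i | i)
    · exact (analyticAt_pi_iff.1 ha) i
    · exact (analyticAt_pi_iff.1 hfa1) i
  -- the curve in the direction of `s`
  have hline : HasDerivAt (fun t : ℂ => (z, t • (1 : Fin 1 → ℂ))) ((0 : ℂ), (1 : Fin 1 → ℂ)) 0 := by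
    refine (hasDerivAt_const (0 : ℂ) z).prodMk ?_
    have := (hasDerivAt_id (0 : ℂ)).smul_const (1 : Fin 1 → ℂ)
    simpa using this
  have hline0 : (fun t : ℂ => (z, t • (1 : Fin 1 → ℂ))) 0 = (z, 0) := by simp
  have hHd : HasDerivAt (fun t : ℂ => H (z, t • (1 : Fin 1 → ℂ))) (fderiv ℂ H (z, 0) (0, 1)) 0 := by
    have h1 : HasFDerivAt H (fderiv ℂ H (z, 0)) ((fun t : ℂ => (z, t • (1 : Fin 1 → ℂ))) 0) := by
      rw [hline0]
      exact hHa.differentiableAt.hasFDerivAt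
    exact HasFDerivAt.comp_hasDerivAt (l := H) (f := fun t : ℂ => (z, t • (1 : Fin 1 → ℂ))) 0 h1 hline
  have hconst : (fun t : ℂ => eval (H (z, t • (1 : Fin 1 → ℂ))) (G l)) =ᶠ[𝓝 0] fun _ => g l z := by
    have h1 : Tendsto (fun t : ℂ => (z, t • (1 : Fin 1 → ℂ))) (𝓝 0) (𝓝 (z, 0)) := by
      have := hline.continuousAt.tendsto
      rwa [zero_smul] at this
    filter_upwards [h1.eventually hev, h1.eventually ha.eventually_analyticAt] with t h2 h3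
    have h4 := h2 l
    rw [Dir_dz h3] at h4
    exact h4
  have hcomp : HasDerivAt (fun t : ℂ => eval (H (z, t • (1 : Fin 1 → ℂ))) (G l))
      (∑ s, eval (H (z, 0)) (pderiv s (G l)) * fderiv ℂ H (z, 0) (0, 1) s) 0 := by
    have h1 := Pool.Agent.H13.SM.Inv_hasFDerivAt_eval (G l) (H (z, 0))
    have h2 : HasFDerivAt (fun y : Ph N → ℂ => eval y (G l)) (∑ s, eval (H (z, 0)) (pderiv s (G l)) • ContinuousLinearMap.proj (R := ℂ) (φ := fun _ : Ph N => ℂ) s)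
        ((fun t : ℂ => H (z, t • (1 : Fin 1 → ℂ))) 0) := by
      show HasFDerivAt _ _ (H (z, (0 : ℂ) • (1 : Fin 1 → ℂ)))
      rw [zero_smul]
      exact h1
    have h3 := HasFDerivAt.comp_hasDerivAt (l := fun y : Ph N → ℂ => eval y (G l)) (f := fun t : ℂ => H (z, t • (1 : Fin 1 → ℂ))) 0 h2 hHd
    have e : (∑ s, eval (H (z, 0)) (pderiv s (G l)) • ContinuousLinearMap.proj (R := ℂ) (φ := fun _ : Ph N => ℂ) s) (fderiv ℂ H (z, 0) (0, 1)) =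
        ∑ s, eval (H (z, 0)) (pderiv s (G l)) * fderiv ℂ H (z, 0) (0, 1) s := by
      rw [_root_.sum_apply]
      rfl
    rw [e] at h3
    exact h3
  have hzero := hcomp.unique (hconst.hasDerivAt_iff.2 (hasDerivAt_const (0 : ℂ) (g l z)))
  -- the components
  have hinl : ∀ b, fderiv ℂ H (z, 0) (0, 1) (Sum.inl b) = fderiv ℂ Φ (z, 0) (0, 1) b := by
    intro b
    have h1 := hasFDerivAt_pi'.1 hHa.differentiableAt.hasFDerivAt (Sum.inl b)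
    have h2 := hasFDerivAt_pi'.1 ha.differentiableAt.hasFDerivAt b
    have h3 := h1.unique h2
    exact congrArg (fun L : ℂ × (Fin 1 → ℂ) →L[ℂ] ℂ => L (0, 1)) h3
  have hVd : deriv (fun z => fderiv ℂ Φ (z, 0) (0, 1)) z = fderiv ℂ (fderiv ℂ Φ) (z, 0) (1, 0) (0, 1) := by
    have h1 : HasDerivAt (fun z : ℂ => (z, (0 : Fin 1 → ℂ))) ((1 : ℂ), (0 : Fin 1 → ℂ)) z := (hasDerivAt_id z).prodMk (hasDerivAt_const z (0 : Fin 1 → ℂ))
    have h2 := HasFDerivAt.comp_hasDerivAt (l := fderiv ℂ Φ) (f := fun z : ℂ => (z, (0 : Fin 1 → ℂ))) z hfa.differentiableAt.hasFDerivAt h1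
    have h3 := HasFDerivAt.comp_hasDerivAt (l := ContinuousLinearMap.apply ℂ (Fin (N + 1) → ℂ) ((0 : ℂ), (1 : Fin 1 → ℂ)))
      (f := fun z : ℂ => fderiv ℂ Φ (z, 0)) z (ContinuousLinearMap.hasFDerivAt _) h2
    exact h3.deriv
  have hinr : ∀ b, fderiv ℂ H (z, 0) (0, 1) (Sum.inr b) = deriv (fun z => fderiv ℂ Φ (z, 0) (0, 1)) z b := by
    intro b
    have h1 := hasFDerivAt_pi'.1 hHa.differentiableAt.hasFDerivAt (Sum.inr b)
    have h2 : HasFDerivAt (fun p => fderiv ℂ Φ p (1, 0)) ((ContinuousLinearMap.apply ℂ (Fin (N + 1) → ℂ) ((1 : ℂ), (0 : Fin 1 → ℂ))).comp (fderiv ℂ (fderiv ℂ Φ) (z, 0)))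
        (z, 0) := (ContinuousLinearMap.hasFDerivAt (ContinuousLinearMap.apply ℂ (Fin (N + 1) → ℂ) ((1 : ℂ), (0 : Fin 1 → ℂ)))).comp (z, 0) hfa.differentiableAt.hasFDerivAt
    have h3 := hasFDerivAt_pi'.1 h2 b
    have h4 := congrArg (fun L : ℂ × (Fin 1 → ℂ) →L[ℂ] ℂ => L (0, 1)) (h1.unique h3)
    have h5 : IsSymmSndFDerivAt ℂ Φ (z, 0) := ContDiffAt.isSymmSndFDerivAt_of_omega ha.contDiffAt
    have h6 := h5.eq (0, 1) (1, 0)
    rw [hVd, ← h6]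
    exact h4
  show ∑ s, eval (pt (Φ (z, 0)) (deriv (fun z => Φ (z, 0)) z)) (pderiv s (G l)) * pt (fderiv ℂ Φ (z, 0) (0, 1)) (deriv (fun z => fderiv ℂ Φ (z, 0) (0, 1)) z) s = 0
  have e1 : deriv (fun z => Φ (z, 0)) z = fderiv ℂ Φ (z, 0) (1, 0) := Dir_dz (p := (z, 0)) ha
  rw [e1]
  refine Eq.trans ?_ hzero
  refine Finset.sum_congr rfl fun s _ => ?_
  rcases s with b | b
  · rw [hinl b]
    rfl
  · rw [hinr b]
    rfl

theorem dir_eq {Ω : Set ℂ} (hΩ : IsOpen Ω) (hc : IsPreconnected Ω) (G : ι → MvPolynomial (Ph N) ℂ) {g : ι → ℂ → ℂ} {Φ : ℂ × (Fin 1 → ℂ) → Fin (N + 1) → ℂ}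
    (hΦ : ∀ z ∈ Ω, NSol G (fun l q => g l q.1) Φ (z, 0)) {V : ℂ → Fin (N + 1) → ℂ} (hV : ∀ z ∈ Ω, AnalyticAt ℂ V z)
    (hl : ∀ z ∈ Ω, ∀ l, lhs (G l) (fun z => Φ (z, 0)) V z = 0) {w₁ : ℂ} (hw : w₁ ∈ Ω) (I : Fin (N + 1) → ι)
    (hI : eval (pt (Φ (w₁, 0)) (deriv (fun z => Φ (z, 0)) w₁)) (vdet G I) ≠ 0) (h1 : V w₁ = fderiv ℂ Φ (w₁, 0) (0, 1)) :
    ∀ z ∈ Ω, V z = fderiv ℂ Φ (z, 0) (0, 1) := by
  have hx : ∀ z ∈ Ω, AnalyticAt ℂ (fun z => Φ (z, 0)) z := by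
    intro z hz
    exact AnalyticAt.comp (g := Φ) (f := fun z : ℂ => (z, (0 : Fin 1 → ℂ))) (hΦ z hz).1 (analyticAt_id.prod analyticAt_const)
  have hV₁ : ∀ z ∈ Ω, AnalyticAt ℂ (fun z => fderiv ℂ Φ (z, 0) (0, 1)) z := by
    intro z hz
    have h2 : AnalyticAt ℂ (fun z : ℂ => fderiv ℂ Φ (z, 0)) z :=
      AnalyticAt.comp (g := fderiv ℂ Φ) (f := fun z : ℂ => (z, (0 : Fin 1 → ℂ))) (hΦ z hz).1.fderiv (analyticAt_id.prod analyticAt_const)
    exact ((ContinuousLinearMap.apply ℂ (Fin (N + 1) → ℂ) ((0 : ℂ), (1 : Fin 1 → ℂ))).analyticAt _).comp h2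
  set y : ℂ → Ph N → ℂ := fun w => pt (Φ (w, 0)) (deriv (fun z => Φ (z, 0)) w) with hy
  have hya : ∀ w ∈ Ω, AnalyticAt ℂ y w := by
    intro w hw
    rw [analyticAt_pi_iff]
    rintro (i | i)
    · exact (analyticAt_pi_iff.mp (hx w hw)) i
    · exact (analyticAt_pi_iff.mp (hx w hw).deriv) i
  have hdet : ∀ᶠ w in 𝓝 w₁, eval (y w) (vdet G I) ≠ 0 := (Dir_eval (hya w₁ hw) (vdet G I)).continuousAt.eventually_ne hI
  set β : ℂ → Fin (N + 1) → Fin (N + 1) → ℂ := fun w i j =>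
    -(1 : ℂ) * (eval (y w) (vdet G I))⁻¹ * eval (y w) (∑ k, (vmat G I).adjugate i k * pderiv (Sum.inl j) (G (I k))) with hβ
  have hβa : AnalyticAt ℂ (fun w => linMap (β w)) w₁ := by
    refine analyticAt_linMap fun i j => ?_
    exact (analyticAt_const.mul ((Dir_eval (hya w₁ hw) _).inv hI)).mul (Dir_eval (hya w₁ hw) _)
  have key : ∀ W : ℂ → Fin (N + 1) → ℂ, (∀ z ∈ Ω, AnalyticAt ℂ W z) → (∀ z ∈ Ω, ∀ l, lhs (G l) (fun z => Φ (z, 0)) W z = 0) →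
      ∀ᶠ s in 𝓝 w₁, HasDerivAt W (linMap (β s) (W s)) s := by
    intro W hW hWl
    filter_upwards [hΩ.eventually_mem hw, hdet] with s hs hds
    have h2 : deriv W s = linMap (β s) (W s) := by
      funext i
      rw [linMap_apply]
      refine lin_solve hds (t := 1) (fun l => ?_) i
      have h3 := hWl s hs (I l)
      rw [lhs, Fintype.sum_sum_type] at h3
      rw [one_mul]
      exact h3
    rw [← h2]
    exact (hW s hs).differentiableAt.hasDerivAt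
  have hnear : V =ᶠ[𝓝 w₁] fun z => fderiv ℂ Φ (z, 0) (0, 1) :=
    linear_unique_nhds hβa h1 (key V hV hl) (key _ hV₁ fun z hz l => Dir_lhs G (hΦ z hz) l)
  have hVan : AnalyticOnNhd ℂ V Ω := fun z hz => hV z hz
  have hVan₁ : AnalyticOnNhd ℂ (fun z => fderiv ℂ Φ (z, 0) (0, 1)) Ω := fun z hz => hV₁ z hz
  exact fun z hz => hVan.eqOn_of_preconnected_of_eventuallyEq hVan₁ hc hw hnear hz

end Pool.Agent.GL
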