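import Pool.Agent.GA.ADefs
import Pool.Agent.GG.OdeG

/-!
# GL Disc: the flow of a polynomial vector field which is tangent to all relations

`Z' = a (Z)`, `Z 0 = y w₁`, `a s = A s` with the coefficients evaluated at `w₁` (`GG.exists_flowG`).  For a relation `R` the derivative of `t ↦ R (w₁; Z t)`
is `(A R) (w₁; Z t)`, where `A R = ∑ i, pderiv i R * A i` is a relation by `hA`.  A relation with a function of finite order at `0` is impossible, by induction
on the order.
-/

set_option autoImplicit false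

open MvPolynomial Topology Filter Metric
open Pool.Agent.GG Pool.Agent.GA

namespace Pool.Agent.GL

private theorem disc_deriv {σ : Type} [Fintype σ] {Z : ℂ → σ → ℂ} {Z' : σ → ℂ} {t : ℂ} (hZ : HasDerivAt Z Z' t)
    (g : MvPolynomial σ ℂ) : HasDerivAt (fun t => eval (Z t) g) (∑ i, eval (Z t) (pderiv i g) * Z' i) t := by
  classical
  induction g using MvPolynomial.induction_on with
  | C a => simpa using hasDerivAt_const t a
  | add p q hp hq =>
    have h := hp.add hq
    simp only [map_add, add_mul, Finset.sum_add_distrib]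
    exact h
  | mul_X p j hp =>
    have hj : HasDerivAt (fun t => Z t j) (Z' j) t := (hasDerivAt_pi.1 hZ) j
    have h := hp.mul hj
    have h1 : ∑ i, eval (Z t) (pderiv i (p * X j)) * Z' i = (∑ i, eval (Z t) (pderiv i p) * Z' i) * Z t j + eval (Z t) p * Z' j := by
      have h2 : ∀ i, eval (Z t) (pderiv i (p * X j)) * Z' i = eval (Z t) (pderiv i p) * Z' i * Z t j + if i = j then eval (Z t) p * Z' i else 0 := by
        intro i
        rw [Derivation.leibniz, pderiv_X]
        by_cases hij : i = j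
        · subst hij
          simp
          ring
        · have : j ≠ i := fun h => hij h.symm
          rw [Pi.single_eq_of_ne this]
          simp [hij]
          ring
      rw [Finset.sum_congr rfl fun i _ => h2 i, Finset.sum_add_distrib, ← Finset.sum_mul, Finset.sum_ite_eq' Finset.univ j]
      simp
    rw [h1]
    have h5 : (fun t => eval (Z t) (p * X j)) = (fun t => eval (Z t) p) * fun t => Z t j := by
      funext t
      simp
    rw [h5]
    exact h

private theorem disc_eval₂ {σ : Type} (OO : Subalgebra ℂ (ℂ → ℂ)) (w : ℂ) (x : σ → ℂ) (R : MvPolynomial σ OO) :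
    eval₂ (ev0 OO w) x R = eval x (map (ev0 OO w) R) := by
  rw [eval_map]

theorem exists_disc {σ : Type} [Fintype σ] {OO : Subalgebra ℂ (ℂ → ℂ)} {y : ℂ → σ → ℂ} {w₁ : ℂ} (A : σ → MvPolynomial σ OO)
    (hA : ∀ R : MvPolynomial σ OO, (∀ᶠ w in 𝓝 w₁, evO OO y R w = 0) → ∀ᶠ w in 𝓝 w₁, ∑ i, evO OO y (pderiv i R) w * evO OO y (A i) w = 0) :
    ∃ Z : ℂ → σ → ℂ, AnalyticAt ℂ Z 0 ∧ Z 0 = y w₁ ∧ (∀ s, deriv Z 0 s = evO OO y (A s) w₁) ∧
      ∀ R : MvPolynomial σ OO, (∀ᶠ w in 𝓝 w₁, evO OO y R w = 0) → ∀ᶠ t in 𝓝 (0 : ℂ), eval₂ (ev0 OO w₁) (Z t) R = 0 := by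
  classical
  -- the vector field
  set V : (σ → ℂ) → σ → ℂ := fun x s => eval₂ (ev0 OO w₁) x (A s) with hV
  have hVan : AnalyticAt ℂ V (y w₁) := by
    refine AnalyticAt.pi fun s => ?_
    simp only [disc_eval₂]
    have h1 := AnalyticAt.aeval_mvPolynomial (𝕜 := ℂ) (f := fun x : σ → ℂ => x) (z := y w₁)
      (fun i => (ContinuousLinearMap.proj (R := ℂ) (φ := fun _ : σ => ℂ) i).analyticAt _) (map (ev0 OO w₁) (A s))
    simpa only [aeval_eq_eval] using h1
  obtain ⟨r, hr, H, hHa, hH0, hHd⟩ := exists_flowG hVan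
  have hy : y w₁ ∈ ball (y w₁) r := mem_ball_self hr
  set Z : ℂ → σ → ℂ := fun t => H (t, y w₁) with hZ
  have hZan : ∀ t ∈ ball (0 : ℂ) r, AnalyticAt ℂ Z t := fun t ht =>
    AnalyticAt.comp_of_eq (g := H) (hHa (t, y w₁) ⟨ht, hy⟩) (analyticAt_id.prod analyticAt_const) rfl
  have hZd : ∀ t ∈ ball (0 : ℂ) r, HasDerivAt Z (V (Z t)) t := fun t ht => (hHd _ hy t ht).2
  have hZ0 : Z 0 = y w₁ := hH0 _ hy
  have h0 : (0 : ℂ) ∈ ball (0 : ℂ) r := mem_ball_self hr
  -- the derivative of a relation along the flow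
  have hder : ∀ (R : MvPolynomial σ OO), ∀ t ∈ ball (0 : ℂ) r, HasDerivAt (fun t => eval₂ (ev0 OO w₁) (Z t) R)
      (eval₂ (ev0 OO w₁) (Z t) (∑ i, pderiv i R * A i)) t := by
    intro R t ht
    have h1 := disc_deriv (hZd t ht) (map (ev0 OO w₁) R)
    simp only [disc_eval₂] at h1 ⊢
    convert h1 using 1
    rw [map_sum, map_sum]
    refine Finset.sum_congr rfl fun i _ => ?_
    rw [map_mul, map_mul, ← pderiv_map]
    congr 1
    exact (disc_eval₂ OO w₁ (Z t) (A i)).symm
  have han : ∀ R : MvPolynomial σ OO, AnalyticAt ℂ (fun t => eval₂ (ev0 OO w₁) (Z t) R) 0 := by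
    intro R
    refine (DifferentiableOn.analyticAt (s := ball (0 : ℂ) r) (fun t ht => (hder R t ht).differentiableAt.differentiableWithinAt) ?_)
    exact isOpen_ball.mem_nhds h0
  -- no finite order
  have hord : ∀ n : ℕ, ∀ R : MvPolynomial σ OO, (∀ᶠ w in 𝓝 w₁, evO OO y R w = 0) → analyticOrderAt (fun t => eval₂ (ev0 OO w₁) (Z t) R) 0 ≠ n := by
    intro n
    induction n with
    | zero =>
      intro R hR h
      have h1 : eval₂ (ev0 OO w₁) (Z 0) R = 0 := by
        rw [hZ0]
        exact hR.self_of_nhds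
      exact ((han R).analyticOrderAt_eq_zero.1 (by simpa using h)) h1
    | succ n ih =>
      intro R hR h
      have hR' : ∀ᶠ w in 𝓝 w₁, evO OO y (∑ i, pderiv i R * A i) w = 0 := by
        filter_upwards [hA R hR] with w hw
        simp only [evO, eval₂_sum, eval₂_mul] at hw ⊢
        exact hw
      have h1 : eval₂ (ev0 OO w₁) (Z 0) R = 0 := by
        rw [hZ0]
        exact hR.self_of_nhds
      have h2 := (han R).analyticOrderAt_deriv_add_one
      simp only [h1, sub_zero] at h2
      rw [h] at h2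
      have h3 : deriv (fun t => eval₂ (ev0 OO w₁) (Z t) R) =ᶠ[𝓝 0] fun t => eval₂ (ev0 OO w₁) (Z t) (∑ i, pderiv i R * A i) := by
        filter_upwards [isOpen_ball.mem_nhds h0] with t ht
        exact (hder R t ht).deriv
      rw [analyticOrderAt_congr h3] at h2
      refine ih _ hR' ?_
      have h4 : ((n : ℕ∞) + 1) = ((n + 1 : ℕ) : ℕ∞) := by push_cast; rfl
      rw [← h4] at h2
      exact ENat.add_left_injective_of_ne_top ENat.one_ne_top h2
  refine ⟨Z, hZan 0 h0, hZ0, fun s => ?_, fun R hR => ?_⟩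
  · rw [(hZd 0 h0).deriv, hZ0]
    rfl
  · rw [← analyticOrderAt_eq_top]
    by_contra hne
    obtain ⟨n, hn⟩ := ENat.ne_top_iff_exists.1 hne
    exact hord n R hR hn.symm

end Pool.Agent.GL
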