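import Pool.Agent.GL.Cmp

/-!
# GL E2A: polynomial curves in the chart are constant

Liouville: the `F j` are polynomials; for `i ∈ B` without zeros, so constant.  `LL B (F z) (F' z) = ‖F' z‖ / ‖F z‖ → 0` for `z → ∞` (degrees), so the entire functions `thv θ (F z) (F' z) k` tend to `0` (`theta_bdL`) and are `0`; then `F' = 0` by
`theta_bdL`.  (`analyticAt_thv`, `deriv_mem_Tc` of `GL/Chart`.)
-/

set_option autoImplicit false

open MvPolynomial Topology Filter Metric
open Pool.Agent.H13.SM (conTan cone)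
open Pool.Agent.H62.FC (Homog)
open Pool.Agent.GG Pool.Agent.GA

namespace Pool.Agent.GL

variable {N : ℕ} {P : Ideal (MvPolynomial (Fin (N + 1)) ℂ)} {B : Finset (Fin (N + 1))} {J : ℕ} {m : Fin J → ℕ} {θ : ∀ k, LogSec P B (m k)} {b : Fin (N + 1)}

/-- an entire function of polynomial growth is a polynomial -/
private theorem E2A_poly : ∀ (e : ℕ) {f : ℂ → ℂ}, Differentiable ℂ f → ∀ {C : ℝ}, (∀ z, ‖f z‖ ≤ C * (1 + ‖z‖) ^ e) → ∃ p : Polynomial ℂ, ∀ z, f z = p.eval z := by
  intro e
  induction e with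
  | zero =>
    intro f hf C hC
    refine ⟨Polynomial.C (f 0), fun z => ?_⟩
    rw [Polynomial.eval_C]
    refine hf.apply_eq_apply_of_bounded ?_ z 0
    rw [isBounded_iff_forall_norm_le]
    refine ⟨C, ?_⟩
    rintro _ ⟨z, rfl⟩
    simpa using hC z
  | succ e ih =>
    intro f hf C hC
    have hC0 : 0 ≤ C := by
      have := (norm_nonneg _).trans (hC 0)
      simpa using this
    have hg : Differentiable ℂ (dslope f 0) := by
      have := (Complex.differentiableOn_dslope (s := Set.univ) (c := (0 : ℂ)) (f := f) Filter.univ_mem).2 hf.differentiableOn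
      exact differentiableOn_univ.1 this
    obtain ⟨K, hK⟩ := (isCompact_closedBall (0 : ℂ) 1).exists_bound_of_continuousOn hg.continuous.continuousOn
    obtain ⟨p, hp⟩ := ih hg (C := |K| + 4 * C) (by
      intro z
      have h1 : 1 ≤ (1 + ‖z‖) ^ e := one_le_pow₀ (by linarith [norm_nonneg z])
      by_cases hz : ‖z‖ ≤ 1
      · have h2 := (hK z (by simpa using hz)).trans (le_abs_self K)
        have h3 : 0 ≤ |K| := abs_nonneg K
        nlinarith
      · have hz' : 1 < ‖z‖ := not_le.1 hz
        have hz0 : z ≠ 0 := norm_pos_iff.1 (by linarith)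
        have h2 : dslope f 0 z = (f z - f 0) / z := by
          rw [dslope_of_ne _ hz0, slope_def_field, sub_zero]
        rw [h2, norm_div, div_le_iff₀ (by linarith)]
        have h3 := hC z
        have h4 := hC 0
        rw [norm_zero, add_zero, one_pow, mul_one] at h4
        have h5 : (1 + ‖z‖) ^ (e + 1) ≤ 2 * (1 + ‖z‖) ^ e * ‖z‖ := by
          rw [pow_succ]
          nlinarith
        have h6 : C ≤ C * ((1 + ‖z‖) ^ e * ‖z‖) := by
          have : 1 ≤ (1 + ‖z‖) ^ e * ‖z‖ := by nlinarith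
          nlinarith
        have h7 : 0 ≤ |K| * ((1 + ‖z‖) ^ e * ‖z‖) := by positivity
        calc ‖f z - f 0‖ ≤ ‖f z‖ + ‖f 0‖ := norm_sub_le _ _
          _ ≤ C * (2 * (1 + ‖z‖) ^ e * ‖z‖) + C * ((1 + ‖z‖) ^ e * ‖z‖) :=
            add_le_add (h3.trans (mul_le_mul_of_nonneg_left h5 hC0)) (h4.trans h6)
          _ ≤ (|K| + 4 * C) * (1 + ‖z‖) ^ e * ‖z‖ := by
            have h8 : 0 ≤ C * ((1 + ‖z‖) ^ e * ‖z‖) := by positivity
            nlinarith)
    refine ⟨Polynomial.C (f 0) + Polynomial.X * p, fun z => ?_⟩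
    rw [Polynomial.eval_add, Polynomial.eval_mul, Polynomial.eval_X, Polynomial.eval_C, ← hp]
    have h1 := sub_smul_dslope f 0 z
    rw [sub_zero, smul_eq_mul] at h1
    rw [h1]
    ring

/-- a polynomial curve in the chart with `θ = const` is constant (also used in `EntL`) -/
theorem poly_curve (hP : Homog P) (hθ : LogPolar θ) (hm : ∀ k, 1 ≤ m k) (hb : b ∈ B) {F : ℂ → Fin (N + 1) → ℂ} (hF : ∀ z, AnalyticAt ℂ F z) (hU : ∀ z, F z ∈ Uc P B b)
    {C : ℝ} {e : ℕ} (hC : ∀ z, ‖F z‖ ≤ C * (1 + ‖z‖) ^ e) : ∀ z, deriv F z = 0 := by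
  obtain ⟨c₀, hc₀, C₁, hC₁, hbd⟩ := theta_bdL hP hθ hm hb
  have hFi : ∀ j z, AnalyticAt ℂ (fun z => F z j) z := fun j z => (analyticAt_pi_iff.1 (hF z)) j
  choose p hp using fun j => E2A_poly e (f := fun z => F z j) (fun z => (hFi j z).differentiableAt) (C := C) fun z => (norm_le_pi_norm (F z) j).trans (hC z)
  have hd : ∀ z j, deriv F z j = (p j).derivative.eval z := fun z j => by
    have h1 : HasDerivAt (fun z => F z j) (deriv F z j) z := (hasDerivAt_pi.1 (hF z).differentiableAt.hasDerivAt) j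
    have h2 : HasDerivAt (fun z => F z j) ((p j).derivative.eval z) z := by
      rw [funext (hp j)]
      exact (p j).hasDerivAt z
    exact h1.unique h2
  have hF1 : ∀ z, 1 ≤ ‖F z‖ := fun z => by
    have h1 := norm_le_pi_norm (F z) b
    rw [(hU z).2.1, norm_one] at h1
    exact h1
  -- the derivative is small
  have hlo : (fun z => deriv F z) =o[Bornology.cobounded ℂ] fun z => ‖F z‖ := by
    rw [Asymptotics.isLittleO_pi]
    intro j
    by_cases h0 : p j = 0
    · have h1 : (fun z => deriv F z j) = fun _ => 0 := by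
        funext z
        rw [hd, h0, Polynomial.derivative_zero, Polynomial.eval_zero]
      rw [h1]
      exact Asymptotics.isLittleO_zero _ _
    · have h1 : (p j).derivative.eval =o[Bornology.cobounded ℂ] (p j).eval :=
        Polynomial.isLittleO_cobounded_of_degree_lt (Polynomial.degree_derivative_lt h0)
      have h2 : (p j).eval =O[Bornology.cobounded ℂ] fun z => ‖F z‖ := by
        refine Asymptotics.IsBigO.of_bound 1 (Eventually.of_forall fun z => ?_)
        rw [one_mul, norm_norm, ← hp]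
        exact norm_le_pi_norm (F z) j
      have h3 : (fun z => deriv F z j) = (p j).derivative.eval := by
        funext z
        rw [hd]
      rw [h3]
      exact h1.trans_isBigO h2
  have hB : ∀ i ∈ B, ∀ z, deriv F z i = 0 := fun i hi z => by
    have h2 : (p i).degree = 0 := by
      by_contra h
      obtain ⟨x, hx⟩ := IsAlgClosed.exists_root (p i) h
      exact (hU x).2.2 i hi ((hp i x).trans hx)
    rw [hd, Polynomial.eq_C_of_degree_eq_zero h2, Polynomial.derivative_C, Polynomial.eval_zero]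
  have hLL : ∀ z, LL B (F z) (deriv F z) = ‖deriv F z‖ / ‖F z‖ := fun z => by
    have h1 : ∑ i ∈ B, ‖deriv F z i‖ / ‖F z i‖ = 0 := Finset.sum_eq_zero fun i hi => by rw [hB i hi, norm_zero, zero_div]
    unfold LL
    rw [h1, add_zero]
  have hLt : Tendsto (fun z => LL B (F z) (deriv F z)) (Bornology.cobounded ℂ) (𝓝 0) := by
    have h1 := hlo.norm_left.tendsto_div_nhds_zero
    simp only [hLL]
    exact h1
  have hT : ∀ z, deriv F z ∈ Tc P b (F z) := fun z => deriv_mem_Tc (hF z) (Eventually.of_forall hU)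
  have hg : ∀ k z, thv θ (F z) (deriv F z) k = 0 := fun k => by
    have h1 : Differentiable ℂ fun z => thv θ (F z) (deriv F z) k := fun z =>
      (analyticAt_thv (hF z) (hF z).deriv (Eventually.of_forall fun w => ⟨hU w, hT w⟩) k).differentiableAt
    have h2 : Tendsto (fun z => thv θ (F z) (deriv F z) k) (cocompact ℂ) (𝓝 0) := by
      rw [← Metric.cobounded_eq_cocompact, tendsto_zero_iff_norm_tendsto_zero]
      have h3 : Tendsto (fun z => C₁ * LL B (F z) (deriv F z) ^ m k) (Bornology.cobounded ℂ) (𝓝 0) := by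
        have h4 := (hLt.pow (m k)).const_mul C₁
        rw [zero_pow (by have := hm k; omega), mul_zero] at h4
        exact h4
      exact squeeze_zero (fun z => norm_nonneg _) (fun z => (hbd (F z) (hU z) (deriv F z) (hT z)).1 k) h3
    exact fun z => h1.apply_eq_of_tendsto_cocompact z h2
  intro z
  by_contra hne
  obtain ⟨k, hk⟩ := (hbd (F z) (hU z) (deriv F z) (hT z)).2 hne
  rw [hg k z, norm_zero, hLL] at hk
  have h1 : 0 < ‖deriv F z‖ / ‖F z‖ := div_pos (norm_pos_iff.2 hne) (lt_of_lt_of_le one_pos (hF1 z))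
  have h2 : 0 < c₀ * (‖deriv F z‖ / ‖F z‖) ^ m k := mul_pos hc₀ (pow_pos h1 _)
  linarith

end Pool.Agent.GL
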