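import Pool.Agent.GL.Av
import Pool.Agent.GL.E2A
import Pool.Agent.GL.CmpC

/-!
# GL E2: a section of `(K + D)^M (-1)` vanishes on families of curves with constant `θ`

`V_i = ∂Φ/∂s_i (z, 0)`.  For fixed `z` apply `exists_av` to `s_i ↦ Φ (z, s)` (disc of radius `ρ / 2`) and to `g = thv θ (Φ) (∂Φ/∂s_i) k` (`theta_bdL`): `|thv θ (Φ (z, 0)) (V_i) k| ≤ C (1 + |z|) ^ m k`, so `LL (V_i) ≤ C (1 + |z|) ^ M'`
(`exists_LL_bound`); `LL (∂Φ/∂z)` is bounded.  `w (z) = Ω (Φ (z, 0); lv Φ_z, lv V_i)` is entire, `‖w‖ ‖Φ‖ ≤ C (1 + |z|) ^ M''` (`can_bdL`).  If `w (0) ≠ 0`: `w` is a polynomial (Liouville), so `‖w‖` is bounded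
from below for large `|z|`, and `‖Φ (z, 0)‖` has polynomial growth; by `poly_curve` the curve `Φ (z, 0)` is constant: against `c 0 ≠ 0`.
-/

set_option autoImplicit false

open MvPolynomial Topology Filter Metric
open Pool.Agent.H13.SM (conTan cone)
open Pool.Agent.H62.FC (Homog)
open Pool.Agent.GG Pool.Agent.GA

namespace Pool.Agent.GL

variable {N : ℕ} {P : Ideal (MvPolynomial (Fin (N + 1)) ℂ)} {B : Finset (Fin (N + 1))} {J : ℕ} {m : Fin J → ℕ} {θ : ∀ k, LogSec P B (m k)} {b : Fin (N + 1)}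

/-- an entire function of polynomial growth is a polynomial -/
private theorem E2_poly : ∀ (e : ℕ) {f : ℂ → ℂ}, Differentiable ℂ f → ∀ {C : ℝ}, (∀ z, ‖f z‖ ≤ C * (1 + ‖z‖) ^ e) → ∃ p : Polynomial ℂ, ∀ z, f z = p.eval z := by
  intro e
  induction e with
  | zero =>
    intro f hf C hC
    refine ⟨Polynomial.C (f 0), fun z => ?_⟩
    rw [Polynomial.eval_C]
    refine hf.apply_eq_apply_of_bounded ?_ z 0
    rw [isBounded_iff_forall_norm_le]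
    refine ⟨C, ?_⟩
    rintro _ ⟨z, rfl⟩
    simpa using hC z
  | succ e ih =>
    intro f hf C hC
    have hC0 : 0 ≤ C := by
      have := (norm_nonneg _).trans (hC 0)
      simpa using this
    have hg : Differentiable ℂ (dslope f 0) := by
      have := (Complex.differentiableOn_dslope (s := Set.univ) (c := (0 : ℂ)) (f := f) Filter.univ_mem).2 hf.differentiableOn
      exact differentiableOn_univ.1 this
    obtain ⟨K, hK⟩ := (isCompact_closedBall (0 : ℂ) 1).exists_bound_of_continuousOn hg.continuous.continuousOn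
    obtain ⟨p, hp⟩ := ih hg (C := |K| + 4 * C) (by
      intro z
      have h1 : 1 ≤ (1 + ‖z‖) ^ e := one_le_pow₀ (by linarith [norm_nonneg z])
      by_cases hz : ‖z‖ ≤ 1
      · have h2 := (hK z (by simpa using hz)).trans (le_abs_self K)
        have h3 : 0 ≤ |K| := abs_nonneg K
        nlinarith
      · have hz' : 1 < ‖z‖ := not_le.1 hz
        have hz0 : z ≠ 0 := norm_pos_iff.1 (by linarith)
        have h2 : dslope f 0 z = (f z - f 0) / z := by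
          rw [dslope_of_ne _ hz0, slope_def_field, sub_zero]
        rw [h2, norm_div, div_le_iff₀ (by linarith)]
        have h3 := hC z
        have h4 := hC 0
        rw [norm_zero, add_zero, one_pow, mul_one] at h4
        have h5 : (1 + ‖z‖) ^ (e + 1) ≤ 2 * (1 + ‖z‖) ^ e * ‖z‖ := by
          rw [pow_succ]
          nlinarith
        have h6 : C ≤ C * ((1 + ‖z‖) ^ e * ‖z‖) := by
          have : 1 ≤ (1 + ‖z‖) ^ e * ‖z‖ := by nlinarith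
          nlinarith
        have h7 : 0 ≤ |K| * ((1 + ‖z‖) ^ e * ‖z‖) := by positivity
        calc ‖f z - f 0‖ ≤ ‖f z‖ + ‖f 0‖ := norm_sub_le _ _
          _ ≤ C * (2 * (1 + ‖z‖) ^ e * ‖z‖) + C * ((1 + ‖z‖) ^ e * ‖z‖) :=
            add_le_add (h3.trans (mul_le_mul_of_nonneg_left h5 hC0)) (h4.trans h6)
          _ ≤ (|K| + 4 * C) * (1 + ‖z‖) ^ e * ‖z‖ := by
            have h8 : 0 ≤ C * ((1 + ‖z‖) ^ e * ‖z‖) := by positivity
            nlinarith)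
    refine ⟨Polynomial.C (f 0) + Polynomial.X * p, fun z => ?_⟩
    rw [Polynomial.eval_add, Polynomial.eval_mul, Polynomial.eval_X, Polynomial.eval_C, ← hp]
    have h1 := sub_smul_dslope f 0 z
    rw [sub_zero, smul_eq_mul] at h1
    rw [h1]
    ring

/-- a nonzero polynomial is bounded from below for large `|z|` -/
private theorem E2_low {p : Polynomial ℂ} (hp : p ≠ 0) : ∃ c > 0, ∃ R : ℝ, ∀ z : ℂ, R ≤ ‖z‖ → c ≤ ‖p.eval z‖ := by
  by_cases hd : 0 < p.degree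
  · have h1 : Tendsto (fun z : ℂ => ‖p.eval z‖) (comap norm atTop) atTop := Polynomial.tendsto_norm_atTop p hd tendsto_comap
    have h2 := h1.eventually (eventually_ge_atTop (1 : ℝ))
    rw [eventually_comap] at h2
    obtain ⟨R, hR⟩ := eventually_atTop.1 h2
    exact ⟨1, one_pos, R, fun z hz => hR _ hz z rfl⟩
  · have h1 := Polynomial.eq_C_of_degree_le_zero (not_lt.1 hd)
    have h2 : p.coeff 0 ≠ 0 := by
      intro h
      apply hp
      rw [h1, h, Polynomial.C_0]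
    refine ⟨‖p.coeff 0‖, norm_pos_iff.2 h2, 0, fun z _ => ?_⟩
    rw [h1, Polynomial.eval_C, Polynomial.coeff_C_zero]

/-- the section along analytic functions -/
private theorem E2_an {n M : ℕ} (Ω : LogCan P B n M) {x : ℂ → Fin (N + 1) → ℂ} {v : ℂ → Fin n → Fin (N + 1) → ℂ} {z : ℂ} (hx : AnalyticAt ℂ x z)
    (hv : ∀ j, AnalyticAt ℂ (fun w => v w j) z) (h : ∀ᶠ w in 𝓝 z, x w ∈ Uc P B b ∧ ∀ j, v w j ∈ Tc P b (x w)) :
    AnalyticAt ℂ (fun w => Ω.toFun (x w) (fun j => lv B (x w) (v w j))) z := by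
  obtain ⟨e, A, hA⟩ := Ω.regular b
  have hxi : ∀ i, AnalyticAt ℂ (fun w => x w i) z := fun i => (analyticAt_pi_iff.1 hx) i
  have hvi : ∀ j i, AnalyticAt ℂ (fun w => v w j i) z := fun j i => (analyticAt_pi_iff.1 (hv j)) i
  have hz := h.self_of_nhds.1.2.2
  have h1 : AnalyticAt ℂ (fun w => eval (fun p : Fin (N + 1) ⊕ (Fin n × Fin (N + 1)) => (Sum.elim (x w) fun p => lv B (x w) (v w p.1) p.2 : _ → ℂ) p) A) z := by
    refine chB_eval (g := fun p w => (Sum.elim (x w) fun p => lv B (x w) (v w p.1) p.2 : Fin (N + 1) ⊕ (Fin n × Fin (N + 1)) → ℂ) p) (fun p => ?_) _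
    rcases p with i | ⟨j, i⟩
    · exact hxi i
    · show AnalyticAt ℂ (fun w => lv B (x w) (v w j) i) z
      unfold lv
      by_cases hi : i ∈ B
      · simp only [if_pos hi]
        exact ((hxi i).inv (hz i hi)).mul (hvi j i)
      · simp only [if_neg hi]
        exact hvi j i
  refine h1.congr ?_
  filter_upwards [h] with w hw
  obtain ⟨⟨h2, h3, h4⟩, h5⟩ := hw
  have h6 := hA (x w) h2 (fun j => lv B (x w) (v w j)) fun j => by
    rw [act_lv h4]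
    exact (h5 j).1
  rw [h3, one_pow, one_mul] at h6
  exact h6.symm

/-- the estimate of the variations -/
private theorem E2_var (hP : Homog P) (hθ : LogPolar θ) (hm : ∀ k, 1 ≤ m k) (hb : b ∈ B) {n : ℕ}
    {Φ : ℂ × (Fin n → ℂ) → Fin (N + 1) → ℂ} {c : (Fin n → ℂ) → Fin J → ℂ} {ρ : ℝ} (hρ : 0 < ρ)
    (hΦ : ∀ q : ℂ × (Fin n → ℂ), ‖q.2‖ < ρ → LFam θ b (fun p => c p.2) Φ q) {C : ℝ} (hC : ∀ z s, ‖s‖ < ρ → Rho B (Φ (z, s)) ≤ C * (1 + ‖z‖)) :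
    ∃ (A : ℝ) (D : ℕ), ∀ z : ℂ, ∀ i, fderiv ℂ Φ (z, 0) (0, Pi.single i 1) ∈ Tc P b (Φ (z, 0)) ∧
      LL B (Φ (z, 0)) (fderiv ℂ Φ (z, 0) (0, Pi.single i 1)) ≤ A * (1 + ‖z‖) ^ D := by
  obtain ⟨c₀, -, C₁, hC₁, hbd⟩ := theta_bdL hP hθ hm hb
  obtain ⟨C₂, hC₂, hLL⟩ := exists_LL_bound hP hθ hm hb
  obtain ⟨K, hK, hav⟩ := exists_av B b
  obtain ⟨A₀, hA₀⟩ : ∃ A₀ : ℝ, A₀ = 1 + K * (|C| + 1) / (ρ / 2) := ⟨_, rfl⟩
  have hA₀' : 0 ≤ K * (|C| + 1) / (ρ / 2) := by positivity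
  have hA₀1 : 1 ≤ A₀ := by linarith
  refine ⟨C₂ * ((1 + C₁) * A₀ ^ (∑ k, m k)), ∑ k, m k, fun z i => ?_⟩
  obtain ⟨F, hF⟩ : ∃ F : ℂ → Fin (N + 1) → ℂ, F = fun t : ℂ => Φ (z, t • Pi.single i (1 : ℂ)) := ⟨_, rfl⟩
  have hFt : ∀ t, F t = Φ (z, t • Pi.single i (1 : ℂ)) := fun t => by rw [hF]
  have hn : ∀ t : ℂ, ‖(t • Pi.single i (1 : ℂ) : Fin n → ℂ)‖ = ‖t‖ := fun t => by
    rw [norm_smul, Pi.norm_single, norm_one, mul_one]
  have hFan : ∀ t : ℂ, ‖t‖ < ρ → AnalyticAt ℂ F t := fun t ht => by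
    have h1 : AnalyticAt ℂ (fun t : ℂ => ((z, t • Pi.single i (1 : ℂ)) : ℂ × (Fin n → ℂ))) t :=
      analyticAt_const.prod (analyticAt_id.smul analyticAt_const)
    rw [hF]
    exact (hΦ (z, t • Pi.single i (1 : ℂ)) (by rw [hn]; exact ht)).1.comp_of_eq h1 rfl
  have hFU : ∀ t : ℂ, ‖t‖ < ρ → F t ∈ Uc P B b := fun t ht => by
    rw [hFt]
    exact (hΦ (z, t • Pi.single i (1 : ℂ)) (by rw [hn]; exact ht)).2.self_of_nhds.1
  have hopen : ∀ t : ℂ, ‖t‖ < ρ → ∀ᶠ w : ℂ in 𝓝 t, ‖w‖ < ρ := fun t ht => continuous_norm.continuousAt.eventually (gt_mem_nhds ht)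
  have hFT : ∀ t : ℂ, ‖t‖ < ρ → deriv F t ∈ Tc P b (F t) := fun t ht =>
    deriv_mem_Tc (hFan t ht) ((hopen t ht).mono fun w hw => hFU w hw)
  have hF0 : F 0 = Φ (z, 0) := by rw [hFt, zero_smul]
  have hd0 : deriv F 0 = fderiv ℂ Φ (z, 0) (0, Pi.single i 1) := by
    have h1 : HasFDerivAt Φ (fderiv ℂ Φ (z, 0)) (z, 0) := (hΦ (z, 0) (by simpa using hρ)).1.differentiableAt.hasFDerivAt
    have h2 : HasDerivAt (fun t : ℂ => ((z, t • Pi.single i (1 : ℂ)) : ℂ × (Fin n → ℂ))) (0, Pi.single i 1) 0 := by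
      have h3 : HasDerivAt (fun t : ℂ => (t • Pi.single i (1 : ℂ) : Fin n → ℂ)) (Pi.single i 1) 0 := by
        have := (hasDerivAt_id (0 : ℂ)).smul_const (Pi.single i (1 : ℂ) : Fin n → ℂ)
        rwa [one_smul] at this
      exact (hasDerivAt_const (0 : ℂ) z).prodMk h3
    have h4 : HasDerivAt F (fderiv ℂ Φ (z, 0) (0, Pi.single i 1)) 0 := by
      rw [hF]
      refine HasFDerivAt.comp_hasDerivAt_of_eq (0 : ℂ) h1 h2 ?_
      rw [zero_smul]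
    exact h4.deriv
  have h0ρ : ‖(0 : ℂ)‖ < ρ := by rwa [norm_zero]
  have hT0 := hFT 0 h0ρ
  have hU0 := hFU 0 h0ρ
  rw [hF0, hd0] at hT0
  rw [hF0] at hU0
  refine ⟨hT0, ?_⟩
  have hb2 : ∀ t ∈ closedBall (0 : ℂ) (ρ / 2), ‖t‖ < ρ := fun t ht => by
    rw [mem_closedBall_zero_iff] at ht
    linarith
  have hbase0 : 0 ≤ K * (|C| * (1 + ‖z‖) + 1) / (ρ / 2) := by positivity
  have hbase : K * (|C| * (1 + ‖z‖) + 1) / (ρ / 2) ≤ A₀ * (1 + ‖z‖) := by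
    have h1 : K * (|C| * (1 + ‖z‖) + 1) / (ρ / 2) ≤ K * (|C| + 1) / (ρ / 2) * (1 + ‖z‖) := by
      rw [div_mul_eq_mul_div]
      refine div_le_div_of_nonneg_right ?_ (by positivity)
      have h2 : |C| * (1 + ‖z‖) + 1 ≤ (|C| + 1) * (1 + ‖z‖) := by nlinarith [norm_nonneg z]
      calc K * (|C| * (1 + ‖z‖) + 1) ≤ K * ((|C| + 1) * (1 + ‖z‖)) := mul_le_mul_of_nonneg_left h2 hK.le
        _ = K * (|C| + 1) * (1 + ‖z‖) := by ring
    have h2 : K * (|C| + 1) / (ρ / 2) * (1 + ‖z‖) ≤ A₀ * (1 + ‖z‖) :=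
      mul_le_mul_of_nonneg_right (by linarith) (by positivity)
    exact h1.trans h2
  have hone : 1 ≤ A₀ * (1 + ‖z‖) := by
    have : 1 ≤ 1 + ‖z‖ := by linarith [norm_nonneg z]
    nlinarith
  have hpow1 : 1 ≤ (A₀ * (1 + ‖z‖)) ^ (∑ k, m k) := one_le_pow₀ hone
  have hkey : ∀ k, ‖thv θ (Φ (z, 0)) (fderiv ℂ Φ (z, 0) (0, Pi.single i 1)) k‖ ≤ (1 + C₁) * (A₀ * (1 + ‖z‖)) ^ (∑ k, m k) := fun k => by
    have h1 := hav F 0 (ρ / 2) (|C| * (1 + ‖z‖)) (by positivity) (fun t ht => hFan t (hb2 t ht)) (fun t ht => (hFU t (hb2 t ht)).2.1)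
      (fun t ht => (hFU t (hb2 t ht)).2.2)
      (fun t ht => by
        rw [hFt]
        refine (hC z _ (by rw [hn]; exact hb2 t ht)).trans ?_
        exact mul_le_mul_of_nonneg_right (le_abs_self C) (by positivity))
      (fun t => thv θ (F t) (deriv F t) k) C₁ (m k)
      (fun t ht => analyticAt_thv (hFan t (hb2 t ht)) (hFan t (hb2 t ht)).deriv
        ((hopen t (hb2 t ht)).mono fun w hw => ⟨hFU w hw, hFT w hw⟩) k) hC₁.le
      (fun t ht => (hbd (F t) (hFU t (hb2 t ht)) (deriv F t) (hFT t (hb2 t ht))).1 k)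
    simp only [hF0, hd0] at h1
    refine h1.trans ?_
    have h2 : (K * (|C| * (1 + ‖z‖) + 1) / (ρ / 2)) ^ m k ≤ (A₀ * (1 + ‖z‖)) ^ (∑ k, m k) :=
      (pow_le_pow_left₀ hbase0 hbase _).trans (pow_le_pow_right₀ hone (Finset.single_le_sum (f := m) (fun _ _ => Nat.zero_le _) (Finset.mem_univ k)))
    refine mul_le_mul (by linarith) h2 (pow_nonneg hbase0 _) (by linarith)
  have h2 := hLL (Φ (z, 0)) hU0 _ hT0 ((1 + C₁) * (A₀ * (1 + ‖z‖)) ^ (∑ k, m k)) (by nlinarith) hkey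
  refine h2.trans (le_of_eq ?_)
  rw [mul_pow]
  ring

theorem e2 (hP : Homog P) (hθ : LogPolar θ) (hm : ∀ k, 1 ≤ m k) (hb : b ∈ B) {n M : ℕ} (hM : 1 ≤ M) (Ω : LogCan P B (n + 1) M)
    {Φ : ℂ × (Fin n → ℂ) → Fin (N + 1) → ℂ} {c : (Fin n → ℂ) → Fin J → ℂ} {ρ : ℝ} (hρ : 0 < ρ) (hc : c 0 ≠ 0)
    (hΦ : ∀ q : ℂ × (Fin n → ℂ), ‖q.2‖ < ρ → LFam θ b (fun p => c p.2) Φ q) {C : ℝ} (hC : ∀ z s, ‖s‖ < ρ → Rho B (Φ (z, s)) ≤ C * (1 + ‖z‖)) :
    Ω.toFun (Φ (0, 0)) (Fin.cons (lv B (Φ (0, 0)) (deriv (fun z => Φ (z, 0)) 0)) fun i => lv B (Φ (0, 0)) (fderiv ℂ Φ (0, 0) (0, Pi.single i 1))) = 0 := by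
  by_contra hw0
  obtain ⟨A, D, hAD⟩ := E2_var hP hθ hm hb hρ hΦ hC
  obtain ⟨C₂, hC₂, hLL⟩ := exists_LL_bound hP hθ hm hb
  obtain ⟨C₃, hC₃⟩ := can_bdL (B := B) (b := b) hP hM Ω
  have h0 : ∀ z : ℂ, ‖((z, 0) : ℂ × (Fin n → ℂ)).2‖ < ρ := fun z => by simpa using hρ
  obtain ⟨F, hF⟩ : ∃ F : ℂ → Fin (N + 1) → ℂ, F = fun z : ℂ => Φ (z, 0) := ⟨_, rfl⟩
  have hFz : ∀ z, F z = Φ (z, 0) := fun z => by rw [hF]
  have hFan : ∀ z, AnalyticAt ℂ F z := fun z => by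
    rw [hF]
    exact (hΦ (z, 0) (h0 z)).1.comp_of_eq (analyticAt_id.prod analyticAt_const) rfl
  have hFU : ∀ z, F z ∈ Uc P B b := fun z => by
    rw [hFz]
    exact (hΦ (z, 0) (h0 z)).2.self_of_nhds.1
  have hFT : ∀ z, deriv F z ∈ Tc P b (F z) := fun z => deriv_mem_Tc (hFan z) (Eventually.of_forall hFU)
  have hFc : ∀ z, thv θ (F z) (deriv F z) = c 0 := fun z => by
    have h1 := (hΦ (z, 0) (h0 z)).2.self_of_nhds.2
    rw [hF]
    exact h1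
  -- the tangent vectors
  obtain ⟨v, hv⟩ : ∃ v : ℂ → Fin (n + 1) → Fin (N + 1) → ℂ, v = fun z => Fin.cons (deriv F z) fun i => fderiv ℂ Φ (z, 0) (0, Pi.single i 1) := ⟨_, rfl⟩
  have hv0 : ∀ z, v z 0 = deriv F z := fun z => by rw [hv]; rfl
  have hvs : ∀ z i, v z (Fin.succ i) = fderiv ℂ Φ (z, 0) (0, Pi.single i 1) := fun z i => by rw [hv]; rfl
  have hvT : ∀ z j, v z j ∈ Tc P b (F z) := fun z j => by
    refine Fin.cases ?_ (fun i => ?_) j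
    · rw [hv0]
      exact hFT z
    · rw [hvs, hFz]
      exact (hAD z i).1
  have hvan : ∀ z j, AnalyticAt ℂ (fun w => v w j) z := fun z j => by
    refine Fin.cases ?_ (fun i => ?_) j
    · simp only [hv0]
      exact (hFan z).deriv
    · simp only [hvs]
      have h1 : AnalyticAt ℂ (fun q : ℂ × (Fin n → ℂ) => fderiv ℂ Φ q (0, Pi.single i 1)) (z, 0) :=
        ((ContinuousLinearMap.apply ℂ (Fin (N + 1) → ℂ) ((0, Pi.single i 1) : ℂ × (Fin n → ℂ))).analyticAt _).comp (hΦ (z, 0) (h0 z)).1.fderiv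
      exact h1.comp_of_eq (f := fun w : ℂ => ((w, 0) : ℂ × (Fin n → ℂ))) (analyticAt_id.prod analyticAt_const) rfl
  obtain ⟨w, hw⟩ : ∃ w : ℂ → ℂ, w = fun z => Ω.toFun (F z) (fun j => lv B (F z) (v z j)) := ⟨_, rfl⟩
  have hwan : Differentiable ℂ w := fun z => by
    rw [hw]
    exact (E2_an Ω (hFan z) (hvan z) (Eventually.of_forall fun u => ⟨hFU u, hvT u⟩)).differentiableAt
  have hw00 : w 0 ≠ 0 := by
    have h1 : (fun j => lv B (F 0) (v 0 j)) =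
        Fin.cons (lv B (Φ (0, 0)) (deriv (fun z => Φ (z, 0)) 0)) fun i => lv B (Φ (0, 0)) (fderiv ℂ Φ (0, 0) (0, Pi.single i 1)) := by
      funext j
      refine Fin.cases ?_ (fun i => ?_) j
      · rw [hv0, Fin.cons_zero, hF]
      · rw [hvs, Fin.cons_succ, hFz]
    rw [hw]
    show Ω.toFun (F 0) (fun j => lv B (F 0) (v 0 j)) ≠ 0
    rw [h1, hFz]
    exact hw0
  -- the growth
  obtain ⟨A₁, hA₁⟩ : ∃ A₁ : ℝ, A₁ = |A| + C₂ * (1 + ‖c 0‖) := ⟨_, rfl⟩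
  have hA₁0 : 0 ≤ A₁ := by rw [hA₁]; positivity
  have hLLv : ∀ z j, LL B (F z) (v z j) ≤ A₁ * (1 + ‖z‖) ^ D := fun z j => by
    have h1 : 1 ≤ (1 + ‖z‖) ^ D := one_le_pow₀ (by linarith [norm_nonneg z])
    refine Fin.cases ?_ (fun i => ?_) j
    · rw [hv0]
      have h2 := hLL (F z) (hFU z) (deriv F z) (hFT z) (1 + ‖c 0‖) (by linarith [norm_nonneg (c 0)]) fun k => by
        rw [hFc]
        exact (norm_le_pi_norm (c 0) k).trans (by linarith)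
      have h3 : C₂ * (1 + ‖c 0‖) ≤ A₁ := by rw [hA₁]; linarith [abs_nonneg A]
      nlinarith
    · rw [hvs, hFz]
      refine (hAD z i).2.trans (mul_le_mul_of_nonneg_right ?_ (by positivity))
      rw [hA₁]
      have : 0 ≤ C₂ * (1 + ‖c 0‖) := by positivity
      linarith [le_abs_self A]
  obtain ⟨C₄, hC₄⟩ : ∃ C₄ : ℝ, C₄ = |C₃| * (A₁ ^ M) ^ (n + 1) := ⟨_, rfl⟩
  have hC₄0 : 0 ≤ C₄ := by rw [hC₄]; positivity
  obtain ⟨e, he⟩ : ∃ e : ℕ, e = D * M * (n + 1) := ⟨_, rfl⟩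
  have hgr : ∀ z, ‖w z‖ * ‖F z‖ ≤ C₄ * (1 + ‖z‖) ^ e := fun z => by
    have h1 := hC₃ (F z) (hFU z) (v z) (hvT z)
    rw [hw]
    refine h1.trans ?_
    have hLn : ∀ j, 0 ≤ LL B (F z) (v z j) := fun j => by unfold LL; positivity
    have h2 : ∏ j, LL B (F z) (v z j) ^ M ≤ ∏ _j : Fin (n + 1), (A₁ * (1 + ‖z‖) ^ D) ^ M :=
      Finset.prod_le_prod (fun j _ => pow_nonneg (hLn j) _) fun j _ => pow_le_pow_left₀ (hLn j) (hLLv z j) _
    have h3 : ∏ _j : Fin (n + 1), (A₁ * (1 + ‖z‖) ^ D) ^ M = (A₁ ^ M) ^ (n + 1) * (1 + ‖z‖) ^ e := by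
      rw [Finset.prod_const, Finset.card_univ, Fintype.card_fin, mul_pow, mul_pow, ← pow_mul (1 + ‖z‖), ← pow_mul (1 + ‖z‖), he]
    rw [h3] at h2
    have h4 : 0 ≤ ∏ j, LL B (F z) (v z j) ^ M := Finset.prod_nonneg fun j _ => pow_nonneg (hLn j) _
    calc C₃ * ∏ j, LL B (F z) (v z j) ^ M ≤ |C₃| * ∏ j, LL B (F z) (v z j) ^ M := mul_le_mul_of_nonneg_right (le_abs_self _) h4
      _ ≤ |C₃| * ((A₁ ^ M) ^ (n + 1) * (1 + ‖z‖) ^ e) := mul_le_mul_of_nonneg_left h2 (abs_nonneg _)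
      _ = C₄ * (1 + ‖z‖) ^ e := by rw [hC₄]; ring
  have hF1 : ∀ z, 1 ≤ ‖F z‖ := fun z => by
    have h1 := norm_le_pi_norm (F z) b
    rw [(hFU z).2.1, norm_one] at h1
    exact h1
  obtain ⟨p, hp⟩ := E2_poly e hwan (C := C₄) fun z => by
    have h1 : ‖w z‖ ≤ ‖w z‖ * ‖F z‖ := le_mul_of_one_le_right (norm_nonneg _) (hF1 z)
    exact h1.trans (hgr z)
  have hp0 : p ≠ 0 := by
    intro h
    apply hw00
    rw [hp, h, Polynomial.eval_zero]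
  obtain ⟨c₁, hc₁, R, hR⟩ := E2_low hp0
  have hFd : Differentiable ℂ F := fun z => (hFan z).differentiableAt
  obtain ⟨K, hK⟩ := (isCompact_closedBall (0 : ℂ) R).exists_bound_of_continuousOn hFd.continuous.continuousOn
  have hgF : ∀ z, ‖F z‖ ≤ (|K| + c₁⁻¹ * C₄) * (1 + ‖z‖) ^ e := fun z => by
    have h1 : 1 ≤ (1 + ‖z‖) ^ e := one_le_pow₀ (by linarith [norm_nonneg z])
    have h2 : 0 ≤ c₁⁻¹ * C₄ := by positivity
    by_cases hz : ‖z‖ ≤ R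
    · have h3 := (hK z (by simpa using hz)).trans (le_abs_self K)
      have h4 : 0 ≤ |K| := abs_nonneg K
      nlinarith
    · have h3 := hR z (not_le.1 hz).le
      rw [← hp] at h3
      have h4 : c₁ * ‖F z‖ ≤ C₄ * (1 + ‖z‖) ^ e := (mul_le_mul_of_nonneg_right h3 (norm_nonneg _)).trans (hgr z)
      have h5 : ‖F z‖ ≤ c₁⁻¹ * (C₄ * (1 + ‖z‖) ^ e) := by
        rw [← div_eq_inv_mul, le_div_iff₀ hc₁, mul_comm]
        exact h4
      have h6 : 0 ≤ |K| * (1 + ‖z‖) ^ e := by positivity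
      calc ‖F z‖ ≤ c₁⁻¹ * (C₄ * (1 + ‖z‖) ^ e) := h5
        _ ≤ (|K| + c₁⁻¹ * C₄) * (1 + ‖z‖) ^ e := by rw [add_mul, mul_assoc]; linarith
  have hd := poly_curve hP hθ hm hb hFan hFU hgF 0
  apply hc
  funext k
  have h1 := thv_smul (θ := θ) (hFU 0) (hFT 0) 0 k
  rw [zero_smul, zero_pow (by have := hm k; omega), zero_mul] at h1
  rw [← hFc 0, hd]
  exact h1

end Pool.Agent.GL
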