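import Pool.Agent.GL.CntM
import Pool.Agent.GA.EigA

/-!
# GL EigL: an eigenvector of the shift

`GA.exists_eig` for `U = HP`, `p = per` and the space of the `V` with `∀ w ∈ HP, AnalyticAt ℂ V w ∧ RelP OO (eF B F) V w` (as `GA/Eig`: `RelP` is linear in `V`; invariance: `F`, `eF B F` (on `HP`) and the elements of `OO` are periodic), `detL`.
-/

set_option autoImplicit false

open MvPolynomial Topology Filter Metric
open Pool.Agent.H13.SM (conTan cone)
open Pool.Agent.GG Pool.Agent.GA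

namespace Pool.Agent.GL

variable {N : ℕ} {P : Ideal (MvPolynomial (Fin (N + 1)) ℂ)} {B : Finset (Fin (N + 1))} {J : ℕ} {m : Fin J → ℕ} {θ : ∀ k, LogSec P B (m k)} {b : Fin (N + 1)}
  {F : ℂ → Fin (N + 1) → ℂ} {OO : Subalgebra ℂ (ℂ → ℂ)}

private theorem hp_open : IsOpen HP := isOpen_lt continuous_const Complex.continuous_re

private theorem hp_per (w : ℂ) : w + per ∈ HP ↔ w ∈ HP := by
  have h : (w + per).re = w.re := by simp [per]
  show 0 < (w + per).re ↔ 0 < w.re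
  rw [h]

private theorem per_ne : per ≠ 0 := by
  simp [per, Real.pi_ne_zero]

/-! ### `RelP` is linear in the variation -/

private theorem pt_zero (w : ℂ) (s : Ph N) : pt ((0 : ℂ → Fin (N + 1) → ℂ) w) (deriv (0 : ℂ → Fin (N + 1) → ℂ) w) s = 0 := by
  have hd : deriv (0 : ℂ → Fin (N + 1) → ℂ) w = 0 := deriv_const w (0 : Fin (N + 1) → ℂ)
  rw [hd]
  cases s <;> rfl

private theorem pt_add {V V' : ℂ → Fin (N + 1) → ℂ} {w : ℂ} (hV : DifferentiableAt ℂ V w) (hV' : DifferentiableAt ℂ V' w) (s : Ph N) :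
    pt ((V + V') w) (deriv (V + V') w) s = pt (V w) (deriv V w) s + pt (V' w) (deriv V' w) s := by
  have hd : deriv (V + V') w = deriv V w + deriv V' w := deriv_add hV hV'
  rw [hd]
  cases s <;> rfl

private theorem pt_smul {V : ℂ → Fin (N + 1) → ℂ} {w : ℂ} (c : ℂ) (hV : DifferentiableAt ℂ V w) (s : Ph N) :
    pt ((c • V) w) (deriv (c • V) w) s = c * pt (V w) (deriv V w) s := by
  have hd : deriv (c • V) w = c • deriv V w := deriv_const_smul c hV
  rw [hd]
  cases s <;> rfl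

private theorem relP_zero (x : ℂ → Fin (N + 1) → ℂ) (w₀ : ℂ) : RelP OO x 0 w₀ := by
  intro R _
  exact Eventually.of_forall fun w => Finset.sum_eq_zero fun s _ => by rw [pt_zero, mul_zero]

private theorem relP_add {x V V' : ℂ → Fin (N + 1) → ℂ} {w₀ : ℂ} (hV : AnalyticAt ℂ V w₀) (hV' : AnalyticAt ℂ V' w₀) (h : RelP OO x V w₀)
    (h' : RelP OO x V' w₀) : RelP OO x (V + V') w₀ := by
  intro R hR
  filter_upwards [h R hR, h' R hR, hV.eventually_analyticAt, hV'.eventually_analyticAt] with w e1 e2 a1 a2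
  simp only [pt_add a1.differentiableAt a2.differentiableAt, mul_add, Finset.sum_add_distrib]
  rw [e1, e2, add_zero]

private theorem relP_smul {x V : ℂ → Fin (N + 1) → ℂ} {w₀ : ℂ} (c : ℂ) (hV : AnalyticAt ℂ V w₀) (h : RelP OO x V w₀) : RelP OO x (c • V) w₀ := by
  intro R hR
  filter_upwards [h R hR, hV.eventually_analyticAt] with w e1 a1
  simp only [pt_smul c a1.differentiableAt, mul_left_comm _ c, ← Finset.mul_sum]
  rw [e1, mul_zero]

/-! ### the shift -/

private theorem deriv_shift {E : Type} [NormedAddCommGroup E] [NormedSpace ℂ E] {g h : ℂ → E} {w : ℂ} (hw : w ∈ HP) (e : ∀ w ∈ HP, g (w + per) = h w) :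
    deriv g (w + per) = deriv h w := by
  have h1 : (fun w => g (w + per)) =ᶠ[𝓝 w] h := by
    filter_upwards [hp_open.mem_nhds hw] with z hz
    exact e z hz
  rw [← h1.deriv_eq, deriv_comp_add_const]

private theorem evO_shift (hOp : ∀ g ∈ OO, ∀ w ∈ HP, g (w + per) = g w) {σ : Type} {y : ℂ → σ → ℂ} (hy : ∀ w ∈ HP, y (w + per) = y w)
    (R : MvPolynomial σ OO) {w : ℂ} (hw : w ∈ HP) : evO OO y R (w + per) = evO OO y R w := by
  unfold evO
  rw [hy w hw]
  have h1 : ev0 OO (w + per) = ev0 OO w := by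
    ext g
    exact hOp g g.2 w hw
  rw [h1]

private theorem relP_shift (hOp : ∀ g ∈ OO, ∀ w ∈ HP, g (w + per) = g w) {x : ℂ → Fin (N + 1) → ℂ} (hx : ∀ w ∈ HP, x (w + per) = x w)
    {V : ℂ → Fin (N + 1) → ℂ} {w₀ : ℂ} (hw₀ : w₀ ∈ HP) (h : RelP OO x V (w₀ + per)) : RelP OO x (fun w => V (w + per)) w₀ := by
  have hy : ∀ w ∈ HP, (fun w => pt (x w) (deriv x w)) (w + per) = (fun w => pt (x w) (deriv x w)) w := by
    intro w hw
    show pt (x (w + per)) (deriv x (w + per)) = pt (x w) (deriv x w)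
    rw [hx w hw, deriv_shift hw hx]
  intro R hR
  have h1 : ∀ᶠ w in 𝓝 (w₀ + per), evO OO (fun w => pt (x w) (deriv x w)) R w = 0 := by
    have h2 : Tendsto (fun z : ℂ => z - per) (𝓝 (w₀ + per)) (𝓝 w₀) := by
      have h3 : Continuous fun z : ℂ => z - per := continuous_id.sub continuous_const
      have h4 := h3.tendsto (w₀ + per)
      rwa [add_sub_cancel_right] at h4
    filter_upwards [h2.eventually hR, h2.eventually (hp_open.mem_nhds hw₀)] with w e1 hw
    have h3 := evO_shift (y := fun w => pt (x w) (deriv x w)) hOp hy R hw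
    rw [sub_add_cancel] at h3
    rw [h3]
    exact e1
  have h2 : Tendsto (fun z : ℂ => z + per) (𝓝 w₀) (𝓝 (w₀ + per)) := (continuous_id.add continuous_const).tendsto w₀
  filter_upwards [h2.eventually (h R h1), hp_open.mem_nhds hw₀] with w e1 hw
  rw [← e1]
  refine Finset.sum_congr rfl fun s _ => ?_
  rw [evO_shift (y := fun w => pt (x w) (deriv x w)) hOp hy (pderiv s R) hw, deriv_comp_add_const]

theorem exists_eigL (hθ : LogPolar θ) (hm : ∀ k, 1 ≤ m k) (hb : b ∈ B) (f : LFrame θ b) (hF : LCurve P B b F) (hne : ∃ w ∈ HP, deriv F w ≠ 0) (hO : IsSmallRing OO HP)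
    (hOp : ∀ g ∈ OO, ∀ w ∈ HP, g (w + per) = g w) (hg : ∀ l : GIx f.q J, (fun w => gval (thv θ (F w) (deriv F w)) l) ∈ OO) {w₀ : ℂ} (hw : w₀ ∈ HP)
    {V : ℂ → Fin (N + 2) → ℂ} (hV : ∀ w ∈ HP, AnalyticAt ℂ V w ∧ RelP OO (eF B F) V w) (h0 : V w₀ ≠ 0) :
    ∃ (V' : ℂ → Fin (N + 2) → ℂ) (q : ℂ), (∀ w ∈ HP, AnalyticAt ℂ V' w ∧ RelP OO (eF B F) V' w) ∧ V' w₀ ≠ 0 ∧
      ∀ w ∈ HP, V' (w + per) = Complex.exp (q * per) • V' w := by
  have hx : ∀ w ∈ HP, eF B F (w + per) = eF B F w := by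
    intro w hw
    show emb B (F (w + per)) = emb B (F w)
    rw [hF.curve.periodic w hw]
  let VV : Submodule ℂ (ℂ → Fin (N + 2) → ℂ) :=
    { carrier := {V | ∀ w ∈ HP, AnalyticAt ℂ V w ∧ RelP OO (eF B F) V w}
      zero_mem' := fun w _ => ⟨analyticAt_const, relP_zero _ _⟩
      add_mem' := by
        intro V₁ V₂ h1 h2 w hw
        exact ⟨(h1 w hw).1.add (h2 w hw).1, relP_add (h1 w hw).1 (h2 w hw).1 (h1 w hw).2 (h2 w hw).2⟩
      smul_mem' := by
        intro c V₁ h1 w hw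
        exact ⟨analyticAt_const.smul (h1 w hw).1, relP_smul c (h1 w hw).1 (h1 w hw).2⟩ }
  obtain ⟨V', hV', μ, hμ, hV'0, hsh⟩ := exists_eig (E := Fin (N + 2) → ℂ) (U := HP) (p := per) (w₀ := w₀) hp_per hw VV
    (by
      intro Z hZ w hw
      have h1 := hZ (w + per) ((hp_per w).2 hw)
      exact ⟨AnalyticAt.comp (g := Z) (f := fun w : ℂ => w + per) h1.1 (analyticAt_id.add analyticAt_const), relP_shift hOp hx hw h1.2⟩)
    (fun Z hZ h1 => detL hθ hm hb f hF hne hO hg hZ hw h1)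
    ⟨V, hV, w₀, hw, h0⟩
  obtain ⟨q, hq⟩ := exists_per per_ne hμ
  refine ⟨V', q, hV', hV'0, fun w hw => ?_⟩
  rw [hq]
  exact hsh w hw

end Pool.Agent.GL
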