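import Pool.Agent.GL.Row
import Pool.Agent.GA.EndC
import Pool.Agent.GA.RelC
import Pool.Agent.GG.CritArc

/-!
# GL EndL: the values of the variation field are initial vectors of arcs

At the points `w` near `w₀`: `exists_rowL` at `(F w, V w)`, `crit_of_rel` (GA) for `G = gfamL f`, `x = eF B F` (`eval_gfamL`: the values are `gval (thv θ F V)`, in `OO`), `GG.isInit_of_crit`.  `V w ≠ 0` in `ℂ^(N + 2)` implies `V ≠ 0` in `ℂ^(N + 1)` by `embV`.
-/

set_option autoImplicit false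

open MvPolynomial Topology Filter Metric
open Pool.Agent.H13.SM (conTan cone)
open Pool.Agent.GG Pool.Agent.GA

namespace Pool.Agent.GL

variable {N : ℕ} {P : Ideal (MvPolynomial (Fin (N + 1)) ℂ)} {B : Finset (Fin (N + 1))} {J : ℕ} {m : Fin J → ℕ} {θ : ∀ k, LogSec P B (m k)} {b : Fin (N + 1)}
  {F : ℂ → Fin (N + 1) → ℂ} {OO : Subalgebra ℂ (ℂ → ℂ)}

theorem endL (hθ : LogPolar θ) (hb : b ∈ B) (f : LFrame θ b) (hF : LCurve P B b F) (hO : IsSmallRing OO HP) {V : ℂ → Fin (N + 2) → ℂ} (hV : ∀ w ∈ HP, AnalyticAt ℂ V w)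
    (hR : ∀ w ∈ HP, RelX OO (eF B F) V w)
    (hT : ∀ w ∈ HP, (fun j => V w (Fin.castSucc j)) ∈ Tc P b (F w) ∧ V w = embV B (F w) (fun j => V w (Fin.castSucc j)))
    (hα : ∀ k, (fun w => thv θ (F w) (fun j => V w (Fin.castSucc j)) k) ∈ OO) {w₀ : ℂ} (hw : w₀ ∈ HP) (h0 : V w₀ ≠ 0) :
    ∀ᶠ w in 𝓝 w₀, (fun j => V w (Fin.castSucc j)) ≠ 0 ∧ IsInit (gfamL f) (ePt B (F w) fun j => V w (Fin.castSucc j)) := by
  have hopen : IsOpen HP := isOpen_lt continuous_const Complex.continuous_re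
  have hUc : ∀ w ∈ HP, F w ∈ Uc P B b := fun w hw => ⟨hF.curve.cone w hw, hF.one w, hF.ne w hw⟩
  have hV0 : ∀ᶠ w in 𝓝 w₀, V w ≠ 0 := (hV w₀ hw).continuousAt.eventually_ne h0
  filter_upwards [hV0, hopen.mem_nhds hw] with w hw1 hwH
  obtain ⟨hTw, hVw⟩ := hT w hwH
  have hne : (fun j => V w (Fin.castSucc j)) ≠ 0 := by
    intro h
    apply hw1
    rw [hVw, h]
    unfold embV
    funext i
    refine Fin.lastCases ?_ (fun j => ?_) i
    · rw [Fin.snoc_last]
      simp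
    · rw [Fin.snoc_castSucc]
      rfl
  refine ⟨hne, ?_⟩
  obtain ⟨I, hI⟩ := exists_rowL hθ f hb (hUc w hwH) hTw hne
  have hpt : ∀ u ∈ HP, pt (eF B F u) (V u) = ePt B (F u) (fun j => V u (Fin.castSucc j)) := by
    intro u hu
    unfold ePt
    rw [← (hT u hu).2]
    rfl
  have h1 : (fun _ : ℂ => (1 : ℂ)) ∈ OO := OO.one_mem
  have h2 : (fun _ : ℂ => (0 : ℂ)) ∈ OO := OO.zero_mem
  have hcr : Crit (gfamL f) I (pt (eF B F w) (V w)) := by
    refine crit_of_rel hO (gfamL f) I hwH (analyticAt_emb (hF.curve.an w hwH) (hF.ne w hwH)) (hV w hwH) (hR w hwH) (fun l => ?_) ?_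
    · refine ⟨fun u => gval (thv θ (F u) (fun j => V u (Fin.castSucc j))) l, ?_, ?_⟩
      · rcases l with ((_ | _) | (_ | _)) | ((_ | _) | k)
        · exact h1
        · exact h2
        · exact h2
        · exact h2
        · exact h1
        · exact h2
        · exact hα k
      · filter_upwards [hopen.mem_nhds hwH] with u hu
        rw [hpt u hu]
        exact eval_gfamL f (hUc u hu) (hT u hu).1 l
    · rw [hpt w hwH]
      exact hI
  have h3 := isInit_of_crit hcr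
  rw [hpt w hwH] at h3
  exact h3

end Pool.Agent.GL
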