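import Pool.Agent.GL.Tau
import Pool.Agent.GA.Ext0

/-!
# GL ExtL: curves of finite area extend to `X`

`AA` bounded: `TT t ≤ B t`, so the mean of the height at the level `t` is `≤ C t` (`mn_rho`) and `log ‖F w‖ ≤ Rho ≤ C (1 + Re w)` (`rho_area` with `h = 1 / 2`): the functions `F j` (remember `F b = 1`) are holomorphic functions of
`z = exp (-w)` on a punctured disc with at most a pole at `0`.  Take the smallest `k` such that all `exp (-k w) F j` are bounded: they have limits, which are not all `0`.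
-/

set_option autoImplicit false

open Topology Filter Metric MvPolynomial
open Pool.Agent.GG Pool.Agent.GA

namespace Pool.Agent.GL

variable {N : ℕ} {P : Ideal (MvPolynomial (Fin (N + 1)) ℂ)} {B : Finset (Fin (N + 1))} {b : Fin (N + 1)} {F : ℂ → Fin (N + 1) → ℂ}

private theorem AA_nonneg' (s : ℂ → ℝ) (X : ℝ) : 0 ≤ AA s X :=
  intervalIntegral.integral_nonneg (le_max_right _ _) fun t _ =>
    intervalIntegral.integral_nonneg (by positivity) fun y _ => sq_nonneg _

/-- the growth -/
private theorem growth_ext (hF : LCurve P B b F) {T : ℝ} (hT : ∀ X, AA (sp F) X ≤ T) :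
    ∃ k : ℕ, ∀ w : ℂ, 2 < w.re → ‖F w‖ ≤ Real.exp (k * w.re) := by
  have hT0 : 0 ≤ T := (AA_nonneg' _ 1).trans (hT 1)
  obtain ⟨C, hC⟩ := mn_rho hF
  have h1 : ∀ t : ℝ, 1 ≤ t → mn (fun w => Rho B (F w)) t ≤ |C| * (1 + T) * t := by
    intro t ht
    have h2 : TT (AA (sp F)) t ≤ T * t := by
      have h3 : ‖∫ x in (1 : ℝ)..t, AA (sp F) x‖ ≤ T * |t - 1| := by
        refine intervalIntegral.norm_integral_le_of_norm_le_const fun x _ => ?_
        rw [Real.norm_of_nonneg (AA_nonneg' _ _)]
        exact hT x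
      have h4 : |t - 1| ≤ t := by
        rw [abs_of_nonneg (by linarith)]
        linarith
      exact (Real.le_norm_self _).trans (h3.trans (mul_le_mul_of_nonneg_left h4 hT0))
    have h5 : 0 ≤ TT (AA (sp F)) t := intervalIntegral.integral_nonneg ht fun x _ => AA_nonneg' _ _
    have h6 : C * (t + TT (AA (sp F)) t) ≤ |C| * (t + TT (AA (sp F)) t) := mul_le_mul_of_nonneg_right (le_abs_self C) (by linarith)
    have h7 : |C| * (t + TT (AA (sp F)) t) ≤ |C| * (t + T * t) := mul_le_mul_of_nonneg_left (by linarith) (abs_nonneg C)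
    calc mn (fun w => Rho B (F w)) t ≤ |C| * (t + T * t) := (hC t ht).trans (h6.trans h7)
      _ = |C| * (1 + T) * t := by ring
  set D : ℝ := |C| * (1 + T) with hD
  have hD0 : 0 ≤ D := by positivity
  refine ⟨⌈3 * D⌉₊, fun w hw => ?_⟩
  have hwU : F w ∈ Uc P B b := ⟨hF.curve.cone w (by show 0 < w.re; linarith), hF.one w, hF.ne w (by show 0 < w.re; linarith)⟩
  have h2 := rho_area hF (w := w) (h := 1 / 2) (T := D * (w.re + 1 / 2)) (by norm_num) le_rfl (by linarith) (fun t ht =>
    (h1 t (by linarith [ht.1])).trans (mul_le_mul_of_nonneg_left ht.2 hD0))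
  have h3 : Rho B (F w) ≤ 3 * D * w.re := by
    refine h2.trans ?_
    rw [div_le_iff₀ (by norm_num)]
    nlinarith
  refine (norm_le_rho hwU).trans (Real.exp_le_exp.2 (h3.trans ?_))
  exact mul_le_mul_of_nonneg_right (Nat.le_ceil _) (by linarith)

private theorem exp_per (k : ℕ) (w : ℂ) : Complex.exp (-(k * (w + per))) = Complex.exp (-(k * w)) := by
  rw [Complex.exp_eq_exp_iff_exists_int]
  refine ⟨-k, ?_⟩
  unfold per
  push_cast
  ring

theorem ext0L (hF : LCurve P B b F) {T : ℝ} (hT : ∀ X, AA (sp F) X ≤ T) :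
    ∃ (a : Fin (N + 1)) (L : Fin (N + 1) → ℂ), (∀ᶠ w in comap Complex.re atTop, F w a ≠ 0) ∧
      Tendsto (fun w => (F w a)⁻¹ • F w) (comap Complex.re atTop) (𝓝 L) := by
  classical
  -- the smallest exponent
  have hex : ∃ k : ℕ, ∃ X₀ K : ℝ, ∀ (j : Fin (N + 1)) (w : ℂ), X₀ < w.re → ‖Complex.exp (-(k * w)) * F w j‖ ≤ K := by
    obtain ⟨k, hk⟩ := growth_ext hF hT
    refine ⟨k, 2, 1, fun j w hw => ?_⟩
    rw [norm_mul, Complex.norm_exp]
    have h1 : (-((k : ℂ) * w)).re = -(k * w.re) := by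
      rw [Complex.neg_re, Complex.mul_re, Complex.natCast_re, Complex.natCast_im, zero_mul, sub_zero]
    rw [h1]
    have h2 := (norm_le_pi_norm (F w) j).trans (hk w hw)
    calc Real.exp (-(k * w.re)) * ‖F w j‖ ≤ Real.exp (-(k * w.re)) * Real.exp (k * w.re) := mul_le_mul_of_nonneg_left h2 (Real.exp_pos _).le
      _ = 1 := by rw [← Real.exp_add, neg_add_cancel, Real.exp_zero]
  obtain ⟨X₀, K, hK⟩ := Nat.find_spec hex
  have hmin : ∀ l : ℕ, l < Nat.find hex → ¬ _ := fun l hl => Nat.find_min hex hl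
  set k : ℕ := Nat.find hex with hk
  -- the limits
  have hlim : ∀ j, ∃ c : ℂ, Tendsto (fun w => Complex.exp (-(k * w)) * F w j) (comap Complex.re atTop) (𝓝 c) ∧
      ∃ C X₁ : ℝ, ∀ w : ℂ, X₁ < w.re → ‖Complex.exp (-(k * w)) * F w j - c‖ ≤ C * Real.exp (-w.re) := by
    intro j
    refine ext0_cusp (X₀ := max X₀ 0) (K := K) (fun w hw => ?_) (fun w hw => ?_) fun w hw => ?_
    · have hw0 : w ∈ HP := lt_of_le_of_lt (le_max_right _ _) hw
      have h1 : DifferentiableAt ℂ (fun w => F w j) w := (analyticAt_pi_iff.1 (hF.curve.an w hw0) j).differentiableAt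
      have h2 : DifferentiableAt ℂ (fun w : ℂ => Complex.exp (-(k * w))) w := by fun_prop
      exact h2.mul h1
    · have hw0 : w ∈ HP := lt_of_le_of_lt (le_max_right _ _) hw
      show Complex.exp (-(k * (w + per))) * F (w + per) j = Complex.exp (-(k * w)) * F w j
      rw [exp_per, hF.curve.periodic w hw0]
    · exact hK j w (lt_of_le_of_lt (le_max_left _ _) hw)
  choose c hc hcb using hlim
  have hne : ∃ a, c a ≠ 0 := by
    by_contra hcon
    push Not at hcon
    rcases Nat.eq_zero_or_pos k with h0 | h0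
    · have h1 := hc b
      rw [hcon b] at h1
      have h2 : (fun w : ℂ => Complex.exp (-(k * w)) * F w b) = fun _ => 1 := by
        funext w
        rw [h0, hF.one w]
        simp
      rw [h2] at h1
      have : NeBot (comap Complex.re atTop) := by
        refine comap_neBot fun s hs => ?_
        obtain ⟨r, hr⟩ := (mem_atTop_sets.1 hs)
        exact ⟨(r : ℂ), by simpa using hr r le_rfl⟩
      exact one_ne_zero (tendsto_nhds_unique tendsto_const_nhds h1)
    · choose C X₁ hCX using hcb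
      refine hmin (k - 1) (by omega) ⟨(∑ j, |X₁ j|), ∑ j, |C j|, fun j w hw => ?_⟩
      have h1 : X₁ j < w.re := (le_abs_self _).trans_lt ((Finset.single_le_sum (f := fun j => |X₁ j|) (fun _ _ => abs_nonneg _) (Finset.mem_univ j)).trans_lt hw)
      have h2 := hCX j w h1
      rw [hcon j, sub_zero] at h2
      have h3 : Complex.exp (-(((k - 1 : ℕ) : ℂ) * w)) = Complex.exp w * Complex.exp (-(k * w)) := by
        rw [← Complex.exp_add]
        congr 1
        rw [Nat.cast_sub (by omega)]
        push_cast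
        ring
      rw [h3, mul_assoc, norm_mul, Complex.norm_exp]
      have h4 : C j ≤ ∑ j, |C j| := (le_abs_self _).trans (Finset.single_le_sum (f := fun j => |C j|) (fun _ _ => abs_nonneg _) (Finset.mem_univ j))
      calc Real.exp w.re * ‖Complex.exp (-(k * w)) * F w j‖ ≤ Real.exp w.re * (C j * Real.exp (-w.re)) := mul_le_mul_of_nonneg_left h2 (Real.exp_pos _).le
        _ = C j := by
          rw [mul_comm (C j), ← mul_assoc, ← Real.exp_add, add_neg_cancel, Real.exp_zero, one_mul]
        _ ≤ _ := h4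
  obtain ⟨a, ha⟩ := hne
  have hev : ∀ᶠ w in comap Complex.re atTop, F w a ≠ 0 := by
    filter_upwards [(hc a).eventually_ne ha] with w hw h0
    exact hw (by rw [h0, mul_zero])
  refine ⟨a, fun j => (c a)⁻¹ * c j, hev, ?_⟩
  rw [tendsto_pi_nhds]
  intro j
  refine (((hc a).inv₀ ha).mul (hc j)).congr fun w => ?_
  show (Complex.exp (-(k * w)) * F w a)⁻¹ * (Complex.exp (-(k * w)) * F w j) = (F w a)⁻¹ * F w j
  have hE := Complex.exp_ne_zero (-(k * w))
  rw [mul_inv, mul_mul_mul_comm, inv_mul_cancel₀ hE, one_mul]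

end Pool.Agent.GL
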