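import Pool.Agent.GL.Vb
import Pool.Agent.GL.EigL
import Pool.Agent.GL.EndL
import Pool.Agent.GL.ExtL
import Pool.Agent.GA.Sml

/-!
# GL FinL: curves in the half-plane

`AA (sp F)` bounded: `ext0L`.  Otherwise `AA` tends to infinity (monotone); `GA.sel` (GA/Sel) gives `Lev (sp F) X`; `F'` is not identically `0`.  `horL`, `contL`, `exists_eigL`: `V`, `q` with `V (w + per) = exp (q per) V w`.  `of_lhs` and `RelP.lhs`: `V w ∈ Tc`.
`vbound`, `thv_smul`: `exp (- m_k q w) thv θ F V k` is periodic and `≤ K τ ^ k exp (K Re w)` for `0 ≤ Im w ≤ 2 π`: it is small (`isOO_of_pt`), and equal to `thv θ F V₁ k` for `V₁ = exp (- q w) V`.  `endL` for `V₁` (`RelP.relX`; `RelX` for a multiple), the hypothesis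
on `R`, and the identity theorem for `R (F w)`.
-/

set_option autoImplicit false

open MvPolynomial Topology Filter Metric
open Pool.Agent.H13.SM (conTan cone)
open Pool.Agent.H62.FC (Homog)
open Pool.Agent.GG Pool.Agent.GA

namespace Pool.Agent.GL

variable {N : ℕ} {P : Ideal (MvPolynomial (Fin (N + 1)) ℂ)} {B : Finset (Fin (N + 1))} {J : ℕ} {m : Fin J → ℕ} {θ : ∀ k, LogSec P B (m k)} {b : Fin (N + 1)}
  {F : ℂ → Fin (N + 1) → ℂ}

private theorem FL_AA_continuous {s : ℂ → ℝ} (hs : Speed s) : Continuous (AA s) := by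
  have hm : ContinuousOn (mn fun w => s w ^ 2) (Set.Ioi 0) := sml_continuousOn_mn (hs.cont.pow 2)
  have hK : Continuous fun t : ℝ => mn (fun w => s w ^ 2) (max t 1) :=
    hm.comp_continuous (by fun_prop) fun t => Set.mem_Ioi.2 (lt_of_lt_of_le one_pos (le_max_right t 1))
  have h1 : ∀ X, AA s X = ∫ t in (1 : ℝ)..max X 1, mn (fun w => s w ^ 2) (max t 1) := by
    intro X
    unfold AA
    refine intervalIntegral.integral_congr fun t ht => ?_
    rw [Set.uIcc_of_le (le_max_right _ _)] at ht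
    show _ = mn _ (max t 1)
    rw [max_eq_left ht.1]
  have h2 : Continuous fun X : ℝ => ∫ t in (1 : ℝ)..X, mn (fun w => s w ^ 2) (max t 1) :=
    intervalIntegral.continuous_primitive (fun a b => hK.intervalIntegrable a b) 1
  have h3 : AA s = (fun X : ℝ => ∫ t in (1 : ℝ)..X, mn (fun w => s w ^ 2) (max t 1)) ∘ fun X => max X 1 := by
    funext X
    exact h1 X
  rw [h3]
  exact h2.comp (by fun_prop)

private theorem FL_exists_lev {s : ℂ → ℝ} (hs : Speed s) (hA : ¬ ∃ B, ∀ X, AA s X ≤ B) : ∃ X : ℕ → ℝ, Lev s X := by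
  have h1 : Tendsto (AA s) atTop atTop := by
    refine tendsto_atTop_atTop_of_monotone (sml_AA_mono hs) fun b => ?_
    by_contra hcon
    push Not at hcon
    exact hA ⟨b, fun X => (hcon X).le⟩
  obtain ⟨X, h2, h3, h4, h5⟩ := sel (FL_AA_continuous hs) (sml_AA_mono hs) h1
  exact ⟨X, h2, h3, h4, h5⟩

private theorem FL_ne {F : ℂ → Fin (N + 1) → ℂ} (hA : ¬ ∃ B, ∀ X, AA (sp F) X ≤ B) : ∃ w ∈ HP, deriv F w ≠ 0 := by
  by_contra hcon
  push Not at hcon
  apply hA
  refine ⟨0, fun X => le_of_eq ?_⟩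
  have h0 : ∀ w ∈ HP, sp F w = 0 := by
    intro w hw
    unfold sp wl
    rw [hcon w hw]
    have h1 : (fun p : Fin (N + 1) × Fin (N + 1) => F w p.1 * (0 : Fin (N + 1) → ℂ) p.2 - F w p.2 * (0 : Fin (N + 1) → ℂ) p.1) = 0 := by
      funext p
      simp
    rw [h1, norm_zero, zero_div]
  unfold AA
  have h2 : ∫ t in (1 : ℝ)..max X 1, mn (fun w => sp F w ^ 2) t = ∫ t in (1 : ℝ)..max X 1, (0 : ℝ) := by
    refine intervalIntegral.integral_congr fun t ht => ?_
    rw [Set.uIcc_of_le (le_max_right _ _)] at ht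
    show mn (fun w => sp F w ^ 2) t = 0
    have h3 := mn_congr (g := fun w => sp F w ^ 2) (h := fun _ => (0 : ℝ)) (t := t) (fun w hw => by
      show sp F w ^ 2 = 0
      rw [h0 w hw]
      norm_num) (lt_of_lt_of_le one_pos ht.1)
    rw [h3, mn_const, mul_zero]
  rw [h2]
  simp

private theorem FL_relX {M : ℕ} {OO : Subalgebra ℂ (ℂ → ℂ)} {x V V' : ℂ → Fin (M + 1) → ℂ} {w₀ : ℂ} (h : RelX OO x V w₀) {l : ℂ → ℂ}
    (hV : ∀ᶠ w in 𝓝 w₀, V' w = l w • V w) : RelX OO x V' w₀ := by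
  intro R hR
  filter_upwards [h R hR, hV] with w h1 h2
  rw [h2]
  simp only [Pi.smul_apply, smul_eq_mul]
  calc ∑ b, evO OO x (pderiv b R) w * (l w * V w b) = l w * ∑ b, evO OO x (pderiv b R) w * V w b := by
        rw [Finset.mul_sum]
        exact Finset.sum_congr rfl fun b _ => by ring
    _ = 0 := by rw [h1, mul_zero]

private theorem FL_Tc {x v : Fin (N + 1) → ℂ} (h : v ∈ Tc P b x) (c : ℂ) : c • v ∈ Tc P b x := by
  refine ⟨?_, ?_⟩
  · intro Q hQ
    have h1 : ∑ i, v i * eval x (pderiv i Q) = 0 := h.1 Q hQ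
    show ∑ i, (c • v) i * eval x (pderiv i Q) = 0
    simp only [Pi.smul_apply, smul_eq_mul, mul_assoc]
    rw [← Finset.mul_sum, h1, mul_zero]
  · show c * v b = 0
    rw [show v b = 0 from h.2, mul_zero]

private theorem FL_embV (B : Finset (Fin (N + 1))) (x v : Fin (N + 1) → ℂ) (c : ℂ) : embV B x (c • v) = c • embV B x v := by
  funext j
  refine Fin.lastCases ?_ (fun i => ?_) j
  · simp only [embV, Fin.snoc_last, Pi.smul_apply, smul_eq_mul]
    have : ∀ i, (x i)⁻¹ * (c * v i) = c * ((x i)⁻¹ * v i) := fun i => by ring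
    simp only [this, ← Finset.mul_sum]
    ring
  · simp only [embV, Fin.snoc_castSucc, Pi.smul_apply, smul_eq_mul]

private theorem FL_uc (hF : LCurve P B b F) {w : ℂ} (hw : w ∈ HP) : F w ∈ Uc P B b := ⟨hF.curve.cone w hw, hF.one w, hF.ne w hw⟩

private theorem FL_open : IsOpen HP := isOpen_lt continuous_const Complex.continuous_re

private theorem FL_exp (q w : ℂ) (hw : 0 ≤ w.re) (h0 : 0 ≤ w.im) (h1 : w.im ≤ 2 * Real.pi) (n : ℕ) :
    ‖Complex.exp (-(q * w))‖ ^ n ≤ Real.exp (n * ‖q‖ * (2 * Real.pi)) * Real.exp (n * ‖q‖ * w.re) := by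
  have h2 : ‖w‖ ≤ w.re + 2 * Real.pi := by
    refine (Complex.norm_le_abs_re_add_abs_im w).trans ?_
    rw [abs_of_nonneg hw, abs_of_nonneg h0]
    linarith
  have h3 : ‖Complex.exp (-(q * w))‖ ≤ Real.exp (‖q‖ * (w.re + 2 * Real.pi)) := by
    rw [Complex.norm_exp]
    refine Real.exp_le_exp.2 ?_
    calc (-(q * w)).re ≤ ‖-(q * w)‖ := Complex.re_le_norm _
      _ = ‖q‖ * ‖w‖ := by rw [norm_neg, norm_mul]
      _ ≤ ‖q‖ * (w.re + 2 * Real.pi) := mul_le_mul_of_nonneg_left h2 (norm_nonneg _)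
  calc ‖Complex.exp (-(q * w))‖ ^ n ≤ Real.exp (‖q‖ * (w.re + 2 * Real.pi)) ^ n := pow_le_pow_left₀ (norm_nonneg _) h3 n
    _ = Real.exp (n * ‖q‖ * (2 * Real.pi)) * Real.exp (n * ‖q‖ * w.re) := by
        rw [← Real.exp_nat_mul, ← Real.exp_add]
        congr 1
        ring

theorem finL (hP : Homog P) (hθ : LogPolar θ) (hm : ∀ k, 1 ≤ m k) (hb : b ∈ B) (f : LFrame θ b) {R : MvPolynomial (Fin (N + 1)) ℂ}
    (hR : ∀ x ∈ Uc P B b, ∀ v ∈ Tc P b x, v ≠ 0 → IsInit (gfamL f) (ePt B x v) → eval x R = 0) (hF : LCurve P B b F) :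
    (∃ (a : Fin (N + 1)) (L : Fin (N + 1) → ℂ), (∀ᶠ w in comap Complex.re atTop, F w a ≠ 0) ∧
      Tendsto (fun w => (F w a)⁻¹ • F w) (comap Complex.re atTop) (𝓝 L)) ∨ ∀ w ∈ HP, eval (F w) R = 0 := by
  classical
  by_cases hA : ∃ T, ∀ X, AA (sp F) X ≤ T
  · obtain ⟨T, hT⟩ := hA
    exact Or.inl (ext0L hF hT)
  right
  have hs := hF.curve.speed
  obtain ⟨X, hX⟩ := FL_exists_lev hs hA
  have hne := FL_ne hA
  have hO : IsSmallRing (GA.OO hX) HP := isSmallRing_OO hX
  have hOp : ∀ g ∈ GA.OO hX, ∀ w ∈ HP, g (w + per) = g w := fun g hg => (mem_OO.1 hg).periodic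
  have hg := gfam_small hP hθ hm hb f hF hX
  obtain ⟨w₀, hw₀, V₀, hV₀, hne₀, hR₀⟩ := horL hP hθ hm hb f hF hX hne
  obtain ⟨V₁, hV₁, hVe⟩ := contL hθ hm hb f hF hne hO hg hw₀ hV₀ hR₀
  have hne₁ : V₁ w₀ ≠ 0 := by
    rw [hVe.self_of_nhds]
    exact hne₀
  obtain ⟨V, q, hV, hVn, hq⟩ := exists_eigL hθ hm hb f hF hne hO hOp hg hw₀ hV₁ hne₁
  obtain ⟨K, k, hK⟩ := vbound hP hθ hm hb f hF hX hne hV
  have hev : ∀ w ∈ HP, ∀ᶠ z in 𝓝 w, z ∈ HP := fun w hw => FL_open.eventually_mem hw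
  have hlhs : ∀ w ∈ HP, ∀ᶠ z in 𝓝 w, ∀ l, lhs (gfamL f l) (eF B F) V z = 0 := by
    intro w hw
    refine eventually_all.2 fun l => (hV w hw).2.lhs (hg l) ?_
    filter_upwards [hev w hw] with z hz
    exact eval_curve f hF l hz
  have hT : ∀ w ∈ HP, (fun j => V w (Fin.castSucc j)) ∈ Tc P b (F w) ∧ V w = embV B (F w) (fun j => V w (Fin.castSucc j)) := by
    intro w hw
    refine (of_lhs f (hF.curve.an w hw) ?_ (hlhs w hw)).self_of_nhds
    filter_upwards [hev w hw] with z hz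
    exact FL_uc hF hz
  have hq1 : ∀ w ∈ HP, w + per ∈ HP := by
    intro w hw
    have h1 : (w + per).re = w.re := by simp [per]
    show 0 < (w + per).re
    rw [h1]
    exact hw
  have hexpan : ∀ w, AnalyticAt ℂ (fun w : ℂ => Complex.exp (-(q * w))) w := fun w => by fun_prop
  have hcast : ∀ w (c : ℂ), (fun j => (c • V w) (Fin.castSucc j)) = c • fun j => V w (Fin.castSucc j) := fun w c => rfl
  have hVc : ∀ w ∈ HP, AnalyticAt ℂ (fun w j => V w (Fin.castSucc j)) w := by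
    intro w hw
    exact analyticAt_pi_iff.2 fun j => (analyticAt_pi_iff.1 (hV w hw).1) (Fin.castSucc j)
  -- the values
  have hval : ∀ w ∈ HP, ∀ i, thv θ (F w) (fun j => (Complex.exp (-(q * w)) • V w) (Fin.castSucc j)) i =
      Complex.exp (-(q * w)) ^ m i * thv θ (F w) (fun j => V w (Fin.castSucc j)) i := by
    intro w hw i
    rw [hcast]
    exact thv_smul (FL_uc hF hw) (hT w hw).1 _ i
  have hVp : ∀ w ∈ HP, Complex.exp (-(q * (w + per))) • V (w + per) = Complex.exp (-(q * w)) • V w := by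
    intro w hw
    rw [hq w hw, smul_smul, ← Complex.exp_add]
    congr 2
    ring
  have hα : ∀ i, (fun w => thv θ (F w) (fun j => (Complex.exp (-(q * w)) • V w) (Fin.castSucc j)) i) ∈ GA.OO hX := by
    intro i
    have han : ∀ w ∈ HP, AnalyticAt ℂ (fun w => thv θ (F w) (fun j => (Complex.exp (-(q * w)) • V w) (Fin.castSucc j)) i) w := by
      intro w hw
      refine analyticAt_thv (b := b) (x := F) (v := fun w j => (Complex.exp (-(q * w)) • V w) (Fin.castSucc j)) (hF.curve.an w hw) ?_ ?_ i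
      · exact (hexpan w).smul (hVc w hw)
      · filter_upwards [hev w hw] with z hz
        exact ⟨FL_uc hF hz, FL_Tc (hT z hz).1 _⟩
    refine mem_OO.2 (isOO_of_pt hX han ?_ (K := max (|K| * Real.exp (m i * ‖q‖ * (2 * Real.pi))) (m i * ‖q‖)) (k := k) ?_)
    · intro w hw
      have h1 : F (w + per) = F w := hF.curve.periodic w hw
      show thv θ (F (w + per)) (fun j => (Complex.exp (-(q * (w + per))) • V (w + per)) (Fin.castSucc j)) i = _
      rw [h1, hVp w hw]
    · intro n w h1 h2 h3 h4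
      have hw : w ∈ HP := lt_of_lt_of_le one_pos h1
      have hre : 0 ≤ w.re := zero_le_one.trans h1
      have hτ : 0 < tau (sp F) X n := hX.tau_pos n
      rw [hval w hw i, norm_mul, norm_pow]
      have h5 := FL_exp q w hre h3 h4 (m i)
      have h6 : ‖thv θ (F w) (fun j => V w (Fin.castSucc j)) i‖ ≤ |K| * tau (sp F) X n ^ k :=
        (hK n w h1 h2 h3 h4 i).trans (mul_le_mul_of_nonneg_right (le_abs_self K) (pow_nonneg hτ.le _))
      have h7 : Real.exp (m i * ‖q‖ * w.re) ≤ Real.exp (max (|K| * Real.exp (m i * ‖q‖ * (2 * Real.pi))) (m i * ‖q‖) * w.re) :=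
        Real.exp_le_exp.2 (mul_le_mul_of_nonneg_right (le_max_right _ _) hre)
      calc ‖Complex.exp (-(q * w))‖ ^ m i * ‖thv θ (F w) (fun j => V w (Fin.castSucc j)) i‖
          ≤ Real.exp (m i * ‖q‖ * (2 * Real.pi)) * Real.exp (m i * ‖q‖ * w.re) * (|K| * tau (sp F) X n ^ k) :=
            mul_le_mul h5 h6 (norm_nonneg _) (by positivity)
        _ = (|K| * Real.exp (m i * ‖q‖ * (2 * Real.pi))) * tau (sp F) X n ^ k * Real.exp (m i * ‖q‖ * w.re) := by ring
        _ ≤ max (|K| * Real.exp (m i * ‖q‖ * (2 * Real.pi))) (m i * ‖q‖) * tau (sp F) X n ^ k *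
            Real.exp (max (|K| * Real.exp (m i * ‖q‖ * (2 * Real.pi))) (m i * ‖q‖) * w.re) := by
            refine mul_le_mul (mul_le_mul_of_nonneg_right (le_max_left _ _) (pow_nonneg hτ.le _)) h7 (Real.exp_pos _).le ?_
            exact mul_nonneg ((by positivity : (0 : ℝ) ≤ |K| * Real.exp (m i * ‖q‖ * (2 * Real.pi))).trans (le_max_left _ _)) (pow_nonneg hτ.le _)
  have hend := endL hθ hb f hF hO (V := fun w => Complex.exp (-(q * w)) • V w) (fun w hw => (hexpan w).smul (hV w hw).1)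
    (fun w hw => FL_relX (hV w hw).2.relX (Eventually.of_forall fun _ => rfl))
    (fun w hw => by
      refine ⟨?_, ?_⟩
      · exact FL_Tc (hT w hw).1 _
      · show Complex.exp (-(q * w)) • V w = embV B (F w) (fun j => (Complex.exp (-(q * w)) • V w) (Fin.castSucc j))
        rw [hcast, FL_embV, ← (hT w hw).2])
    hα hw₀ (smul_ne_zero (Complex.exp_ne_zero _) hVn)
  have hRe : ∀ᶠ w in 𝓝 w₀, eval (F w) R = 0 := by
    filter_upwards [hend, hev w₀ hw₀] with w h1 h2
    refine hR (F w) (FL_uc hF h2) _ ?_ h1.1 h1.2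
    exact FL_Tc (hT w h2).1 _
  have hRan : AnalyticOnNhd ℂ (fun w => eval (F w) R) HP := by
    intro w hw
    exact AnalyticAt.comp (g := fun y : Fin (N + 1) → ℂ => eval y R) (f := F) (AnalyticOnNhd.eval_mvPolynomial R (F w) (Set.mem_univ _)) (hF.curve.an w hw)
  have hconn : IsPreconnected HP := (convex_halfSpace_re_gt 0).isPreconnected
  exact fun w hw => hRan.eqOn_zero_of_preconnected_of_eventuallyEq_zero hconn hw₀ hRe hw

end Pool.Agent.GL
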