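import Pool.Agent.GL.Crv
import Pool.Agent.GL.E2
import Pool.Agent.GG.Alg
import Pool.Agent.GG.Gen
import Pool.Agent.GG.Hom
import Pool.Agent.GG.CritArc
import Pool.Agent.GG.Core
import Pool.Agent.H17R.TrBasis

/-!
# GL Rr: the curves with constant `θ` lie in a hypersurface section

As the assembly of GG.  `Rr_affine` (the proof of `GG.exists_affine` in the chart `b`, `X b ∉ P`): the prime ideal `𝔓` of the chart.  `Rr_core`: for every pair `(I, b₁)`, `I : Fin (N + 2) → GIx`, `b₁ : Fin (N + 1)`, the points `x` of the vectors with `Crit (gfamL f) I`,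
`v b₁ ≠ 0`, `R₀ (x) ≠ 0` satisfy `q (x) = 0` for one `q ∉ 𝔓`.  If not, `GG.dichotomy` (the ideal generated by all `(Dt I)^[k + 1] (G l)` and by `G l - gval` for the first families of the index) and `GG.exists_germ` for the coordinates of a transcendence basis of the
function field give a holomorphic germ `Y : ℂ^d → Ph (N + 1)` with values in the zero set, `Y s = ePt B x v`, `IsInit` (`isInit_of_crit`), the `x`-part of rank `n`, `x (0)` off `R₀`.  `exists_dirs`: directions `s_i` such that `v (0)` and the `∂x/∂s_i`, `i = 2..n`, are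
independent: the restricted family of dimension `n - 1`, `exists_famL`, `e2`; against `NonzeroOff`.
-/

set_option autoImplicit false

open MvPolynomial Topology Filter Metric
open Pool.Agent.H13.SM (conTan cone)
open Pool.Agent.H62.FC (Homog)
open Pool.Agent.H17GT (coordFun)
open Pool.Agent.H17LG.Variety (FunField ratio)
open Pool.Agent.GG Pool.Agent.GA

namespace Pool.Agent.GL

variable {N : ℕ} {P : Ideal (MvPolynomial (Fin (N + 1)) ℂ)} {B : Finset (Fin (N + 1))} {J : ℕ} {m : Fin J → ℕ} {θ : ∀ k, LogSec P B (m k)} {b : Fin (N + 1)}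

private theorem Rr_emb (x : Fin (N + 1) → ℂ) (i : Fin (N + 1)) : emb B x i.castSucc = x i := by
  unfold emb
  exact Fin.snoc_castSucc (α := fun _ => ℂ) _ _ _

private theorem Rr_embV (x v : Fin (N + 1) → ℂ) (i : Fin (N + 1)) : embV B x v i.castSucc = v i := by
  unfold embV
  exact Fin.snoc_castSucc (α := fun _ => ℂ) _ _ _

private theorem Rr_split {y : Ph (N + 1) → ℂ} {x v : Fin (N + 1) → ℂ} (h : y = ePt B x v) :
    (fun i : Fin (N + 1) => y (Sum.inl i.castSucc)) = x ∧ (fun i : Fin (N + 1) => y (Sum.inr i.castSucc)) = v := by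
  subst h
  exact ⟨funext fun i => Rr_emb x i, funext fun i => Rr_embV x v i⟩

/-- the homogenisation of `q` with respect to `x_a` -/
private noncomputable def Rr_hmg (a : Fin (N + 1)) (q : MvPolynomial (Fin (N + 1)) ℂ) : MvPolynomial (Fin (N + 1)) ℂ :=
  ∑ d ∈ Finset.range (q.totalDegree + 1), X a ^ (q.totalDegree - d) * homogeneousComponent d q

private theorem Rr_hmg_hom (a : Fin (N + 1)) (q : MvPolynomial (Fin (N + 1)) ℂ) : (Rr_hmg a q).IsHomogeneous q.totalDegree := by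
  unfold Rr_hmg
  refine IsHomogeneous.sum _ _ _ fun d hd => ?_
  have h1 := (isHomogeneous_X_pow (R := ℂ) a (q.totalDegree - d)).mul (homogeneousComponent_isHomogeneous d q)
  rwa [Nat.sub_add_cancel (Nat.lt_succ_iff.1 (Finset.mem_range.1 hd))] at h1

private theorem Rr_eval_hmg (a : Fin (N + 1)) (q : MvPolynomial (Fin (N + 1)) ℂ) {x : Fin (N + 1) → ℂ} (h : x a = 1) :
    eval x (Rr_hmg a q) = eval x q := by
  conv_rhs => rw [← sum_homogeneousComponent q]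
  unfold Rr_hmg
  rw [map_sum, map_sum]
  refine Finset.sum_congr rfl fun d _ => ?_
  rw [map_mul, map_pow, eval_X, h, one_pow, one_mul]

private theorem Rr_affine [P.IsPrime] {n : ℕ} (hdim : ∃ z : Fin n → FunField P, IsTranscendenceBasis ℂ z) {a : Fin (N + 1)} (ha : X a ∉ P) :
    ∃ 𝔓 : Ideal (MvPolynomial (Fin (N + 1)) ℂ), 𝔓.IsPrime ∧
      (∃ b : Fin n → Fin (N + 1), ∀ p : MvPolynomial (Fin n) ℂ, rename b p ∈ 𝔓 → p = 0) ∧
      ∀ q ∉ 𝔓, ∃ (D : ℕ) (R : MvPolynomial (Fin (N + 1)) ℂ), R.IsHomogeneous D ∧ R ∉ P ∧ ∀ x : Fin (N + 1) → ℂ, x a = 1 →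
        eval x q = 0 → eval x R = 0 := by
  obtain ⟨z, hz⟩ := hdim
  have hc : coordFun P a ≠ 0 := Pool.Agent.H17R.coordFun_ne_zero_iff.2 ha
  refine ⟨RingHom.ker (aeval (fun i => ratio P i a) : MvPolynomial (Fin (N + 1)) ℂ →ₐ[ℂ] FunField P), ?_, ?_, ?_⟩
  · exact RingHom.ker_isPrime _
  · have halg : Algebra.IsAlgebraic (IntermediateField.adjoin ℂ (Set.range fun i => ratio P i a)) (FunField P) := by
      refine ⟨fun y => ?_⟩
      have h1 : y ∈ IntermediateField.adjoin ℂ (Set.range fun i => ratio P i a) := by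
        rw [Pool.Agent.H17R.adjoin_ratio hc]
        exact IntermediateField.mem_top
      exact isAlgebraic_algebraMap (⟨y, h1⟩ : IntermediateField.adjoin ℂ (Set.range fun i => ratio P i a))
    obtain ⟨J, hJ⟩ := Pool.Agent.H92.GT.exists_index halg hz
    refine ⟨J, fun p hp => ?_⟩
    have h1 : aeval (fun i => ratio P (J i) a) p = 0 := by
      have h2 := RingHom.mem_ker.1 hp
      rw [aeval_rename] at h2
      exact h2
    exact (algebraicIndependent_iff.1 hJ.1) p h1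
  · intro q hq
    refine ⟨q.totalDegree, Rr_hmg a q, Rr_hmg_hom a q, fun h => hq ?_, fun x hx h => by rw [Rr_eval_hmg a q hx, h]⟩
    have h1 := (Pool.Agent.H17R.gen_eq_zero_iff hc (Rr_hmg_hom a q)).2 h
    have h2 : Pool.Agent.H17R.gen P a (Rr_hmg a q) = aeval (fun i => ratio P i a) q := by
      unfold Pool.Agent.H17R.gen Rr_hmg
      conv_rhs => rw [← sum_homogeneousComponent q]
      rw [map_sum, map_sum]
      refine Finset.sum_congr rfl fun d _ => ?_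
      rw [map_mul, map_pow, aeval_X, Pool.Agent.H17R.ratio_self hc, one_pow, one_mul]
    rw [h2] at h1
    exact RingHom.mem_ker.2 h1

private theorem Rr_core (hP : Homog P) (hb : b ∈ B) (hθ : LogPolar θ) (hm : ∀ k, 1 ≤ m k) (f : LFrame θ b) {n M : ℕ} (hM : 1 ≤ M) (Ω : LogCan P B (n + 1) M)
    {R₀ : MvPolynomial (Fin (N + 1)) ℂ} (hΩ : Ω.NonzeroOff R₀) (𝔓 : Ideal (MvPolynomial (Fin (N + 1)) ℂ)) [𝔓.IsPrime]
    (b' : Fin (n + 1) → Fin (N + 1)) (hb' : ∀ p : MvPolynomial (Fin (n + 1)) ℂ, rename b' p ∈ 𝔓 → p = 0)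
    (I : Fin (N + 2) → GIx f.q J) (b₁ : Fin (N + 1)) :
    ∃ q ∉ 𝔓, ∀ x ∈ Uc P B b, ∀ v ∈ Tc P b x, Crit (gfamL f) I (ePt B x v) → v b₁ ≠ 0 → eval x R₀ ≠ 0 → eval x q = 0 := by
  classical
  set G := gfamL f with hG
  set S : Set (MvPolynomial (Ph (N + 1)) ℂ) := {g | (∃ l, g = G (Sum.inl l) - C (gval (q := f.q) (0 : Fin J → ℂ) (Sum.inl l))) ∨
    (∃ l, g = G (Sum.inr (Sum.inl l)) - C (gval (q := f.q) (0 : Fin J → ℂ) (Sum.inr (Sum.inl l)))) ∨ ∃ l k, g = (⇑(Dt G I))^[k + 1] (G l)} with hS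
  have hev : ∀ (y : Ph (N + 1) → ℂ) (g : MvPolynomial (Fin (N + 1)) ℂ), eval y (rename (fun i : Fin (N + 1) => (Sum.inl i.castSucc : Ph (N + 1))) g) =
      eval (fun i : Fin (N + 1) => y (Sum.inl i.castSucc)) g := by
    intro y g
    rw [eval_rename]
    rfl
  rcases dichotomy S (vdet G I * X (Sum.inr b₁.castSucc) * rename (fun i : Fin (N + 1) => (Sum.inl i.castSucc : Ph (N + 1))) R₀)
    (fun i : Fin (N + 1) => (Sum.inl i.castSucc : Ph (N + 1))) 𝔓 with ⟨q, hq, h⟩ | ⟨𝔮, h𝔮, hS𝔮, hΔ, hcomap⟩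
  · refine ⟨q, hq, fun x hx v hv hc hv1 hR => ?_⟩
    obtain ⟨hsx, hsv⟩ := Rr_split (B := B) (x := x) (v := v) rfl
    have h1 := h (ePt B x v) ?_ ?_
    · rwa [hsx] at h1
    · rintro g (⟨l, rfl⟩ | ⟨l, rfl⟩ | ⟨l, k, rfl⟩)
      · rw [map_sub, eval_C, hG, eval_gfamL f hx hv]
        exact sub_eq_zero.2 rfl
      · rw [map_sub, eval_C, hG, eval_gfamL f hx hv]
        exact sub_eq_zero.2 rfl
      · exact hc.2 l k
    · rw [map_mul, map_mul, hev, eval_X, hsx]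
      refine mul_ne_zero (mul_ne_zero hc.1 ?_) hR
      rw [show ePt B x v (Sum.inr b₁.castSucc) = v b₁ from congrFun hsv b₁]
      exact hv1
  exfalso
  obtain ⟨d, Y, hY, hY0, hYΔ, hsurj⟩ := exists_germ h𝔮 hΔ (fun i => (Sum.inl (b' i).castSucc : Ph (N + 1))) fun p hp => by
    refine hb' p (hcomap _ ?_)
    rw [rename_rename]
    exact hp
  -- the points of the germ
  have hΔc : ∀ᶠ u in 𝓝 (0 : Fin d → ℂ), eval (Y u) (vdet G I * X (Sum.inr b₁.castSucc) * rename (fun i : Fin (N + 1) => (Sum.inl i.castSucc : Ph (N + 1))) R₀) ≠ 0 := by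
    have hc : ContinuousAt (fun u => eval (Y u) (vdet G I * X (Sum.inr b₁.castSucc) * rename (fun i : Fin (N + 1) => (Sum.inl i.castSucc : Ph (N + 1))) R₀)) 0 :=
      (MvPolynomial.continuous_eval _).continuousAt.comp hY.continuousAt
    exact hc.eventually_ne hYΔ
  have hgood : ∀ u, (∀ g ∈ 𝔮, eval (Y u) g = 0) →
      eval (Y u) (vdet G I * X (Sum.inr b₁.castSucc) * rename (fun i : Fin (N + 1) => (Sum.inl i.castSucc : Ph (N + 1))) R₀) ≠ 0 →
      Y u = ePt B (fun i : Fin (N + 1) => Y u (Sum.inl i.castSucc)) (fun i : Fin (N + 1) => Y u (Sum.inr i.castSucc)) ∧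
        (fun i : Fin (N + 1) => Y u (Sum.inl i.castSucc)) ∈ Uc P B b ∧
        (fun i : Fin (N + 1) => Y u (Sum.inr i.castSucc)) ∈ Tc P b (fun i : Fin (N + 1) => Y u (Sum.inl i.castSucc)) ∧
        (fun i : Fin (N + 1) => Y u (Sum.inr i.castSucc)) ≠ 0 ∧ Crit G I (Y u) ∧ eval (fun i : Fin (N + 1) => Y u (Sum.inl i.castSucc)) R₀ ≠ 0 := by
    intro u hu hΔu
    rw [map_mul, map_mul, hev, eval_X] at hΔu
    have h1 : ∀ l, eval (Y u) (gfamL f l) = gval (fun k => eval (Y u) (gfamL f (Sum.inr (Sum.inr k)))) l := by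
      rintro (l | l | k)
      · have h2 := hu _ (hS𝔮 (Or.inl ⟨l, rfl⟩))
        rw [map_sub, eval_C] at h2
        exact sub_eq_zero.1 h2
      · have h2 := hu _ (hS𝔮 (Or.inr (Or.inl ⟨l, rfl⟩)))
        rw [map_sub, eval_C] at h2
        exact sub_eq_zero.1 h2
      · rfl
    obtain ⟨x', v', h2, h3, h4, -⟩ := of_gval f h1
    obtain ⟨h5, h6⟩ := Rr_split h2
    rw [h5, h6]
    refine ⟨h2, h3, h4, ?_, ⟨left_ne_zero_of_mul (left_ne_zero_of_mul hΔu), fun l k => ?_⟩, ?_⟩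
    · intro h
      have h7 : Y u (Sum.inr b₁.castSucc) = 0 := by
        have h8 := congrFun h6 b₁
        rw [h] at h8
        exact h8
      exact (left_ne_zero_of_mul hΔu |> right_ne_zero_of_mul) h7
    · exact hu _ (hS𝔮 (Or.inr (Or.inr ⟨l, k, rfl⟩)))
    · rw [← h5]
      exact right_ne_zero_of_mul hΔu
  obtain ⟨hp0, hU0, hT0, hv0, -, hR0⟩ := hgood 0 hY0.self_of_nhds hYΔ
  -- the derivative of the germ in the `x`-part
  set D : (Fin d → ℂ) →L[ℂ] (Ph (N + 1) → ℂ) := fderiv ℂ Y 0 with hD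
  have hYd : HasFDerivAt Y D 0 := hY.differentiableAt.hasFDerivAt
  set E : (Fin d → ℂ) →ₗ[ℂ] (Fin (N + 1) → ℂ) :=
    LinearMap.pi fun i : Fin (N + 1) => (LinearMap.proj (Sum.inl i.castSucc : Ph (N + 1))).comp (D : (Fin d → ℂ) →ₗ[ℂ] (Ph (N + 1) → ℂ)) with hE
  have hEa : ∀ s i, E s i = D s (Sum.inl i.castSucc) := fun s i => rfl
  set x₀ : Fin (N + 1) → ℂ := fun i => Y 0 (Sum.inl i.castSucc) with hx₀
  set v₀ : Fin (N + 1) → ℂ := fun i => Y 0 (Sum.inr i.castSucc) with hv₀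
  have hEb : ∀ s, E s b = 0 := by
    intro s
    rw [hEa]
    have h1 : HasFDerivAt (fun u => Y u (Sum.inl b.castSucc)) ((ContinuousLinearMap.proj (Sum.inl b.castSucc)).comp D) 0 := hasFDerivAt_pi'.1 hYd (Sum.inl b.castSucc)
    have h2 : (fun u => Y u (Sum.inl b.castSucc)) =ᶠ[𝓝 0] fun _ => (1 : ℂ) := by
      filter_upwards [hY0, hΔc] with u hu1 hu2
      exact (hgood u hu1 hu2).2.1.2.1
    have h3 := (hasFDerivAt_const (𝕜 := ℂ) (1 : ℂ) (0 : Fin d → ℂ)).congr_of_eventuallyEq h2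
    have h4 := congrArg (fun L : (Fin d → ℂ) →L[ℂ] ℂ => L s) (h1.unique h3)
    simpa using h4
  have hEt : ∀ s, E s ∈ conTan P x₀ := by
    intro s Q hQ
    have h1 : ∀ i : Fin (N + 1), HasFDerivAt (fun u => Y u (Sum.inl i.castSucc)) ((ContinuousLinearMap.proj (Sum.inl i.castSucc)).comp D) 0 :=
      fun i => hasFDerivAt_pi'.1 hYd (Sum.inl i.castSucc)
    have h2 := (Pool.Agent.H13.SM.Inv_hasFDerivAt_eval Q x₀).comp (0 : Fin d → ℂ) (hasFDerivAt_pi.2 h1)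
    have h3 : (fun y : Fin (N + 1) → ℂ => eval y Q) ∘ (fun u (i : Fin (N + 1)) => Y u (Sum.inl i.castSucc)) =ᶠ[𝓝 0] fun _ => (0 : ℂ) := by
      filter_upwards [hY0, hΔc] with u hu1 hu2
      exact (hgood u hu1 hu2).2.1.1.2 Q hQ
    have h4 := (hasFDerivAt_const (𝕜 := ℂ) (0 : ℂ) (0 : Fin d → ℂ)).congr_of_eventuallyEq h3
    have h5 := congrArg (fun L : (Fin d → ℂ) →L[ℂ] ℂ => L s) (h2.unique h4)
    rw [_root_.zero_apply] at h5
    rw [← h5]
    simp only [ContinuousLinearMap.comp_apply, _root_.sum_apply, _root_.smul_apply, ContinuousLinearMap.proj_apply, ContinuousLinearMap.pi_apply,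
      smul_eq_mul]
    exact Finset.sum_congr rfl fun i _ => mul_comm _ _
  -- `n` directions
  obtain ⟨s, hs⟩ : ∃ s : Fin n → Fin d → ℂ, ∀ (β : ℂ) (γ : Fin n → ℂ), β • v₀ + ∑ j, γ j • E (s j) = 0 → β = 0 ∧ γ = 0 := by
    refine exists_dirs E (LinearMap.pi fun j => LinearMap.proj (b' j)) ?_ hv0
    intro y
    obtain ⟨t, ht⟩ := hsurj y
    refine ⟨t, ?_⟩
    rw [← ht]
    have h1 : HasFDerivAt (fun (u : Fin d → ℂ) (j : Fin (n + 1)) => Y u (Sum.inl (b' j).castSucc))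
        (ContinuousLinearMap.pi fun j => (ContinuousLinearMap.proj (Sum.inl (b' j).castSucc)).comp D) 0 :=
      hasFDerivAt_pi.2 fun j => hasFDerivAt_pi'.1 hYd (Sum.inl (b' j).castSucc)
    rw [h1.fderiv]
    rfl
  -- the family of curves
  set L : (Fin n → ℂ) →L[ℂ] (Fin d → ℂ) := ∑ i, (ContinuousLinearMap.proj i : (Fin n → ℂ) →L[ℂ] ℂ).smulRight (s i) with hL
  have hLs : ∀ i, L (Pi.single i 1) = s i := by
    intro i
    rw [hL, _root_.sum_apply, Finset.sum_eq_single i]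
    · simp
    · intro j _ hj
      simp [Pi.single_eq_of_ne hj]
    · simp
  have hL0 : Tendsto L (𝓝 0) (𝓝 0) := by
    have := L.continuous.tendsto 0
    rwa [map_zero] at this
  have hYL : AnalyticAt ℂ (fun u => Y (L u)) 0 := by
    refine AnalyticAt.fun_comp (g := Y) (f := L) ?_ (L.analyticAt 0)
    rw [map_zero]
    exact hY
  have hYLd : HasFDerivAt (fun u => Y (L u)) (D.comp L) 0 := by
    refine HasFDerivAt.comp (g := Y) (f := L) 0 ?_ L.hasFDerivAt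
    rw [map_zero]
    exact hYd
  obtain ⟨ρ, hρ, Φ, c, hc0, hΦ, hΦY, C, hC⟩ := exists_famL hP hθ hm hb f hYL (by
    filter_upwards [hL0.eventually hY0, hL0.eventually hΔc] with u hu1 hu2
    obtain ⟨h1, h2, h3, h4, h5, -⟩ := hgood _ hu1 hu2
    exact ⟨_, _, h1, h2, h3, h4, isInit_of_crit h5⟩)
  have hzero := e2 hP hθ hm hb hM Ω hρ hc0 hΦ hC
  have hY00 : Y (L 0) = Y 0 := by rw [map_zero]
  have h00 : ‖(0 : Fin n → ℂ)‖ < ρ := by rwa [norm_zero]
  obtain ⟨hx1, hv1⟩ := Rr_split (hY00.symm.trans (hΦY 0 h00))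
  have hx2 : Φ (0, 0) = x₀ := hx1.symm
  have hv2 : deriv (fun z => Φ (z, 0)) 0 = v₀ := hv1.symm
  have hΦa : AnalyticAt ℂ Φ (0, 0) := (hΦ (0, 0) h00).1
  have hd : ∀ i, fderiv ℂ Φ (0, 0) (0, Pi.single i 1) = E (s i) := by
    intro i
    have h1 : HasFDerivAt (fun u : Fin n → ℂ => Φ ((0 : ℂ), u)) ((fderiv ℂ Φ (0, 0)).comp (ContinuousLinearMap.inr ℂ ℂ (Fin n → ℂ))) 0 :=
      HasFDerivAt.comp (g := Φ) (f := fun u : Fin n → ℂ => ((0 : ℂ), u)) 0 hΦa.differentiableAt.hasFDerivAt (hasFDerivAt_prodMk_right (0 : ℂ) (0 : Fin n → ℂ))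
    have h2 : HasFDerivAt (fun (u : Fin n → ℂ) (j : Fin (N + 1)) => Y (L u) (Sum.inl j.castSucc))
        (ContinuousLinearMap.pi fun j : Fin (N + 1) => (ContinuousLinearMap.proj (Sum.inl j.castSucc)).comp (D.comp L)) 0 :=
      hasFDerivAt_pi.2 fun j => hasFDerivAt_pi'.1 hYLd (Sum.inl j.castSucc)
    have h3 : (fun u : Fin n → ℂ => Φ ((0 : ℂ), u)) =ᶠ[𝓝 0] fun (u : Fin n → ℂ) (j : Fin (N + 1)) => Y (L u) (Sum.inl j.castSucc) := by
      filter_upwards [ball_mem_nhds (0 : Fin n → ℂ) hρ] with u hu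
      exact (Rr_split (hΦY u (mem_ball_zero_iff.1 hu))).1.symm
    have h4 := congrArg (fun A : (Fin n → ℂ) →L[ℂ] (Fin (N + 1) → ℂ) => A (Pi.single i 1)) (h1.unique (h2.congr_of_eventuallyEq h3))
    have h5 : ((fderiv ℂ Φ (0, 0)).comp (ContinuousLinearMap.inr ℂ ℂ (Fin n → ℂ))) (Pi.single i 1) = fderiv ℂ Φ (0, 0) (0, Pi.single i 1) := rfl
    rw [← h5]
    refine h4.trans ?_
    funext j
    rw [hEa, ← hLs]
    rfl
  rw [hx2, hv2] at hzero
  simp only [hd] at hzero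
  have hB0 : ∀ i ∈ B, x₀ i ≠ 0 := hU0.2.2
  refine hΩ x₀ hU0.1 hB0 hR0 _ ?_ ?_ hzero
  · intro j
    refine Fin.cases ?_ (fun i => ?_) j
    · rw [Fin.cons_zero, act_lv hB0]
      exact hT0.1
    · rw [Fin.cons_succ, act_lv hB0]
      exact hEt (s i)
  · intro β γ hβ
    have hlb : ∀ w : Fin (N + 1) → ℂ, w b = 0 → lv B x₀ w b = 0 := by
      intro w hw
      simp only [lv, if_pos hb, hw, mul_zero]
    have h1 := congrFun hβ b
    have heb : eul B x₀ b = 1 := by simp only [eul, if_pos hb]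
    rw [Pi.add_apply, Pi.smul_apply, heb, smul_eq_mul, mul_one, Finset.sum_apply, Finset.sum_eq_zero, add_zero, Pi.zero_apply] at h1
    · rw [h1, zero_smul, zero_add, Fin.sum_univ_succ] at hβ
      simp only [Fin.cons_zero, Fin.cons_succ] at hβ
      have h2 : γ 0 • v₀ + ∑ j : Fin n, γ j.succ • E (s j) = 0 := by
        funext i
        have h3 := congrFun hβ i
        simp only [Pi.add_apply, Pi.smul_apply, smul_eq_mul, Finset.sum_apply, Pi.zero_apply] at h3 ⊢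
        by_cases hi : i ∈ B
        · simp only [lv, if_pos hi] at h3
          have h4 : x₀ i * (γ 0 * ((x₀ i)⁻¹ * v₀ i) + ∑ j : Fin n, γ j.succ * ((x₀ i)⁻¹ * E (s j) i)) = γ 0 * v₀ i + ∑ j : Fin n, γ j.succ * E (s j) i := by
            rw [mul_add, Finset.mul_sum]
            have h5 : ∀ c w : ℂ, x₀ i * (c * ((x₀ i)⁻¹ * w)) = c * w := by
              intro c w
              rw [mul_left_comm, mul_inv_cancel_left₀ (hB0 i hi)]
            simp only [h5]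
          rw [← h4, h3, mul_zero]
        · simp only [lv, if_neg hi] at h3
          exact h3
      obtain ⟨h3, h4⟩ := hs (γ 0) (fun j => γ j.succ) h2
      funext j
      refine Fin.cases h3 (fun i => ?_) j
      exact congrFun h4 i
    · intro j _
      rw [Pi.smul_apply, smul_eq_mul]
      refine Fin.cases ?_ (fun i => ?_) j
      · rw [Fin.cons_zero, hlb _ hT0.2, mul_zero]
      · rw [Fin.cons_succ, hlb _ (hEb (s i)), mul_zero]

theorem exists_RL [P.IsPrime] (hP : Homog P) {n : ℕ} (hn : 1 ≤ n) (hdim : ∃ z : Fin n → FunField P, IsTranscendenceBasis ℂ z) (hb : b ∈ B) (hX : ∀ i ∈ B, X i ∉ P)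
    (hθ : LogPolar θ) (hm : ∀ k, 1 ≤ m k) (f : LFrame θ b) {M : ℕ} (hM : 1 ≤ M) (Ω : LogCan P B n M) {R₀ : MvPolynomial (Fin (N + 1)) ℂ} {e₀ : ℕ}
    (hR₀ : R₀.IsHomogeneous e₀) (hR₀P : R₀ ∉ P) (hΩ : Ω.NonzeroOff R₀) :
    ∃ (e : ℕ) (R : MvPolynomial (Fin (N + 1)) ℂ), R.IsHomogeneous e ∧ R ∉ P ∧
      ∀ x ∈ Uc P B b, ∀ v ∈ Tc P b x, v ≠ 0 → IsInit (gfamL f) (ePt B x v) → eval x R = 0 := by
  classical
  obtain ⟨n, rfl⟩ : ∃ n', n = n' + 1 := ⟨n - 1, by omega⟩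
  obtain ⟨𝔓, h𝔓, ⟨b', hb'⟩, haff⟩ := Rr_affine hdim (hX b hb)
  have h1 : ∀ p : (Fin (N + 2) → GIx f.q J) × Fin (N + 1), ∃ (D : ℕ) (R : MvPolynomial (Fin (N + 1)) ℂ), R.IsHomogeneous D ∧ R ∉ P ∧
      ∀ x ∈ Uc P B b, ∀ v ∈ Tc P b x, Crit (gfamL f) p.1 (ePt B x v) → v p.2 ≠ 0 → eval x R₀ ≠ 0 → eval x R = 0 := by
    rintro ⟨I, b₁⟩
    obtain ⟨q, hq, h⟩ := Rr_core hP hb hθ hm f hM Ω hΩ 𝔓 b' hb' I b₁
    obtain ⟨D, R, hRD, hRP, hR⟩ := haff q hq
    exact ⟨D, R, hRD, hRP, fun x hx v hv h1 h2 h3 => hR x hx.2.1 (h x hx v hv h1 h2 h3)⟩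
  choose D Rp hD hRP hRz using h1
  refine ⟨e₀ + ∑ p, D p, R₀ * ∏ p, Rp p, hR₀.mul (IsHomogeneous.prod _ _ _ fun p _ => hD p), ?_, ?_⟩
  · intro h
    rcases Ideal.IsPrime.mem_or_mem ‹P.IsPrime› h with h | h
    · exact hR₀P h
    · obtain ⟨p, -, hp⟩ := (Ideal.IsPrime.prod_mem_iff (p := P)).1 h
      exact hRP p hp
  · intro x hx v hv hv0 hinit
    rw [map_mul]
    by_cases h2 : eval x R₀ = 0
    · rw [h2, zero_mul]
    obtain ⟨b₁, hb₁⟩ : ∃ b₁, v b₁ ≠ 0 := by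
      by_contra hcon
      push Not at hcon
      exact hv0 (funext hcon)
    obtain ⟨I, hI⟩ := exists_rowL hθ f hb hx hv hv0
    obtain ⟨y, hy, hy0⟩ := hinit
    have hcr : Crit (gfamL f) I (ePt B x v) := by
      rw [← hy0]
      refine crit_of_arc hy ?_
      rw [hy0]
      exact hI
    rw [map_prod, Finset.prod_eq_zero (Finset.mem_univ (I, b₁)) (hRz (I, b₁) x hx v hv hcr hb₁ h2), mul_zero]

end Pool.Agent.GL
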