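import Pool.Agent.GL.EntL
import Pool.Agent.GL.FinL
import Pool.Agent.GL.Rr
import Pool.Agent.H36.BP.MainA
import Pool.Agent.H17BP.Final

/-!
# GL Top: the theorem

`disc_of_half`: `GA.exists_HCurve` (values in `X \ D`), divide by the coordinate `b` (`≠ 0` on `HP`; value `1` off `HP` by definition of the new function): `LCurve`; `finL`; `extends_of_lim`; `R (f z) = 0` for `|z| < 1 / 2` gives `R (f z) = 0` for all `z` (identity theorem).
`topL`: `exists_lframe`, `exists_RL`, `disc_of_half`, `entire_of_puncturedL`.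
-/

set_option autoImplicit false

open MvPolynomial Topology Filter Metric
open Pool.Agent.H13.SM (conTan cone)
open Pool.Agent.H17 (PN VanishesAt HolomorphicInto puncturedDisc)
open Pool.Agent.H17EF (projVar)
open Pool.Agent.H17LG.Variety (FunField)
open Pool.Agent.H62.FC (Homog)
open Pool.Agent.GG Pool.Agent.GA

namespace Pool.Agent.GL

variable {N : ℕ} {P : Ideal (MvPolynomial (Fin (N + 1)) ℂ)} {B : Finset (Fin (N + 1))} {J : ℕ} {m : Fin J → ℕ} {θ : ∀ k, LogSec P B (m k)} {b : Fin (N + 1)}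

private theorem top_mk_congr {x y : Fin (N + 1) → ℂ} (h : x = y) (hx : x ≠ 0) :
    ∃ hy : y ≠ 0, Projectivization.mk ℂ x hx = Projectivization.mk ℂ y hy := by
  subst h
  exact ⟨hx, rfl⟩

private theorem top_isOpen_HP : IsOpen HP := isOpen_lt continuous_const Complex.continuous_re

private theorem top_mem {w : ℂ} (hw : w ∈ HP) : Complex.exp (-w) / 2 ∈ puncturedDisc := by
  have hw' : 0 < w.re := hw
  have h1 : ‖Complex.exp (-w)‖ < 1 := by
    rw [Complex.norm_exp, Complex.neg_re]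
    exact Real.exp_lt_one_iff.mpr (by linarith)
  refine ⟨?_, ?_⟩
  · rw [mem_ball_zero_iff, norm_div, Complex.norm_ofNat]
    linarith
  · exact div_ne_zero (Complex.exp_ne_zero _) two_ne_zero

theorem disc_of_half (hP : Homog P) (hb : b ∈ B) {R : MvPolynomial (Fin (N + 1)) ℂ} {e : ℕ} (hR : R.IsHomogeneous e)
    (h : ∀ F : ℂ → Fin (N + 1) → ℂ, LCurve P B b F →
      (∃ (a : Fin (N + 1)) (L : Fin (N + 1) → ℂ), (∀ᶠ w in comap Complex.re atTop, F w a ≠ 0) ∧
        Tendsto (fun w => (F w a)⁻¹ • F w) (comap Complex.re atTop) (𝓝 L)) ∨ ∀ w ∈ HP, eval (F w) R = 0)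
    {f : ℂ → PN N} (hf : HolomorphicInto f puncturedDisc) (hX : ∀ z ∈ puncturedDisc, f z ∈ openPart P B) (hne : ∃ z ∈ puncturedDisc, ¬ VanishesAt R (f z)) :
    ∃ g : ℂ → PN N, HolomorphicInto g (ball 0 1) ∧ ∀ z ∈ puncturedDisc, g z = f z := by
  classical
  obtain ⟨F, hF, hFf⟩ := exists_HCurve hP hf fun z hz => (hX z hz).1
  have hFB : ∀ w ∈ HP, ∀ i ∈ B, F w i ≠ 0 := by
    intro w hw i hi h0
    obtain ⟨h1, h2⟩ := hFf w hw
    have h3 := (hX _ (top_mem hw)).2 i hi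
    rw [h2, Pool.Agent.H17BP.vanishesAt_mk (isHomogeneous_X ℂ i) h1, eval_X] at h3
    exact h3 h0
  -- the curve in the chart `b`
  set G : ℂ → Fin (N + 1) → ℂ := fun w => if w ∈ HP then (F w b)⁻¹ • F w else fun _ => 1 with hG
  have hGw : ∀ w ∈ HP, G w = (F w b)⁻¹ • F w := fun w hw => if_pos hw
  have hcurve : LCurve P B b G := by
    refine ⟨⟨fun w hw => ?_, fun w hw => ?_, fun w hw => ?_⟩, fun w => ?_, fun w hw i hi => ?_⟩
    · have h1 : AnalyticAt ℂ (fun w => (F w b)⁻¹ • F w) w :=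
        ((analyticAt_pi_iff.1 (hF.an w hw) b).inv (hFB w hw b hb)).smul (hF.an w hw)
      refine h1.congr ?_
      filter_upwards [top_isOpen_HP.mem_nhds hw] with y hy
      exact (hGw y hy).symm
    · rw [hGw w hw]
      exact ⟨smul_ne_zero (inv_ne_zero (hFB w hw b hb)) (hF.cone w hw).1, Pool.Agent.H13.SM.cone_smul hP (hF.cone w hw).2 _⟩
    · have h1 : w + per ∈ HP := by
        have hw' : 0 < w.re := hw
        show 0 < (w + per).re
        have h2 : per.re = 0 := by simp [per]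
        rw [Complex.add_re, h2, add_zero]
        exact hw'
      rw [hGw w hw, hGw _ h1, hF.periodic w hw]
    · by_cases hw : w ∈ HP
      · rw [hGw w hw, Pi.smul_apply, smul_eq_mul, inv_mul_cancel₀ (hFB w hw b hb)]
      · show (if w ∈ HP then (F w b)⁻¹ • F w else fun _ => 1) b = 1
        rw [if_neg hw]
    · rw [hGw w hw, Pi.smul_apply, smul_eq_mul]
      exact mul_ne_zero (inv_ne_zero (hFB w hw b hb)) (hFB w hw i hi)
  have hGf : ∀ w ∈ HP, ∃ h : G w ≠ 0, f (Complex.exp (-w) / 2) = Projectivization.mk ℂ (G w) h := by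
    intro w hw
    obtain ⟨h1, h2⟩ := hFf w hw
    have h3 : (F w b)⁻¹ • F w ≠ 0 := smul_ne_zero (inv_ne_zero (hFB w hw b hb)) h1
    have h4 : Projectivization.mk ℂ (F w) h1 = Projectivization.mk ℂ ((F w b)⁻¹ • F w) h3 := by
      rw [Projectivization.mk_eq_mk_iff']
      exact ⟨F w b, by rw [smul_smul, mul_inv_cancel₀ (hFB w hw b hb), one_smul]⟩
    obtain ⟨h5, h6⟩ := top_mk_congr (hGw w hw).symm h3
    exact ⟨h5, h2.trans (h4.trans h6)⟩
  rcases h G hcurve with ⟨a, L, ha, hL⟩ | h0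
  · exact extends_of_lim hf hGf ha hL
  · exfalso
    obtain ⟨z, hz, hzR⟩ := hne
    apply hzR
    have h4 : (1 / 4 : ℂ) ∈ puncturedDisc := by
      refine ⟨?_, ?_⟩
      · rw [mem_ball_zero_iff]
        norm_num
      · norm_num
    refine Pool.Agent.H36.BP.vanish_identity (S := {R}) Pool.Agent.H36.BP.preconnected_puncturedDisc hf (by rintro _ rfl; exact ⟨e, hR⟩)
      (z₀ := 1 / 4) h4 ?_ z hz R rfl
    have h5 : ∀ᶠ u in 𝓝 (1 / 4 : ℂ), u ≠ 0 ∧ ‖u‖ < 1 / 2 := by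
      refine (continuousAt_id.eventually_ne (by norm_num)).and ?_
      exact continuous_norm.continuousAt.eventually_lt continuousAt_const (by norm_num)
    filter_upwards [h5] with u hu Q hQ
    rw [Set.mem_singleton_iff.1 hQ]
    have h6 : Complex.exp (-(-Complex.log (2 * u))) / 2 = u := by
      rw [neg_neg, Complex.exp_log (mul_ne_zero two_ne_zero hu.1)]
      ring
    have h7 : -Complex.log (2 * u) ∈ HP := by
      show 0 < (-Complex.log (2 * u)).re
      rw [Complex.neg_re, Complex.log_re]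
      have h8 : ‖2 * u‖ < 1 := by
        rw [norm_mul, Complex.norm_ofNat]
        linarith [hu.2]
      have h9 : 0 < ‖2 * u‖ := norm_pos_iff.2 (mul_ne_zero two_ne_zero hu.1)
      linarith [Real.log_neg h9 h8]
    obtain ⟨h10, h11⟩ := hGf _ h7
    rw [h6] at h11
    rw [h11, Pool.Agent.H17BP.vanishesAt_mk hR]
    exact h0 _ h7

theorem topL [P.IsPrime] (hP : Homog P) {n : ℕ} (hn : 1 ≤ n) (hdim : ∃ z : Fin n → FunField P, IsTranscendenceBasis ℂ z) (hB : B.Nonempty) (hX : ∀ i ∈ B, X i ∉ P)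
    (hθ : LogPolar θ) (hm : ∀ k, 1 ≤ m k) {M : ℕ} (hM : 1 ≤ M) (Ω : LogCan P B n M) {R₀ : MvPolynomial (Fin (N + 1)) ℂ} {e₀ : ℕ}
    (hR₀ : R₀.IsHomogeneous e₀) (hR₀P : R₀ ∉ P) (hΩ : Ω.NonzeroOff R₀) : ∃ R, ConclusionL P B R := by
  obtain ⟨b, hb⟩ := hB
  obtain ⟨f⟩ := exists_lframe θ b
  obtain ⟨e, R, hRe, hRP, hR⟩ := exists_RL hP hn hdim hb hX hθ hm f hM Ω hR₀ hR₀P hΩ
  have hD : ∀ f : ℂ → PN N, HolomorphicInto f puncturedDisc → (∀ z ∈ puncturedDisc, f z ∈ openPart P B) → (∃ z ∈ puncturedDisc, ¬ VanishesAt R (f z)) →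
      ∃ g : ℂ → PN N, HolomorphicInto g (ball 0 1) ∧ ∀ z ∈ puncturedDisc, g z = f z :=
    fun _ h1 h2 h3 => disc_of_half hP hb hRe (fun _ hF => finL hP hθ hm hb f hR hF) h1 h2 h3
  exact ⟨R, ⟨⟨e, hRe⟩, hRP⟩, hD, fun f h1 h2 h3 z => entire_of_puncturedL hP hθ hm hb hRe hD h1 h2 h3 z⟩

end Pool.Agent.GL
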