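import Pool.Agent.GL.EmpA
import Pool.Agent.GL.Top
import Pool.Agent.GA.Fin

/-!
# GL Emp: all `B`

`topE`: `B` empty (GA/Fin, GG/Fin).  `topAll`: the theorem for all finite sets `B` of coordinates (if a coordinate `x i`, `i ∈ B`, vanishes on `X` then `X \ D` is empty and `R = 1`).
-/

set_option autoImplicit false

open MvPolynomial Topology Filter Metric
open Pool.Agent.H13.SM (conTan cone)
open Pool.Agent.H17 (PN VanishesAt HolomorphicInto puncturedDisc)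
open Pool.Agent.H17EF (projVar)
open Pool.Agent.H17LG.Variety (FunField)
open Pool.Agent.H62.FC (Homog)
open Pool.Agent.GG Pool.Agent.GA

namespace Pool.Agent.GL

variable {N : ℕ} {P : Ideal (MvPolynomial (Fin (N + 1)) ℂ)} {J : ℕ} {m : Fin J → ℕ}

theorem topE [P.IsPrime] (hP : Homog P) {n M : ℕ} (hdim : ∃ z : Fin (n + 1) → FunField P, IsTranscendenceBasis ℂ z) {θ : ∀ k, LogSec P ∅ (m k)}
    (hθ : LogPolar θ) (hm : ∀ k, 1 ≤ m k) (hM : 1 ≤ M) (Ω : LogCan P ∅ (n + 1) M) {R₀ : MvPolynomial (Fin (N + 1)) ℂ} {e₀ : ℕ}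
    (hR₀ : R₀.IsHomogeneous e₀) (hR₀P : R₀ ∉ P) (hΩ : Ω.NonzeroOff R₀) : ∃ R, ConclusionL P ∅ R := by
  obtain ⟨R, e, hR, hRP, -, hRz⟩ := exists_R hP (polar_toSym hθ) hm hdim hM (toCan Ω) hR₀ hR₀P (nonzeroOff_toCan hΩ)
  refine ⟨R, ⟨⟨e, hR⟩, hRP⟩, ?_, ?_⟩
  · intro f hf hX hne
    exact main_punct hP (polar_toSym hθ) hm hR hRz hf (fun z hz => (hX z hz).1) hne
  · intro f hf hX hne
    exact main_entire hP (polar_toSym hθ) hm hR hRz hf (fun z => (hX z).1) hne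

theorem topAll [P.IsPrime] (hP : Homog P) {n M : ℕ} (hdim : ∃ z : Fin (n + 1) → FunField P, IsTranscendenceBasis ℂ z) {B : Finset (Fin (N + 1))}
    {θ : ∀ k, LogSec P B (m k)} (hθ : LogPolar θ) (hm : ∀ k, 1 ≤ m k) (hM : 1 ≤ M) (Ω : LogCan P B (n + 1) M) {R₀ : MvPolynomial (Fin (N + 1)) ℂ} {e₀ : ℕ}
    (hR₀ : R₀.IsHomogeneous e₀) (hR₀P : R₀ ∉ P) (hΩ : Ω.NonzeroOff R₀) : ∃ R, ConclusionL P B R := by
  classical
  by_cases hX : ∀ i ∈ B, X i ∉ P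
  · rcases B.eq_empty_or_nonempty with rfl | hB
    · exact topE hP hdim hθ hm hM Ω hR₀ hR₀P hΩ
    · exact topL hP (Nat.succ_le_succ (Nat.zero_le n)) hdim hB hX hθ hm hM Ω hR₀ hR₀P hΩ
  · push Not at hX
    obtain ⟨i, hi, hiP⟩ := hX
    have hempty : ∀ x : PN N, x ∉ openPart P B := by
      intro x hx
      exact hx.2 i hi (hx.1 (X i) hiP 1 (isHomogeneous_X ℂ i))
    refine ⟨1, ⟨⟨0, isHomogeneous_one _ _⟩, fun h => ‹P.IsPrime›.ne_top ((Ideal.eq_top_iff_one P).2 h)⟩, ?_, ?_⟩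
    · intro f _ hfX _
      have h4 : (1 / 4 : ℂ) ∈ puncturedDisc := by
        refine ⟨?_, ?_⟩
        · rw [mem_ball_zero_iff]
          norm_num
        · norm_num
      exact absurd (hfX _ h4) (hempty _)
    · intro f _ hfX _ z
      exact absurd (hfX z) (hempty _)

end Pool.Agent.GL
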