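import Pool.Agent.GL.Conc

/-!
# GL EmpA: the case without boundary

For `B = ∅` the logarithmic symmetric differentials are the symmetric differentials of `GG.Defs`, and so on.
-/

set_option autoImplicit false

open MvPolynomial Topology Filter Metric
open Pool.Agent.H13.SM (conTan cone)
open Pool.Agent.H17 (PN VanishesAt)
open Pool.Agent.H17EF (projVar)
open Pool.Agent.GG

noncomputable section

namespace Pool.Agent.GL

variable {N : ℕ} {P : Ideal (MvPolynomial (Fin (N + 1)) ℂ)}

theorem act_empty (x ξ : Fin (N + 1) → ℂ) : act ∅ x ξ = ξ := by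
  funext i
  simp [act]

theorem eul_empty (x : Fin (N + 1) → ℂ) : eul ∅ x = x := by
  funext i
  simp [eul]

theorem lsc_empty (c : ℂ) (ξ : Fin (N + 1) → ℂ) : lsc ∅ c ξ = c • ξ := by
  funext i
  simp [lsc]

/-- a logarithmic symmetric differential without poles -/
def toSym {m : ℕ} (t : LogSec P ∅ m) : SymSec P m where
  toFun := t.toFun
  regular := by
    intro i
    obtain ⟨e, A, h⟩ := t.regular i
    exact ⟨e, A, fun x hx v hv => h x hx v (by rwa [act_empty])⟩
  add_smul := by
    intro x hx v hv a
    have := t.add_smul x hx v (by rwa [act_empty]) a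
    rwa [eul_empty] at this
  smul := fun x hx v hv a => t.smul x hx v (by rwa [act_empty]) a
  scale := by
    intro x hx v hv c hc
    have := t.scale x hx v (by rwa [act_empty]) c hc
    rwa [lsc_empty] at this

theorem polar_toSym {J : ℕ} {m : Fin J → ℕ} {θ : ∀ k, LogSec P ∅ (m k)} (hθ : LogPolar θ) : Polar fun k => toSym (θ k) := by
  intro x hx v hv w hw hvx hwx
  exact hθ x hx v (by rwa [act_empty]) w (by rwa [act_empty]) (by rwa [eul_empty]) (by rwa [eul_empty])

/-- a section of `(K + D)^M (-1)`, `D` empty -/
def toCan {n M : ℕ} (Ω : LogCan P ∅ n M) : CanSec P n M where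
  toFun := Ω.toFun
  regular := by
    intro i
    obtain ⟨e, A, h⟩ := Ω.regular i
    exact ⟨e, A, fun x hx v hv => h x hx v fun j => by rw [act_empty]; exact hv j⟩
  add_smul := by
    intro x hx v hv a
    have := Ω.add_smul x hx v (fun j => by rw [act_empty]; exact hv j) a
    rwa [eul_empty] at this
  det := fun x hx v hv C => Ω.det x hx v (fun j => by rw [act_empty]; exact hv j) C
  scale := by
    intro x hx v hv c hc
    have := Ω.scale x hx v (fun j => by rw [act_empty]; exact hv j) c hc
    have e : (fun j => lsc ∅ c (v j)) = fun j => c • v j := funext fun j => lsc_empty c (v j)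
    rwa [e] at this

theorem nonzeroOff_toCan {n M : ℕ} {Ω : LogCan P ∅ n M} {R : MvPolynomial (Fin (N + 1)) ℂ} (h : Ω.NonzeroOff R) : (toCan Ω).NonzeroOff R := by
  intro x hx hR v hv hi
  refine h x hx (fun i hi => absurd hi (Finset.notMem_empty i)) hR v (fun j => by rw [act_empty]; exact hv j) ?_
  intro a c hac
  rw [eul_empty] at hac
  exact hi a c hac

theorem openPart_empty : openPart P ∅ = projVar P := by
  ext x
  exact ⟨fun h => h.1, fun h => ⟨h, fun i hi => absurd hi (Finset.notMem_empty i)⟩⟩

end Pool.Agent.GL
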