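import Pool.Agent.GL.Conc
import Pool.Agent.GL.E2A
import Pool.Agent.GA.HPl
import Pool.Agent.H17.GlobalLift
import Pool.Agent.H17.BrodyLimit

/-!
# GL EntL: from the punctured disc to entire curves

As `GA/Ent` (`entire_of_punctured`): `f (1 / z)` on the punctured disc.  If `R (f z) ≠ 0` for some `z` then `R (f z) ≠ 0` for some `|z| > 1` (identity theorem), so `f (1 / z)` extends; with the lift `F` of `f` in the chart `F b = 1` (entire, as `f z` is off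
`x b = 0`): `‖F z‖ ≤ C (1 + |z|) ^ e`, and `poly_curve` (GL/E2A) says that `f` is constant.
-/

set_option autoImplicit false

open MvPolynomial Topology Filter Metric
open Pool.Agent.H13.SM (conTan cone)
open Pool.Agent.H17 (PN VanishesAt HolomorphicInto puncturedDisc)
open Pool.Agent.H17EF (projVar)
open Pool.Agent.H62.FC (Homog)
open Pool.Agent.GG Pool.Agent.GA

namespace Pool.Agent.GL

variable {N : ℕ} {P : Ideal (MvPolynomial (Fin (N + 1)) ℂ)} {B : Finset (Fin (N + 1))} {J : ℕ} {m : Fin J → ℕ} {θ : ∀ k, LogSec P B (m k)} {b : Fin (N + 1)}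

/-- an entire function with a meromorphic extension to `∞` has polynomial growth -/
private theorem entL_growth {F φ : ℂ → Fin (N + 1) → ℂ} (hF : ∀ z, AnalyticAt ℂ F z) (hφ : AnalyticAt ℂ φ 0)
    (h : ∀ᶠ u in 𝓝[≠] (0 : ℂ), φ u b ≠ 0 ∧ φ u = φ u b • F u⁻¹) : ∃ (C : ℝ) (e : ℕ), ∀ z, ‖F z‖ ≤ C * (1 + ‖z‖) ^ e := by
  have hφb : AnalyticAt ℂ (fun u => φ u b) 0 := (analyticAt_pi_iff.1 hφ) b
  obtain ⟨n, ψ, hψ, hψ0, hψe⟩ := hφb.exists_eventuallyEq_pow_smul_nonzero_iff.2 (by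
    intro h0
    obtain ⟨u, h1, h2⟩ := (h.and (h0.filter_mono nhdsWithin_le_nhds)).exists
    exact h1.1 h2)
  -- the bound near `∞`
  have h1 : ∀ᶠ u in 𝓝[≠] (0 : ℂ), ‖F u⁻¹‖ ≤ ((‖φ 0‖ + 1) * 2 / ‖ψ 0‖) * ‖u⁻¹‖ ^ n := by
    have hp : 0 < ‖ψ 0‖ := norm_pos_iff.2 hψ0
    have h2 : ∀ᶠ u in 𝓝 (0 : ℂ), ‖φ u‖ < ‖φ 0‖ + 1 := hφ.continuousAt.norm.tendsto.eventually (gt_mem_nhds (by linarith))
    have h3 : ∀ᶠ u in 𝓝 (0 : ℂ), ‖ψ 0‖ / 2 < ‖ψ u‖ := hψ.continuousAt.norm.tendsto.eventually (lt_mem_nhds (by linarith))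
    filter_upwards [h, hψe.filter_mono nhdsWithin_le_nhds, h2.filter_mono nhdsWithin_le_nhds, h3.filter_mono nhdsWithin_le_nhds, self_mem_nhdsWithin] with u h4 h5 h6 h7 h8
    have hu : u ≠ 0 := h8
    have hup : 0 < ‖u‖ := norm_pos_iff.2 hu
    have h9 : ‖φ u b‖ = ‖u‖ ^ n * ‖ψ u‖ := by
      have h10 : φ u b = (u - 0) ^ n • ψ u := h5
      rw [h10, sub_zero, norm_smul, norm_pow]
    have h10 : ‖φ u b‖ * ‖F u⁻¹‖ ≤ ‖φ 0‖ + 1 := by
      rw [← norm_smul, ← h4.2]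
      exact h6.le
    have h11 : ‖u‖ ^ n * (‖ψ 0‖ / 2) * ‖F u⁻¹‖ ≤ ‖φ 0‖ + 1 := by
      refine le_trans ?_ h10
      rw [h9]
      gcongr
    rw [norm_inv, inv_pow, div_mul_eq_mul_div, le_div_iff₀ hp, ← div_eq_mul_inv, le_div_iff₀ (by positivity)]
    nlinarith
  -- on a neighbourhood of `∞`
  rw [eventually_nhdsWithin_iff, Metric.eventually_nhds_iff] at h1
  obtain ⟨r, hr, h1⟩ := h1
  obtain ⟨B₁, hB₁⟩ := (isCompact_closedBall (0 : ℂ) r⁻¹).exists_bound_of_continuousOn (f := F) fun z _ => (hF z).continuousAt.continuousWithinAt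
  refine ⟨max ((‖φ 0‖ + 1) * 2 / ‖ψ 0‖) B₁, n, fun z => ?_⟩
  have hp : 0 < ‖ψ 0‖ := norm_pos_iff.2 hψ0
  have hK : 0 ≤ (‖φ 0‖ + 1) * 2 / ‖ψ 0‖ := by positivity
  by_cases hz : ‖z‖ ≤ r⁻¹
  · have h2 := hB₁ z (mem_closedBall_zero_iff.2 hz)
    have h3 : 0 ≤ B₁ := (norm_nonneg _).trans h2
    have h4 : (1 : ℝ) ≤ (1 + ‖z‖) ^ n := one_le_pow₀ (by linarith [norm_nonneg z])
    calc ‖F z‖ ≤ B₁ := h2
      _ ≤ max ((‖φ 0‖ + 1) * 2 / ‖ψ 0‖) B₁ * 1 := by rw [mul_one]; exact le_max_right _ _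
      _ ≤ _ := mul_le_mul_of_nonneg_left h4 (hK.trans (le_max_left _ _))
  · push Not at hz
    have hz0 : 0 < ‖z‖ := (inv_pos.2 hr).trans hz
    have hz1 : z ≠ 0 := norm_pos_iff.1 hz0
    have h2 := h1 (y := z⁻¹) (by
      rw [dist_zero_right, norm_inv]
      exact inv_lt_of_inv_lt₀ hr hz) (inv_ne_zero hz1)
    rw [inv_inv] at h2
    calc ‖F z‖ ≤ ((‖φ 0‖ + 1) * 2 / ‖ψ 0‖) * ‖z‖ ^ n := h2
      _ ≤ max ((‖φ 0‖ + 1) * 2 / ‖ψ 0‖) B₁ * (1 + ‖z‖) ^ n := by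
        refine mul_le_mul (le_max_left _ _) (pow_le_pow_left₀ (norm_nonneg _) (by linarith) n) (by positivity) (hK.trans (le_max_left _ _))

theorem entire_of_puncturedL (hP : Homog P) (hθ : LogPolar θ) (hm : ∀ k, 1 ≤ m k) (hb : b ∈ B) {R : MvPolynomial (Fin (N + 1)) ℂ} {e : ℕ} (hR : R.IsHomogeneous e)
    (hD : ∀ f : ℂ → PN N, HolomorphicInto f puncturedDisc → (∀ z ∈ puncturedDisc, f z ∈ openPart P B) → (∃ z ∈ puncturedDisc, ¬ VanishesAt R (f z)) →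
      ∃ g : ℂ → PN N, HolomorphicInto g (ball 0 1) ∧ ∀ z ∈ puncturedDisc, g z = f z)
    {f : ℂ → PN N} (hf : HolomorphicInto f Set.univ) (hX : ∀ z, f z ∈ openPart P B) (hne : ∃ z w, f z ≠ f w) (z : ℂ) : VanishesAt R (f z) := by
  classical
  -- a global lift
  obtain ⟨x, hx⟩ := Pool.Agent.H17.exists_global_lift hf
  obtain ⟨F₀, hFx⟩ : ∃ F : ℂ → Fin (N + 1) → ℂ, F = fun z j => (x j : ℂ → ℂ) z := ⟨_, rfl⟩
  have hF₀ : Differentiable ℂ F₀ := by
    rw [hFx]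
    exact differentiable_pi.2 fun j => (x j).diff
  have hFf₀ : ∀ z, ∃ h : F₀ z ≠ 0, f z = Projectivization.mk ℂ (F₀ z) h := by
    intro z
    rw [hFx]
    exact hx z
  have hXi : ∀ i ∈ B, ∀ z, F₀ z i ≠ 0 := by
    intro i hi z h0
    obtain ⟨h, h1⟩ := hFf₀ z
    have h2 := (hX z).2 i hi
    rw [h1, Pool.Agent.H17.vanishesAt_mk_iff (isHomogeneous_X ℂ i), eval_X] at h2
    exact h2 h0
  -- the lift in the chart
  obtain ⟨F, hFe⟩ : ∃ F : ℂ → Fin (N + 1) → ℂ, F = fun z => (F₀ z b)⁻¹ • F₀ z := ⟨_, rfl⟩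
  have hF : ∀ z, AnalyticAt ℂ F z := by
    intro z
    rw [hFe]
    exact (((analyticAt_pi_iff.1 (hF₀.analyticAt z)) b).inv (hXi b hb z)).smul (hF₀.analyticAt z)
  have hF1 : ∀ z, F z b = 1 := by
    intro z
    rw [hFe]
    simp [hXi b hb z]
  have hFf : ∀ z, ∃ h : F z ≠ 0, f z = Projectivization.mk ℂ (F z) h := by
    intro z
    obtain ⟨h, h1⟩ := hFf₀ z
    have h2 : F z = (F₀ z b)⁻¹ • F₀ z := by rw [hFe]
    have h3 : F z ≠ 0 := by
      rw [h2]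
      exact smul_ne_zero (inv_ne_zero (hXi b hb z)) h
    refine ⟨h3, ?_⟩
    rw [h1, Projectivization.mk_eq_mk_iff']
    refine ⟨F₀ z b, ?_⟩
    rw [h2, smul_inv_smul₀ (hXi b hb z)]
  have hFU : ∀ z, F z ∈ Uc P B b := by
    intro z
    obtain ⟨h, h1⟩ := hFf z
    have h2 := hX z
    refine ⟨?_, hF1 z, fun i hi => ?_⟩
    · have h3 := h2.1
      rw [h1] at h3
      exact (Pool.Agent.H17EF.mk_mem_projVar hP h).1 h3
    · have h4 : F z i = (F₀ z b)⁻¹ * F₀ z i := by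
        rw [hFe]
        rfl
      rw [h4]
      exact mul_ne_zero (inv_ne_zero (hXi b hb z)) (hXi i hi z)
  -- the curve on the punctured disc
  obtain ⟨g, hg⟩ : ∃ g : ℂ → PN N, g = fun z => f z⁻¹ := ⟨_, rfl⟩
  have hgh : HolomorphicInto g puncturedDisc := by
    intro z hz
    have hz0 : z ≠ 0 := hz.2
    refine ⟨fun w => F w⁻¹, ?_, Eventually.of_forall fun w => ?_⟩
    · exact (hF z⁻¹).fun_comp (analyticAt_inv hz0)
    · rw [hg]
      exact hFf w⁻¹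
  by_cases hcase : ∃ z ∈ puncturedDisc, ¬ VanishesAt R (g z)
  · exfalso
    obtain ⟨G, hG, hGg⟩ := hD g hgh (fun z _ => by rw [hg]; exact hX _) hcase
    obtain ⟨φ, hφ, hφG⟩ := hG 0 (mem_ball_self one_pos)
    have hnear : ∀ᶠ u in 𝓝[≠] (0 : ℂ), φ u b ≠ 0 ∧ φ u = φ u b • F u⁻¹ := by
      filter_upwards [hφG.filter_mono nhdsWithin_le_nhds, nhdsWithin_le_nhds (ball_mem_nhds (0 : ℂ) one_pos), self_mem_nhdsWithin] with u h1 h2 h3
      obtain ⟨h4, h5⟩ := h1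
      obtain ⟨h6, h7⟩ := hFf u⁻¹
      have h8 := hGg u ⟨h2, h3⟩
      rw [h5, hg] at h8
      have h9 : Projectivization.mk ℂ (φ u) h4 = Projectivization.mk ℂ (F u⁻¹) h6 := by
        rw [h8, ← h7]
      rw [Projectivization.mk_eq_mk_iff'] at h9
      obtain ⟨a, ha⟩ := h9
      have h10 : φ u b = a := by
        rw [← ha, Pi.smul_apply, smul_eq_mul, hF1, mul_one]
      rw [h10]
      refine ⟨?_, ha.symm⟩
      intro h0
      rw [h0, zero_smul] at ha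
      exact h4 ha.symm
    obtain ⟨C, e', hC⟩ := entL_growth hF hφ hnear
    have hd := poly_curve hP hθ hm hb hF hFU hC
    have hFd : Differentiable ℂ F := fun z => (hF z).differentiableAt
    obtain ⟨z, w, hzw⟩ := hne
    apply hzw
    have h1 : F z = F w := is_const_of_deriv_eq_zero hFd hd z w
    obtain ⟨h2, h3⟩ := hFf z
    obtain ⟨h4, h5⟩ := hFf w
    rw [h3, h5]
    simp only [h1]
  · push Not at hcase
    have han : AnalyticOnNhd ℂ (fun z => eval (F₀ z) R) Set.univ := by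
      intro z _
      have h2 : AnalyticAt ℂ (fun w => aeval (fun s => F₀ w s) R) z :=
        AnalyticAt.aeval_mvPolynomial (fun s => (analyticAt_pi_iff.1 (hF₀.analyticAt z)) s) R
      simpa only [MvPolynomial.aeval_eq_eval] using h2
    have hev : ∀ᶠ z in 𝓝 (2 : ℂ), eval (F₀ z) R = 0 := by
      have h1 : {z : ℂ | 1 < ‖z‖} ∈ 𝓝 (2 : ℂ) := by
        refine (isOpen_lt continuous_const continuous_norm).mem_nhds ?_
        show (1 : ℝ) < ‖(2 : ℂ)‖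
        norm_num
      filter_upwards [h1] with z hz
      have hz1 : (1 : ℝ) < ‖z‖ := hz
      have hz0 : z ≠ 0 := by
        intro h
        rw [h, norm_zero] at hz1
        linarith
      have h2 : z⁻¹ ∈ puncturedDisc := by
        refine ⟨?_, inv_ne_zero hz0⟩
        rw [mem_ball_zero_iff, norm_inv]
        exact inv_lt_one_of_one_lt₀ hz1
      have h3 := hcase _ h2
      rw [hg] at h3
      simp only [inv_inv] at h3
      obtain ⟨h4, h5⟩ := hFf₀ z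
      rw [h5, Pool.Agent.H17.vanishesAt_mk_iff hR] at h3
      exact h3
    have h0 := han.eqOn_zero_of_preconnected_of_eventuallyEq_zero isPreconnected_univ (Set.mem_univ (2 : ℂ)) hev
    obtain ⟨h4, h5⟩ := hFf₀ z
    rw [h5, Pool.Agent.H17.vanishesAt_mk_iff hR]
    exact h0 (Set.mem_univ z)

end Pool.Agent.GL
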