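import Pool.Agent.GL.SmlL
import Pool.Agent.GL.Row
import Pool.Agent.GA.Trn
import Pool.Agent.GA.HorC
import Pool.Agent.GA.RelC
import Pool.Agent.GA.Brg

/-!
# GL HorL: the values of the family on the curve are small, and a variation field over the small functions

`hor_chart` (GA) for `G = gfamL f`, the curve `eF B F`; `hT` from `GA.not_algebraic` with `a = b` (`F b = 1`), `exists_rowL` at a point with `F' ≠ 0`, `deriv_emb`, `eval_gfamL`.
-/

set_option autoImplicit false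

open MvPolynomial Topology Filter Metric
open Pool.Agent.H13.SM (conTan cone)
open Pool.Agent.H62.FC (Homog)
open Pool.Agent.GG Pool.Agent.GA

namespace Pool.Agent.GL

variable {N : ℕ} {P : Ideal (MvPolynomial (Fin (N + 1)) ℂ)} {B : Finset (Fin (N + 1))} {J : ℕ} {m : Fin J → ℕ} {θ : ∀ k, LogSec P B (m k)} {b : Fin (N + 1)}
  {F : ℂ → Fin (N + 1) → ℂ} {X : ℕ → ℝ}

theorem gfam_small (hP : Homog P) (hθ : LogPolar θ) (hm : ∀ k, 1 ≤ m k) (hb : b ∈ B) (f : LFrame θ b) (hF : LCurve P B b F) (hX : Lev (sp F) X) (l : GIx f.q J) :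
    (fun w => gval (thv θ (F w) (deriv F w)) l) ∈ GA.OO hX := by
  have h1 : (fun _ : ℂ => (1 : ℂ)) ∈ GA.OO hX := (GA.OO hX).one_mem
  have h0 : (fun _ : ℂ => (0 : ℂ)) ∈ GA.OO hX := (GA.OO hX).zero_mem
  rcases l with ((_ | _) | (_ | _)) | ((_ | _) | k)
  · exact h1
  · exact h0
  · exact h0
  · exact h0
  · exact h1
  · exact h0
  · exact thv_small hP hθ hm hb hF hX k

private theorem mem_Uc (hF : LCurve P B b F) {w : ℂ} (hw : w ∈ HP) : F w ∈ Uc P B b :=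
  ⟨hF.curve.cone w hw, hF.one w, hF.ne w hw⟩

private theorem isOpen_HP' : IsOpen HP := isOpen_lt continuous_const Complex.continuous_re

private theorem ev_HP {w : ℂ} (hw : w ∈ HP) : ∀ᶠ z in 𝓝 w, z ∈ HP := isOpen_HP'.mem_nhds hw

private theorem deriv_mem (hF : LCurve P B b F) {w : ℂ} (hw : w ∈ HP) : deriv F w ∈ Tc P b (F w) :=
  deriv_mem_Tc (hF.curve.an w hw) ((ev_HP hw).mono fun _ hz => mem_Uc hF hz)

theorem eval_curve (f : LFrame θ b) (hF : LCurve P B b F) (l : GIx f.q J) {w : ℂ} (hw : w ∈ HP) :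
    eval (pt (eF B F w) (deriv (eF B F) w)) (gfamL f l) = gval (thv θ (F w) (deriv F w)) l := by
  have h1 : deriv (eF B F) w = embV B (F w) (deriv F w) := deriv_emb (hF.curve.an w hw) (hF.ne w hw)
  rw [h1]
  exact eval_gfamL f (mem_Uc hF hw) (deriv_mem hF hw) l

/-- the transcendence hypothesis of `hor_chart` and `exists_DualP`, at every point -/
theorem trans_curve (hF : LCurve P B b F) (hX : Lev (sp F) X) {z₁ : ℂ} (hz : z₁ ∈ HP) :
    ∃ c, ∀ p : Polynomial (GA.OO hX), (∀ᶠ w in 𝓝 z₁, p.eval₂ (ev0 (GA.OO hX) w) (eF B F w c) = 0) → ∀ n, ∀ᶠ w in 𝓝 z₁, ev0 (GA.OO hX) w (p.coeff n) = 0 := by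
  have hF0 : ∀ w ∈ HP, F w ≠ 0 := fun w _ h0 => by
    have h1 := hF.one w
    rw [h0] at h1
    exact zero_ne_one h1
  obtain ⟨c, hc⟩ := not_algebraic hF.curve.an hF0 hF.curve.periodic hX (a := b) ⟨1, by show (0 : ℝ) < (1 : ℂ).re; simp, by rw [hF.one]; exact one_ne_zero⟩
  refine ⟨c.castSucc, fun p hp n => ?_⟩
  have hcv : ∀ w, eF B F w c.castSucc = F w c := fun w => by
    unfold eF emb
    rw [Fin.snoc_castSucc]
  have han : ∀ i, ∀ w ∈ HP, AnalyticAt ℂ (fun w => ev0 (GA.OO hX) w (p.coeff i)) w := fun i w hw => (p.coeff i).2.an w hw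
  have hFc : ∀ w ∈ HP, AnalyticAt ℂ (fun w => F w c) w := fun w hw => (analyticAt_pi_iff.1 (hF.curve.an w hw)) c
  have hsum : ∀ w, p.eval₂ (ev0 (GA.OO hX) w) (eF B F w c.castSucc) = ∑ i ∈ Finset.range (p.natDegree + 1), ev0 (GA.OO hX) w (p.coeff i) * F w c ^ i := by
    intro w
    rw [Polynomial.eval₂_eq_sum_range, hcv]
  have hz0 : ∀ w ∈ HP, ∑ i ∈ Finset.range (p.natDegree + 1), ev0 (GA.OO hX) w (p.coeff i) * F w c ^ i = 0 := by
    have h1 : AnalyticOnNhd ℂ (fun w => ∑ i ∈ Finset.range (p.natDegree + 1), ev0 (GA.OO hX) w (p.coeff i) * F w c ^ i) HP := by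
      intro w hw
      exact Finset.analyticAt_fun_sum _ fun i _ => (han i w hw).fun_mul ((hFc w hw).fun_pow i)
    have h2 : IsPreconnected HP := (convex_halfSpace_re_gt 0).isPreconnected
    have h3 := h1.eqOn_zero_of_preconnected_of_eventuallyEq_zero h2 hz (by
      filter_upwards [hp] with w hw
      rw [← hsum, hw]
      rfl)
    exact fun w hw => h3 hw
  by_cases hn : n ≤ p.natDegree
  · have h4 := hc p.natDegree (fun i w => ev0 (GA.OO hX) w (p.coeff (i : ℕ))) (fun i => (p.coeff (i : ℕ)).2) (fun w hw => by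
      have h5 := hz0 w hw
      rw [Finset.sum_range] at h5
      rw [← h5]
      refine Finset.sum_congr rfl fun i _ => ?_
      rw [hF.one, one_pow, mul_one]) ⟨n, Nat.lt_succ_of_le hn⟩
    filter_upwards [ev_HP hz] with w hw
    exact h4 w hw
  · rw [Polynomial.coeff_eq_zero_of_natDegree_lt (not_le.1 hn)]
    exact Eventually.of_forall fun w => map_zero _

theorem horL (hP : Homog P) (hθ : LogPolar θ) (hm : ∀ k, 1 ≤ m k) (hb : b ∈ B) (f : LFrame θ b) (hF : LCurve P B b F) (hX : Lev (sp F) X)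
    (hne : ∃ w ∈ HP, deriv F w ≠ 0) : ∃ w₀ ∈ HP, ∃ V : ℂ → Fin (N + 2) → ℂ, AnalyticAt ℂ V w₀ ∧ V w₀ ≠ 0 ∧ RelP (GA.OO hX) (eF B F) V w₀ := by
  obtain ⟨w₁, hw₁, h0⟩ := hne
  obtain ⟨I, hI⟩ := exists_rowL hθ f hb (mem_Uc hF hw₁) (deriv_mem hF hw₁) h0
  have hd : deriv (eF B F) w₁ = embV B (F w₁) (deriv F w₁) := deriv_emb (hF.curve.an w₁ hw₁) (hF.ne w₁ hw₁)
  have h1 := hor_chart (isSmallRing_OO hX) (gfamL f) I (x := eF B F) isOpen_HP' hw₁ (analyticAt_emb (hF.curve.an w₁ hw₁) (hF.ne w₁ hw₁))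
    (fun l => ⟨_, gfam_small hP hθ hm hb f hF hX l, (ev_HP hw₁).mono fun w hw => eval_curve f hF l hw⟩)
    (fun h => hI (by
      have h2 := h.self_of_nhds
      rw [hd] at h2
      exact h2)) (trans_curve hF hX hw₁)
  obtain ⟨w₀, ⟨V, hV, hV0, hR⟩, hw₀⟩ := (h1.and_eventually (ev_HP hw₁)).exists
  exact ⟨w₀, hw₀, V, hV, hV0, hR⟩

end Pool.Agent.GL
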