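import Pool.Agent.GL.KDefs
import Pool.Agent.GG.Kod

/-!
# GL KO: the section at the points off `D`

As `GG.Kd.Glu` and `GG.Kd.Pol`.  `exists_rep` from `Dat.reg` and `PlcL.pole`; `isVal_of_rep`: at a point off `D` the function `∏ i ∈ B, ya P a i` has the value `∏ i ∈ B, wa a x i ≠ 0`.
-/

set_option autoImplicit false

open MvPolynomial
open Pool.Agent.H17LG.Variety (FunField ratio PoleAtMost IsLogGeneralType)
open Pool.Agent.H23.Fano (Form PrimeDivisorOver)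
open Pool.Agent.H62.FC (Homog)
open Pool.Agent.H13.SM (conTan cone)
open Pool.Agent.GG.Kd

noncomputable section

namespace Pool.Agent.GL

variable {N : ℕ} {P : Ideal (MvPolynomial (Fin (N + 1)) ℂ)} [P.IsPrime] {B : Finset (Fin (N + 1))} {k M : ℕ}

theorem PlcL.IsVal.unique {p : PlcL P B (k + 1) M} (hz : ∃ z : Fin (k + 1) → FunField P, IsTranscendenceBasis ℂ z) {x : Fin (N + 1) → ℂ}
    (hx : x ∈ cone P) {v : Fin (k + 1) → Fin (N + 1) → ℂ} (hv : ∀ l, v l ∈ conTan P x) {s s' : ℂ} (h : p.IsVal x v s) (h' : p.IsVal x v s') :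
    s = s' := by
  obtain ⟨a, d, W, c, ha, hJ, hω, hc, rfl⟩ := h
  obtain ⟨b, d', W', c', hb, hJ', hω', hc', rfl⟩ := h'
  have haP : X a ∉ P := fun h => ha (by have := hx.2 _ h; rwa [eval_X] at this)
  have hbP : X b ∉ P := fun h => hb (by have := hx.2 _ h; rwa [eval_X] at this)
  have hH : p.H * ratio P b p.o = ratio P b a * (p.H * ratio P a p.o) := by
    obtain ⟨g, hga, -, -, h3⟩ := exists_gen hz haP
    rw [h3, h3, h3]
    by_cases hgo : g p.o = 0
    · rw [hgo, div_zero, div_zero, mul_zero, mul_zero]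
    · field_simp
  have h1 := d.compare (isPt_wa hz hx ha) hJ d' (w' := wa b x) (v := fun l => va a x (v l)) (v' := fun l => va b x (v l))
    (fun i => ev_w hz hx ha hb i) (fun l => va_mem hz hx ha (hv l)) (fun l i => ev_wv hz hx ha hb (hv l) i) hH
    (hω.symm.trans hω') hc hc' (Ev.var (ya P a) (wa a x) b)
  rw [← mul_assoc] at h1
  have h2 : (x b)⁻¹ * (c' * (Matrix.of fun l j => d'.tau (va b x (v l)) j).det ^ M) =
      (x b)⁻¹ * (wa a x b * c * (Matrix.of fun l j => d.tau (va a x (v l)) j).det ^ M) := by rw [h1]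
  rw [h2, wa]
  field_simp

/-- the section in the chart `x_a = 1`, near the points with `J ≠ 0` -/
theorem PlcL.exists_rep (p : PlcL P B (k + 1) M) (hz : ∃ z : Fin (k + 1) → FunField P, IsTranscendenceBasis ℂ z) {a : Fin (N + 1)} (ha : X a ∉ P)
    (d : Dat (ya P a) (k + 1)) : ∃ (W : FunField P) (A : MvPolynomial (Fin (N + 1)) ℂ), p.ω = Form.mk W d.t ∧
      aeval (ya P a) d.J ^ (2 * (k + 1) * M + 1) * (p.H * ratio P a p.o * (∏ i ∈ B, ya P a i) ^ M * W ^ M) = aeval (ya P a) A := by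
  obtain ⟨W, hW⟩ := exists_mk d p.ω
  have h1 := d.reg (adjoin_ya hz ha) (M := M) (H := p.H * ratio P a p.o * (∏ i ∈ B, ya P a i) ^ M) (W := W) fun E hE => by
    rw [← hW]
    exact p.pole a ha E hE
  rw [Algebra.adjoin_range_eq_range_aeval] at h1
  obtain ⟨A, hA⟩ := h1
  exact ⟨W, A, hW, hA.symm⟩

private theorem ko_isVal (p : PlcL P B (k + 1) M) (hz : ∃ z : Fin (k + 1) → FunField P, IsTranscendenceBasis ℂ z) {a : Fin (N + 1)} (d : Dat (ya P a) (k + 1))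
    {W : FunField P} {A : MvPolynomial (Fin (N + 1)) ℂ} {e : ℕ} (hW : p.ω = Form.mk W d.t)
    (hA : aeval (ya P a) d.J ^ e * (p.H * ratio P a p.o * (∏ i ∈ B, ya P a i) ^ M * W ^ M) = aeval (ya P a) A) {x : Fin (N + 1) → ℂ} (hx : x ∈ cone P)
    (hB : ∀ i ∈ B, x i ≠ 0) (hxa : x a ≠ 0) (hJ : eval (wa a x) d.J ≠ 0) (v : Fin (k + 1) → Fin (N + 1) → ℂ) :
    p.IsVal x v ((x a)⁻¹ * (eval (wa a x) A * (eval (wa a x) d.J ^ e * (∏ i ∈ B, wa a x i) ^ M)⁻¹ * (Matrix.of fun l j => d.tau (va a x (v l)) j).det ^ M)) := by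
  refine ⟨a, d, W, _, hxa, hJ, hW, ?_, rfl⟩
  have hw := isPt_wa hz hx hxa
  have hprod : Ev (ya P a) (wa a x) (∏ i ∈ B, ya P a i) (∏ i ∈ B, wa a x i) := by
    have h1 := Ev.poly (ya P a) (wa a x) (∏ i ∈ B, X i)
    rw [map_prod, map_prod] at h1
    simp only [aeval_X] at h1
    exact h1
  have hne : ∏ i ∈ B, wa a x i ≠ 0 := Finset.prod_ne_zero_iff.2 fun i hi => div_ne_zero (hB i hi) hxa
  have hJy : aeval (ya P a) d.J ≠ 0 := fun h => hJ (hw _ h)
  have hBy : ∏ i ∈ B, ya P a i ≠ 0 := by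
    intro h
    have h1 : aeval (ya P a) (∏ i ∈ B, X i : MvPolynomial (Fin (N + 1)) ℂ) = 0 := by
      rw [map_prod]
      simp only [aeval_X]
      exact h
    have h2 := hw _ h1
    rw [map_prod] at h2
    simp only [eval_X] at h2
    exact hne h2
  have e1 : p.H * ratio P a p.o * W ^ M = aeval (ya P a) A / (aeval (ya P a) d.J ^ e * (∏ i ∈ B, ya P a i) ^ M) := by
    rw [← hA]
    have h5 := pow_ne_zero e hJy
    have h6 := pow_ne_zero M hBy
    field_simp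
  rw [e1]
  have h1 := Ev.poly (ya P a) (wa a x) A
  have h2 := ((Ev.poly (ya P a) (wa a x) d.J).pow e).mul (hprod.pow M)
  rw [MvPolynomial.aeval_eq_eval] at h1 h2
  exact h1.div (isPtB_iff.2 hw) h2 (mul_inv_cancel₀ (mul_ne_zero (pow_ne_zero _ hJ) (pow_ne_zero _ hne)))

private theorem ko_val (p : PlcL P B (k + 1) M) (hz : ∃ z : Fin (k + 1) → FunField P, IsTranscendenceBasis ℂ z) {x : Fin (N + 1) → ℂ} (hx : x ∈ cone P)
    {v : Fin (k + 1) → Fin (N + 1) → ℂ} (hv : ∀ l, v l ∈ conTan P x) {s : ℂ} (h : p.IsVal x v s) : p.val x v = s := by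
  have h1 : ∃ s, p.IsVal x v s := ⟨s, h⟩
  have h2 : p.IsVal x v (p.val x v) := by
    rw [PlcL.val, dif_pos h1]
    exact h1.choose_spec
  exact h2.unique hz hx hv h

/-- the value from such a representation, at a point off `D` -/
theorem PlcL.val_rep (p : PlcL P B (k + 1) M) (hz : ∃ z : Fin (k + 1) → FunField P, IsTranscendenceBasis ℂ z) {a : Fin (N + 1)} (d : Dat (ya P a) (k + 1))
    {W : FunField P} {A : MvPolynomial (Fin (N + 1)) ℂ} {e : ℕ} (hW : p.ω = Form.mk W d.t)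
    (hA : aeval (ya P a) d.J ^ e * (p.H * ratio P a p.o * (∏ i ∈ B, ya P a i) ^ M * W ^ M) = aeval (ya P a) A) {x : Fin (N + 1) → ℂ} (hx : x ∈ cone P)
    (hB : ∀ i ∈ B, x i ≠ 0) (hxa : x a ≠ 0) (hJ : eval (wa a x) d.J ≠ 0) {v : Fin (k + 1) → Fin (N + 1) → ℂ} (hv : ∀ l, v l ∈ conTan P x) :
    p.val x v = (x a)⁻¹ * (eval (wa a x) A * (eval (wa a x) d.J ^ e * (∏ i ∈ B, wa a x i) ^ M)⁻¹ * (Matrix.of fun l j => d.tau (va a x (v l)) j).det ^ M) :=
  ko_val p hz hx hv (ko_isVal p hz d hW hA hx hB hxa hJ v)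

private theorem ko_exists (p : PlcL P B (k + 1) M) (hP : Homog P) (hz : ∃ z : Fin (k + 1) → FunField P, IsTranscendenceBasis ℂ z) (hs : SncX P B (k + 1))
    {x : Fin (N + 1) → ℂ} (hx : x ∈ cone P) (hB : ∀ i ∈ B, x i ≠ 0) {v : Fin (k + 1) → Fin (N + 1) → ℂ} (hv : ∀ l, v l ∈ conTan P x) : p.IsVal x v (p.val x v) := by
  obtain ⟨a, ha⟩ : ∃ a, x a ≠ 0 := by
    by_contra h
    push Not at h
    exact hx.1 (funext h)
  have haP : X a ∉ P := fun h => ha (by have := hx.2 _ h; rwa [eval_X] at this)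
  obtain ⟨d, hJ⟩ := exists_dat (ya P a) hz (adjoin_ya hz haP) (finrank_tan hP hz hx ha (hs.smooth x hx))
  obtain ⟨W, A, hW, hA⟩ := p.exists_rep hz haP d
  have h1 := ko_isVal p hz d hW hA hx hB ha hJ v
  rw [ko_val p hz hx hv h1]
  exact h1

theorem PlcL.val_add_smul (p : PlcL P B (k + 1) M) (hP : Homog P) (hz : ∃ z : Fin (k + 1) → FunField P, IsTranscendenceBasis ℂ z) (hs : SncX P B (k + 1))
    {x : Fin (N + 1) → ℂ} (hx : x ∈ cone P) (hB : ∀ i ∈ B, x i ≠ 0) {v : Fin (k + 1) → Fin (N + 1) → ℂ} (hv : ∀ l, v l ∈ conTan P x) (c : Fin (k + 1) → ℂ) :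
    p.val x (fun l => v l + c l • x) = p.val x v := by
  have hv' : ∀ l, v l + c l • x ∈ conTan P x := fun l => add_mem (hv l) (Submodule.smul_mem _ _ (euler_mem hP hx))
  refine ko_val p hz hx hv' ?_
  obtain ⟨a, d, W, e, h1, h2, h3, h4, h5⟩ := ko_exists p hP hz hs hx hB hv
  refine ⟨a, d, W, e, h1, h2, h3, h4, ?_⟩
  rw [h5]
  simp only [va_add_smul]

theorem PlcL.val_det (p : PlcL P B (k + 1) M) (hP : Homog P) (hz : ∃ z : Fin (k + 1) → FunField P, IsTranscendenceBasis ℂ z) (hs : SncX P B (k + 1))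
    {x : Fin (N + 1) → ℂ} (hx : x ∈ cone P) (hB : ∀ i ∈ B, x i ≠ 0) {v : Fin (k + 1) → Fin (N + 1) → ℂ} (hv : ∀ l, v l ∈ conTan P x)
    (C : Matrix (Fin (k + 1)) (Fin (k + 1)) ℂ) : p.val x (fun l => ∑ j, C l j • v j) = C.det ^ M * p.val x v := by
  have hv' : ∀ l, ∑ j, C l j • v j ∈ conTan P x := fun l => Submodule.sum_mem _ fun j _ => Submodule.smul_mem _ _ (hv j)
  refine ko_val p hz hx hv' ?_
  obtain ⟨a, d, W, e, h1, h2, h3, h4, h5⟩ := ko_exists p hP hz hs hx hB hv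
  refine ⟨a, d, W, e, h1, h2, h3, h4, ?_⟩
  rw [h5]
  have h6 : (Matrix.of fun l j => d.tau (va a x (∑ m, C l m • v m)) j) = C * (Matrix.of fun l j => d.tau (va a x (v l)) j) := by
    ext l j
    rw [Matrix.of_apply, tau_va_sum, Matrix.mul_apply]
    rfl
  rw [h6, Matrix.det_mul, mul_pow]
  ring

theorem PlcL.val_scale (p : PlcL P B (k + 1) M) (hP : Homog P) (hz : ∃ z : Fin (k + 1) → FunField P, IsTranscendenceBasis ℂ z) (hs : SncX P B (k + 1))
    {x : Fin (N + 1) → ℂ} (hx : x ∈ cone P) (hB : ∀ i ∈ B, x i ≠ 0) {v : Fin (k + 1) → Fin (N + 1) → ℂ} (hv : ∀ l, v l ∈ conTan P x) {c : ℂ} (hc : c ≠ 0) :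
    c * p.val (c • x) (fun l => c • v l) = p.val x v := by
  have hcx := cone_smul' hP hx hc
  have hv' : ∀ l, c • v l ∈ conTan P (c • x) := fun l => conTan_scale hP hx (hv l) c
  obtain ⟨a, d, W, e, h1, h2, h3, h4, h5⟩ := ko_exists p hP hz hs hx hB hv
  have h6 : p.IsVal (c • x) (fun l => c • v l) (c⁻¹ * p.val x v) := by
    refine ⟨a, d, W, e, mul_ne_zero hc h1, ?_, h3, ?_, ?_⟩
    · rwa [wa_scale hc]
    · rwa [wa_scale hc]
    · rw [h5]
      simp only [va_scale _ hc, Pi.smul_apply, smul_eq_mul]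
      rw [mul_inv]
      ring
  rw [ko_val p hz hcx hv' h6, ← mul_assoc, mul_inv_cancel₀ hc, one_mul]

end Pool.Agent.GL
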