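import Pool.Agent.GL.KO
import Pool.Agent.GL.KG.Dns
import Pool.Agent.GL.KG.Pol

/-!
# GL KA: the section as a `LogCan`

`IsRep p x ξ s`: there are polynomials `g`, `A` with `g (x) ≠ 0`, `g (x) s = A (x, ξ)`, and `g (x') p.val x' (act B x' ξ') = A (x', ξ')` for all points `x'` off `D` and logarithmic tangent vectors `ξ'`.  `PlcL.exists_poly` (KG/Pol): exists.  `dens` (KG/Dns): `s` is unique, and
the rules hold (they are polynomial identities at the points off `D`).  `regular`: the ideal of the `g` with `g (x) s (x, ξ) = A (x, ξ)` for all `x`, and the Nullstellensatz.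
-/

set_option autoImplicit false

open MvPolynomial
open Pool.Agent.H17LG.Variety (FunField ratio PoleAtMost IsLogGeneralType)
open Pool.Agent.H23.Fano (Form PrimeDivisorOver)
open Pool.Agent.H62.FC (Homog)
open Pool.Agent.H13.SM (conTan cone)
open Pool.Agent.GG.Kd

noncomputable section

namespace Pool.Agent.GL

variable {N : ℕ} {P : Ideal (MvPolynomial (Fin (N + 1)) ℂ)} [P.IsPrime] {B : Finset (Fin (N + 1))} {k M : ℕ}

/-- `g`, `A` represent the section at the points off `D` -/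
def PlcL.Rp (p : PlcL P B (k + 1) M) (g : MvPolynomial (Fin (N + 1)) ℂ) (A : MvPolynomial (XV N (k + 1)) ℂ) : Prop :=
  ∀ x ∈ Off P B, ∀ ξ : Fin (k + 1) → Fin (N + 1) → ℂ, LT P B x ξ → eval x g * p.val x (fun l => act B x (ξ l)) = eval (xv x ξ) A

/-- `s` is the value at `(x, ξ)` of a representation of the section -/
def PlcL.IsRep (p : PlcL P B (k + 1) M) (x : Fin (N + 1) → ℂ) (ξ : Fin (k + 1) → Fin (N + 1) → ℂ) (s : ℂ) : Prop :=
  ∃ (g : MvPolynomial (Fin (N + 1)) ℂ) (A : MvPolynomial (XV N (k + 1)) ℂ), p.Rp g A ∧ eval x g ≠ 0 ∧ eval x g * s = eval (xv x ξ) A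

open Classical in
/-- the section -/
def PlcL.sec (p : PlcL P B (k + 1) M) (x : Fin (N + 1) → ℂ) (ξ : Fin (k + 1) → Fin (N + 1) → ℂ) : ℂ := if h : ∃ s, p.IsRep x ξ s then h.choose else 0

theorem PlcL.exists_isRep (p : PlcL P B (k + 1) M) (hP : Homog P) (hz : ∃ z : Fin (k + 1) → FunField P, IsTranscendenceBasis ℂ z) (hs : SncX P B (k + 1))
    {x : Fin (N + 1) → ℂ} (hx : x ∈ cone P) (ξ : Fin (k + 1) → Fin (N + 1) → ℂ) : ∃ s, p.IsRep x ξ s := by
  obtain ⟨g, A, hg, hA⟩ := p.exists_poly hP hz hs hx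
  exact ⟨(eval x g)⁻¹ * eval (xv x ξ) A, g, A, hA, hg, mul_inv_cancel_left₀ hg _⟩

theorem PlcL.sec_spec (p : PlcL P B (k + 1) M) (hP : Homog P) (hz : ∃ z : Fin (k + 1) → FunField P, IsTranscendenceBasis ℂ z) (hs : SncX P B (k + 1))
    {x : Fin (N + 1) → ℂ} (hx : x ∈ cone P) (ξ : Fin (k + 1) → Fin (N + 1) → ℂ) : p.IsRep x ξ (p.sec x ξ) := by
  have h := p.exists_isRep hP hz hs hx ξ
  unfold PlcL.sec
  rw [dif_pos h]
  exact h.choose_spec

omit [P.IsPrime] in
theorem ka_eval_bind {σ τ : Type} (f : σ → MvPolynomial τ ℂ) (A : MvPolynomial σ ℂ) (v : τ → ℂ) : eval v (bind₁ f A) = eval (fun i => eval v (f i)) A := by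
  rw [← MvPolynomial.aeval_eq_eval, ← MvPolynomial.aeval_eq_eval, MvPolynomial.aeval_bind₁]

/-- every representation computes the section -/
theorem PlcL.sec_rp (p : PlcL P B (k + 1) M) (hP : Homog P) (hz : ∃ z : Fin (k + 1) → FunField P, IsTranscendenceBasis ℂ z) (hB : ∀ i ∈ B, X i ∉ P) (hs : SncX P B (k + 1))
    {g : MvPolynomial (Fin (N + 1)) ℂ} {A : MvPolynomial (XV N (k + 1)) ℂ} (h : p.Rp g A) {x : Fin (N + 1) → ℂ} (hx : x ∈ cone P)
    {ξ : Fin (k + 1) → Fin (N + 1) → ℂ} (hξ : LT P B x ξ) : eval x g * p.sec x ξ = eval (xv x ξ) A := by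
  obtain ⟨g', A', h', hg', hs'⟩ := p.sec_spec hP hz hs hx ξ
  have h1 := dens hP hz hB (rename Sum.inl g * A' - rename Sum.inl g' * A) (fun y hy η hη => ?_) hx (hs.smooth x hx) (hs.snc x hx) hξ
  · rw [map_sub, map_mul, map_mul, eval_rename, eval_rename] at h1
    have e1 : (xv x ξ) ∘ Sum.inl = x := rfl
    rw [e1, ← hs'] at h1
    apply mul_left_cancel₀ hg'
    linear_combination h1
  · rw [map_sub, map_mul, map_mul, eval_rename, eval_rename]
    have e1 : (xv y η) ∘ Sum.inl = y := rfl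
    rw [e1, ← h y hy η hη, ← h' y hy η hη]
    ring

theorem PlcL.sec_off (p : PlcL P B (k + 1) M) (hP : Homog P) (hz : ∃ z : Fin (k + 1) → FunField P, IsTranscendenceBasis ℂ z) (hs : SncX P B (k + 1))
    {x : Fin (N + 1) → ℂ} (hx : x ∈ cone P) (hxB : ∀ i ∈ B, x i ≠ 0) {ξ : Fin (k + 1) → Fin (N + 1) → ℂ} (hξ : ∀ l, act B x (ξ l) ∈ conTan P x) :
    p.sec x ξ = p.val x (fun l => act B x (ξ l)) := by
  obtain ⟨g, A, h, hg, h1⟩ := p.sec_spec hP hz hs hx ξ
  have h2 := h x ⟨hx, hxB⟩ ξ hξ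
  exact mul_left_cancel₀ hg (h1.trans h2.symm)

omit [P.IsPrime] in
theorem ka_act_add (x ξ ξ' : Fin (N + 1) → ℂ) : act B x (ξ + ξ') = act B x ξ + act B x ξ' := by
  funext i
  simp only [act, Pi.add_apply]
  split_ifs
  · ring
  · rfl

omit [P.IsPrime] in
theorem ka_act_smul (x ξ : Fin (N + 1) → ℂ) (a : ℂ) : act B x (a • ξ) = a • act B x ξ := by
  funext i
  simp only [act, Pi.smul_apply, smul_eq_mul]
  split_ifs
  · ring
  · rfl

omit [P.IsPrime] in
theorem ka_act_sum {m : ℕ} (x : Fin (N + 1) → ℂ) (c : Fin m → ℂ) (ξ : Fin m → Fin (N + 1) → ℂ) : act B x (∑ j, c j • ξ j) = ∑ j, c j • act B x (ξ j) := by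
  funext i
  simp only [act, Finset.sum_apply, Pi.smul_apply, smul_eq_mul]
  split_ifs
  · rw [Finset.mul_sum]
    exact Finset.sum_congr rfl fun j _ => by ring
  · rfl

omit [P.IsPrime] in
theorem ka_act_eul (x : Fin (N + 1) → ℂ) : act B x (eul B x) = x := by
  funext i
  simp only [act, eul]
  split_ifs
  · rw [mul_one]
  · rfl

omit [P.IsPrime] in
theorem ka_act_lsc (c : ℂ) (x ξ : Fin (N + 1) → ℂ) : act B (c • x) (lsc B c ξ) = c • act B x ξ := by
  funext i
  simp only [act, lsc, Pi.smul_apply, smul_eq_mul]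
  split_ifs
  · ring
  · rfl

/-- the ideal of the denominators -/
def PlcL.dn (p : PlcL P B (k + 1) M) : Ideal (MvPolynomial (Fin (N + 1)) ℂ) where
  carrier := {g | ∃ A : MvPolynomial (XV N (k + 1)) ℂ, ∀ x ∈ cone P, ∀ ξ : Fin (k + 1) → Fin (N + 1) → ℂ, LT P B x ξ → eval x g * p.sec x ξ = eval (xv x ξ) A}
  add_mem' := by
    rintro a b ⟨A, hA⟩ ⟨A', hA'⟩
    refine ⟨A + A', fun x hx v hv => ?_⟩
    rw [map_add, map_add, add_mul, hA x hx v hv, hA' x hx v hv]
  zero_mem' := ⟨0, fun x _ v _ => by rw [map_zero, map_zero, zero_mul]⟩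
  smul_mem' := by
    rintro c a ⟨A, hA⟩
    refine ⟨rename Sum.inl c * A, fun x hx v hv => ?_⟩
    rw [smul_eq_mul, map_mul, map_mul, mul_assoc, hA x hx v hv, eval_rename]
    rfl

theorem PlcL.sec_regular (p : PlcL P B (k + 1) M) (hP : Homog P) (hz : ∃ z : Fin (k + 1) → FunField P, IsTranscendenceBasis ℂ z) (hB : ∀ i ∈ B, X i ∉ P)
    (hs : SncX P B (k + 1)) (i : Fin (N + 1)) :
    ∃ (e : ℕ) (A : MvPolynomial (XV N (k + 1)) ℂ), ∀ x ∈ cone P, ∀ ξ : Fin (k + 1) → Fin (N + 1) → ℂ, LT P B x ξ →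
      x i ^ e * p.sec x ξ = eval (xv x ξ) A := by
  have hrad : X i ∈ p.dn.radical := by
    rw [← MvPolynomial.vanishingIdeal_zeroLocus_eq_radical (K := ℂ) p.dn, MvPolynomial.mem_vanishingIdeal_iff]
    intro x hx
    by_contra hne
    rw [aeval_X] at hne
    have hcone : x ∈ cone P := by
      refine ⟨fun h => hne (by rw [h]; rfl), fun Q hQ => ?_⟩
      have h1 : Q ∈ p.dn := ⟨0, fun x' hx' v _ => by rw [hx'.2 Q hQ, map_zero, zero_mul]⟩
      have h2 := hx Q h1
      rwa [MvPolynomial.aeval_eq_eval] at h2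
    obtain ⟨g, A, hg, hA⟩ := p.exists_poly hP hz hs hcone
    have h2 := hx g ⟨A, fun y hy ξ hξ => p.sec_rp hP hz hB hs hA hy hξ⟩
    rw [MvPolynomial.aeval_eq_eval] at h2
    exact hg h2
  obtain ⟨e, A, hA⟩ := hrad
  refine ⟨e, A, fun x hx v hv => ?_⟩
  rw [← hA x hx v hv, map_pow, eval_X]

theorem PlcL.exists_logCan (p : PlcL P B (k + 1) M) (hP : Homog P) (hz : ∃ z : Fin (k + 1) → FunField P, IsTranscendenceBasis ℂ z) (hB : ∀ i ∈ B, X i ∉ P) (hs : SncX P B (k + 1)) :
    ∃ Ω : LogCan P B (k + 1) M, ∀ x ∈ cone P, (∀ i ∈ B, x i ≠ 0) → ∀ ξ : Fin (k + 1) → Fin (N + 1) → ℂ, (∀ l, act B x (ξ l) ∈ conTan P x) →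
      Ω.toFun x ξ = p.val x (fun l => act B x (ξ l)) := by
  classical
  refine ⟨⟨p.sec, fun i => p.sec_regular hP hz hB hs i, ?_, ?_, ?_⟩, fun x hx hxB ξ hξ => p.sec_off hP hz hs hx hxB hξ⟩
  · -- adding multiples of the Euler vector
    intro x hx ξ hξ a
    obtain ⟨g, A, h, hg, h1⟩ := p.sec_spec hP hz hs hx ξ
    have hξ' : LT P B x fun j => ξ j + a j • eul B x := fun j => by
      rw [ka_act_add, ka_act_smul, ka_act_eul]
      exact add_mem (hξ j) (Submodule.smul_mem _ _ (euler_mem hP hx))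
    have h2 := p.sec_rp hP hz hB hs h hx hξ'
    let f : XV N (k + 1) → MvPolynomial (XV N (k + 1)) ℂ := Sum.elim (fun i => X (Sum.inl i)) fun q => X (Sum.inr q) + C (a q.1) * (if q.2 ∈ B then 1 else X (Sum.inl q.2))
    have hf : ∀ (y : Fin (N + 1) → ℂ) (η : Fin (k + 1) → Fin (N + 1) → ℂ), (fun i => eval (xv y η) (f i)) = xv y fun j => η j + a j • eul B y := by
      intro y η
      funext q
      rcases q with q | q
      · simp only [f, Sum.elim_inl, eval_X]
      · simp only [f, Sum.elim_inr, map_add, map_mul, eval_X, eval_C, Pi.add_apply, Pi.smul_apply, smul_eq_mul, eul]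
        split_ifs
        · rw [map_one]
        · rw [eval_X]; rfl
    have h3 := dens hP hz hB (bind₁ f A - A) (fun y hy η hη => ?_) hx (hs.smooth x hx) (hs.snc x hx) hξ
    · rw [map_sub, ka_eval_bind, hf, ← h2, ← h1, sub_eq_zero] at h3
      exact mul_left_cancel₀ hg h3
    · have hη' : LT P B y fun j => η j + a j • eul B y := fun j => by
        rw [ka_act_add, ka_act_smul, ka_act_eul]
        exact add_mem (hη j) (Submodule.smul_mem _ _ (euler_mem hP hy.1))
      rw [map_sub, ka_eval_bind, hf, ← h y hy _ hη', ← h y hy _ hη]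
      have h4 := p.val_add_smul hP hz hs hy.1 hy.2 (v := fun l => act B y (η l)) hη a
      simp only [ka_act_add, ka_act_smul, ka_act_eul]
      rw [h4, sub_self]
  · -- linear combinations
    intro x hx ξ hξ c
    obtain ⟨g, A, h, hg, h1⟩ := p.sec_spec hP hz hs hx ξ
    have hξ' : LT P B x fun j => ∑ l, c j l • ξ l := fun j => by
      rw [ka_act_sum]
      exact Submodule.sum_mem _ fun l _ => Submodule.smul_mem _ _ (hξ l)
    have h2 := p.sec_rp hP hz hB hs h hx hξ'
    let f : XV N (k + 1) → MvPolynomial (XV N (k + 1)) ℂ := Sum.elim (fun i => X (Sum.inl i)) fun q => ∑ l, C (c q.1 l) * X (Sum.inr (l, q.2))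
    have hf : ∀ (y : Fin (N + 1) → ℂ) (η : Fin (k + 1) → Fin (N + 1) → ℂ), (fun i => eval (xv y η) (f i)) = xv y fun j => ∑ l, c j l • η l := by
      intro y η
      funext q
      rcases q with q | q
      · simp only [f, Sum.elim_inl, eval_X]
      · simp only [f, Sum.elim_inr, map_sum, map_mul, eval_X, eval_C, Finset.sum_apply, Pi.smul_apply, smul_eq_mul]
    have h3 := dens hP hz hB (bind₁ f A - C (c.det ^ M) * A) (fun y hy η hη => ?_) hx (hs.smooth x hx) (hs.snc x hx) hξ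
    · rw [map_sub, map_mul, eval_C, ka_eval_bind, hf, ← h2, ← h1] at h3
      apply mul_left_cancel₀ hg
      linear_combination h3
    · have hη' : LT P B y fun j => ∑ l, c j l • η l := fun j => by
        rw [ka_act_sum]
        exact Submodule.sum_mem _ fun l _ => Submodule.smul_mem _ _ (hη l)
      rw [map_sub, map_mul, eval_C, ka_eval_bind, hf, ← h y hy _ hη', ← h y hy _ hη]
      have h4 := p.val_det hP hz hs hy.1 hy.2 (v := fun l => act B y (η l)) hη c
      simp only [ka_act_sum]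
      rw [h4]
      ring
  · -- scaling
    intro x hx ξ hξ c hc
    have hcx := cone_smul' hP hx hc
    obtain ⟨g, A, h, hg, h1⟩ := p.sec_spec hP hz hs hx ξ
    obtain ⟨g', A', h', hg', h1'⟩ := p.sec_spec hP hz hs hcx fun j => lsc B c (ξ j)
    let f₀ : Fin (N + 1) → MvPolynomial (Fin (N + 1)) ℂ := fun i => C c * X i
    let f : XV N (k + 1) → MvPolynomial (XV N (k + 1)) ℂ := Sum.elim (fun i => C c * X (Sum.inl i)) fun q => if q.2 ∈ B then X (Sum.inr q) else C c * X (Sum.inr q)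
    have hf₀ : ∀ y : Fin (N + 1) → ℂ, (fun i => eval y (f₀ i)) = c • y := by
      intro y
      funext i
      simp only [f₀, map_mul, eval_C, eval_X, Pi.smul_apply, smul_eq_mul]
    have hf : ∀ (y : Fin (N + 1) → ℂ) (η : Fin (k + 1) → Fin (N + 1) → ℂ), (fun i => eval (xv y η) (f i)) = xv (c • y) fun j => lsc B c (η j) := by
      intro y η
      funext q
      rcases q with q | q
      · simp only [f, Sum.elim_inl, map_mul, eval_C, eval_X, Pi.smul_apply, smul_eq_mul]
      · simp only [f, Sum.elim_inr, lsc]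
        split_ifs
        · rw [eval_X]; rfl
        · rw [map_mul, eval_C, eval_X]; rfl
    have h3 := dens hP hz hB (C c * (rename Sum.inl g * bind₁ f A') - rename Sum.inl (bind₁ f₀ g') * A) (fun y hy η hη => ?_) hx (hs.smooth x hx)
      (hs.snc x hx) hξ
    · rw [map_sub, map_mul, map_mul, map_mul, eval_C, eval_rename, eval_rename, ka_eval_bind, ka_eval_bind, hf] at h3
      have e1 : (xv x ξ) ∘ Sum.inl = x := rfl
      rw [e1, hf₀, ← h1, ← h1'] at h3
      apply mul_left_cancel₀ (mul_ne_zero hg hg')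
      linear_combination h3
    · rw [map_sub, map_mul, map_mul, map_mul, eval_C, eval_rename, eval_rename, ka_eval_bind, ka_eval_bind, hf]
      have e1 : (xv y η) ∘ Sum.inl = y := rfl
      have hcy : c • y ∈ Off P B := ⟨cone_smul' hP hy.1 hc, fun i hi => by
        rw [Pi.smul_apply, smul_eq_mul]
        exact mul_ne_zero hc (hy.2 i hi)⟩
      have hη' : LT P B (c • y) fun j => lsc B c (η j) := fun j => by
        rw [ka_act_lsc]
        exact conTan_scale hP hy.1 (hη j) c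
      rw [e1, hf₀, ← h y hy _ hη, ← h' _ hcy _ hη']
      have h4 := p.val_scale hP hz hs hy.1 hy.2 (v := fun l => act B y (η l)) hη hc
      simp only [ka_act_lsc]
      rw [← h4]
      ring

end Pool.Agent.GL
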