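import Pool.Agent.GL.KG.Defs
import Pool.Agent.GG.Kd.Glu
import Pool.Agent.H62.FC.Defs

/-!
# GL KDefs: sections of `(K + D)^M (-1)` on a smooth projective variety with a divisor with simple normal crossings

`PlcL P B k M`: a rational form `ω` and a function `H`; for every chart `x_a = 1` the form `(∏_{i ∈ B} x_i / x_a)^M H (x_a / x_o) ω^M` is regular along all prime divisors
with centre in the chart.  The section of `(K + D)^M (-1)` is `H ω^M / x_o`.  Its values at the points off `D` are computed as in `GG.Kd.Glu`.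
-/

set_option autoImplicit false

open MvPolynomial
open Pool.Agent.H17LG.Variety (FunField ratio PoleAtMost IsLogGeneralType)
open Pool.Agent.H23.Fano (Form PrimeDivisorOver)
open Pool.Agent.H62.FC (Homog)
open Pool.Agent.H13.SM (conTan cone)
open Pool.Agent.GG.Kd

noncomputable section

namespace Pool.Agent.GL

variable {N : ℕ}

/-- `X` is smooth of dimension `n`, and the differentials of the coordinates `x i`, `i ∈ B`, which vanish at a point are independent on the tangent space of the cone -/
structure SncX (P : Ideal (MvPolynomial (Fin (N + 1)) ℂ)) (B : Finset (Fin (N + 1))) (n : ℕ) : Prop where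
  smooth : ∀ x ∈ cone P, Module.finrank ℂ (conTan P x) ≤ n + 1
  snc : ∀ x ∈ cone P, Snc P B x

/-- a section of `(K + D)^M (-1)`, logarithmic along all prime divisors -/
structure PlcL (P : Ideal (MvPolynomial (Fin (N + 1)) ℂ)) [P.IsPrime] (B : Finset (Fin (N + 1))) (k M : ℕ) where
  /-- the rational form -/
  ω : Form (FunField P) k
  ne : ω ≠ 0
  /-- the function -/
  H : FunField P
  H_ne : H ≠ 0
  /-- the index of a coordinate which does not vanish -/
  o : Fin (N + 1)
  ho : X o ∉ P
  pole : ∀ a, X a ∉ P → ∀ E : PrimeDivisorOver (FunField P) k, (∀ i, 0 ≤ E.ord (ya P a i)) →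
    PoleAtMost 0 E M (H * ratio P a o * (∏ i ∈ B, ya P a i) ^ M) ω

variable {P : Ideal (MvPolynomial (Fin (N + 1)) ℂ)} [P.IsPrime] {B : Finset (Fin (N + 1))} {k M : ℕ}

/-- `s` is the value of the section at `(x, v)`, computed in some chart with some coordinates. -/
def PlcL.IsVal (p : PlcL P B k M) (x : Fin (N + 1) → ℂ) (v : Fin k → Fin (N + 1) → ℂ) (s : ℂ) : Prop :=
  ∃ (a : Fin (N + 1)) (d : Dat (ya P a) k) (W : FunField P) (c : ℂ), x a ≠ 0 ∧ eval (wa a x) d.J ≠ 0 ∧ p.ω = Form.mk W d.t ∧
    Ev (ya P a) (wa a x) (p.H * ratio P a p.o * W ^ M) c ∧ s = (x a)⁻¹ * (c * (Matrix.of fun l j => d.tau (va a x (v l)) j).det ^ M)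

open Classical in
/-- the section, at the points off `D` -/
def PlcL.val (p : PlcL P B k M) (x : Fin (N + 1) → ℂ) (v : Fin k → Fin (N + 1) → ℂ) : ℂ := if h : ∃ s, p.IsVal x v s then h.choose else 0

end Pool.Agent.GL
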