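import Pool.Agent.GL.KDefs
import Pool.Agent.H68.KR.KODL

/-!
# GL KV: Kodaira's lemma with logarithmic poles, in the charts

`H68.KR.kodaira_log` with `Bd := OnBoundary P B`.  Let `X a ∉ P` and let all `ya P a i` have order `≥ 0` along `E`.  If `E` is on the boundary, there are `j`, `i ∈ B` with `coordFun P j ≠ 0`, all `ratio P l j` of order `≥ 0` and
`0 < E.ord (ratio P i j)`; `ratio P a j * ratio P j a = 1` has order `0`, both factors have order `≥ 0`, so `E.ord (ya P a i) = E.ord (ratio P i j) ≥ 1`, and `∏ i ∈ B, ya P a i` has order `≥ 1`.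
-/

set_option autoImplicit false

open MvPolynomial
open Pool.Agent.H17LG.Variety (FunField ratio PoleAtMost IsLogGeneralType)
open Pool.Agent.H23.Fano (Form PrimeDivisorOver)
open Pool.Agent.H17GT (coordFun)
open Pool.Agent.H62.FC (Homog OnBoundary)
open Pool.Agent.H13.SM (conTan cone)
open Pool.Agent.GG.Kd

noncomputable section

namespace Pool.Agent.GL

variable {N : ℕ} {P : Ideal (MvPolynomial (Fin (N + 1)) ℂ)} [P.IsPrime] {B : Finset (Fin (N + 1))} {k : ℕ}

theorem kv_ord_prod {K : Type} [Field K] [Algebra ℂ K] {n : ℕ} (E : PrimeDivisorOver K n) {ι : Type} (S : Finset ι) (y : ι → K)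
    (hy : ∀ i ∈ S, 0 ≤ E.ord (y i)) : 0 ≤ E.ord (∏ i ∈ S, y i) := by
  classical
  induction S using Finset.induction_on with
  | empty => rw [Finset.prod_empty, E.ord.map_one]
  | insert a S ha ih =>
    rw [Finset.prod_insert ha, E.ord.map_mul]
    exact add_nonneg (hy a (Finset.mem_insert_self _ _)) (ih fun i hi => hy i (Finset.mem_insert_of_mem hi))

/-- one factor of order `≥ 1` -/
theorem kv_ord_prod_one {K : Type} [Field K] [Algebra ℂ K] {n : ℕ} (E : PrimeDivisorOver K n) {ι : Type} (S : Finset ι) (y : ι → K)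
    (hy : ∀ i ∈ S, 0 ≤ E.ord (y i)) {i : ι} (hi : i ∈ S) (h1 : 1 ≤ E.ord (y i)) : 1 ≤ E.ord (∏ i ∈ S, y i) := by
  classical
  rw [← Finset.mul_prod_erase _ _ hi, E.ord.map_mul]
  exact le_add_of_le_of_nonneg h1 (kv_ord_prod E _ _ fun j hj => hy j (Finset.mem_of_mem_erase hj))

theorem kv_one_le {x : WithTop ℤ} (h : 0 < x) : 1 ≤ x := by
  induction x using WithTop.recTopCoe with
  | top => exact le_top
  | coe a =>
    have h1 : (0 : ℤ) < a := by exact_mod_cast h
    have h2 : (1 : ℤ) ≤ a := h1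
    exact_mod_cast h2

theorem kv_add_zero {x y : WithTop ℤ} (hx : 0 ≤ x) (hy : 0 ≤ y) (h : x + y = 0) : x = 0 :=
  le_antisymm (by rw [← h]; exact le_add_of_nonneg_right hy) hx

/-- the coordinates which define the boundary vanish along a boundary divisor with centre in the chart -/
theorem one_le_ord_prod (hz : ∃ z : Fin (k + 1) → FunField P, IsTranscendenceBasis ℂ z) {w : ℕ} {a : Fin (N + 1)} (ha : X a ∉ P)
    {E : PrimeDivisorOver (FunField P) w} (hE : ∀ i, 0 ≤ E.ord (ya P a i)) (hB : OnBoundary P B E) : 1 ≤ E.ord (∏ i ∈ B, ya P a i) := by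
  obtain ⟨j, hj, hj0, i, hi, hi0⟩ := hB
  have hjP : X j ∉ P := by
    intro h
    apply hj
    rw [coordFun, Ideal.Quotient.eq_zero_iff_mem.2 h, map_zero]
  obtain ⟨g, hga, -, hgP, hg⟩ := exists_gen hz ha
  have hgj : g j ≠ 0 := by
    intro h
    exact hjP ((hgP 1 (X j) (isHomogeneous_X ℂ j)).1 (by rw [aeval_X, h]))
  refine kv_ord_prod_one E B _ (fun i _ => hE i) hi ?_
  have h1 : ratio P a j * ratio P j a = 1 := by
    rw [hg, hg]
    field_simp
  have h2 : ya P a i = ratio P i j * ratio P j a := by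
    rw [ya, hg, hg, hg]
    field_simp
  have h3 : E.ord (ratio P a j) + E.ord (ratio P j a) = 0 := by
    rw [← E.ord.map_mul, h1, E.ord.map_one]
  have h4 : E.ord (ratio P j a) = 0 := kv_add_zero (hE j) (hj0 a) (by rw [add_comm]; exact h3)
  rw [h2, E.ord.map_mul, h4, add_zero]
  exact kv_one_le hi0

theorem exists_plcL (hz : ∃ z : Fin (k + 1) → FunField P, IsTranscendenceBasis ℂ z)
    (hgt : IsLogGeneralType (OnBoundary P B (w := k + 1))) : ∃ M : ℕ, 1 ≤ M ∧ Nonempty (PlcL P B (k + 1) M) := by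
  have hz' := hz
  obtain ⟨z, hz⟩ := hz
  obtain ⟨ω, hω, M, H, o, hM, hH, ho, hpole⟩ := Pool.Agent.H68.KR.kodaira_log P z hz hgt
  refine ⟨M, hM, ⟨⟨ω, hω, H, hH, o, ho, ?_⟩⟩⟩
  intro a ha E hE
  by_cases hB : OnBoundary P B E
  · obtain ⟨g, η, h1, h2, h3⟩ := (hpole a ha E).2 hB
    refine ⟨g, η, h1, h2, ?_⟩
    have h4 := one_le_ord_prod hz' ha hE hB
    have h5 : H * ratio P a o * (∏ i ∈ B, ya P a i) ^ M * g ^ M = H * ratio P a o * g ^ M * (∏ i ∈ B, ya P a i) ^ M := by ring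
    rw [h5, E.ord.map_mul, E.ord.map_pow, Nat.cast_zero, add_zero]
    refine h3.trans ?_
    gcongr
    calc ((M : ℕ) : WithTop ℤ) = M • (1 : WithTop ℤ) := by rw [nsmul_one]
      _ ≤ M • E.ord (∏ i ∈ B, ya P a i) := nsmul_le_nsmul_right h4 M
  · obtain ⟨g, η, h1, h2, h3⟩ := (hpole a ha E).1 hB
    refine ⟨g, η, h1, h2, ?_⟩
    have h4 := kv_ord_prod E B _ fun i _ => hE i
    have h5 : H * ratio P a o * (∏ i ∈ B, ya P a i) ^ M * g ^ M = H * ratio P a o * g ^ M * (∏ i ∈ B, ya P a i) ^ M := by ring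
    rw [Nat.cast_zero, add_zero] at h3 ⊢
    rw [h5, E.ord.map_mul, E.ord.map_pow]
    exact add_nonneg h3 (nsmul_nonneg h4 M)

end Pool.Agent.GL
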