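import Pool.Agent.GL.KO

/-!
# GL KZ: the section has no zeros off `D` and a hypersurface section

As `Plc.nonzeroOff` in `GG/Kod` (with `R₀` multiplied by nothing new: the statement is about points off `D` only): `exists_dat`, `PlcL.exists_rep`, `PlcL.val_rep`, `Dat.det_ne`, `va_ind`, `isPt_wa`; the point `x₀` with `x₀ o ≠ 0` by the Nullstellensatz.
-/

set_option autoImplicit false

open MvPolynomial
open Pool.Agent.H17LG.Variety (FunField ratio PoleAtMost IsLogGeneralType)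
open Pool.Agent.H23.Fano (Form PrimeDivisorOver)
open Pool.Agent.H62.FC (Homog)
open Pool.Agent.H68.KR (hmz hmz_isHomogeneous)
open Pool.Agent.H13.SM (conTan cone)
open Pool.Agent.GG.Kd

noncomputable section

namespace Pool.Agent.GL

variable {N : ℕ} {P : Ideal (MvPolynomial (Fin (N + 1)) ℂ)} [P.IsPrime] {B : Finset (Fin (N + 1))} {k M : ℕ}

theorem PlcL.val_ne (p : PlcL P B (k + 1) M) (hP : Homog P) (hz : ∃ z : Fin (k + 1) → FunField P, IsTranscendenceBasis ℂ z) (hs : SncX P B (k + 1)) :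
    ∃ (R₀ : MvPolynomial (Fin (N + 1)) ℂ) (e₀ : ℕ), R₀.IsHomogeneous e₀ ∧ R₀ ∉ P ∧ ∀ x ∈ cone P, (∀ i ∈ B, x i ≠ 0) → eval x R₀ ≠ 0 →
      ∀ v : Fin (k + 1) → Fin (N + 1) → ℂ, (∀ l, v l ∈ conTan P x) → (∀ (a : ℂ) (c : Fin (k + 1) → ℂ), a • x + ∑ j, c j • v j = 0 → c = 0) → p.val x v ≠ 0 := by
  classical
  by_cases hBP : ∃ i ∈ B, X i ∈ P
  · -- there are no points off `D`
    obtain ⟨i, hi, hiP⟩ := hBP
    refine ⟨X p.o, 1, isHomogeneous_X ℂ p.o, p.ho, fun x hx hB => absurd ?_ (hB i hi)⟩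
    have := hx.2 _ hiP
    rwa [eval_X] at this
  push Not at hBP
  -- a point of the cone with `x o ≠ 0`
  obtain ⟨x₀, hx₀, hx₀o⟩ : ∃ x₀ ∈ cone P, x₀ p.o ≠ 0 := by
    have h1 : X p.o ∉ P.radical := by
      rw [Ideal.IsPrime.radical inferInstance]
      exact p.ho
    rw [← MvPolynomial.vanishingIdeal_zeroLocus_eq_radical (K := ℂ) P, MvPolynomial.mem_vanishingIdeal_iff] at h1
    push Not at h1
    obtain ⟨x, hx, hne⟩ := h1
    rw [aeval_X] at hne
    refine ⟨x, ⟨fun h => hne (by rw [h]; rfl), fun Q hQ => ?_⟩, hne⟩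
    have h2 := hx Q hQ
    rwa [MvPolynomial.aeval_eq_eval] at h2
  obtain ⟨d, hJ₀⟩ := exists_dat (ya P p.o) hz (adjoin_ya hz p.ho) (finrank_tan hP hz hx₀ hx₀o (hs.smooth x₀ hx₀))
  obtain ⟨W, A₀, hW, hA⟩ := p.exists_rep hz p.ho d
  have hJy : aeval (ya P p.o) d.J ≠ 0 := fun h => hJ₀ (isPt_wa hz hx₀ hx₀o _ h)
  have hWne : W ≠ 0 := by
    rintro rfl
    apply p.ne
    rw [hW]
    exact zero_smul _ _
  have hr : ratio P p.o p.o ≠ 0 := by
    obtain ⟨g, hga, -, -, h3⟩ := exists_gen hz p.ho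
    rw [h3, div_self hga]
    exact one_ne_zero
  have hpr : ∏ i ∈ B, ya P p.o i ≠ 0 := by
    refine Finset.prod_ne_zero_iff.2 fun i hi => ?_
    obtain ⟨g, hga, -, h2, h3⟩ := exists_gen hz p.ho
    rw [ya, h3]
    refine div_ne_zero (fun h => hBP i hi ((h2 1 (X i) (isHomogeneous_X ℂ i)).1 ?_)) hga
    rw [aeval_X]
    exact h
  have hAy : aeval (ya P p.o) A₀ ≠ 0 := by
    rw [← hA]
    exact mul_ne_zero (pow_ne_zero _ hJy) (mul_ne_zero (mul_ne_zero (mul_ne_zero p.H_ne hr) (pow_ne_zero _ hpr)) (pow_ne_zero _ hWne))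
  set J' := hmz p.o d.J.totalDegree d.J with hJ'
  set A' := hmz p.o A₀.totalDegree A₀ with hA'
  have hJ'P : J' ∉ P := fun h => hJy ((hmz_mem hz p.ho (le_refl _)).2 h)
  have hA'P : A' ∉ P := fun h => hAy ((hmz_mem hz p.ho (le_refl _)).2 h)
  refine ⟨X p.o * (J' * A'), 1 + (d.J.totalDegree + A₀.totalDegree),
    (isHomogeneous_X ℂ p.o).mul ((hmz_isHomogeneous _ _ _).mul (hmz_isHomogeneous _ _ _)), ?_, ?_⟩
  · intro h
    rcases Ideal.IsPrime.mem_or_mem ‹P.IsPrime› h with h | h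
    · exact p.ho h
    · rcases Ideal.IsPrime.mem_or_mem ‹P.IsPrime› h with h | h
      · exact hJ'P h
      · exact hA'P h
  · intro x hx hB hR v hv hind
    rw [map_mul, map_mul, eval_X] at hR
    have hxo : x p.o ≠ 0 := fun h => hR (by rw [h, zero_mul])
    have hJx : eval x J' ≠ 0 := fun h => hR (by rw [h, zero_mul, mul_zero])
    have hAx : eval x A' ≠ 0 := fun h => hR (by rw [h, mul_zero, mul_zero])
    rw [hJ', eval_hmz' _ hxo] at hJx
    rw [hA', eval_hmz' _ hxo] at hAx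
    have hJw : eval (wa p.o x) d.J ≠ 0 := fun h => hJx (by rw [h, mul_zero])
    have hAw : eval (wa p.o x) A₀ ≠ 0 := fun h => hAx (by rw [h, mul_zero])
    have hne : ∏ i ∈ B, wa p.o x i ≠ 0 := Finset.prod_ne_zero_iff.2 fun i hi => div_ne_zero (hB i hi) hxo
    rw [p.val_rep hz d hW hA hx hB hxo hJw hv]
    exact mul_ne_zero (inv_ne_zero hxo) (mul_ne_zero (mul_ne_zero hAw (inv_ne_zero (mul_ne_zero (pow_ne_zero _ hJw) (pow_ne_zero _ hne))))
      (pow_ne_zero _ (d.det_ne (isPt_wa hz hx hxo) hJw (fun l => va_mem hz hx hxo (hv l)) (va_ind hxo hind))))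

end Pool.Agent.GL
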