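import Pool.Agent.GL.KA
import Pool.Agent.GL.KV
import Pool.Agent.GL.KZ

/-!
# GL Kod: `(X, D)` of log general type has a section of `(K + D)^M (-1)`
-/

set_option autoImplicit false

open MvPolynomial
open Pool.Agent.H17LG.Variety (FunField ratio PoleAtMost IsLogGeneralType)
open Pool.Agent.H23.Fano (Form PrimeDivisorOver)
open Pool.Agent.H62.FC (Homog OnBoundary)
open Pool.Agent.H13.SM (conTan cone)
open Pool.Agent.GG.Kd

noncomputable section

namespace Pool.Agent.GL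

variable {N : ℕ} {P : Ideal (MvPolynomial (Fin (N + 1)) ℂ)} [P.IsPrime] {B : Finset (Fin (N + 1))}

theorem exists_logCan (hP : Homog P) {n : ℕ} (hz : ∃ z : Fin (n + 1) → FunField P, IsTranscendenceBasis ℂ z) (hB : ∀ i ∈ B, X i ∉ P) (hs : SncX P B (n + 1))
    (hgt : IsLogGeneralType (OnBoundary P B (w := n + 1))) :
    ∃ (M : ℕ) (Ω : LogCan P B (n + 1) M) (R₀ : MvPolynomial (Fin (N + 1)) ℂ) (e₀ : ℕ), 1 ≤ M ∧ R₀.IsHomogeneous e₀ ∧ R₀ ∉ P ∧ Ω.NonzeroOff R₀ := by
  obtain ⟨M, hM, ⟨p⟩⟩ := exists_plcL hz hgt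
  obtain ⟨Ω, hΩ⟩ := p.exists_logCan hP hz hB hs
  obtain ⟨R₀, e₀, h1, h2, h3⟩ := p.val_ne hP hz hs
  refine ⟨M, Ω, R₀, e₀, hM, h1, h2, fun x hx hxB hR ξ hξ hind => ?_⟩
  rw [hΩ x hx hxB ξ hξ]
  refine h3 x hx hxB hR _ hξ fun a c h => hind a c ?_
  -- `act B x` is injective
  have h4 : act B x (a • eul B x + ∑ j, c j • ξ j) = a • x + ∑ j, c j • act B x (ξ j) := by
    funext i
    by_cases hi : i ∈ B
    · simp only [act, eul, if_pos hi, Pi.add_apply, Pi.smul_apply, smul_eq_mul, Finset.sum_apply, mul_add, Finset.mul_sum]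
      congr 1
      · ring
      · exact Finset.sum_congr rfl fun j _ => by ring
    · simp only [act, eul, if_neg hi, Pi.add_apply, Pi.smul_apply, smul_eq_mul, Finset.sum_apply]
  rw [h] at h4
  funext i
  have h5 := congrFun h4 i
  by_cases hi : i ∈ B
  · simp only [act, if_pos hi, Pi.zero_apply] at h5
    exact (mul_eq_zero.1 h5).resolve_left (hxB i hi)
  · simp only [act, if_neg hi, Pi.zero_apply] at h5
    exact h5

end Pool.Agent.GL
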