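import Pool.Agent.GA.Defs
import Pool.Agent.GA.Strip
import Pool.Agent.GA.PshA
import Pool.Agent.GA.Psh

/-!
# GL MnU: the upper bound for the means of `log ‖F‖`

`GA/Strip.strip` for `u = log ‖F‖` (Euclidean norm, `F` has no zeros), base level `a = 1`: the mean at `t` is affine in `t` plus
`∫ (t - s) mn (Δ u) s ds`, and `Δ u ≤ C (sp F)²` (subtract from `F'` the multiple of `F` which makes the largest coordinate `0`).
`∫_1^t (t - s) mn ((sp F)²) s ds = TT (AA (sp F)) t`.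
-/

set_option autoImplicit false

open Topology Filter Metric
open Pool.Agent.GG Pool.Agent.GA

namespace Pool.Agent.GL

variable {N : ℕ} {F : ℂ → Fin (N + 1) → ℂ}

open Set Laplacian MeasureTheory
open Pool.Agent.MQ (fsd fsd_smul contDiffAt_log_norm lap_log_normV)
open Pool.Agent.GA.StripN

/-- the Fubini–Study density is at most a multiple of `wl ^ 2` -/
private theorem fsd_le_wl (x v : Fin (N + 1) → ℂ) (hx : x ≠ 0) :
    fsd (WithLp.toLp 2 x : EuclideanSpace ℂ (Fin (N + 1))) (WithLp.toLp 2 v) ≤ 2 * (N + 1) * wl x v ^ 2 := by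
  obtain ⟨i, hi⟩ : ∃ i, ‖x i‖ = ‖x‖ := by
    obtain ⟨i, -, hi⟩ := Finset.exists_max_image Finset.univ (fun i => ‖x i‖) ⟨0, Finset.mem_univ _⟩
    exact ⟨i, le_antisymm (norm_le_pi_norm x i) ((pi_norm_le_iff_of_nonneg (norm_nonneg _)).2 fun j => hi j (Finset.mem_univ _))⟩
  have hn : 0 < ‖x‖ := norm_pos_iff.2 hx
  have hxi : x i ≠ 0 := norm_pos_iff.1 (by rw [hi]; exact hn)
  set X : EuclideanSpace ℂ (Fin (N + 1)) := WithLp.toLp 2 x with hX
  set V : EuclideanSpace ℂ (Fin (N + 1)) := WithLp.toLp 2 v with hV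
  have h1 := fsd_smul X V 1 (-(v i / x i)) one_ne_zero
  rw [one_smul, one_smul] at h1
  rw [← h1]
  set Y : EuclideanSpace ℂ (Fin (N + 1)) := V + -(v i / x i) • X with hY
  set M : ℝ := ‖fun p : Fin (N + 1) × Fin (N + 1) => x p.1 * v p.2 - x p.2 * v p.1‖ with hM
  have hXn : ‖x‖ ≤ ‖X‖ := by
    have h2 := PiLp.norm_apply_le X i
    rw [← hi]
    exact h2
  have hX0 : 0 < ‖X‖ := hn.trans_le hXn
  have hYn : ‖Y‖ ^ 2 ≤ (N + 1) * (M / ‖x‖) ^ 2 := by
    rw [EuclideanSpace.norm_sq_eq]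
    have h3 : ∀ j ∈ Finset.univ, ‖Y j‖ ^ 2 ≤ (M / ‖x‖) ^ 2 := by
      intro j _
      have h4 : Y j = (x i * v j - x j * v i) / x i := by
        show v j + -(v i / x i) * x j = _
        field_simp
        ring
      rw [h4, norm_div, hi]
      have h5 : ‖x i * v j - x j * v i‖ ≤ M := norm_le_pi_norm (fun p : Fin (N + 1) × Fin (N + 1) => x p.1 * v p.2 - x p.2 * v p.1) (i, j)
      gcongr
    refine (Finset.sum_le_sum h3).trans (le_of_eq ?_)
    rw [Finset.sum_const, Finset.card_univ, Fintype.card_fin, nsmul_eq_mul]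
    push_cast
    ring
  have h6 : fsd X Y ≤ 2 * ‖Y‖ ^ 2 / ‖X‖ ^ 2 := by
    unfold fsd
    rw [div_le_div_iff₀ (by positivity) (by positivity)]
    have h7 : 0 ≤ ‖inner ℂ X Y‖ ^ 2 * ‖X‖ ^ 2 := by positivity
    nlinarith
  calc fsd X Y ≤ 2 * ‖Y‖ ^ 2 / ‖X‖ ^ 2 := h6
    _ ≤ 2 * ((N + 1) * (M / ‖x‖) ^ 2) / ‖x‖ ^ 2 := by gcongr
    _ = 2 * (N + 1) * wl x v ^ 2 := by
      unfold wl
      rw [← hM]
      field_simp

section V

variable {V : Type*} [NormedAddCommGroup V] [InnerProductSpace ℂ V] [CompleteSpace V] {G : ℂ → V}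

/-- the formula for the mean of `log ‖G‖` -/
private theorem mn_formula (hG : ∀ w : ℂ, 0 < w.re → AnalyticAt ℂ G w) (h0 : ∀ w : ℂ, 0 < w.re → G w ≠ 0)
    (hp : ∀ w : ℂ, 0 < w.re → G (w + 2 * Real.pi * Complex.I) = G w) :
    ∃ A B : ℝ, ∀ t : ℝ, 1 ≤ t → mn (fun w => Real.log ‖G w‖) t = A + (t - 1) * B + ∫ s in (1 : ℝ)..t, (t - s) * mn (fun w => fsd (G w) (deriv G w)) s := by
  have hu : ∀ w : ℂ, 0 < w.re → ContDiffAt ℝ 2 (fun w => Real.log ‖G w‖) w := fun w hw => contDiffAt_log_norm (hG w hw) (h0 w hw)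
  have hup : ∀ w : ℂ, 0 < w.re → (fun w => Real.log ‖G w‖) (w + 2 * Real.pi * Complex.I) = (fun w => Real.log ‖G w‖) w := fun w hw => by
    simp only [hp w hw]
  refine ⟨∫ y in (0 : ℝ)..2 * Real.pi, Real.log ‖G (pp 1 y)‖, ∫ y in (0 : ℝ)..2 * Real.pi, fderiv ℝ (fun w => Real.log ‖G w‖) (pp 1 y) 1, fun t ht => ?_⟩
  have hs := strip hu hup one_pos ht
  have e1 : mn (fun w => Real.log ‖G w‖) t = ∫ y in (0 : ℝ)..2 * Real.pi, Real.log ‖G (pp t y)‖ := rfl
  rw [e1, hs]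
  congr 1
  refine intervalIntegral.integral_congr fun s hs => ?_
  rw [uIcc_of_le ht] at hs
  have e2 : ∫ y in (0 : ℝ)..2 * Real.pi, Δ (fun w => Real.log ‖G w‖) (pp s y) = mn (fun w => fsd (G w) (deriv G w)) s := by
    refine intervalIntegral.integral_congr fun y _ => ?_
    have hre : 0 < (pp s y).re := by rw [pp_re]; linarith [hs.1]
    exact lap_log_normV (hG _ hre) (h0 _ hre)
  simp only [e2]

private theorem cont_fsd (hG : ∀ w : ℂ, 0 < w.re → AnalyticAt ℂ G w) (h0 : ∀ w : ℂ, 0 < w.re → G w ≠ 0) (w : ℂ) (hw : 0 < w.re) :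
    ContinuousAt (fun w => fsd (G w) (deriv G w)) w := by
  have h1 := (hG w hw).continuousAt
  have h2 := (hG w hw).deriv.continuousAt
  have h3 : ‖G w‖ ^ 4 ≠ 0 := by have := norm_pos_iff.2 (h0 w hw); positivity
  unfold fsd
  exact (continuousAt_const.mul (((h1.norm.pow 2).mul (h2.norm.pow 2)).sub ((ContinuousAt.inner (𝕜 := ℂ) h1 h2).norm.pow 2))).div (h1.norm.pow 4) h3

end V

theorem mn_upper (hF : ∀ w ∈ HP, AnalyticAt ℂ F w) (hF0 : ∀ w ∈ HP, F w ≠ 0) (hFp : ∀ w ∈ HP, F (w + per) = F w) :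
    ∃ C : ℝ, ∀ t : ℝ, 1 ≤ t → mn (fun w => Real.log ‖F w‖) t ≤ C * (t + TT (AA (sp F)) t) := by
  let G : ℂ → EuclideanSpace ℂ (Fin (N + 1)) := fun w => WithLp.toLp 2 (F w)
  have hG : ∀ w : ℂ, 0 < w.re → AnalyticAt ℂ G w := fun w hw =>
    ((PiLp.continuousLinearEquiv 2 ℂ (fun _ : Fin (N + 1) => ℂ)).symm.toContinuousLinearMap.analyticAt _).comp (hF w hw)
  have hG' : ∀ w : ℂ, 0 < w.re → deriv G w = WithLp.toLp 2 (deriv F w) := fun w hw =>
    ((PiLp.continuousLinearEquiv 2 ℂ (fun _ : Fin (N + 1) => ℂ)).symm.toContinuousLinearMap.hasFDerivAt.comp_hasDerivAt w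
      (hF w hw).differentiableAt.hasDerivAt).deriv
  have hG0 : ∀ w : ℂ, 0 < w.re → G w ≠ 0 := fun w hw h => hF0 w hw (WithLp.toLp_injective 2 h)
  have hGp : ∀ w : ℂ, 0 < w.re → G (w + 2 * Real.pi * Complex.I) = G w := fun w hw => by
    show WithLp.toLp 2 (F (w + per)) = WithLp.toLp 2 (F w)
    rw [hFp w hw]
  have hspc : ∀ w : ℂ, 0 < w.re → ContinuousAt (sp F) w := fun w hw => psh_continuousAt_sp (hF w hw) (hF0 w hw)
  obtain ⟨A, B, hAB⟩ := mn_formula hG hG0 hGp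
  have h2π : (0 : ℝ) ≤ 2 * Real.pi := by positivity
  refine ⟨|A| + |B| + 2 * (N + 1), fun t ht => ?_⟩
  have ht0 : 0 < t := by linarith
  have hpos : ∀ s ∈ uIcc 1 t, 0 < s := fun s hs => by rw [uIcc_of_le ht] at hs; linarith [hs.1]
  have hcf := cont_fsd hG hG0
  have hcs : ∀ w : ℂ, 0 < w.re → ContinuousAt (fun w => sp F w ^ 2) w := fun w hw => (hspc w hw).pow 2
  -- the Euclidean norm is larger
  have b1 : mn (fun w => Real.log ‖F w‖) t ≤ mn (fun w => Real.log ‖G w‖) t := by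
    refine intervalIntegral.integral_mono_on h2π ?_ ?_ fun y _ => ?_
    · exact vint (φ := fun w => Real.log ‖F w‖) (fun w hw => ((hF w hw).continuousAt.norm).log (norm_ne_zero_iff.2 (hF0 w hw))) ht0 _ _
    · exact vint (φ := fun w => Real.log ‖G w‖) (fun w hw => ((hG w hw).continuousAt.norm).log (norm_ne_zero_iff.2 (hG0 w hw))) ht0 _ _
    · have hre : 0 < (pp t y).re := by rw [pp_re]; exact ht0
      refine Real.log_le_log (norm_pos_iff.2 (hF0 _ hre)) ?_
      exact (pi_norm_le_iff_of_nonneg (norm_nonneg _)).2 fun j => PiLp.norm_apply_le (G (pp t y)) j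
  -- the integral
  have b2 : ∫ s in (1 : ℝ)..t, (t - s) * mn (fun w => fsd (G w) (deriv G w)) s ≤ 2 * (N + 1) * TT (AA (sp F)) t := by
    rw [psh_TT_AA hspc ht, ← intervalIntegral.integral_const_mul]
    have c1 : ContinuousOn (fun s => mn (fun w => fsd (G w) (deriv G w)) s) (uIcc 1 t) := (continuousOn_vint hcf 0 (2 * Real.pi)).mono hpos
    have c2 : ContinuousOn (fun s => mn (fun w => sp F w ^ 2) s) (uIcc 1 t) := (continuousOn_vint hcs 0 (2 * Real.pi)).mono hpos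
    refine intervalIntegral.integral_mono_on ht ?_ ?_ fun s hs => ?_
    · exact (ContinuousOn.mul (by fun_prop) c1).intervalIntegrable
    · exact (ContinuousOn.mul continuousOn_const (ContinuousOn.mul (by fun_prop) c2)).intervalIntegrable
    · have hs0 : 0 < s := by linarith [hs.1]
      have e1 : mn (fun w => fsd (G w) (deriv G w)) s ≤ 2 * (N + 1) * mn (fun w => sp F w ^ 2) s := by
        unfold mn
        rw [← intervalIntegral.integral_const_mul]
        refine intervalIntegral.integral_mono_on h2π (vint hcf hs0 _ _) ((vint hcs hs0 _ _).const_mul _) fun y _ => ?_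
        have hre : 0 < (pp s y).re := by rw [pp_re]; exact hs0
        show fsd (G (pp s y)) (deriv G (pp s y)) ≤ _
        rw [hG' _ hre]
        exact fsd_le_wl _ _ (hF0 _ hre)
      have e2 := mul_le_mul_of_nonneg_left e1 (sub_nonneg.2 hs.2)
      linarith
  have h0T : 0 ≤ TT (AA (sp F)) t := by
    rw [psh_TT_AA hspc ht]
    refine intervalIntegral.integral_nonneg ht fun s hs => mul_nonneg (sub_nonneg.2 hs.2) (intervalIntegral.integral_nonneg h2π fun y _ => sq_nonneg _)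
  rw [hAB t ht] at b1
  have h3 : A ≤ |A| := le_abs_self A
  have h4 : (t - 1) * B ≤ |B| * t := by
    have := mul_le_mul_of_nonneg_left (le_abs_self B) (sub_nonneg.2 ht)
    nlinarith [abs_nonneg B]
  have h5 : |A| ≤ |A| * t := le_mul_of_one_le_right (abs_nonneg A) ht
  have h6 : 0 ≤ (|A| + |B|) * TT (AA (sp F)) t := by positivity
  have h7 : 0 ≤ 2 * ((N : ℝ) + 1) * t := by positivity
  nlinarith

/-- the case of one function without zeros, both signs -/
theorem mn_log_lower {g : ℂ → ℂ} (hg : ∀ w ∈ HP, AnalyticAt ℂ g w) (hg0 : ∀ w ∈ HP, g w ≠ 0) (hgp : ∀ w ∈ HP, g (w + per) = g w) :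
    ∃ C : ℝ, ∀ t : ℝ, 1 ≤ t → -(C * t) ≤ mn (fun w => Real.log ‖g w‖) t := by
  obtain ⟨A, B, hAB⟩ := mn_formula (V := ℂ) (G := g) (fun w hw => hg w hw) (fun w hw => hg0 w hw) (fun w hw => hgp w hw)
  refine ⟨|A| + |B|, fun t ht => ?_⟩
  rw [hAB t ht]
  have h1 : 0 ≤ ∫ s in (1 : ℝ)..t, (t - s) * mn (fun w => fsd (g w) (deriv g w)) s :=
    intervalIntegral.integral_nonneg ht fun s hs => mul_nonneg (sub_nonneg.2 hs.2)
      (intervalIntegral.integral_nonneg (by positivity) fun y _ => Pool.Agent.MQ.fsd_nonneg _ _)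
  have h3 : -|A| ≤ A := neg_abs_le A
  have h4 : -(|B| * t) ≤ (t - 1) * B := by
    have := mul_le_mul_of_nonneg_left (neg_abs_le B) (sub_nonneg.2 ht)
    nlinarith [abs_nonneg B]
  have h5 : |A| ≤ |A| * t := le_mul_of_one_le_right (abs_nonneg A) ht
  linarith

end Pool.Agent.GL
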