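import Pool.Agent.GL.Defs
import Pool.Agent.GG.OdeG

/-!
# GL NaA: nonautonomous holomorphic equations with parameters, local and uniform

`G_l (x, x') = C_l (z, s)` for all `l` (overdetermined).  If `det ∂_v G_I ≠ 0` at a point then `x'' = (∂_v G_I)⁻¹ (∂_z C_I - ∂_x G_I x')`: a vector field on the space of the `(z, s, x, v)` (`z' = 1`, `s' = 0`),
`GG.exists_flowG`, `GG.ode_uniqueG`.  Compactness of `{(z, s, y) : z ∈ closure Ω, ‖s‖ ≤ ρ, y ∈ K, G (y) = C (z, s)}`: one radius `r` for all points.  A solution at `q` is, near `q`, the flow of its initial values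
(`(Φ (q.1, s), ∂Φ)` for `s` near `q.2`), the flow extends it to `|z - q.1| < r`, and all equations `G_l = C_l` hold there by the identity theorem in `z`.
-/

set_option autoImplicit false

open MvPolynomial Topology Filter Metric
open Pool.Agent.GG Pool.Agent.GA

namespace Pool.Agent.GL

variable {N d : ℕ} {ι : Type}

/-! ## the extended phase space -/

private abbrev Ex (N d : ℕ) : Type := Unit ⊕ (Fin d ⊕ Ph N)

private def pk (z : ℂ) (s : Fin d → ℂ) (y : Ph N → ℂ) : Ex N d → ℂ := Sum.elim (fun _ => z) (Sum.elim s y)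

private def prq (Y : Ex N d → ℂ) : ℂ × (Fin d → ℂ) := (Y (Sum.inl ()), fun j => Y (Sum.inr (Sum.inl j)))

private def pry (Y : Ex N d → ℂ) : Ph N → ℂ := fun a => Y (Sum.inr (Sum.inr a))

private noncomputable def Dz (C : ℂ × (Fin d → ℂ) → ℂ) (q : ℂ × (Fin d → ℂ)) : ℂ := fderiv ℂ C q ((1 : ℂ), (0 : Fin d → ℂ))

private noncomputable def accN (G : ι → MvPolynomial (Ph N) ℂ) (C : ι → ℂ × (Fin d → ℂ) → ℂ) (I : Fin (N + 1) → ι) (q : ℂ × (Fin d → ℂ)) (y : Ph N → ℂ) :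
    Fin (N + 1) → ℂ :=
  fun b => (∑ l, eval y ((vmat G I).adjugate b l) * (eval y (rhs G I l) + Dz (C (I l)) q)) / eval y (vdet G I)

private noncomputable def Wn (G : ι → MvPolynomial (Ph N) ℂ) (C : ι → ℂ × (Fin d → ℂ) → ℂ) (I : Fin (N + 1) → ι) (Y : Ex N d → ℂ) : Ex N d → ℂ :=
  Sum.elim (fun _ => 1) (Sum.elim (fun _ => 0) (Sum.elim (fun b => pry Y (Sum.inr b)) (accN G C I (prq Y) (pry Y))))

private theorem pry_pk (z : ℂ) (s : Fin d → ℂ) (y : Ph N → ℂ) : pry (pk z s y) = y := rfl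

private theorem prq_pk (z : ℂ) (s : Fin d → ℂ) (y : Ph N → ℂ) : prq (pk z s y) = (z, s) := rfl

private theorem dist_pk {z z' : ℂ} {s s' : Fin d → ℂ} {y y' : Ph N → ℂ} {r : ℝ} (hr : 0 < r) (h1 : dist z z' < r) (h2 : dist s s' < r)
    (h3 : dist y y' < r) : dist (pk z s y : Ex N d → ℂ) (pk z' s' y') < r := by
  rw [dist_pi_lt_iff hr]
  rintro (a | a | a)
  · exact h1
  · exact (dist_pi_lt_iff hr).1 h2 a
  · exact (dist_pi_lt_iff hr).1 h3 a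

private theorem dist_pry (Y Y' : Ex N d → ℂ) : dist (pry Y) (pry Y') ≤ dist Y Y' := by
  rw [dist_pi_le_iff dist_nonneg]
  intro a
  exact dist_le_pi_dist Y Y' (Sum.inr (Sum.inr a))

private theorem pry_an (Y : Ex N d → ℂ) : AnalyticAt ℂ (pry : (Ex N d → ℂ) → Ph N → ℂ) Y := by
  rw [analyticAt_pi_iff]
  intro a
  exact (ContinuousLinearMap.proj (R := ℂ) (φ := fun _ : Ex N d => ℂ) (Sum.inr (Sum.inr a))).analyticAt Y

private theorem prq_an (Y : Ex N d → ℂ) : AnalyticAt ℂ (prq : (Ex N d → ℂ) → ℂ × (Fin d → ℂ)) Y := by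
  refine AnalyticAt.prod ?_ ?_
  · exact (ContinuousLinearMap.proj (R := ℂ) (φ := fun _ : Ex N d => ℂ) (Sum.inl ())).analyticAt Y
  · rw [analyticAt_pi_iff]
    intro a
    exact (ContinuousLinearMap.proj (R := ℂ) (φ := fun _ : Ex N d => ℂ) (Sum.inr (Sum.inl a))).analyticAt Y

private theorem eval_an {E : Type*} [NormedAddCommGroup E] [NormedSpace ℂ E] {σ : Type*} [Fintype σ] {y : E → σ → ℂ} {t : E} (hy : AnalyticAt ℂ y t)
    (g : MvPolynomial σ ℂ) : AnalyticAt ℂ (fun s => eval (y s) g) t :=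
  AnalyticAt.comp (g := fun y : σ → ℂ => eval y g) (f := y) (AnalyticOnNhd.eval_mvPolynomial g (y t) (Set.mem_univ _)) hy

private theorem Dz_an {C : ℂ × (Fin d → ℂ) → ℂ} {q : ℂ × (Fin d → ℂ)} (hC : AnalyticAt ℂ C q) : AnalyticAt ℂ (Dz C) q :=
  AnalyticAt.comp (g := fun L : (ℂ × (Fin d → ℂ)) →L[ℂ] ℂ => L ((1 : ℂ), (0 : Fin d → ℂ))) (f := fderiv ℂ C)
    ((ContinuousLinearMap.apply ℂ ℂ ((1 : ℂ), (0 : Fin d → ℂ))).analyticAt _) hC.fderiv

private theorem Wn_an {G : ι → MvPolynomial (Ph N) ℂ} {C : ι → ℂ × (Fin d → ℂ) → ℂ} {I : Fin (N + 1) → ι} {Y : Ex N d → ℂ}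
    (hC : ∀ l, AnalyticAt ℂ (C l) (prq Y)) (hI : eval (pry Y) (vdet G I) ≠ 0) : AnalyticAt ℂ (Wn G C I) Y := by
  rw [analyticAt_pi_iff]
  rintro (a | a | a | b)
  · exact analyticAt_const
  · exact analyticAt_const
  · exact (ContinuousLinearMap.proj (R := ℂ) (φ := fun _ : Ex N d => ℂ) (Sum.inr (Sum.inr (Sum.inr a)))).analyticAt Y
  · have h1 : ∀ g : MvPolynomial (Ph N) ℂ, AnalyticAt ℂ (fun Y : Ex N d → ℂ => eval (pry Y) g) Y := fun g => eval_an (pry_an Y) g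
    have h2 : ∀ l, AnalyticAt ℂ (fun Y : Ex N d → ℂ => Dz (C (I l)) (prq Y)) Y := fun l =>
      AnalyticAt.comp (g := Dz (C (I l))) (f := prq) (Dz_an (hC (I l))) (prq_an Y)
    show AnalyticAt ℂ (fun Y : Ex N d → ℂ => (∑ l, eval (pry Y) ((vmat G I).adjugate b l) * (eval (pry Y) (rhs G I l) + Dz (C (I l)) (prq Y))) /
      eval (pry Y) (vdet G I)) Y
    refine AnalyticAt.div ?_ (h1 _) hI
    refine Finset.analyticAt_fun_sum _ fun l _ => ?_
    exact (h1 _).mul ((h1 _).add (h2 l))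

/-! ## solutions of the equations solve the differential equation -/

/-- the chain rule for polynomials -/
private theorem hasDerivAt_evalN {σ : Type*} [Fintype σ] [DecidableEq σ] {y : ℂ → σ → ℂ} {y' : σ → ℂ} {s : ℂ} (hy : HasDerivAt y y' s)
    (g : MvPolynomial σ ℂ) : HasDerivAt (fun s => eval (y s) g) (∑ i, eval (y s) (pderiv i g) * y' i) s := by
  induction g using MvPolynomial.induction_on with
  | C a =>
    simp only [eval_C, pderiv_C, map_zero, zero_mul, Finset.sum_const_zero]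
    exact hasDerivAt_const s a
  | add p q hp hq =>
    simp only [map_add, add_mul, Finset.sum_add_distrib]
    exact hp.add hq
  | mul_X p i hp =>
    have h1 : HasDerivAt (fun s => y s i) (y' i) s := hasDerivAt_pi.1 hy i
    have h2 := hp.mul h1
    have h3 : (∑ j, eval (y s) (pderiv j (p * X i)) * y' j) = (∑ j, eval (y s) (pderiv j p) * y' j) * y s i + eval (y s) p * y' i := by
      have h4 : ∀ j, eval (y s) (pderiv j (p * X i)) * y' j =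
          eval (y s) (pderiv j p) * y' j * y s i + (if j = i then eval (y s) p * y' j else 0) := by
        intro j
        rw [Derivation.leibniz, pderiv_X]
        by_cases hj : j = i
        · subst hj
          simp
          ring
        · rw [Pi.single_eq_of_ne (Ne.symm hj)]
          simp [hj]
          ring
      rw [Finset.sum_congr rfl fun j _ => h4 j, Finset.sum_add_distrib, ← Finset.sum_mul]
      simp
    rw [h3]
    have h5 : (fun s => eval (y s) (p * X i)) = (fun s => eval (y s) p) * fun s => y s i := by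
      funext s
      simp
    rw [h5]
    exact h2

private theorem path_der {x : ℂ → Fin (N + 1) → ℂ} {s : ℂ} (h : AnalyticAt ℂ x s) :
    HasDerivAt (fun s => pt (x s) (deriv x s)) (pt (deriv x s) (deriv (deriv x) s)) s := by
  rw [hasDerivAt_pi]
  rintro (b | b)
  · exact hasDerivAt_pi.1 h.differentiableAt.hasDerivAt b
  · exact hasDerivAt_pi.1 h.deriv.differentiableAt.hasDerivAt b

/-- the acceleration -/
private theorem acc_of_eq {G : ι → MvPolynomial (Ph N) ℂ} {C : ι → ℂ × (Fin d → ℂ) → ℂ} {I : Fin (N + 1) → ι} {x : ℂ → Fin (N + 1) → ℂ} {z : ℂ}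
    {s : Fin d → ℂ} (hx : AnalyticAt ℂ x z) (hC : ∀ l, AnalyticAt ℂ (C l) (z, s))
    (he : ∀ᶠ w in 𝓝 z, ∀ l, eval (pt (x w) (deriv x w)) (G l) = C l (w, s)) (hI : eval (pt (x z) (deriv x z)) (vdet G I) ≠ 0) :
    deriv (deriv x) z = accN G C I (z, s) (pt (x z) (deriv x z)) := by
  obtain ⟨A, hA⟩ : ∃ A : Matrix (Fin (N + 1)) (Fin (N + 1)) ℂ, A = (vmat G I).map (eval (pt (x z) (deriv x z))) := ⟨_, rfl⟩
  have hy := path_der hx
  have h2 : A.mulVec (deriv (deriv x) z) = fun l => eval (pt (x z) (deriv x z)) (rhs G I l) + Dz (C (I l)) (z, s) := by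
    funext l
    have h3 := hasDerivAt_evalN hy (G (I l))
    have hline : HasDerivAt (fun w : ℂ => (w, s)) ((1 : ℂ), (0 : Fin d → ℂ)) z := (hasDerivAt_id z).prodMk (hasDerivAt_const z s)
    have hc : HasDerivAt (fun w => C (I l) (w, s)) (Dz (C (I l)) (z, s)) z := by
      have h5 := (hC (I l)).differentiableAt.hasFDerivAt.comp_hasDerivAt z hline
      exact h5
    have h4 := h3.unique (hc.congr_of_eventuallyEq (he.mono fun w hw => hw (I l)))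
    rw [Fintype.sum_sum_type] at h4
    have h5 : A.mulVec (deriv (deriv x) z) l =
        ∑ b, eval (pt (x z) (deriv x z)) (pderiv (Sum.inr b) (G (I l))) * deriv (deriv x) z b := by
      rw [hA]
      rfl
    have h6 : (∑ b, eval (pt (x z) (deriv x z)) (pderiv (Sum.inl b) (G (I l)) * X (Sum.inr b))) =
        ∑ b, eval (pt (x z) (deriv x z)) (pderiv (Sum.inl b) (G (I l))) * deriv x z b := by
      refine Finset.sum_congr rfl fun b _ => ?_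
      rw [map_mul, eval_X]
      rfl
    rw [h5, rhs, map_neg, map_sum, h6]
    have h7 : (∑ b, eval (pt (x z) (deriv x z)) (pderiv (Sum.inl b) (G (I l))) * deriv x z b) +
        ∑ b, eval (pt (x z) (deriv x z)) (pderiv (Sum.inr b) (G (I l))) * deriv (deriv x) z b = Dz (C (I l)) (z, s) := h4
    rw [← h7]
    ring
  have hdet : A.det = eval (pt (x z) (deriv x z)) (vdet G I) := by
    rw [hA, vdet]
    exact ((eval (pt (x z) (deriv x z))).map_det (vmat G I)).symm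
  have h3 : A.adjugate.mulVec (fun l => eval (pt (x z) (deriv x z)) (rhs G I l) + Dz (C (I l)) (z, s)) = A.det • deriv (deriv x) z := by
    rw [← h2, Matrix.mulVec_mulVec, Matrix.adjugate_mul, Matrix.smul_mulVec, Matrix.one_mulVec]
  funext b
  have h4 : (vmat G I).adjugate.map (eval (pt (x z) (deriv x z))) = A.adjugate := by
    rw [hA]
    exact (eval (pt (x z) (deriv x z))).map_adjugate (vmat G I)
  have h5 := congrFun h3 b
  have h6 : A.adjugate.mulVec (fun l => eval (pt (x z) (deriv x z)) (rhs G I l) + Dz (C (I l)) (z, s)) b =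
      ∑ l, eval (pt (x z) (deriv x z)) ((vmat G I).adjugate b l) * (eval (pt (x z) (deriv x z)) (rhs G I l) + Dz (C (I l)) (z, s)) := by
    rw [← h4]
    rfl
  rw [h6] at h5
  show deriv (deriv x) z b = (∑ l, eval (pt (x z) (deriv x z)) ((vmat G I).adjugate b l) * (eval (pt (x z) (deriv x z)) (rhs G I l) + Dz (C (I l)) (z, s))) /
    eval (pt (x z) (deriv x z)) (vdet G I)
  rw [h5, hdet, Pi.smul_apply, smul_eq_mul, mul_div_cancel_left₀ _ hI]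

/-- the lifted curve solves the differential equation -/
private theorem lift_ode {G : ι → MvPolynomial (Ph N) ℂ} {C : ι → ℂ × (Fin d → ℂ) → ℂ} {I : Fin (N + 1) → ι} {x : ℂ → Fin (N + 1) → ℂ} {z : ℂ}
    {s : Fin d → ℂ} (hx : AnalyticAt ℂ x z) (hC : ∀ l, AnalyticAt ℂ (C l) (z, s))
    (he : ∀ᶠ w in 𝓝 z, ∀ l, eval (pt (x w) (deriv x w)) (G l) = C l (w, s)) (hI : eval (pt (x z) (deriv x z)) (vdet G I) ≠ 0) :
    HasDerivAt (fun w => pk w s (pt (x w) (deriv x w))) (Wn G C I (pk z s (pt (x z) (deriv x z)))) z := by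
  rw [hasDerivAt_pi]
  rintro (a | a | a | b)
  · exact hasDerivAt_id z
  · exact hasDerivAt_const z (s a)
  · exact hasDerivAt_pi.1 hx.differentiableAt.hasDerivAt a
  · show HasDerivAt (fun w => deriv x w b) (accN G C I (z, s) (pt (x z) (deriv x z)) b) z
    rw [← acc_of_eq hx hC he hI]
    exact hasDerivAt_pi.1 hx.deriv.differentiableAt.hasDerivAt b

/-- the partial derivative in `z` -/
private theorem dz_an {Φ : ℂ × (Fin d → ℂ) → Fin (N + 1) → ℂ} {q : ℂ × (Fin d → ℂ)} (h : AnalyticAt ℂ Φ q) :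
    AnalyticAt ℂ (fun p => deriv (fun z => Φ (z, p.2)) p.1) q := by
  have h1 : (fun p => fderiv ℂ Φ p ((1 : ℂ), (0 : Fin d → ℂ))) =ᶠ[𝓝 q] fun p => deriv (fun z => Φ (z, p.2)) p.1 := by
    filter_upwards [h.eventually_analyticAt] with p hp
    have hline : HasDerivAt (fun w : ℂ => (w, p.2)) ((1 : ℂ), (0 : Fin d → ℂ)) p.1 := (hasDerivAt_id p.1).prodMk (hasDerivAt_const p.1 p.2)
    have h2 : HasFDerivAt Φ (fderiv ℂ Φ p) (p.1, p.2) := hp.differentiableAt.hasFDerivAt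
    exact (h2.comp_hasDerivAt p.1 hline).deriv.symm
  refine AnalyticAt.congr ?_ h1
  exact AnalyticAt.comp (g := fun L : (ℂ × (Fin d → ℂ)) →L[ℂ] (Fin (N + 1) → ℂ) => L ((1 : ℂ), (0 : Fin d → ℂ))) (f := fderiv ℂ Φ)
    ((ContinuousLinearMap.apply ℂ (Fin (N + 1) → ℂ) ((1 : ℂ), (0 : Fin d → ℂ))).analyticAt _) h.fderiv

private theorem slice_an {E F : Type*} [NormedAddCommGroup E] [NormedSpace ℂ E] [NormedAddCommGroup F] [NormedSpace ℂ F] {Φ : ℂ × E → F} {z : ℂ} {s : E}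
    (h : AnalyticAt ℂ Φ (z, s)) : AnalyticAt ℂ (fun w => Φ (w, s)) z :=
  AnalyticAt.comp (g := Φ) (f := fun w : ℂ => (w, s)) h (analyticAt_id.prod analyticAt_const)

/-- a box around one point -/
private theorem box [Finite ι] (G : ι → MvPolynomial (Ph N) ℂ) (C : ι → ℂ × (Fin d → ℂ) → ℂ) {q₀ : ℂ × (Fin d → ℂ)} {y₀ : Ph N → ℂ}
    (hC : ∀ l, AnalyticAt ℂ (C l) q₀) {I : Fin (N + 1) → ι} (hI : eval y₀ (vdet G I) ≠ 0) :
    ∃ r > 0, ∀ q, dist q q₀ < r → ∀ Φ : ℂ × (Fin d → ℂ) → Fin (N + 1) → ℂ, NSol G C Φ q →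
      dist (pt (Φ q) (deriv (fun z => Φ (z, q.2)) q.1)) y₀ < r →
      ∃ Ψ : ℂ × (Fin d → ℂ) → Fin (N + 1) → ℂ, (∀ᶠ p in 𝓝 q, Ψ p = Φ p) ∧ ∃ δ > 0, ∀ p : ℂ × (Fin d → ℂ), dist p.1 q.1 < r → dist p.2 q.2 < δ → NSol G C Ψ p := by
  obtain ⟨r₀, hr₀, H, hHa, hH0, hHd⟩ := exists_flowG (Wn_an (G := G) (C := C) (I := I) (Y := pk q₀.1 q₀.2 y₀) hC hI)
  obtain ⟨r₁, hr₁, hB₁⟩ : ∃ r₁ > 0, ∀ q ∈ ball q₀ r₁, ∀ l, AnalyticAt ℂ (C l) q := by
    have h1 : ∀ᶠ q in 𝓝 q₀, ∀ l, AnalyticAt ℂ (C l) q := eventually_all.2 fun l => (hC l).eventually_analyticAt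
    exact Metric.eventually_nhds_iff_ball.1 h1
  obtain ⟨r₂, hr₂, hB₂⟩ : ∃ r₂ > 0, ∀ y ∈ ball y₀ r₂, eval y (vdet G I) ≠ 0 := by
    have h1 : ContinuousAt (fun y : Ph N → ℂ => eval y (vdet G I)) y₀ := (AnalyticOnNhd.eval_mvPolynomial (vdet G I) y₀ (Set.mem_univ _)).continuousAt
    exact Metric.eventually_nhds_iff_ball.1 (h1.eventually_ne hI)
  obtain ⟨r, hr⟩ : ∃ r : ℝ, r = min r₀ (min (r₁ / 2) r₂) := ⟨_, rfl⟩
  have hr0 : 0 < r := by rw [hr]; exact lt_min hr₀ (lt_min (half_pos hr₁) hr₂)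
  have hrr₀ : r ≤ r₀ := by rw [hr]; exact min_le_left _ _
  have hrr₁ : r ≤ r₁ / 2 := by rw [hr]; exact (min_le_right _ _).trans (min_le_left _ _)
  have hrr₂ : r ≤ r₂ := by rw [hr]; exact (min_le_right _ _).trans (min_le_right _ _)
  refine ⟨r, hr0, fun q hq Φ hΦ hy => ?_⟩
  rw [Prod.dist_eq, max_lt_iff] at hq
  -- the initial values
  obtain ⟨Yi, hYi⟩ : ∃ Yi : (Fin d → ℂ) → Ex N d → ℂ, Yi = fun s => pk q.1 s (pt (Φ (q.1, s)) (deriv (fun z => Φ (z, s)) q.1)) := ⟨_, rfl⟩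
  have hΦa : ∀ᶠ p in 𝓝 q, AnalyticAt ℂ Φ p := hΦ.1.eventually_analyticAt
  have hYan : AnalyticAt ℂ Yi q.2 := by
    have h1 : AnalyticAt ℂ (fun s : Fin d → ℂ => (q.1, s)) q.2 := analyticAt_const.prod analyticAt_id
    have h2 : AnalyticAt ℂ (fun s => Φ (q.1, s)) q.2 := AnalyticAt.comp (g := Φ) (f := fun s : Fin d → ℂ => (q.1, s)) hΦ.1 h1
    have h3 : AnalyticAt ℂ (fun s => deriv (fun z => Φ (z, s)) q.1) q.2 :=
      AnalyticAt.comp (g := fun p : ℂ × (Fin d → ℂ) => deriv (fun z => Φ (z, p.2)) p.1) (f := fun s : Fin d → ℂ => (q.1, s)) (dz_an hΦ.1) h1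
    rw [hYi, analyticAt_pi_iff]
    rintro (a | a | a | b)
    · exact analyticAt_const
    · exact (ContinuousLinearMap.proj (R := ℂ) (φ := fun _ : Fin d => ℂ) a).analyticAt q.2
    · exact (analyticAt_pi_iff.1 h2) a
    · exact (analyticAt_pi_iff.1 h3) b
  have hYq : Yi q.2 ∈ ball (pk q₀.1 q₀.2 y₀) r := by
    rw [hYi]
    exact dist_pk hr0 hq.1 hq.2 hy
  obtain ⟨δ₁, hδ₁, hδY⟩ : ∃ δ₁ > 0, ∀ s, dist s q.2 < δ₁ → Yi s ∈ ball (pk q₀.1 q₀.2 y₀) r ∧ AnalyticAt ℂ Yi s := by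
    have h1 : ∀ᶠ s in 𝓝 q.2, Yi s ∈ ball (pk q₀.1 q₀.2 y₀) r := hYan.continuousAt.eventually_mem (isOpen_ball.mem_nhds hYq)
    obtain ⟨δ, hδ, h⟩ := Metric.eventually_nhds_iff_ball.1 (h1.and hYan.eventually_analyticAt)
    exact ⟨δ, hδ, fun s hs => h s hs⟩
  obtain ⟨δ₂, hδ₂, hδΦ⟩ : ∃ δ₂ > 0, ∀ p : ℂ × (Fin d → ℂ), dist p.1 q.1 < δ₂ → dist p.2 q.2 < δ₂ →
      AnalyticAt ℂ Φ p ∧ ∀ l, eval (pt (Φ p) (deriv (fun z => Φ (z, p.2)) p.1)) (G l) = C l p := by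
    obtain ⟨δ, hδ, h⟩ := Metric.eventually_nhds_iff_ball.1 (hΦa.and hΦ.2)
    refine ⟨δ, hδ, fun p h1 h2 => h p ?_⟩
    rw [mem_ball, Prod.dist_eq]
    exact max_lt h1 h2
  obtain ⟨δ, hδdef⟩ : ∃ δ : ℝ, δ = min (min δ₁ δ₂) r := ⟨_, rfl⟩
  have hδ : 0 < δ := by rw [hδdef]; exact lt_min (lt_min hδ₁ hδ₂) hr0
  have hδ1 : δ ≤ δ₁ := by rw [hδdef]; exact (min_le_left _ _).trans (min_le_left _ _)
  have hδ2 : δ ≤ δ₂ := by rw [hδdef]; exact (min_le_left _ _).trans (min_le_right _ _)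
  have hδr : δ ≤ r := by rw [hδdef]; exact min_le_right _ _
  -- the flow
  obtain ⟨Fl, hFl⟩ : ∃ Fl : ℂ × (Fin d → ℂ) → Ex N d → ℂ, Fl = fun p => H (p.1 - q.1, Yi p.2) := ⟨_, rfl⟩
  have hsh : ∀ z : ℂ, dist z q.1 < r → z - q.1 ∈ ball (0 : ℂ) r₀ := by
    intro z hz
    rw [mem_ball_zero_iff, ← dist_eq_norm]
    exact hz.trans_le hrr₀
  have hYb : ∀ s, dist s q.2 < δ → Yi s ∈ ball (pk q₀.1 q₀.2 y₀) r₀ := fun s hs => ball_subset_ball hrr₀ (hδY s (hs.trans_le hδ1)).1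
  have hFla : ∀ p : ℂ × (Fin d → ℂ), dist p.1 q.1 < r → dist p.2 q.2 < δ → AnalyticAt ℂ Fl p := by
    intro p h1 h2
    have h3 : AnalyticAt ℂ H (p.1 - q.1, Yi p.2) := hHa _ ⟨hsh _ h1, hYb _ h2⟩
    have h4 : AnalyticAt ℂ (fun p : ℂ × (Fin d → ℂ) => Yi p.2) p :=
      AnalyticAt.comp (g := Yi) (f := fun p : ℂ × (Fin d → ℂ) => p.2) (hδY p.2 (h2.trans_le hδ1)).2 analyticAt_snd
    have h5 : AnalyticAt ℂ (fun p : ℂ × (Fin d → ℂ) => (p.1 - q.1, Yi p.2)) p := (analyticAt_fst.sub analyticAt_const).prod h4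
    rw [hFl]
    exact AnalyticAt.comp (g := H) (f := fun p : ℂ × (Fin d → ℂ) => (p.1 - q.1, Yi p.2)) h3 h5
  have hFld : ∀ (z : ℂ) (s : Fin d → ℂ), dist z q.1 < r → dist s q.2 < δ → HasDerivAt (fun w => Fl (w, s)) (Wn G C I (Fl (z, s))) z := by
    intro z s h1 h2
    have h3 := (hHd (Yi s) (hYb s h2) (z - q.1) (hsh z h1)).2
    have h4 : HasDerivAt (fun w : ℂ => w - q.1) 1 z := (hasDerivAt_id z).sub_const q.1
    have h5 := HasDerivAt.scomp z (h := fun w : ℂ => w - q.1) (g₁ := fun t => H (t, Yi s)) h3 h4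
    rw [one_smul] at h5
    rw [hFl]
    exact h5
  have hFl0 : ∀ s, dist s q.2 < δ → Fl (q.1, s) = Yi s := by
    intro s hs
    rw [hFl]
    show H (q.1 - q.1, Yi s) = Yi s
    rw [sub_self]
    exact hH0 _ (hYb s hs)
  obtain ⟨Ψ, hΨ⟩ : ∃ Ψ : ℂ × (Fin d → ℂ) → Fin (N + 1) → ℂ, Ψ = fun p b => Fl p (Sum.inr (Sum.inr (Sum.inl b))) := ⟨_, rfl⟩
  have hΨd : ∀ (z : ℂ) (s : Fin d → ℂ), dist z q.1 < r → dist s q.2 < δ →
      HasDerivAt (fun w => Ψ (w, s)) (fun b => Fl (z, s) (Sum.inr (Sum.inr (Sum.inr b)))) z := by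
    intro z s h1 h2
    rw [hΨ, hasDerivAt_pi]
    intro b
    exact hasDerivAt_pi.1 (hFld z s h1 h2) (Sum.inr (Sum.inr (Sum.inl b)))
  have hΨpt : ∀ p : ℂ × (Fin d → ℂ), dist p.1 q.1 < r → dist p.2 q.2 < δ → pt (Ψ p) (deriv (fun z => Ψ (z, p.2)) p.1) = pry (Fl p) := by
    intro p h1 h2
    rw [(hΨd p.1 p.2 h1 h2).deriv, hΨ]
    funext c
    rcases c with b | b
    · rfl
    · rfl
  have hΨa : ∀ p : ℂ × (Fin d → ℂ), dist p.1 q.1 < r → dist p.2 q.2 < δ → AnalyticAt ℂ Ψ p := by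
    intro p h1 h2
    rw [hΨ, analyticAt_pi_iff]
    intro b
    exact (analyticAt_pi_iff.1 (hFla p h1 h2)) (Sum.inr (Sum.inr (Sum.inl b)))
  -- uniqueness near the line `z = q.1`
  have hun : ∀ s, dist s q.2 < δ → ∀ᶠ z in 𝓝 q.1, pk z s (pt (Φ (z, s)) (deriv (fun z => Φ (z, s)) z)) = Fl (z, s) := by
    intro s hs
    have hs2 : dist s q.2 < δ₂ := hs.trans_le hδ2
    have hV := (hHd (Yi s) (hYb s hs) 0 (mem_ball_self hr₀)).1
    rw [hH0 _ (hYb s hs)] at hV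
    have hYs : pk q.1 s (pt (Φ (q.1, s)) (deriv (fun z => Φ (z, s)) q.1)) = Yi s := by rw [hYi]
    have hvd : eval (pt (Φ (q.1, s)) (deriv (fun z => Φ (z, s)) q.1)) (vdet G I) ≠ 0 := by
      refine hB₂ _ ?_
      have h1 : dist (pry (Yi s)) (pry (pk q₀.1 q₀.2 y₀ : Ex N d → ℂ)) < r := (dist_pry _ _).trans_lt (hδY s (hs.trans_le hδ1)).1
      rw [← hYs] at h1
      exact lt_of_lt_of_le h1 hrr₂
    have hx : AnalyticAt ℂ (fun z => Φ (z, s)) q.1 := slice_an (hδΦ (q.1, s) (by rw [dist_self]; exact hδ₂) hs2).1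
    have hvn : ∀ᶠ z in 𝓝 q.1, eval (pt (Φ (z, s)) (deriv (fun z => Φ (z, s)) z)) (vdet G I) ≠ 0 :=
      (hasDerivAt_evalN (path_der hx) (vdet G I)).continuousAt.eventually_ne hvd
    refine ode_uniqueG (V := Wn G C I) (y₁ := fun z => pk z s (pt (Φ (z, s)) (deriv (fun z => Φ (z, s)) z))) (y₂ := fun z => Fl (z, s)) (t := q.1) ?_ ?_ ?_ ?_
    · show AnalyticAt ℂ (Wn G C I) (pk q.1 s (pt (Φ (q.1, s)) (deriv (fun z => Φ (z, s)) q.1)))
      rw [hYs]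
      exact hV
    · show pk q.1 s (pt (Φ (q.1, s)) (deriv (fun z => Φ (z, s)) q.1)) = Fl (q.1, s)
      rw [hYs, hFl0 s hs]
    · filter_upwards [hvn, ball_mem_nhds q.1 (lt_min hδ₂ hr0)] with z h1 h2
      have hz2 : dist z q.1 < δ₂ := lt_of_lt_of_le h2 (min_le_left _ _)
      have hzr : dist z q.1 < r := lt_of_lt_of_le h2 (min_le_right _ _)
      refine lift_ode (x := fun z => Φ (z, s)) (slice_an (hδΦ (z, s) hz2 hs2).1) ?_ ?_ h1
      · intro l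
        refine hB₁ (z, s) ?_ l
        rw [mem_ball, Prod.dist_eq]
        refine max_lt ?_ ?_
        · calc dist z q₀.1 ≤ dist z q.1 + dist q.1 q₀.1 := dist_triangle _ _ _
            _ < r₁ := by linarith [hq.1]
        · calc dist s q₀.2 ≤ dist s q.2 + dist q.2 q₀.2 := dist_triangle _ _ _
            _ < r₁ := by linarith [hq.2, hs.trans_le hδr]
      · filter_upwards [isOpen_ball.mem_nhds (show z ∈ ball q.1 δ₂ from hz2)] with w hw l
        exact (hδΦ (w, s) hw hs2).2 l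
    · filter_upwards [ball_mem_nhds q.1 hr0] with z hz
      exact hFld z s hz hs
  -- identity theorem
  have hcb : IsPreconnected (ball q.1 (min δ r)) := (convex_ball _ _).isPreconnected
  have hΨΦ : ∀ (z : ℂ) (s : Fin d → ℂ), dist z q.1 < δ → dist s q.2 < δ → Ψ (z, s) = Φ (z, s) := by
    intro z s hz hs
    have h1 : AnalyticOnNhd ℂ (fun w => Ψ (w, s)) (ball q.1 δ) := fun w hw => slice_an (hΨa (w, s) (lt_of_lt_of_le hw hδr) hs)
    have h2 : AnalyticOnNhd ℂ (fun w => Φ (w, s)) (ball q.1 δ) := fun w hw =>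
      slice_an (hδΦ (w, s) (lt_of_lt_of_le hw hδ2) (hs.trans_le hδ2)).1
    have h3 : (fun w => Ψ (w, s)) =ᶠ[𝓝 q.1] fun w => Φ (w, s) := by
      filter_upwards [hun s hs] with w hw
      rw [hΨ]
      funext b
      show Fl (w, s) (Sum.inr (Sum.inr (Sum.inl b))) = Φ (w, s) b
      rw [← hw]
      rfl
    exact h1.eqOn_of_preconnected_of_eventuallyEq h2 (convex_ball _ _).isPreconnected (mem_ball_self hδ) h3 hz
  refine ⟨Ψ, ?_, δ, hδ, fun p h1 h2 => ⟨hΨa p h1 h2, ?_⟩⟩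
  · filter_upwards [ball_mem_nhds q hδ] with p hp
    rw [mem_ball, Prod.dist_eq, max_lt_iff] at hp
    exact hΨΦ p.1 p.2 hp.1 hp.2
  · have hopen : ∀ᶠ p' in 𝓝 p, dist p'.1 q.1 < r ∧ dist p'.2 q.2 < δ := by
      have h3 : ContinuousAt (fun p' : ℂ × (Fin d → ℂ) => dist p'.1 q.1) p := by fun_prop
      have h4 : ContinuousAt (fun p' : ℂ × (Fin d → ℂ) => dist p'.2 q.2) p := by fun_prop
      exact (h3.eventually_lt continuousAt_const h1).and (h4.eventually_lt continuousAt_const h2)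
    filter_upwards [hopen] with p' hp' l
    rw [hΨpt p' hp'.1 hp'.2]
    have h3 : AnalyticOnNhd ℂ (fun w => eval (pry (Fl (w, p'.2))) (G l)) (ball q.1 r) := by
      intro w hw
      have h5 : AnalyticAt ℂ (fun w => Fl (w, p'.2)) w := slice_an (hFla (w, p'.2) hw hp'.2)
      exact eval_an (AnalyticAt.comp (g := pry) (f := fun w => Fl (w, p'.2)) (pry_an _) h5) (G l)
    have h4 : AnalyticOnNhd ℂ (fun w => C l (w, p'.2)) (ball q.1 r) := by
      intro w hw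
      refine slice_an (hB₁ (w, p'.2) ?_ l)
      rw [mem_ball, Prod.dist_eq]
      refine max_lt ?_ ?_
      · calc dist w q₀.1 ≤ dist w q.1 + dist q.1 q₀.1 := dist_triangle _ _ _
          _ < r₁ := by linarith [hq.1, mem_ball.1 hw]
      · calc dist p'.2 q₀.2 ≤ dist p'.2 q.2 + dist q.2 q₀.2 := dist_triangle _ _ _
          _ < r₁ := by linarith [hq.2, hp'.2.trans_le hδr]
    have h5 : (fun w => eval (pry (Fl (w, p'.2))) (G l)) =ᶠ[𝓝 q.1] fun w => C l (w, p'.2) := by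
      filter_upwards [hun p'.2 hp'.2, ball_mem_nhds q.1 hδ₂] with w hw hwb
      rw [← hw]
      exact (hδΦ (w, p'.2) hwb (hp'.2.trans_le hδ2)).2 l
    exact h3.eqOn_of_preconnected_of_eventuallyEq h4 (convex_ball _ _).isPreconnected (mem_ball_self hr0) h5 hp'.1

theorem unif_box [Finite ι] (G : ι → MvPolynomial (Ph N) ℂ) (C : ι → ℂ × (Fin d → ℂ) → ℂ) {Ω : Set ℂ} (hbd : Bornology.IsBounded Ω) {ρ : ℝ}
    (hC : ∀ l, ∀ q : ℂ × (Fin d → ℂ), q.1 ∈ closure Ω → ‖q.2‖ ≤ ρ → AnalyticAt ℂ (C l) q) {K : Set (Ph N → ℂ)} (hK : IsCompact K)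
    (hreg : ∀ q : ℂ × (Fin d → ℂ), q.1 ∈ closure Ω → ‖q.2‖ ≤ ρ → ∀ y ∈ K, (∀ l, eval y (G l) = C l q) → ∃ I : Fin (N + 1) → ι, eval y (vdet G I) ≠ 0) :
    ∃ r > 0, ∀ q : ℂ × (Fin d → ℂ), q.1 ∈ closure Ω → ‖q.2‖ < ρ → ∀ Φ : ℂ × (Fin d → ℂ) → Fin (N + 1) → ℂ, NSol G C Φ q →
      pt (Φ q) (deriv (fun z => Φ (z, q.2)) q.1) ∈ K →
      ∃ Ψ : ℂ × (Fin d → ℂ) → Fin (N + 1) → ℂ, (∀ᶠ p in 𝓝 q, Ψ p = Φ p) ∧ ∃ δ > 0, ∀ p : ℂ × (Fin d → ℂ), dist p.1 q.1 < r → dist p.2 q.2 < δ → NSol G C Ψ p := by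
  classical
  obtain ⟨Q, hQ⟩ : ∃ Q : Set (ℂ × (Fin d → ℂ)), Q = closure Ω ×ˢ closedBall 0 ρ := ⟨_, rfl⟩
  have hQc : IsCompact Q := by rw [hQ]; exact (hbd.isCompact_closure).prod (isCompact_closedBall 0 ρ)
  have hQm : ∀ q : ℂ × (Fin d → ℂ), q ∈ Q ↔ q.1 ∈ closure Ω ∧ ‖q.2‖ ≤ ρ := by
    intro q
    rw [hQ, Set.mem_prod, mem_closedBall_zero_iff]
  have hQK : IsCompact (Q ×ˢ K) := hQc.prod hK
  have hcompact : IsCompact {p : (ℂ × (Fin d → ℂ)) × (Ph N → ℂ) | p ∈ Q ×ˢ K ∧ ∀ l, eval p.2 (G l) = C l p.1} := by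
    have h1 : ∀ l, ContinuousOn (fun p : (ℂ × (Fin d → ℂ)) × (Ph N → ℂ) => eval p.2 (G l) - C l p.1) (Q ×ˢ K) := by
      intro l
      refine ContinuousOn.sub ?_ ?_
      · have h2 : Continuous fun y : Ph N → ℂ => eval y (G l) := by
          exact MvPolynomial.continuous_eval (G l)
        exact (h2.comp continuous_snd).continuousOn
      · have h2 : ContinuousOn (C l) Q := fun q hq => ((hC l q ((hQm q).1 hq).1 ((hQm q).1 hq).2).continuousAt).continuousWithinAt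
        exact h2.comp continuous_fst.continuousOn fun p hp => hp.1
    have h2 : {p : (ℂ × (Fin d → ℂ)) × (Ph N → ℂ) | p ∈ Q ×ˢ K ∧ ∀ l, eval p.2 (G l) = C l p.1} =
        Q ×ˢ K ∩ ⋂ l, (Q ×ˢ K ∩ (fun p : (ℂ × (Fin d → ℂ)) × (Ph N → ℂ) => eval p.2 (G l) - C l p.1) ⁻¹' {0}) := by
      ext p
      simp only [Set.mem_ofPred_eq, Set.mem_inter_iff, Set.mem_iInter, Set.mem_preimage, Set.mem_singleton_iff, sub_eq_zero]
      constructor
      · rintro ⟨h3, h4⟩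
        exact ⟨h3, fun l => ⟨h3, h4 l⟩⟩
      · rintro ⟨h3, h4⟩
        exact ⟨h3, fun l => (h4 l).2⟩
    rw [h2]
    refine hQK.inter_right (isClosed_iInter fun l => ?_)
    exact (h1 l).preimage_isClosed_of_isClosed hQK.isClosed isClosed_singleton
  have key : ∃ r > 0, ∀ p ∈ {p : (ℂ × (Fin d → ℂ)) × (Ph N → ℂ) | p ∈ Q ×ˢ K ∧ ∀ l, eval p.2 (G l) = C l p.1},
      ∀ Φ : ℂ × (Fin d → ℂ) → Fin (N + 1) → ℂ, NSol G C Φ p.1 → pt (Φ p.1) (deriv (fun z => Φ (z, p.1.2)) p.1.1) = p.2 →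
      ∃ Ψ : ℂ × (Fin d → ℂ) → Fin (N + 1) → ℂ, (∀ᶠ p' in 𝓝 p.1, Ψ p' = Φ p') ∧
        ∃ δ > 0, ∀ p' : ℂ × (Fin d → ℂ), dist p'.1 p.1.1 < r → dist p'.2 p.1.2 < δ → NSol G C Ψ p' := by
    refine hcompact.induction_on (p := fun S => ∃ r > 0, ∀ p ∈ S,
      ∀ Φ : ℂ × (Fin d → ℂ) → Fin (N + 1) → ℂ, NSol G C Φ p.1 → pt (Φ p.1) (deriv (fun z => Φ (z, p.1.2)) p.1.1) = p.2 →
      ∃ Ψ : ℂ × (Fin d → ℂ) → Fin (N + 1) → ℂ, (∀ᶠ p' in 𝓝 p.1, Ψ p' = Φ p') ∧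
        ∃ δ > 0, ∀ p' : ℂ × (Fin d → ℂ), dist p'.1 p.1.1 < r → dist p'.2 p.1.2 < δ → NSol G C Ψ p') ?_ ?_ ?_ ?_
    · exact ⟨1, one_pos, fun p hp => absurd hp (Set.notMem_empty p)⟩
    · rintro S T hST ⟨r, hr, h⟩
      exact ⟨r, hr, fun p hp => h p (hST hp)⟩
    · rintro S T ⟨r, hr, h⟩ ⟨r', hr', h'⟩
      refine ⟨min r r', lt_min hr hr', fun p hp Φ h1 h2 => ?_⟩
      rcases hp with hp | hp
      · obtain ⟨Ψ, e1, δ, hδ, e2⟩ := h p hp Φ h1 h2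
        exact ⟨Ψ, e1, δ, hδ, fun p' h3 h4 => e2 p' (h3.trans_le (min_le_left _ _)) h4⟩
      · obtain ⟨Ψ, e1, δ, hδ, e2⟩ := h' p hp Φ h1 h2
        exact ⟨Ψ, e1, δ, hδ, fun p' h3 h4 => e2 p' (h3.trans_le (min_le_right _ _)) h4⟩
    · rintro ⟨q₀, y₀⟩ ⟨⟨hq, hy⟩, he⟩
      have hq1 := (hQm q₀).1 hq
      obtain ⟨I, hI⟩ := hreg q₀ hq1.1 hq1.2 y₀ hy he
      obtain ⟨r, hr, h⟩ := box G C (fun l => hC l q₀ hq1.1 hq1.2) hI
      refine ⟨ball q₀ r ×ˢ ball y₀ r, mem_nhdsWithin_of_mem_nhds (prod_mem_nhds (ball_mem_nhds _ hr) (ball_mem_nhds _ hr)), r, hr, ?_⟩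
      rintro ⟨q, y⟩ ⟨h1, h2⟩ Φ h3 h4
      refine h q h1 Φ h3 ?_
      show dist (pt (Φ q) (deriv (fun z => Φ (z, q.2)) q.1)) y₀ < r
      have h5 : pt (Φ q) (deriv (fun z => Φ (z, q.2)) q.1) = y := h4
      rw [h5]
      exact h2
  obtain ⟨r, hr, h⟩ := key
  refine ⟨r, hr, fun q hq1 hq2 Φ h1 h2 => ?_⟩
  refine h (q, pt (Φ q) (deriv (fun z => Φ (z, q.2)) q.1)) ⟨⟨(hQm q).2 ⟨hq1, hq2.le⟩, h2⟩, fun l => ?_⟩ Φ h1 rfl
  exact h1.2.self_of_nhds l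

end Pool.Agent.GL
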