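import Pool.Agent.GL.NaA

/-!
# GL NaB: continuation of families of solutions on a bounded convex domain

For fixed `s₀` let `W_R = Ω ∩ ball w₀ R`.  By `unif_box` at `(w₀, s₀)` there is a family on `W_r × ball s₀ δ` (`Fam`).  If there is one on `W_R` then by `hin` (`W = W_R`) the values stay in `K`, so
`unif_box` gives solutions on the balls of radius `r` around finitely many points of `W_R`, for `s` near `s₀`; they fit together: if two balls meet, the middle of the centres is in `W_R` and in both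
balls.  So there is a family on `W_(R + r / 8)` (`fam_step`), and after finitely many steps on `Ω`.  The families for different `s₀` are equal by the identity theorem in `z`.
-/

set_option autoImplicit false

open MvPolynomial Topology Filter Metric
open Pool.Agent.GG Pool.Agent.GA

namespace Pool.Agent.GL

variable {N d : ℕ} {ι : Type}

private theorem NaB_slice {Φ : ℂ × (Fin d → ℂ) → Fin (N + 1) → ℂ} {z : ℂ} {s : Fin d → ℂ} (h : AnalyticAt ℂ Φ (z, s)) :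
    AnalyticAt ℂ (fun z => Φ (z, s)) z :=
  AnalyticAt.fun_comp (g := Φ) (f := fun z : ℂ => (z, s)) h (analyticAt_id.prod analyticAt_const)

private theorem NaB_congr {G : ι → MvPolynomial (Ph N) ℂ} {C : ι → ℂ × (Fin d → ℂ) → ℂ} {Φ Ψ : ℂ × (Fin d → ℂ) → Fin (N + 1) → ℂ} {q : ℂ × (Fin d → ℂ)}
    (h : NSol G C Φ q) (hΨ : ∀ᶠ p in 𝓝 q, Ψ p = Φ p) : NSol G C Ψ q := by
  have hΨ' : Φ =ᶠ[𝓝 q] Ψ := hΨ.mono fun p hp => hp.symm
  refine ⟨h.1.congr hΨ', ?_⟩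
  filter_upwards [h.2, hΨ.eventually_nhds] with p h1 h2 l
  have h3 : Tendsto (fun z : ℂ => (z, p.2)) (𝓝 p.1) (𝓝 p) := by
    have h4 : ContinuousAt (fun z : ℂ => (z, p.2)) p.1 := by fun_prop
    exact h4.tendsto
  have h5 : (fun z => Ψ (z, p.2)) =ᶠ[𝓝 p.1] fun z => Φ (z, p.2) := h3.eventually h2
  rw [h5.deriv_eq, h2.self_of_nhds]
  exact h1 l

private theorem NaB_eq {x y : ℂ → Fin (N + 1) → ℂ} {U : Set ℂ} (hU : Convex ℝ U) (hx : ∀ z ∈ U, AnalyticAt ℂ x z) (hy : ∀ z ∈ U, AnalyticAt ℂ y z) {a : ℂ}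
    (ha : a ∈ U) (h : ∀ᶠ z in 𝓝 a, x z = y z) {z : ℂ} (hz : z ∈ U) : x z = y z :=
  AnalyticOnNhd.eqOn_of_preconnected_of_eventuallyEq (f := x) (g := y) (U := U) hx hy hU.isPreconnected ha h hz

/-- a family of solutions on `W`, for the parameters near `s₀` -/
private def Fam (G : ι → MvPolynomial (Ph N) ℂ) (C : ι → ℂ × (Fin d → ℂ) → ℂ) (Φ₀ : ℂ × (Fin d → ℂ) → Fin (N + 1) → ℂ) (w₀ : ℂ) (s₀ : Fin d → ℂ)
    (W : Set ℂ) : Prop :=
  ∃ (Φ : ℂ × (Fin d → ℂ) → Fin (N + 1) → ℂ) (δ : ℝ), 0 < δ ∧ (∀ z ∈ W, ∀ s, dist s s₀ < δ → NSol G C Φ (z, s)) ∧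
    ∀ s, dist s s₀ < δ → ∀ᶠ z in 𝓝 w₀, Φ (z, s) = Φ₀ (z, s)

private theorem NaB_ev {Φ Ψ : ℂ × (Fin d → ℂ) → Fin (N + 1) → ℂ} {a : ℂ} {s₀ : Fin d → ℂ} (h : ∀ᶠ p in 𝓝 (a, s₀), Ψ p = Φ p) :
    ∃ δ > 0, ∀ s, dist s s₀ < δ → ∀ᶠ z in 𝓝 a, Ψ (z, s) = Φ (z, s) := by
  obtain ⟨ε, hε, h1⟩ := Metric.eventually_nhds_iff_ball.1 h
  refine ⟨ε, hε, fun s hs => ?_⟩
  filter_upwards [ball_mem_nhds a hε] with z hz
  refine h1 (z, s) ?_
  rw [mem_ball, Prod.dist_eq]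
  exact max_lt hz hs

private theorem fam_step {G : ι → MvPolynomial (Ph N) ℂ} {C : ι → ℂ × (Fin d → ℂ) → ℂ} {Φ₀ : ℂ × (Fin d → ℂ) → Fin (N + 1) → ℂ} {w₀ : ℂ}
    {s₀ : Fin d → ℂ} {r : ℝ} (hr : 0 < r) {W W' : Set ℂ} (hW : IsOpen W) (hWc : Convex ℝ W) (hWb : Bornology.IsBounded W) (hw : w₀ ∈ W) (hW' : IsOpen W')
    (hWW' : W ⊆ W') (hnear : ∀ z' ∈ W', ∃ z ∈ W, dist z' z < r / 4)
    (hbox : ∀ Φ : ℂ × (Fin d → ℂ) → Fin (N + 1) → ℂ, ∀ δ : ℝ, 0 < δ → (∀ z ∈ W, ∀ s, dist s s₀ < δ → NSol G C Φ (z, s)) →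
      (∀ s, dist s s₀ < δ → ∀ᶠ z in 𝓝 w₀, Φ (z, s) = Φ₀ (z, s)) → ∀ a ∈ W,
      ∃ Ψ : ℂ × (Fin d → ℂ) → Fin (N + 1) → ℂ, (∀ᶠ p in 𝓝 (a, s₀), Ψ p = Φ p) ∧ ∃ δ' > 0, ∀ p : ℂ × (Fin d → ℂ), dist p.1 a < r → dist p.2 s₀ < δ' →
        NSol G C Ψ p)
    (h : Fam G C Φ₀ w₀ s₀ W) : Fam G C Φ₀ w₀ s₀ W' := by
  obtain ⟨Φ, δ, hδ, hΦ, hΦ0⟩ := h
  have hex : ∀ a ∈ W, ∃ (Ψ : ℂ × (Fin d → ℂ) → Fin (N + 1) → ℂ) (δ' : ℝ), 0 < δ' ∧
      (∀ s, dist s s₀ < δ' → ∀ᶠ z in 𝓝 a, Ψ (z, s) = Φ (z, s)) ∧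
      ∀ p : ℂ × (Fin d → ℂ), dist p.1 a < r → dist p.2 s₀ < δ' → NSol G C Ψ p := by
    intro a ha
    obtain ⟨Ψ, h1, δ₁, hδ₁, h2⟩ := hbox Φ δ hδ hΦ hΦ0 a ha
    obtain ⟨δ₂, hδ₂, h3⟩ := NaB_ev h1
    exact ⟨Ψ, min δ₁ δ₂, lt_min hδ₁ hδ₂, fun s hs => h3 s (lt_of_lt_of_le hs (min_le_right _ _)),
      fun p hp hp' => h2 p hp (lt_of_lt_of_le hp' (min_le_left _ _))⟩
  choose! Ψ δ' hδ' hΨΦ hΨ using hex
  obtain ⟨t, htW, htf, htc⟩ := Metric.finite_approx_of_totallyBounded (hWb.isCompact_closure.totallyBounded.subset subset_closure) (r / 4) (by positivity)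
  have hcov : ∀ z ∈ W', ∃ a, a ∈ t ∧ dist z a < r / 2 := by
    intro z hz
    obtain ⟨z₁, hz₁, h1⟩ := hnear z hz
    obtain ⟨a, ha, h2⟩ := Set.mem_iUnion₂.1 (htc hz₁)
    refine ⟨a, ha, ?_⟩
    have h3 : dist z₁ a < r / 4 := h2
    have h4 := dist_triangle z z₁ a
    linarith
  choose! a hat had using hcov
  obtain ⟨ε, hε, hεδ, hεt⟩ : ∃ ε : ℝ, 0 < ε ∧ ε ≤ δ ∧ ∀ b ∈ t, ε ≤ δ' b := by
    have h1 : ∀ b ∈ t, ∀ᶠ ε in 𝓝[>] (0 : ℝ), ε ≤ δ' b := fun b hb =>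
      (eventually_le_nhds (hδ' b (htW hb))).filter_mono nhdsWithin_le_nhds
    have h2 : ∀ᶠ ε in 𝓝[>] (0 : ℝ), ∀ b ∈ t, ε ≤ δ' b := (eventually_all_finite htf).2 h1
    have h3 : ∀ᶠ ε in 𝓝[>] (0 : ℝ), ε ≤ δ := (eventually_le_nhds hδ).filter_mono nhdsWithin_le_nhds
    have h4 : ∀ᶠ ε in 𝓝[>] (0 : ℝ), 0 < ε := eventually_mem_nhdsWithin
    obtain ⟨ε, h5, h6, h7⟩ := (h4.and (h3.and h2)).exists
    exact ⟨ε, h5, h6, h7⟩
  -- `Ψ b = Φ` on `W`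
  have hA : ∀ b ∈ t, ∀ s, dist s s₀ < ε → ∀ z ∈ W, dist z b < r → Ψ b (z, s) = Φ (z, s) := by
    intro b hb s hs z hz hzb
    have hbW := htW hb
    exact NaB_eq (x := fun z => Ψ b (z, s)) (y := fun z => Φ (z, s)) (U := W ∩ ball b r) (hWc.inter (convex_ball b r))
      (fun w hw => NaB_slice (hΨ b hbW (w, s) hw.2 (lt_of_lt_of_le hs (hεt b hb))).1)
      (fun w hw => NaB_slice (hΦ w hw.1 s (lt_of_lt_of_le hs hεδ)).1) (a := b) ⟨hbW, mem_ball_self hr⟩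
      (hΨΦ b hbW s (lt_of_lt_of_le hs (hεt b hb))) ⟨hz, hzb⟩
  -- compatibility
  have hB : ∀ b ∈ t, ∀ c ∈ t, ∀ s, dist s s₀ < ε → ∀ z, dist z b < r / 2 → dist z c < r / 2 → Ψ b (z, s) = Ψ c (z, s) := by
    intro b hb c hc s hs z hzb hzc
    have hbc : dist b c < r := by
      have := dist_triangle_left b c z
      linarith
    have hm : midpoint ℝ b c ∈ W := hWc.midpoint_mem (htW hb) (htW hc)
    have hmb : dist (midpoint ℝ b c) b < r := by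
      rw [dist_midpoint_left (𝕜 := ℝ)]
      norm_num
      linarith [dist_nonneg (x := b) (y := c)]
    have hmc : dist (midpoint ℝ b c) c < r := by
      rw [dist_midpoint_right (𝕜 := ℝ)]
      norm_num
      linarith [dist_nonneg (x := b) (y := c)]
    refine NaB_eq (x := fun z => Ψ b (z, s)) (y := fun z => Ψ c (z, s)) (U := ball b r ∩ ball c r) ((convex_ball b r).inter (convex_ball c r))
      (fun w hw => NaB_slice (hΨ b (htW hb) (w, s) hw.1 (lt_of_lt_of_le hs (hεt b hb))).1)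
      (fun w hw => NaB_slice (hΨ c (htW hc) (w, s) hw.2 (lt_of_lt_of_le hs (hεt c hc))).1) (a := midpoint ℝ b c) ⟨hmb, hmc⟩ ?_
      ⟨mem_ball.2 (by linarith), mem_ball.2 (by linarith)⟩
    filter_upwards [hW.mem_nhds hm, isOpen_ball.mem_nhds (mem_ball.2 hmb), isOpen_ball.mem_nhds (mem_ball.2 hmc)] with w h1 h2 h3
    show Ψ b (w, s) = Ψ c (w, s)
    rw [hA b hb s hs w h1 h2, hA c hc s hs w h1 h3]
  have hloc : ∀ z ∈ W', ∀ s, dist s s₀ < ε → ∀ᶠ p in 𝓝 (z, s), Ψ (a p.1) p = Ψ (a z) p := by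
    intro z hz s hs
    have h1 : ∀ᶠ p in 𝓝 ((z, s) : ℂ × (Fin d → ℂ)), p.1 ∈ W' ∧ dist p.1 (a z) < r / 2 := by
      have h2 : ∀ᶠ w in 𝓝 z, w ∈ W' ∧ dist w (a z) < r / 2 :=
        (hW'.eventually_mem hz).and ((isOpen_ball.eventually_mem (mem_ball.2 (had z hz))).mono fun w h => h)
      exact (continuous_fst.tendsto ((z, s) : ℂ × (Fin d → ℂ))).eventually h2
    have h3 : ∀ᶠ p in 𝓝 ((z, s) : ℂ × (Fin d → ℂ)), dist p.2 s₀ < ε := by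
      have h4 : ∀ᶠ u in 𝓝 s, dist u s₀ < ε := (isOpen_ball.eventually_mem (mem_ball.2 hs)).mono fun w h => h
      exact (continuous_snd.tendsto ((z, s) : ℂ × (Fin d → ℂ))).eventually h4
    filter_upwards [h1, h3] with p h5 h6
    exact hB _ (hat _ h5.1) _ (hat z hz) p.2 h6 p.1 (had _ h5.1) h5.2
  refine ⟨fun p => Ψ (a p.1) p, ε, hε, fun z hz s hs => ?_, fun s hs => ?_⟩
  · refine NaB_congr (hΨ (a z) (htW (hat z hz)) (z, s) ?_ (lt_of_lt_of_le hs (hεt _ (hat z hz)))) (hloc z hz s hs)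
    have := had z hz
    show dist z (a z) < r
    linarith
  · have hw' := hWW' hw
    filter_upwards [hΦ0 s (lt_of_lt_of_le hs hεδ), hW.mem_nhds hw] with z h1 h2
    have h3 := had z (hWW' h2)
    show Ψ (a z) (z, s) = Φ₀ (z, s)
    rw [hA (a z) (hat z (hWW' h2)) s hs z h2 (by linarith), h1]

theorem na [Finite ι] (G : ι → MvPolynomial (Ph N) ℂ) (C : ι → ℂ × (Fin d → ℂ) → ℂ) {Ω : Set ℂ} (hΩ : IsOpen Ω) (hc : Convex ℝ Ω) (hbd : Bornology.IsBounded Ω)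
    {w₀ : ℂ} (hw : w₀ ∈ Ω) {ρ : ℝ} (hρ : 0 < ρ)
    (hC : ∀ l, ∀ q : ℂ × (Fin d → ℂ), q.1 ∈ closure Ω → ‖q.2‖ ≤ ρ → AnalyticAt ℂ (C l) q) {K : Set (Ph N → ℂ)} (hK : IsCompact K)
    (hreg : ∀ q : ℂ × (Fin d → ℂ), q.1 ∈ closure Ω → ‖q.2‖ ≤ ρ → ∀ y ∈ K, (∀ l, eval y (G l) = C l q) → ∃ I : Fin (N + 1) → ι, eval y (vdet G I) ≠ 0)
    {Φ₀ : ℂ × (Fin d → ℂ) → Fin (N + 1) → ℂ} (h₀ : ∀ s, ‖s‖ < ρ → NSol G C Φ₀ (w₀, s))
    (hin : ∀ s, ‖s‖ < ρ → ∀ W : Set ℂ, IsOpen W → Convex ℝ W → w₀ ∈ W → W ⊆ Ω → ∀ x : ℂ → Fin (N + 1) → ℂ,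
      (∀ z ∈ W, AnalyticAt ℂ x z ∧ ∀ l, eval (pt (x z) (deriv x z)) (G l) = C l (z, s)) → (∀ᶠ z in 𝓝 w₀, x z = Φ₀ (z, s)) →
      ∀ z ∈ W, pt (x z) (deriv x z) ∈ K) :
    ∃ Φ : ℂ × (Fin d → ℂ) → Fin (N + 1) → ℂ, (∀ q : ℂ × (Fin d → ℂ), q.1 ∈ Ω → ‖q.2‖ < ρ → NSol G C Φ q) ∧ ∀ s, ‖s‖ < ρ → ∀ᶠ z in 𝓝 w₀, Φ (z, s) = Φ₀ (z, s) := by
  obtain ⟨r, hr, hbox⟩ := unif_box G C hbd hC hK hreg
  have hfam : ∀ s₀ : Fin d → ℂ, ‖s₀‖ < ρ → Fam G C Φ₀ w₀ s₀ Ω := by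
    intro s₀ hs₀
    -- the first family
    have hstart : Fam G C Φ₀ w₀ s₀ (Ω ∩ ball w₀ (r + ((0 : ℕ) : ℝ) * (r / 8))) := by
      have h1 := h₀ s₀ hs₀
      have h2 : ∀ᶠ z in 𝓝 w₀, AnalyticAt ℂ (fun z => Φ₀ (z, s₀)) z ∧ ∀ l, eval (pt (Φ₀ (z, s₀)) (deriv (fun z => Φ₀ (z, s₀)) z)) (G l) = C l (z, s₀) := by
        have h3 : Tendsto (fun z : ℂ => (z, s₀)) (𝓝 w₀) (𝓝 (w₀, s₀)) := by
          have h4 : ContinuousAt (fun z : ℂ => (z, s₀)) w₀ := by fun_prop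
          exact h4.tendsto
        exact (NaB_slice h1.1).eventually_analyticAt.and (h3.eventually h1.2)
      obtain ⟨ε, hε, h3⟩ := Metric.eventually_nhds_iff_ball.1 (h2.and (hΩ.mem_nhds hw : ∀ᶠ z in 𝓝 w₀, z ∈ Ω))
      have h4 := hin s₀ hs₀ (ball w₀ ε) isOpen_ball (convex_ball _ _) (mem_ball_self hε) (fun z hz => (h3 z hz).2) (fun z => Φ₀ (z, s₀))
        (fun z hz => (h3 z hz).1) (Eventually.of_forall fun z => rfl) w₀ (mem_ball_self hε)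
      obtain ⟨Ψ, h5, δ₁, hδ₁, h6⟩ := hbox (w₀, s₀) (subset_closure hw) hs₀ Φ₀ h1 h4
      obtain ⟨δ₂, hδ₂, h7⟩ := NaB_ev h5
      refine ⟨Ψ, min δ₁ δ₂, lt_min hδ₁ hδ₂, fun z hz s hs => ?_, fun s hs => h7 s (lt_of_lt_of_le hs (min_le_right _ _))⟩
      have hz2 := mem_ball.1 hz.2
      exact h6 (z, s) (by simpa using hz2) (lt_of_lt_of_le hs (min_le_left _ _))
    have hsteps : ∀ k : ℕ, Fam G C Φ₀ w₀ s₀ (Ω ∩ ball w₀ (r + (k : ℝ) * (r / 8))) := by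
      intro k
      induction k with
      | zero => exact hstart
      | succ k ih =>
        obtain ⟨R, hR⟩ : ∃ R : ℝ, R = r + (k : ℝ) * (r / 8) := ⟨_, rfl⟩
        have hRr : r ≤ R := by
          rw [hR]
          have : 0 ≤ (k : ℝ) * (r / 8) := by positivity
          linarith
        have hR' : r + ((k + 1 : ℕ) : ℝ) * (r / 8) = R + r / 8 := by
          rw [hR]
          push_cast
          ring
        rw [hR']
        rw [← hR] at ih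
        have hR0 : 0 < R := lt_of_lt_of_le hr hRr
        refine fam_step (W := Ω ∩ ball w₀ R) hr (hΩ.inter isOpen_ball) (hc.inter (convex_ball _ _)) (hbd.subset Set.inter_subset_left)
          ⟨hw, mem_ball_self hR0⟩ (hΩ.inter isOpen_ball) (Set.inter_subset_inter_right _ (ball_subset_ball (by linarith))) (fun z' hz' => ?_)
          (fun Φ δ hδ h1 h2 a ha => ?_) ih
        · have hz1 : dist z' w₀ < R + r / 8 := mem_ball.1 hz'.2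
          by_cases h1 : dist z' w₀ < R
          · exact ⟨z', ⟨hz'.1, mem_ball.2 h1⟩, by rw [dist_self]; positivity⟩
          · have hD : 0 < dist z' w₀ := by linarith
            obtain ⟨t, ht⟩ : ∃ t : ℝ, t = (R - r / 16) / dist z' w₀ := ⟨_, rfl⟩
            have ht0 : 0 ≤ t := by
              rw [ht]
              exact div_nonneg (by linarith) hD.le
            have ht1 : t ≤ 1 := by
              rw [ht, div_le_one hD]
              linarith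
            have hpt : w₀ + (t : ℂ) * (z' - w₀) ∈ Ω := by
              have h2 := hc.add_smul_sub_mem hw hz'.1 ⟨ht0, ht1⟩
              rwa [Complex.real_smul] at h2
            have htD : t * dist z' w₀ = R - r / 16 := by
              rw [ht]
              field_simp
            refine ⟨w₀ + (t : ℂ) * (z' - w₀), ⟨hpt, ?_⟩, ?_⟩
            · rw [mem_ball, dist_eq_norm, add_sub_cancel_left, norm_mul, Complex.norm_real, Real.norm_of_nonneg ht0, ← dist_eq_norm, htD]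
              linarith
            · have h3 : z' - (w₀ + (t : ℂ) * (z' - w₀)) = ((1 - t : ℝ) : ℂ) * (z' - w₀) := by
                push_cast
                ring
              rw [dist_eq_norm, h3, norm_mul, Complex.norm_real, Real.norm_of_nonneg (by linarith), ← dist_eq_norm, sub_mul, one_mul, htD]
              linarith
        · have h3 : ∀ z ∈ Ω ∩ ball w₀ R, AnalyticAt ℂ (fun z => Φ (z, s₀)) z ∧
              ∀ l, eval (pt (Φ (z, s₀)) (deriv (fun z => Φ (z, s₀)) z)) (G l) = C l (z, s₀) := fun z hz =>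
            ⟨NaB_slice (h1 z hz s₀ (by rwa [dist_self])).1, (h1 z hz s₀ (by rwa [dist_self])).2.self_of_nhds⟩
          have h4 := hin s₀ hs₀ (Ω ∩ ball w₀ R) (hΩ.inter isOpen_ball) (hc.inter (convex_ball _ _)) ⟨hw, mem_ball_self hR0⟩ Set.inter_subset_left
            (fun z => Φ (z, s₀)) h3 (h2 s₀ (by rwa [dist_self])) a ha
          exact hbox (a, s₀) (subset_closure ha.1) hs₀ Φ (h1 a ha s₀ (by rwa [dist_self])) h4
    obtain ⟨D, hD⟩ := hbd.subset_ball w₀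
    obtain ⟨k, hk⟩ := exists_nat_gt (D / (r / 8))
    have h1 : D ≤ r + (k : ℝ) * (r / 8) := by
      have h2 : D < k * (r / 8) := (div_lt_iff₀ (by positivity)).1 hk
      linarith
    have h2 : Ω ∩ ball w₀ (r + (k : ℝ) * (r / 8)) = Ω := Set.inter_eq_left.2 (hD.trans (ball_subset_ball h1))
    have h3 := hsteps k
    rwa [h2] at h3
  choose! Φ δ hδ hΦ hΦ0 using hfam
  have heq : ∀ s₀ s : Fin d → ℂ, ‖s₀‖ < ρ → ‖s‖ < ρ → dist s s₀ < δ s₀ → ∀ z ∈ Ω, Φ s (z, s) = Φ s₀ (z, s) := by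
    intro s₀ s hs₀ hs hss z hz
    have hself : dist s s < δ s := by
      rw [dist_self]
      exact hδ s hs
    refine NaB_eq (x := fun z => Φ s (z, s)) (y := fun z => Φ s₀ (z, s)) (U := Ω) hc (fun w hw => NaB_slice (hΦ s hs w hw s hself).1)
      (fun w hw => NaB_slice (hΦ s₀ hs₀ w hw s hss).1) (a := w₀) hw ?_ hz
    filter_upwards [hΦ0 s hs s hself, hΦ0 s₀ hs₀ s hss] with w h1 h2
    rw [h1, h2]
  refine ⟨fun p => Φ p.2 p, fun q hq hqρ => ?_, fun s hs => hΦ0 s hs s (by rw [dist_self]; exact hδ s hs)⟩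
  obtain ⟨z, s₀⟩ := q
  refine NaB_congr (hΦ s₀ hqρ z hq s₀ (by rw [dist_self]; exact hδ s₀ hqρ)) ?_
  have h1 : ∀ᶠ p in 𝓝 ((z, s₀) : ℂ × (Fin d → ℂ)), p.1 ∈ Ω := (continuous_fst.tendsto ((z, s₀) : ℂ × (Fin d → ℂ))).eventually (hΩ.mem_nhds hq)
  have h2 : ∀ᶠ p in 𝓝 ((z, s₀) : ℂ × (Fin d → ℂ)), dist p.2 s₀ < δ s₀ ∧ ‖p.2‖ < ρ := by
    have h3 : ∀ᶠ s in 𝓝 s₀, dist s s₀ < δ s₀ ∧ ‖s‖ < ρ := by
      have h4 : ∀ᶠ s in 𝓝 s₀, ‖s‖ < ρ := continuous_norm.continuousAt.eventually_lt continuousAt_const hqρ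
      exact ((isOpen_ball.eventually_mem (mem_ball_self (hδ s₀ hqρ))).mono fun w h => h).and h4
    exact (continuous_snd.tendsto ((z, s₀) : ℂ × (Fin d → ℂ))).eventually h3
  filter_upwards [h1, h2] with p h3 h4
  exact heq s₀ p.2 hqρ h4.2 h4.1 p.1 h3

end Pool.Agent.GL
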