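import Pool.Agent.GL.Tau
import Pool.Agent.GL.Av
import Pool.Agent.GL.Cmp

/-!
# GL SmlL: small functions

`pt_levels`: `exists_av` with `R = 1 / (4 τ_n)` at `w`, `rho_levels`; for `1 ≤ Re w ≤ 2` periodicity and compactness.  `isOO_of_pt`: `IsOO.of_mean` (GA/Ring), `log⁺ ‖a‖ ≤ log⁺ K + k log τ_n + K X_n` on the window and the strip `0 ≤ Im w ≤ 2 π`.
-/

set_option autoImplicit false

open MvPolynomial Topology Filter Metric
open Pool.Agent.H13.SM (conTan cone)
open Pool.Agent.H62.FC (Homog)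
open Pool.Agent.GG Pool.Agent.GA

namespace Pool.Agent.GL

variable {N : ℕ} {P : Ideal (MvPolynomial (Fin (N + 1)) ℂ)} {B : Finset (Fin (N + 1))} {J : ℕ} {m : Fin J → ℕ} {θ : ∀ k, LogSec P B (m k)} {b : Fin (N + 1)}
  {F : ℂ → Fin (N + 1) → ℂ} {X : ℕ → ℝ}

/-- the points of the strip near the levels -/
private theorem sml_lev {s : ℂ → ℝ} (hX : Lev s X) (n : ℕ) : 4 ≤ tau s X n ∧ 1 / tau s X n ≤ 1 / 4 ∧ 0 < 1 / tau s X n ∧ 4 ≤ X n := by
  have h1 := hX.tau_ge' n
  have h2 := hX.big n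
  have h3 : (0 : ℝ) ≤ n := Nat.cast_nonneg n
  have h4 : 4 ≤ tau s X n := by linarith
  have h5 : 0 < tau s X n := by linarith
  exact ⟨h4, by gcongr, by positivity, by linarith⟩

theorem isOO_of_pt {s : ℂ → ℝ} (hX : Lev s X) {a : ℂ → ℂ} (han : ∀ w ∈ HP, AnalyticAt ℂ a w) (hper : ∀ w ∈ HP, a (w + per) = a w) {K : ℝ} {k : ℕ}
    (h : ∀ (n : ℕ) (w : ℂ), 1 ≤ w.re → w.re ≤ X n - 1 / tau s X n → 0 ≤ w.im → w.im ≤ 2 * Real.pi → ‖a w‖ ≤ K * tau s X n ^ k * Real.exp (K * w.re)) : IsOO s X a := by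
  obtain ⟨D, hD, hD1, hKD⟩ : ∃ D : ℝ, D = max K 1 ∧ 1 ≤ D ∧ K ≤ D := ⟨_, rfl, le_max_right _ _, le_max_left _ _⟩
  have hX0 := hX.smallX
  have hlog := smallN_log hX
  refine IsOO.of_mean hX han hper (η := fun n => 2 * Real.pi * Real.log D + (2 * Real.pi * k) * Real.log (tau s X n) + (2 * Real.pi * D) * X n)
    (((smallN_const hX _).add (hlog.const_mul _)).add (hX0.const_mul _)) (Eventually.of_forall fun n t ht => ?_)
  obtain ⟨ht4, hr, hr0, hX4⟩ := sml_lev hX n
  have hxi : xi s X n = X n - 2 * (1 / tau s X n) := by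
    rw [xi]
    ring
  rw [hxi] at ht
  have ht1 : 1 ≤ t := by linarith [ht.1]
  have ht2 : t ≤ X n - 1 / tau s X n := by linarith [ht.2]
  have ht3 : t ≤ X n := by linarith
  have hbd : ∀ y ∈ Set.Icc (0 : ℝ) (2 * Real.pi), Real.posLog ‖a (t + y * Complex.I)‖ ≤ Real.log D + k * Real.log (tau s X n) + D * X n := by
    intro y hy
    have h1 := h n (t + y * Complex.I) (by simpa using ht1) (by simpa using ht2) (by simpa using hy.1) (by simpa using hy.2)
    have hre : (t + y * Complex.I : ℂ).re = t := by simp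
    rw [hre] at h1
    have h2 : ‖a (t + y * Complex.I)‖ ≤ D * tau s X n ^ k * Real.exp (D * X n) := by
      refine h1.trans ?_
      have h3 : K * t ≤ D * X n := (mul_le_mul_of_nonneg_right hKD (by linarith)).trans (mul_le_mul_of_nonneg_left ht3 (by linarith))
      calc K * tau s X n ^ k * Real.exp (K * t) ≤ D * tau s X n ^ k * Real.exp (K * t) := by gcongr
        _ ≤ D * tau s X n ^ k * Real.exp (D * X n) := by gcongr
    have h4 : 1 ≤ tau s X n ^ k := one_le_pow₀ (by linarith)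
    have h5 : 1 ≤ Real.exp (D * X n) := Real.one_le_exp (by positivity)
    have h6 : 1 ≤ D * tau s X n ^ k * Real.exp (D * X n) := by
      have h7 : 1 ≤ D * tau s X n ^ k := one_le_mul_of_one_le_of_one_le hD1 h4
      exact one_le_mul_of_one_le_of_one_le h7 h5
    have h7 := Real.posLog_le_posLog (norm_nonneg (a (t + y * Complex.I))) h2
    rw [Real.posLog_eq_log (x := D * tau s X n ^ k * Real.exp (D * X n)) (by rwa [abs_of_pos (by linarith)]), Real.log_mul (by positivity) (by positivity),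
      Real.log_mul (by positivity) (by positivity), Real.log_pow, Real.log_exp] at h7
    exact h7
  have hcont : Continuous fun y : ℝ => Real.posLog ‖a (t + y * Complex.I)‖ := by
    refine Real.continuous_posLog.comp (continuous_norm.comp (continuous_iff_continuousAt.2 fun y => ?_))
    have h1 : (t + y * Complex.I : ℂ) ∈ HP := by
      have : 0 < t := by linarith
      simpa [HP] using this
    exact ContinuousAt.comp (f := fun y : ℝ => (t + y * Complex.I : ℂ)) (g := a) (han _ h1).continuousAt (by fun_prop)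
  have h1 := intervalIntegral.integral_mono_on (μ := MeasureTheory.volume) (show (0 : ℝ) ≤ 2 * Real.pi by positivity) (hcont.intervalIntegrable _ _)
    intervalIntegrable_const hbd
  refine h1.trans_eq ?_
  rw [intervalIntegral.integral_const]
  simp only [sub_zero, smul_eq_mul]
  ring

theorem sml_uc (hF : LCurve P B b F) {w : ℂ} (hw : w ∈ HP) : F w ∈ Uc P B b := ⟨hF.curve.cone w hw, hF.one w, hF.ne w hw⟩

theorem sml_uc_nhds (hF : LCurve P B b F) {w : ℂ} (hw : w ∈ HP) : ∀ᶠ z in 𝓝 w, F z ∈ Uc P B b := by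
  filter_upwards [Rg.isOpen_HP.mem_nhds hw] with z hz using sml_uc hF hz

theorem sml_tc (hF : LCurve P B b F) {w : ℂ} (hw : w ∈ HP) : deriv F w ∈ Tc P b (F w) := deriv_mem_Tc (hF.curve.an w hw) (sml_uc_nhds hF hw)

/-- a periodic function is bounded for `1 ≤ Re w ≤ 2` -/
private theorem sml_strip {a : ℂ → ℂ} (han : ∀ w ∈ HP, AnalyticAt ℂ a w) (hper : ∀ w ∈ HP, a (w + per) = a w) :
    ∃ K : ℝ, 0 ≤ K ∧ ∀ w : ℂ, 1 ≤ w.re → w.re ≤ 2 → ‖a w‖ ≤ K := by
  have hK : IsCompact (Set.Icc (1 : ℝ) 2 ×ℂ Set.Icc (0 : ℝ) (2 * Real.pi)) := isCompact_Icc.reProdIm isCompact_Icc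
  have hsub : (Set.Icc (1 : ℝ) 2 ×ℂ Set.Icc (0 : ℝ) (2 * Real.pi)) ⊆ HP := by
    intro z hz
    have h1 : 1 ≤ z.re := hz.1.1
    change 0 < z.re
    linarith
  obtain ⟨K, hK1⟩ := hK.exists_bound_of_continuousOn (f := a) fun z hz => (han z (hsub hz)).continuousAt.continuousWithinAt
  refine ⟨max K 0, le_max_right _ _, fun w hw hw2 => ?_⟩
  -- periodicity
  have hpern : ∀ (j : ℕ) (z : ℂ), z ∈ HP → a (z + j * per) = a z := by
    intro j
    induction j with
    | zero => intro z _; simp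
    | succ j ih =>
      intro z hz
      have h1 : z + j * per ∈ HP := by
        have h2 : (z + j * per).re = z.re := by simp [per]
        change 0 < (z + j * per).re
        rw [h2]
        exact hz
      have h2 : z + ((j + 1 : ℕ) : ℂ) * per = (z + j * per) + per := by push_cast; ring
      rw [h2, hper _ h1, ih z hz]
  have hperz : ∀ (j : ℤ) (z : ℂ), z ∈ HP → a (z + j * per) = a z := by
    intro j z hz
    obtain ⟨n, rfl | rfl⟩ := j.eq_nat_or_neg
    · simpa using hpern n z hz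
    · have h1 : z - n * per ∈ HP := by
        have h2 : (z - n * per).re = z.re := by simp [per]
        change 0 < (z - n * per).re
        rw [h2]
        exact hz
      have h2 := hpern n _ h1
      rw [sub_add_cancel] at h2
      rw [h2]
      push_cast
      congr 1
      ring
  have hpi := Real.pi_pos
  obtain ⟨j, hj⟩ : ∃ j : ℤ, j = ⌊w.im / (2 * Real.pi)⌋ := ⟨_, rfl⟩
  have hj1 : (j : ℝ) * (2 * Real.pi) ≤ w.im := by
    have := Int.floor_le (w.im / (2 * Real.pi))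
    rw [← hj, le_div_iff₀ (by positivity)] at this
    exact this
  have hj2 : w.im < ((j : ℝ) + 1) * (2 * Real.pi) := by
    have := Int.lt_floor_add_one (w.im / (2 * Real.pi))
    rw [← hj, div_lt_iff₀ (by positivity)] at this
    exact this
  have hwHP : w ∈ HP := by
    change 0 < w.re
    linarith
  have h3 := hperz (-j) w hwHP
  have h4 : w + ((-j : ℤ) : ℂ) * per ∈ Set.Icc (1 : ℝ) 2 ×ℂ Set.Icc (0 : ℝ) (2 * Real.pi) := by
    have h5 : (w + ((-j : ℤ) : ℂ) * per).re = w.re := by simp [per]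
    have h6 : (w + ((-j : ℤ) : ℂ) * per).im = w.im - j * (2 * Real.pi) := by
      simp [per]
      ring
    refine ⟨?_, ?_⟩
    · rw [Set.mem_preimage, h5]
      exact ⟨hw, hw2⟩
    · rw [Set.mem_preimage, h6]
      constructor <;> linarith
  rw [← h3]
  exact (hK1 _ h4).trans (le_max_left _ _)

theorem pt_levels (hb : b ∈ B) (hF : LCurve P B b F) (hX : Lev (sp F) X) {a : ℂ → ℂ} (han : ∀ w ∈ HP, AnalyticAt ℂ a w) (hper : ∀ w ∈ HP, a (w + per) = a w) {C : ℝ} {e : ℕ}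
    (hC : ∀ w ∈ HP, ‖a w‖ ≤ C * LL B (F w) (deriv F w) ^ e) :
    ∃ (K : ℝ) (k : ℕ), ∀ (n : ℕ) (w : ℂ), 1 ≤ w.re → w.re ≤ X n - 1 / tau (sp F) X n → ‖a w‖ ≤ K * tau (sp F) X n ^ k := by
  obtain ⟨K₁, hK₁, hav⟩ := exists_av (N := N) B b
  obtain ⟨K₂, hK₂, hst⟩ := sml_strip han hper
  obtain ⟨K₃', k₃, hrho'⟩ := rho_levels hF hX
  obtain ⟨K₃, hK₃, hrho⟩ : ∃ K₃ : ℝ, 0 ≤ K₃ ∧ ∀ (n : ℕ) (w : ℂ), 1 ≤ w.re → w.re ≤ X n - 1 / (2 * tau (sp F) X n) → Rho B (F w) ≤ K₃ * tau (sp F) X n ^ k₃ :=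
    ⟨max K₃' 0, le_max_right _ _, fun n w h1 h2 => (hrho' n w h1 h2).trans
      (mul_le_mul_of_nonneg_right (le_max_left _ _) (pow_nonneg (hX.tau_pos n).le _))⟩
  obtain ⟨D, hD, hD0, hCD⟩ : ∃ D : ℝ, D = max C 0 ∧ 0 ≤ D ∧ C ≤ D := ⟨_, rfl, le_max_right _ _, le_max_left _ _⟩
  refine ⟨K₂ + D * (4 * K₁ * (K₃ + 1)) ^ e, (k₃ + 1) * e, fun n w hw hw' => ?_⟩
  obtain ⟨ht4, hr, hr0, hX4⟩ := sml_lev hX n
  have ht0 : 0 < tau (sp F) X n := by linarith
  have hone : 1 ≤ tau (sp F) X n ^ ((k₃ + 1) * e) := one_le_pow₀ (by linarith)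
  have hpos : 0 ≤ D * (4 * K₁ * (K₃ + 1)) ^ e := by positivity
  rcases le_or_gt w.re 2 with h2 | h2
  · have h3 := hst w hw h2
    nlinarith
  · have hsub : ∀ z ∈ closedBall w (1 / (4 * tau (sp F) X n)), 1 ≤ z.re ∧ z.re ≤ X n - 1 / (2 * tau (sp F) X n) := by
      intro z hz
      have h3 : ‖z - w‖ ≤ 1 / (4 * tau (sp F) X n) := by simpa [dist_eq_norm] using hz
      have h4 := (Complex.abs_re_le_norm (z - w)).trans h3
      rw [Complex.sub_re, abs_le] at h4
      have h5 : 1 / (4 * tau (sp F) X n) = (1 / 4) * (1 / tau (sp F) X n) := by field_simp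
      have h6 : 1 / (2 * tau (sp F) X n) = (1 / 2) * (1 / tau (sp F) X n) := by field_simp
      rw [h5] at h4
      rw [h6]
      constructor <;> linarith [h4.1, h4.2]
    have hHP : ∀ z ∈ closedBall w (1 / (4 * tau (sp F) X n)), z ∈ HP := fun z hz => by
      have := (hsub z hz).1
      change 0 < z.re
      linarith
    have h3 := hav F w (1 / (4 * tau (sp F) X n)) (K₃ * tau (sp F) X n ^ k₃) (by positivity) (fun z hz => hF.curve.an z (hHP z hz)) (fun z _ => hF.one z)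
      (fun z hz => hF.ne z (hHP z hz)) (fun z hz => hrho n z (hsub z hz).1 (hsub z hz).2) a D e (fun z hz => han z (hHP z hz)) hD0
      (fun z hz => (hC z (hHP z hz)).trans (mul_le_mul_of_nonneg_right hCD (pow_nonneg (LL_nonneg _ _) _)))
    have h4 : K₁ * (K₃ * tau (sp F) X n ^ k₃ + 1) / (1 / (4 * tau (sp F) X n)) ≤ 4 * K₁ * (K₃ + 1) * tau (sp F) X n ^ (k₃ + 1) := by
      have h5 : K₁ * (K₃ * tau (sp F) X n ^ k₃ + 1) / (1 / (4 * tau (sp F) X n)) = 4 * K₁ * tau (sp F) X n * (K₃ * tau (sp F) X n ^ k₃ + 1) := by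
        field_simp
      have h6 : K₃ * tau (sp F) X n ^ k₃ + 1 ≤ (K₃ + 1) * tau (sp F) X n ^ k₃ := by
        have : 1 ≤ tau (sp F) X n ^ k₃ := one_le_pow₀ (by linarith)
        linarith
      rw [h5, pow_succ]
      calc 4 * K₁ * tau (sp F) X n * (K₃ * tau (sp F) X n ^ k₃ + 1) ≤ 4 * K₁ * tau (sp F) X n * ((K₃ + 1) * tau (sp F) X n ^ k₃) := by gcongr
        _ = _ := by ring
    have h5 : D * (K₁ * (K₃ * tau (sp F) X n ^ k₃ + 1) / (1 / (4 * tau (sp F) X n))) ^ e ≤ D * ((4 * K₁ * (K₃ + 1)) ^ e * tau (sp F) X n ^ ((k₃ + 1) * e)) := by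
      refine mul_le_mul_of_nonneg_left ?_ hD0
      rw [pow_mul, ← mul_pow]
      exact pow_le_pow_left₀ (by positivity) h4 e
    refine h3.trans (h5.trans ?_)
    rw [← mul_assoc]
    exact mul_le_mul_of_nonneg_right (by linarith) (by positivity)

private theorem thv_an (hF : LCurve P B b F) (i : Fin J) {w : ℂ} (hw : w ∈ HP) : AnalyticAt ℂ (fun w => thv θ (F w) (deriv F w) i) w := by
  refine analyticAt_thv (b := b) (hF.curve.an w hw) (hF.curve.an w hw).deriv ?_ i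
  filter_upwards [Rg.isOpen_HP.mem_nhds hw] with z hz using ⟨sml_uc hF hz, sml_tc hF hz⟩

private theorem thv_per (hF : LCurve P B b F) (i : Fin J) {w : ℂ} (hw : w ∈ HP) :
    thv θ (F (w + per)) (deriv F (w + per)) i = thv θ (F w) (deriv F w) i := by
  have h1 : deriv F (w + per) = deriv F w := by
    have h2 : (fun z => F (z + per)) =ᶠ[𝓝 w] F := by
      filter_upwards [Rg.isOpen_HP.mem_nhds hw] with z hz using hF.curve.periodic z hz
    have h3 := h2.deriv_eq
    rwa [deriv_comp_add_const] at h3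
  rw [hF.curve.periodic w hw, h1]

/-- the values of the logarithmic symmetric differentials on the curve -/
theorem thv_levels (hP : Homog P) (hθ : LogPolar θ) (hm : ∀ k, 1 ≤ m k) (hb : b ∈ B) (hF : LCurve P B b F) (hX : Lev (sp F) X) :
    ∃ (K : ℝ) (k : ℕ), ∀ (n : ℕ) (w : ℂ), 1 ≤ w.re → w.re ≤ X n - 1 / tau (sp F) X n → ∀ i, ‖thv θ (F w) (deriv F w) i‖ ≤ K * tau (sp F) X n ^ k := by
  obtain ⟨c, -, C, hC, hbd⟩ := theta_bdL hP hθ hm hb
  have h1 : ∀ i : Fin J, ∃ (K : ℝ) (k : ℕ), ∀ (n : ℕ) (w : ℂ), 1 ≤ w.re → w.re ≤ X n - 1 / tau (sp F) X n →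
      ‖thv θ (F w) (deriv F w) i‖ ≤ K * tau (sp F) X n ^ k := fun i =>
    pt_levels hb hF hX (a := fun w => thv θ (F w) (deriv F w) i) (C := C) (e := m i) (fun w hw => thv_an hF i hw) (fun w hw => thv_per hF i hw)
      fun w hw => (hbd _ (sml_uc hF hw) _ (sml_tc hF hw)).1 i
  choose K k hK using h1
  refine ⟨∑ i, |K i|, ∑ i, k i, fun n w hw hw' i => (hK i n w hw hw').trans ?_⟩
  have ht : 1 ≤ tau (sp F) X n := by linarith [(sml_lev hX n).1]
  have h2 : K i ≤ ∑ i, |K i| := (le_abs_self _).trans (Finset.single_le_sum (f := fun i => |K i|) (fun i _ => abs_nonneg _) (Finset.mem_univ i))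
  have h3 : k i ≤ ∑ i, k i := Finset.single_le_sum (f := k) (fun i _ => Nat.zero_le _) (Finset.mem_univ i)
  have h4 : tau (sp F) X n ^ k i ≤ tau (sp F) X n ^ ∑ i, k i := pow_le_pow_right₀ ht h3
  exact mul_le_mul h2 h4 (by positivity) (Finset.sum_nonneg fun i _ => abs_nonneg _)

theorem thv_small (hP : Homog P) (hθ : LogPolar θ) (hm : ∀ k, 1 ≤ m k) (hb : b ∈ B) (hF : LCurve P B b F) (hX : Lev (sp F) X) (k : Fin J) :
    IsOO (sp F) X (fun w => thv θ (F w) (deriv F w) k) := by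
  obtain ⟨K, e, h⟩ := thv_levels hP hθ hm hb hF hX
  refine isOO_of_pt hX (fun w hw => thv_an hF k hw) (fun w hw => thv_per hF k hw) (K := |K|) (k := e) fun n w hw hw' _ _ => (h n w hw hw' k).trans ?_
  have ht : 0 ≤ tau (sp F) X n := (hX.tau_pos n).le
  have h1 : 1 ≤ Real.exp (|K| * w.re) := Real.one_le_exp (by positivity)
  calc K * tau (sp F) X n ^ e ≤ |K| * tau (sp F) X n ^ e := mul_le_mul_of_nonneg_right (le_abs_self _) (by positivity)
    _ = |K| * tau (sp F) X n ^ e * 1 := (mul_one _).symm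
    _ ≤ |K| * tau (sp F) X n ^ e * Real.exp (|K| * w.re) := mul_le_mul_of_nonneg_left h1 (by positivity)

end Pool.Agent.GL
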