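import Pool.Agent.GL.Defs
import Pool.Agent.GG.OdeG
import Pool.Agent.GG.CritArc
import Pool.Agent.GA.RelC

/-!
# GL SolX: differential equations with coefficients in a ring of functions

`y' = (evO y NN_s / δ (y))_s`, `NN` polynomials over `OO`.  `Sol_flow`: the local flow, with the time as an additional coordinate.  `Sol_dz`: the derivative of a
polynomial over `OO` along a curve.  `Sol_order`: the argument of `GG.const_of_crit`.
-/

set_option autoImplicit false

open MvPolynomial Topology Filter Metric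
open Pool.Agent.GG Pool.Agent.GA

namespace Pool.Agent.GL

variable {OO : Subalgebra ℂ (ℂ → ℂ)} {U : Set ℂ}

/-- a sequence of functions, each the derivative of the previous one up to a unit, all zero at `t` -/
theorem Sol_order {h : ℕ → ℂ → ℂ} {d : ℂ → ℂ} {t : ℂ} (ha : ∀ k, AnalyticAt ℂ (h k) t) (h0 : ∀ k, h k t = 0) (hda : AnalyticAt ℂ d t)
    (hd0 : d t ≠ 0) (hder : ∀ k, deriv (h k) =ᶠ[𝓝 t] fun s => h (k + 1) s * (d s)⁻¹) : ∀ᶠ s in 𝓝 t, h 0 s = 0 := by
  have hord : ∀ k, analyticOrderAt (h k) t = analyticOrderAt (h (k + 1)) t + 1 := by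
    intro k
    have h1 := (ha k).analyticOrderAt_deriv_add_one
    simp only [h0 k, sub_zero] at h1
    have h2 : analyticOrderAt (deriv (h k)) t = analyticOrderAt (h (k + 1)) t := by
      rw [analyticOrderAt_congr (hder k)]
      have h3 : AnalyticAt ℂ (fun s => (d s)⁻¹) t := hda.inv hd0
      have h4 : analyticOrderAt (fun s => (d s)⁻¹) t = 0 := by
        rw [h3.analyticOrderAt_eq_zero]
        exact inv_ne_zero hd0
      have h5 := analyticOrderAt_mul (ha (k + 1)) h3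
      rw [h4, add_zero] at h5
      exact h5
    rw [← h2, h1]
  have hiter : ∀ n : ℕ, analyticOrderAt (h 0) t = analyticOrderAt (h n) t + n := by
    intro n
    induction n with
    | zero => simp
    | succ n ih =>
      rw [ih, hord n]
      push_cast
      rw [add_assoc, add_comm (1 : ℕ∞) (n : ℕ∞)]
  have htop : analyticOrderAt (h 0) t = ⊤ := by
    by_contra hne
    obtain ⟨n, hn⟩ := ENat.ne_top_iff_exists.1 hne
    have h1 := hiter (n + 1)
    rw [← hn] at h1
    have h2 : ((n + 1 : ℕ) : ℕ∞) ≤ (n : ℕ∞) := by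
      rw [h1]
      exact le_add_self
    have h3 : n + 1 ≤ n := by exact_mod_cast h2
    omega
  rwa [analyticOrderAt_eq_top] at htop

/-- polynomials over `OO` along analytic maps -/
theorem Sol_an {σ : Type} [Fintype σ] {E : Type*} [NormedAddCommGroup E] [NormedSpace ℂ E] {a : E → ℂ} {y : E → σ → ℂ} {q : E}
    (ha : AnalyticAt ℂ a q) (hy : AnalyticAt ℂ y q) (hO : ∀ f ∈ OO, AnalyticAt ℂ f (a q)) (R : MvPolynomial σ OO) :
    AnalyticAt ℂ (fun p => eval₂ (ev0 OO (a p)) (y p) R) q := by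
  induction R using MvPolynomial.induction_on with
  | C c =>
    simp only [eval₂_C]
    exact AnalyticAt.comp (g := (c : ℂ → ℂ)) (f := a) (hO c.1 c.2) ha
  | add p q hp hq =>
    simp only [eval₂_add]
    exact hp.add hq
  | mul_X p i hp =>
    simp only [eval₂_mul, eval₂_X]
    exact hp.mul (analyticAt_pi_iff.1 hy i)

/-- the derivative of a polynomial over `OO` along a curve -/
theorem Sol_dz (hO : IsSmallRing OO U) {w₁ : ℂ} (hw : w₁ ∈ U) {σ : Type} [Fintype σ] [DecidableEq σ] (R : MvPolynomial σ OO) :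
    ∃ R' : MvPolynomial σ OO, ∀ᶠ z in 𝓝 w₁, ∀ (y : ℂ → σ → ℂ) (y' : σ → ℂ), HasDerivAt y y' z →
      HasDerivAt (fun z => evO OO y R z) (evO OO y R' z + ∑ i, evO OO y (pderiv i R) z * y' i) z := by
  induction R using MvPolynomial.induction_on with
  | C a =>
    refine ⟨C ⟨deriv a, hO.deriv_mem _ a.2⟩, ?_⟩
    filter_upwards [(hO.an a.1 a.2 w₁ hw).eventually_analyticAt] with z hz y y' hy
    have h1 : (fun z => evO OO y (C a) z) = (a : ℂ → ℂ) := by
      funext z
      rw [evO, eval₂_C]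
      rfl
    have h2 : evO OO y (C (⟨deriv a, hO.deriv_mem _ a.2⟩ : OO)) z + ∑ i, evO OO y (pderiv i (C a)) z * y' i = deriv (a : ℂ → ℂ) z := by
      have h3 : ∀ i, evO OO y (pderiv i (C a)) z * y' i = 0 := fun i => by rw [pderiv_C, evO, eval₂_zero, zero_mul]
      rw [Finset.sum_congr rfl fun i _ => h3 i, Finset.sum_const_zero, add_zero, evO, eval₂_C]
      rfl
    rw [h1, h2]
    exact hz.differentiableAt.hasDerivAt
  | add p q hp hq =>
    obtain ⟨p', hp⟩ := hp
    obtain ⟨q', hq⟩ := hq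
    refine ⟨p' + q', ?_⟩
    filter_upwards [hp, hq] with z h1 h2 y y' hy
    have h3 := (h1 y y' hy).add (h2 y y' hy)
    have h4 : (fun z => evO OO y (p + q) z) = (fun z => evO OO y p z) + fun z => evO OO y q z := by
      funext z
      simp only [Pi.add_apply, evO, eval₂_add]
    rw [h4]
    refine h3.congr_deriv ?_
    simp only [map_add, evO, eval₂_add, add_mul, Finset.sum_add_distrib]
    ring
  | mul_X p i hp =>
    obtain ⟨p', hp⟩ := hp
    refine ⟨p' * X i, ?_⟩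
    filter_upwards [hp] with z h0 y y' hy
    have h1 : HasDerivAt (fun s => y s i) (y' i) z := hasDerivAt_pi.1 hy i
    have h2 := (h0 y y' hy).mul h1
    have h3 : (∑ j, evO OO y (pderiv j (p * X i)) z * y' j) = (∑ j, evO OO y (pderiv j p) z * y' j) * y z i + evO OO y p z * y' i := by
      have h4 : ∀ j, evO OO y (pderiv j (p * X i)) z * y' j =
          evO OO y (pderiv j p) z * y' j * y z i + (if j = i then evO OO y p z * y' j else 0) := by
        intro j
        rw [Derivation.leibniz, pderiv_X]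
        by_cases hj : j = i
        · subst hj
          simp [evO, eval₂_add, eval₂_mul]
          ring
        · rw [Pi.single_eq_of_ne (Ne.symm hj)]
          simp [hj, evO, eval₂_mul]
          ring
      rw [Finset.sum_congr rfl fun j _ => h4 j, Finset.sum_add_distrib, ← Finset.sum_mul]
      simp
    have h5 : (fun s => evO OO y (p * X i) s) = (fun s => evO OO y p s) * fun s => y s i := by
      funext s
      simp only [Pi.mul_apply, evO, eval₂_mul, eval₂_X]
    rw [h3, h5]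
    refine h2.congr_deriv ?_
    have h6 : evO OO y (p' * X i) z = evO OO y p' z * y z i := by
      simp only [evO, eval₂_mul, eval₂_X]
    rw [h6]
    ring

/-- the right side of the equation -/
noncomputable def SolV {σ : Type} (OO : Subalgebra ℂ (ℂ → ℂ)) (NN : σ → MvPolynomial σ OO) (δ : MvPolynomial σ ℂ) (z : ℂ) (y : σ → ℂ) : σ → ℂ :=
  fun s => eval₂ (ev0 OO z) y (NN s) / eval y δ

/-- the vector field, with the time as an additional coordinate -/
noncomputable def SolF {σ : Type} (OO : Subalgebra ℂ (ℂ → ℂ)) (NN : σ → MvPolynomial σ OO) (δ : MvPolynomial σ ℂ) (q : Option σ → ℂ) : Option σ → ℂ :=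
  fun o => o.elim 1 (SolV OO NN δ (q none) fun s => q (some s))

/-- the point `(z, y)` -/
def SolP {σ : Type} (z : ℂ) (y : σ → ℂ) : Option σ → ℂ := fun o => o.elim z y

theorem SolF_an {σ : Type} [Fintype σ] {NN : σ → MvPolynomial σ OO} {δ : MvPolynomial σ ℂ} {w₁ : ℂ} (hO : ∀ f ∈ OO, AnalyticAt ℂ f w₁)
    {y₀ : σ → ℂ} (h0 : eval y₀ δ ≠ 0) : AnalyticAt ℂ (SolF OO NN δ) (SolP w₁ y₀) := by
  rw [analyticAt_pi_iff]
  have h1 : ∀ o : Option σ, AnalyticAt ℂ (fun q : Option σ → ℂ => q o) (SolP w₁ y₀) := fun o =>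
    (ContinuousLinearMap.proj (R := ℂ) (φ := fun _ : Option σ => ℂ) o).analyticAt _
  have h2 : AnalyticAt ℂ (fun q : Option σ → ℂ => fun s : σ => q (some s)) (SolP w₁ y₀) := analyticAt_pi_iff.2 fun s => h1 (some s)
  intro o
  cases o with
  | none => exact analyticAt_const
  | some s =>
    refine AnalyticAt.div (f := fun q : Option σ → ℂ => eval₂ (ev0 OO (q none)) (fun s => q (some s)) (NN s))
      (g := fun q : Option σ → ℂ => eval (fun s => q (some s)) δ) ?_ ?_ h0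
    · exact Sol_an (a := fun q : Option σ → ℂ => q none) (y := fun q : Option σ → ℂ => fun s => q (some s)) (h1 none) h2 hO (NN s)
    · exact AnalyticAt.comp (g := fun y : σ → ℂ => eval y δ) (f := fun q : Option σ → ℂ => fun s : σ => q (some s))
        (AnalyticOnNhd.eval_mvPolynomial δ _ (Set.mem_univ _)) h2

/-- the local flow -/
theorem Sol_flow {σ : Type} [Fintype σ] {NN : σ → MvPolynomial σ OO} {δ : MvPolynomial σ ℂ} {w₁ : ℂ} (hO : ∀ f ∈ OO, AnalyticAt ℂ f w₁)
    {y₀ : σ → ℂ} (h0 : eval y₀ δ ≠ 0) : ∃ r > 0, ∃ H : ℂ × (σ → ℂ) → σ → ℂ, (∀ q ∈ ball w₁ r ×ˢ ball y₀ r, AnalyticAt ℂ H q) ∧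
      (∀ y ∈ ball y₀ r, H (w₁, y) = y) ∧
      ∀ y ∈ ball y₀ r, ∀ z ∈ ball w₁ r, HasDerivAt (fun z => H (z, y)) (SolV OO NN δ z (H (z, y))) z := by
  obtain ⟨r, hr, H, hHa, hH0, hHd⟩ := exists_flowG (SolF_an (NN := NN) hO h0)
  have hmem : ∀ y ∈ ball y₀ r, SolP w₁ y ∈ ball (SolP w₁ y₀) r := by
    intro y hy
    rw [mem_ball] at hy ⊢
    rw [dist_pi_lt_iff hr]
    intro o
    cases o with
    | none => simpa [SolP] using hr
    | some s => exact (dist_le_pi_dist y y₀ s).trans_lt hy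
  -- the time coordinate
  have htime : ∀ y ∈ ball y₀ r, ∀ z ∈ ball (0 : ℂ) r, H (z, SolP w₁ y) none = w₁ + z := by
    intro y hy z hz
    have h1 : ∀ z ∈ ball (0 : ℂ) r, HasDerivAt (fun z => H (z, SolP w₁ y) none - z) 0 z := by
      intro z hz
      have h2 := hasDerivAt_pi.1 (hHd _ (hmem y hy) z hz).2 none
      have h3 : HasDerivAt (fun z => H (z, SolP w₁ y) none) 1 z := h2
      have h4 := h3.sub (hasDerivAt_id z)
      rw [sub_self] at h4
      exact h4
    have h2 := isOpen_ball.is_const_of_deriv_eq_zero (convex_ball (0 : ℂ) r).isPreconnected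
      (fun z hz => (h1 z hz).differentiableAt.differentiableWithinAt) (fun z hz => (h1 z hz).deriv) hz (mem_ball_self hr)
    simp only [hH0 _ (hmem y hy)] at h2
    have h3 : SolP w₁ y none = w₁ := rfl
    rw [h3, sub_zero] at h2
    linear_combination h2
  refine ⟨r, hr, fun q => fun s => H (q.1 - w₁, SolP w₁ q.2) (some s), ?_, ?_, ?_⟩
  · rintro ⟨z, y⟩ ⟨hz, hy⟩
    have hz' : z - w₁ ∈ ball (0 : ℂ) r := by
      rw [mem_ball_zero_iff, ← dist_eq_norm]
      exact hz
    have h1 : AnalyticAt ℂ H (z - w₁, SolP w₁ y) := hHa _ ⟨hz', hmem y hy⟩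
    have h2 : AnalyticAt ℂ (fun q : ℂ × (σ → ℂ) => SolP w₁ q.2) (z, y) := by
      rw [analyticAt_pi_iff]
      intro o
      cases o with
      | none => exact analyticAt_const
      | some s => exact ((ContinuousLinearMap.proj (R := ℂ) (φ := fun _ : σ => ℂ) s).comp (ContinuousLinearMap.snd ℂ ℂ (σ → ℂ))).analyticAt _
    have h3 : AnalyticAt ℂ (fun q : ℂ × (σ → ℂ) => (q.1 - w₁, SolP w₁ q.2)) (z, y) := (analyticAt_fst.sub analyticAt_const).prod h2
    have h4 : AnalyticAt ℂ (fun q : ℂ × (σ → ℂ) => H (q.1 - w₁, SolP w₁ q.2)) (z, y) :=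
      AnalyticAt.comp (g := H) (f := fun q : ℂ × (σ → ℂ) => (q.1 - w₁, SolP w₁ q.2)) h1 h3
    rw [analyticAt_pi_iff]
    exact fun s => analyticAt_pi_iff.1 h4 (some s)
  · intro y hy
    funext s
    show H (w₁ - w₁, SolP w₁ y) (some s) = y s
    rw [sub_self, hH0 _ (hmem y hy)]
    rfl
  · intro y hy z hz
    have hz' : z - w₁ ∈ ball (0 : ℂ) r := by
      rw [mem_ball_zero_iff, ← dist_eq_norm]
      exact hz
    have h1 := (hHd _ (hmem y hy) _ hz').2
    have h2 : HasDerivAt (fun z => H (z - w₁, SolP w₁ y)) (SolF OO NN δ (H (z - w₁, SolP w₁ y))) z := by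
      have h3 := HasDerivAt.scomp (𝕜 := ℂ) z (g₁ := fun z => H (z, SolP w₁ y)) (h := fun z => z - w₁) h1 ((hasDerivAt_id z).sub_const w₁)
      rw [one_smul] at h3
      exact h3
    rw [hasDerivAt_pi]
    intro s
    have h3 := hasDerivAt_pi.1 h2 (some s)
    refine h3.congr_deriv ?_
    show SolV OO NN δ (H (z - w₁, SolP w₁ y) none) (fun s => H (z - w₁, SolP w₁ y) (some s)) s = _
    rw [htime y hy _ hz']
    have h4 : w₁ + (z - w₁) = z := by ring
    rw [h4]

/-- uniqueness of the solutions -/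
theorem Sol_uniq {σ : Type} [Fintype σ] {NN : σ → MvPolynomial σ OO} {δ : MvPolynomial σ ℂ} {w₁ : ℂ} (hO : ∀ f ∈ OO, AnalyticAt ℂ f w₁)
    {y₁ y₂ : ℂ → σ → ℂ} (h0 : eval (y₁ w₁) δ ≠ 0) (h12 : y₁ w₁ = y₂ w₁) (h1 : ∀ᶠ z in 𝓝 w₁, HasDerivAt y₁ (SolV OO NN δ z (y₁ z)) z)
    (h2 : ∀ᶠ z in 𝓝 w₁, HasDerivAt y₂ (SolV OO NN δ z (y₂ z)) z) : ∀ᶠ z in 𝓝 w₁, y₁ z = y₂ z := by
  have key : ∀ y : ℂ → σ → ℂ, (∀ᶠ z in 𝓝 w₁, HasDerivAt y (SolV OO NN δ z (y z)) z) →
      ∀ᶠ z in 𝓝 w₁, HasDerivAt (fun z => SolP z (y z)) (SolF OO NN δ (SolP z (y z))) z := by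
    intro y hy
    filter_upwards [hy] with z hz
    rw [hasDerivAt_pi]
    intro o
    cases o with
    | none => exact hasDerivAt_id z
    | some s => exact hasDerivAt_pi.1 hz s
  have h3 := ode_uniqueG (V := SolF OO NN δ) (y₁ := fun z => SolP z (y₁ z)) (y₂ := fun z => SolP z (y₂ z)) (t := w₁)
    (SolF_an hO h0) (by rw [h12]) (key y₁ h1) (key y₂ h2)
  filter_upwards [h3] with z hz
  funext s
  exact congrFun hz (some s)

/-- the local flow, where the denominator is not zero -/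
theorem Sol_flow' {σ : Type} [Fintype σ] {NN : σ → MvPolynomial σ OO} {δ : MvPolynomial σ ℂ} {w₁ : ℂ} (hO : ∀ f ∈ OO, AnalyticAt ℂ f w₁)
    {y₀ : σ → ℂ} (h0 : eval y₀ δ ≠ 0) {p : ℂ → Prop} (hp : ∀ᶠ z in 𝓝 w₁, p z) : ∃ r > 0, ∃ H : ℂ × (σ → ℂ) → σ → ℂ,
      (∀ q ∈ ball w₁ r ×ˢ ball y₀ r, AnalyticAt ℂ H q ∧ eval (H q) δ ≠ 0) ∧ (∀ z ∈ ball w₁ r, p z) ∧ (∀ y ∈ ball y₀ r, H (w₁, y) = y) ∧
      ∀ y ∈ ball y₀ r, ∀ z ∈ ball w₁ r, HasDerivAt (fun z => H (z, y)) (SolV OO NN δ z (H (z, y))) z := by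
  obtain ⟨r, hr, H, hHa, hH0, hHd⟩ := Sol_flow (NN := NN) hO h0
  have h1 : ContinuousAt (fun q => eval (H q) δ) (w₁, y₀) :=
    ContinuousAt.comp (g := fun y : σ → ℂ => eval y δ) (f := H) (AnalyticOnNhd.eval_mvPolynomial δ _ (Set.mem_univ _)).continuousAt
      (hHa (w₁, y₀) ⟨mem_ball_self hr, mem_ball_self hr⟩).continuousAt
  have h2 : ∀ᶠ q in 𝓝 (w₁, y₀), eval (H q) δ ≠ 0 := h1.eventually_ne (by
    show eval (H (w₁, y₀)) δ ≠ 0
    rw [hH0 y₀ (mem_ball_self hr)]
    exact h0)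
  obtain ⟨ε, hε, hball⟩ := Metric.eventually_nhds_iff_ball.1 h2
  obtain ⟨ε', hε', hball'⟩ := Metric.eventually_nhds_iff_ball.1 hp
  refine ⟨min r (min ε ε'), lt_min hr (lt_min hε hε'), H, ?_, ?_, ?_, ?_⟩
  · rintro ⟨z, y⟩ ⟨hz, hy⟩
    refine ⟨hHa _ ⟨ball_subset_ball (min_le_left _ _) hz, ball_subset_ball (min_le_left _ _) hy⟩, hball _ ?_⟩
    rw [mem_ball, Prod.dist_eq]
    exact max_lt ((mem_ball.1 hz).trans_le ((min_le_right _ _).trans (min_le_left _ _))) ((mem_ball.1 hy).trans_le ((min_le_right _ _).trans (min_le_left _ _)))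
  · exact fun z hz => hball' z (ball_subset_ball ((min_le_right _ _).trans (min_le_right _ _)) hz)
  · exact fun y hy => hH0 y (ball_subset_ball (min_le_left _ _) hy)
  · exact fun y hy z hz => hHd y (ball_subset_ball (min_le_left _ _) hy) z (ball_subset_ball (min_le_left _ _) hz)

end Pool.Agent.GL
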