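import Mathlib
import Pool.Agent.GA.AlgD

/-!
# GL SpA: derivations of a finitely generated field extension, pure algebra

`K (y)` over `K`: a transcendence basis `y (σ m)` among the generators; for every `s` a relation `R_s` in the variables `σ m`, `s` with `∂_s R_s (y) ≠ 0` (minimal polynomial, characteristic `0`);
the derivation `D m` of `K (y)` over `K` with `D m (y (σ l)) = δ`, `A m s = D m (y s)`.  Last claim: the relation `R_s` determines `D s`.  (Compare GA/AlgD: `exists_dual`.)
-/

set_option autoImplicit false

open MvPolynomial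

open scoped TensorProduct

namespace Pool.Agent.GL

private theorem spA_smooth {k A E : Type*} [Field k] [CharZero k] [CommRing A] [IsDomain A] [Field E] [Algebra k A] [Algebra k E] [Algebra A E] [IsScalarTower k A E]
    (hinj : Function.Injective (algebraMap A E)) : Algebra.FormallySmooth A E := by
  have : FaithfulSMul A E := (faithfulSMul_iff_algebraMap_injective A E).2 hinj
  let K := FractionRing A
  let _ : Algebra K E := FractionRing.liftAlgebra A E
  have : IsScalarTower A K E := FractionRing.isScalarTower_liftAlgebra A E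
  have : CharZero E := charZero_of_injective_algebraMap (algebraMap k E).injective
  have : CharZero A := charZero_of_injective_algebraMap (algebraMap k A).injective
  have : CharZero K := charZero_of_injective_algebraMap (FaithfulSMul.algebraMap_injective A K)
  have h1 : Algebra.FormallySmooth A K := .of_isLocalization (nonZeroDivisors A)
  obtain ⟨s, hs⟩ := exists_isTranscendenceBasis K E
  have h2 : Algebra.IsAlgebraic (IntermediateField.adjoin K (Set.range ((↑) : s → E))) E := hs.isAlgebraic_field
  have h3 : Algebra.IsSeparable (IntermediateField.adjoin K (Set.range ((↑) : s → E))) E := inferInstance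
  have h4 : Algebra.FormallySmooth K E := .of_algebraicIndependent_of_isSeparable hs.1
  exact .comp A K E

private theorem spA_ext {k A E : Type*} [Field k] [CharZero k] [CommRing A] [IsDomain A] [Field E] [Algebra k A] [Algebra k E] [Algebra A E] [IsScalarTower k A E]
    (hinj : Function.Injective (algebraMap A E)) (d : Derivation k A E) : ∃ D : Derivation k E E, ∀ a, D (algebraMap A E a) = d a := by
  have := spA_smooth (k := k) (A := A) (E := E) hinj
  have h1 : Function.Injective (KaehlerDifferential.mapBaseChange k A E) := by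
    rw [← LinearMap.ker_eq_bot, LinearMap.ker_eq_bot']
    intro x hx
    obtain ⟨y, hy⟩ := (Algebra.H1Cotangent.exact_δ_mapBaseChange k A E x).1 hx
    rw [← hy, Subsingleton.elim y 0, map_zero]
  obtain ⟨p, hp⟩ := LinearMap.exists_leftInverse_of_injective (KaehlerDifferential.mapBaseChange k A E) (LinearMap.ker_eq_bot.2 h1)
  let l : Ω[A⁄k] →ₗ[A] E := d.liftKaehlerDifferential
  let l' : Ω[E⁄k] →ₗ[E] E := (l.liftBaseChange E).comp p
  refine ⟨l'.compDer (KaehlerDifferential.D k E), fun a => ?_⟩
  have h2 : p (KaehlerDifferential.D k E (algebraMap A E a)) = 1 ⊗ₜ[A] KaehlerDifferential.D k A a := by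
    have h3 := LinearMap.congr_fun hp (1 ⊗ₜ[A] KaehlerDifferential.D k A a)
    rw [LinearMap.comp_apply, KaehlerDifferential.mapBaseChange_tmul, one_smul, KaehlerDifferential.map_D, LinearMap.id_apply] at h3
    exact h3
  change l.liftBaseChange E (p (KaehlerDifferential.D k E (algebraMap A E a))) = _
  rw [h2, LinearMap.liftBaseChange_tmul, one_smul]
  exact Derivation.liftKaehlerDifferential_comp_D d a

/-- If `V` satisfies the linearised equation of every algebraic relation of `x` over `k`, then there is a derivation over `k` with `D (x b) = V b`. -/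
theorem spA_der {k σ E : Type*} [Fintype σ] [Field k] [CharZero k] [Field E] [Algebra k E] (x V : σ → E)
    (h : ∀ R : MvPolynomial σ k, aeval x R = 0 → ∑ b, aeval x (pderiv b R) * V b = 0) :
    ∃ D : Derivation k E E, ∀ b, D (x b) = V b := by
  classical
  let ψ : MvPolynomial σ k →ₐ[k] E := aeval x
  let δ : MvPolynomial σ k → E := fun R => ∑ b, ψ (pderiv b R) * V b
  have hδ : ∀ R R', ψ R = ψ R' → δ R = δ R' := by
    intro R R' hRR
    have h1 := h (R - R') (by
      show ψ (R - R') = 0
      rw [map_sub, hRR, sub_self])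
    have h2 : δ R - δ R' = 0 := by
      rw [← h1, ← Finset.sum_sub_distrib]
      refine Finset.sum_congr rfl fun b _ => ?_
      show ψ (pderiv b R) * V b - ψ (pderiv b R') * V b = ψ (pderiv b (R - R')) * V b
      rw [map_sub, map_sub, sub_mul]
    exact sub_eq_zero.1 h2
  have hadd : ∀ R R', δ (R + R') = δ R + δ R' := by
    intro R R'
    rw [← Finset.sum_add_distrib]
    refine Finset.sum_congr rfl fun b _ => ?_
    rw [map_add, map_add, add_mul]
  have hmul : ∀ R R', δ (R * R') = ψ R * δ R' + ψ R' * δ R := by
    intro R R'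
    rw [Finset.mul_sum, Finset.mul_sum, ← Finset.sum_add_distrib]
    refine Finset.sum_congr rfl fun b _ => ?_
    rw [Derivation.leibniz, smul_eq_mul, smul_eq_mul, map_add, map_mul, map_mul]
    ring
  have hX : ∀ b, δ (X b) = V b := by
    intro b
    show ∑ b', ψ (pderiv b' (X b)) * V b' = V b
    rw [Finset.sum_eq_single b]
    · rw [pderiv_X_self, map_one, one_mul]
    · intro b' _ hb
      rw [pderiv_X_of_ne hb.symm, map_zero, zero_mul]
    · intro hb
      exact absurd (Finset.mem_univ b) hb
  have hsmul : ∀ (c : k) R, δ (c • R) = c • δ R := by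
    intro c R
    rw [Finset.smul_sum]
    refine Finset.sum_congr rfl fun b _ => ?_
    rw [(pderiv b).map_smul, map_smul, smul_mul_assoc]
  let A : Subalgebra k E := ψ.range
  let r : A → MvPolynomial σ k := fun a => a.2.choose
  have hr : ∀ a : A, ψ (r a) = a := fun a => a.2.choose_spec
  let d : Derivation k A E := Derivation.mk'
    { toFun := fun a => δ (r a)
      map_add' := fun a b => by
        rw [← hadd]
        refine hδ _ _ ?_
        rw [map_add, hr, hr, hr]
        rfl
      map_smul' := fun c a => by
        rw [RingHom.id_apply, ← hsmul]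
        refine hδ _ _ ?_
        rw [map_smul, hr, hr]
        rfl }
    (fun a b => by
      show δ (r (a * b)) = (a : E) * δ (r b) + (b : E) * δ (r a)
      rw [← hr a, ← hr b, ← hmul]
      refine hδ _ _ ?_
      rw [map_mul, hr, hr, hr]
      rfl)
  have hd : ∀ R, d ⟨ψ R, R, rfl⟩ = δ R := fun R => hδ _ _ (hr ⟨ψ R, R, rfl⟩)
  obtain ⟨D, hD⟩ := spA_ext (A := A) (E := E) Subtype.val_injective d
  have hD' : ∀ R, D (ψ R) = δ R := fun R => (hD ⟨ψ R, R, rfl⟩).trans (hd R)
  refine ⟨D, fun b => ?_⟩
  have h1 := hD' (X b)
  rw [hX] at h1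
  have h2 : ψ (X b) = x b := aeval_X x b
  rw [h2] at h1
  exact h1

open Pool.Agent.GA in
theorem exists_dualP {M : Type*} [Field M] [CharZero M] (K : Subfield M) {τ : Type} [Fintype τ] (y : τ → M) :
    ∃ (r : ℕ) (σ : Fin r → τ) (A : Fin r → τ → M), (∀ m s, A m s ∈ IntermediateField.adjoin K (Set.range y)) ∧ (∀ m l, A m (σ l) = if m = l then 1 else 0) ∧
      (∀ m (R : MvPolynomial τ K), aeval y R = 0 → ∑ s, aeval y (pderiv s R) * A m s = 0) ∧
      ∀ D : τ → M, (∀ R : MvPolynomial τ K, aeval y R = 0 → ∑ s, aeval y (pderiv s R) * D s = 0) → ∀ s, D s = ∑ m, D (σ m) * A m s := by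
  classical
  have : CharZero K := (algebraMap K M).charZero
  obtain ⟨s, hs⟩ := (AlgebraicIndependent.matroid K M).exists_isBasis (Set.range y)
  obtain ⟨hs1, hs2, hs3⟩ := AlgebraicIndependent.matroid_isBasis_iff.1 hs
  have hfin : s.Finite := (Set.finite_range y).subset hs2
  have := hfin.fintype
  let e : Fin (Fintype.card s) ≃ s := (Fintype.equivFin s).symm
  choose σ hσ using fun l : Fin (Fintype.card s) => hs2 (e l).2
  have ha : AlgebraicIndependent K fun l => y (σ l) := by
    have h3 : AlgebraicIndependent K ((↑) : s → M) := hs1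
    have h4 := h3.comp e e.injective
    have h5 : (fun l => y (σ l)) = ((↑) : s → M) ∘ e := funext fun l => hσ l
    rw [h5]
    exact h4
  let L : IntermediateField K M := IntermediateField.adjoin K (Set.range y)
  let y' : τ → L := fun t => ⟨y t, IntermediateField.subset_adjoin K _ ⟨t, rfl⟩⟩
  have hyy : ∀ R : MvPolynomial τ K, ((aeval y' R : L) : M) = aeval y R := by
    intro R
    have h1 := MvPolynomial.aeval_algebraMap_apply (B := M) y' R
    exact h1.symm
  have ha' : AlgebraicIndependent K fun l => y' (σ l) := AlgebraicIndependent.of_comp L.val ha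
  choose D hD using fun m : Fin (Fintype.card s) => AlgD.exists_derivation ha' fun l => if m = l then (1 : L) else 0
  have hDR : ∀ m (R : MvPolynomial τ K), aeval y R = 0 → ∑ t, aeval y (pderiv t R) * (D m (y' t) : M) = 0 := by
    intro m R hR
    have h1 : (aeval y' R : L) = 0 := Subtype.ext ((hyy R).trans hR)
    have h2 := AlgD.der_aeval (D m) y' R
    rw [h1, map_zero] at h2
    have h3 := congrArg (fun z : L => (z : M)) h2
    simp only [ZeroMemClass.coe_zero, AddSubmonoidClass.coe_finsetSum, MulMemClass.coe_mul, hyy] at h3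
    exact h3.symm
  have hδ : ∀ m l, ((D m (y' (σ l)) : L) : M) = if m = l then 1 else 0 := by
    intro m l
    rw [hD]
    split_ifs <;> rfl
  refine ⟨Fintype.card s, σ, fun m t => (D m (y' t) : M), fun m t => (D m (y' t)).2, hδ, hDR, fun E hE t => ?_⟩
  let E₀ : τ → M := fun t => E t - ∑ m, E (σ m) * (D m (y' t) : M)
  obtain ⟨F, hF⟩ := spA_der (k := K) y E₀ (by
    intro R hR
    have h1 : ∑ b, aeval y (pderiv b R) * E₀ b = ∑ b, aeval y (pderiv b R) * E b -
        ∑ m, E (σ m) * ∑ b, aeval y (pderiv b R) * (D m (y' b) : M) := by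
      simp only [E₀, mul_sub, Finset.sum_sub_distrib, Finset.mul_sum]
      congr 1
      rw [Finset.sum_comm]
      refine Finset.sum_congr rfl fun m _ => Finset.sum_congr rfl fun b _ => ?_
      ring
    rw [h1, hE R hR, zero_sub, neg_eq_zero]
    exact Finset.sum_eq_zero fun m _ => by rw [hDR m R hR, mul_zero])
  have hE0 : ∀ l, E₀ (σ l) = 0 := by
    intro l
    show E (σ l) - ∑ m, E (σ m) * (D m (y' (σ l)) : M) = 0
    rw [Finset.sum_eq_single l]
    · rw [hδ, if_pos rfl, mul_one, sub_self]
    · intro m _ hm
      rw [hδ, if_neg hm, mul_zero]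
    · intro h
      exact absurd (Finset.mem_univ l) h
  let F' : Derivation ℤ M M := F.restrictScalars ℤ
  have hF' : ∀ x, F' x = F x := fun _ => rfl
  have hA : ∀ x ∈ Algebra.adjoin K s, F' x = 0 := by
    intro x hx
    induction hx using Algebra.adjoin_induction with
    | mem x hx =>
      have h3 : y (σ (e.symm ⟨x, hx⟩)) = x := by
        rw [hσ, Equiv.apply_symm_apply]
      rw [← h3, hF', hF]
      exact hE0 _
    | algebraMap c => exact F.map_algebraMap c
    | add x z _ _ hx hz => rw [map_add, hx, hz, add_zero]
    | mul x z _ _ hx hz => rw [F'.leibniz, hx, hz, smul_zero, smul_zero, add_zero]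
  have h3 : F' (y t) = 0 :=
    AlgD.eq_zero_of_isAlgebraic F' (A := Algebra.adjoin K s) (fun a => hA a a.2) Subtype.val_injective (hs3 _ ⟨_, rfl⟩)
  rw [hF', hF] at h3
  exact sub_eq_zero.1 h3

end Pool.Agent.GL
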