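import Pool.Agent.GL.SpA
import Pool.Agent.GA.Ger

/-!
# GL SpC: a polynomial vector field over `OO` which is tangent to all relations, with the value `(V, V')` at `w₁`

`M = Gm z₁`, `K` = the subfield generated by the germs of `OO`, `y` = the germs of `(x, x')` (`gm_evO`, `gm_inj`); `exists_dualP`; `(V, V')` satisfies the linearised relations over `OO` (`RelP`), so over `K`.  Common denominator: `A m s = A' m s (y) / q (y)`,
`q`, `A' m s : MvPolynomial (Ph N) OO`, `q (y) ≠ 0` near `z₁` off `z₁`.  So `q (V, V')_s = ∑ m, (V, V')_(σ m) A' m s (y)` near `z₁`.  For `w₁` near `z₁` with `q (y (w₁)) ≠ 0`: `A s = ∑ m, C (c m) * A' m s`, `c m = (V, V')_(σ m) (w₁) / q (y (w₁)) ∈ ℂ`.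
A relation near `w₁` holds on a ball around `z₁` (fixed ball where `x` is analytic, contained in `U`; identity theorem), so near `z₁`, and its linearisation by `A` holds near `z₁`, so on the ball.
-/

set_option autoImplicit false

open MvPolynomial Topology Filter Metric
open Pool.Agent.GG Pool.Agent.GA

namespace Pool.Agent.GL

/-! ## denominators -/

section

variable {M : Type*} [Field M] {A : Type*} [CommRing A] (φ : A →+* M)

private theorem spc_den (s : Finset (Subfield.closure (Set.range φ))) : ∃ b : A, φ b ≠ 0 ∧ ∀ c ∈ s, ∃ a : A, φ b * c = φ a := by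
  classical
  induction s using Finset.induction_on with
  | empty => exact ⟨1, by rw [map_one]; exact one_ne_zero, fun c hc => absurd hc (Finset.notMem_empty c)⟩
  | insert c s hc ih =>
    obtain ⟨b, hb, hbs⟩ := ih
    obtain ⟨u, hu, v, hv, huv⟩ := Subfield.mem_closure_iff.1 c.2
    have hr : Subring.closure (Set.range φ) = φ.range := by
      rw [← RingHom.coe_range, Subring.closure_eq]
    rw [hr] at hu hv
    obtain ⟨u', rfl⟩ := hu
    obtain ⟨v', rfl⟩ := hv
    by_cases hv0 : φ v' = 0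
    · refine ⟨b, hb, fun c' hc' => ?_⟩
      rcases Finset.mem_insert.1 hc' with rfl | hc'
      · refine ⟨0, ?_⟩
        rw [← huv, hv0, div_zero, mul_zero, map_zero]
      · exact hbs c' hc'
    · refine ⟨b * v', by rw [map_mul]; exact mul_ne_zero hb hv0, fun c' hc' => ?_⟩
      rcases Finset.mem_insert.1 hc' with rfl | hc'
      · refine ⟨b * u', ?_⟩
        rw [← huv, map_mul, map_mul]
        field_simp
      · obtain ⟨a, ha⟩ := hbs c' hc'
        refine ⟨a * v', ?_⟩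
        rw [map_mul, map_mul, ← ha]
        ring

/-- the corestriction of `φ` -/
private def cor : A →+* Subfield.closure (Set.range φ) := φ.codRestrict _ fun a => Subfield.subset_closure ⟨a, rfl⟩

private theorem cor_comp : (algebraMap (Subfield.closure (Set.range φ)) M).comp (cor φ) = φ := RingHom.ext fun _ => rfl

private theorem aeval_cor {τ : Type} (y : τ → M) (R : MvPolynomial τ A) : aeval y (map (cor φ) R) = eval₂ φ y R := by
  rw [aeval_def, eval₂_map, cor_comp]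

private theorem spc_clear {τ : Type} (R : MvPolynomial τ (Subfield.closure (Set.range φ))) :
    ∃ (b : A) (R₀ : MvPolynomial τ A), φ b ≠ 0 ∧ map (cor φ) R₀ = C (cor φ b) * R := by
  classical
  obtain ⟨b, hb, h⟩ := spc_den φ (R.support.image R.coeff)
  have h' : ∀ m, ∃ a : A, φ b * ((coeff m R : Subfield.closure (Set.range φ)) : M) = φ a := by
    intro m
    by_cases hm : m ∈ R.support
    · exact h _ (Finset.mem_image_of_mem _ hm)
    · refine ⟨0, ?_⟩
      rw [notMem_support_iff.1 hm]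
      simp
  choose a ha using h'
  refine ⟨b, ∑ m ∈ R.support, monomial m (a m), hb, ?_⟩
  ext m
  rw [coeff_map, coeff_C_mul, coeff_sum]
  simp only [coeff_monomial]
  rw [Finset.sum_ite_eq' R.support m]
  by_cases hm : m ∈ R.support
  · rw [if_pos hm]
    exact (ha m).symm
  · rw [if_neg hm, notMem_support_iff.1 hm]
    simp

/-- the linearised relations over the subfield -/
private theorem spc_lin {τ : Type} [Fintype τ] (y D : τ → M) (h : ∀ R : MvPolynomial τ A, eval₂ φ y R = 0 → ∑ s, eval₂ φ y (pderiv s R) * D s = 0)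
    (R : MvPolynomial τ (Subfield.closure (Set.range φ))) (hR : aeval y R = 0) : ∑ s, aeval y (pderiv s R) * D s = 0 := by
  obtain ⟨b, R₀, hb, hR₀⟩ := spc_clear φ R
  have h1 : eval₂ φ y R₀ = 0 := by
    rw [← aeval_cor, hR₀, map_mul, hR, mul_zero]
  have h2 := h R₀ h1
  have h3 : ∀ s, eval₂ φ y (pderiv s R₀) * D s = φ b * (aeval y (pderiv s R) * D s) := by
    intro s
    have h4 : map (cor φ) (pderiv s R₀) = C (cor φ b) * pderiv s R := by
      rw [← pderiv_map, hR₀, pderiv_C_mul]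
    rw [← aeval_cor, h4, map_mul, aeval_C, mul_assoc]
    rfl
  rw [Finset.sum_congr rfl fun s _ => h3 s, ← Finset.mul_sum] at h2
  exact (mul_eq_zero.1 h2).resolve_left hb

private theorem spc_frac {τ : Type} (y : τ → M) {x : M} (hx : x ∈ IntermediateField.adjoin (Subfield.closure (Set.range φ)) (Set.range y)) :
    ∃ P Q : MvPolynomial τ A, eval₂ φ y Q ≠ 0 ∧ x * eval₂ φ y Q = eval₂ φ y P := by
  obtain ⟨r, s, rfl⟩ := (IntermediateField.mem_adjoin_range_iff _ _ _).1 hx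
  by_cases hs : aeval y s = 0
  · refine ⟨0, 1, by rw [eval₂_one]; exact one_ne_zero, ?_⟩
    rw [hs, div_zero, zero_mul, eval₂_zero]
  obtain ⟨b, R₀, hb, hR⟩ := spc_clear φ r
  obtain ⟨c, S₀, hc, hS⟩ := spc_clear φ s
  have h1 : eval₂ φ y R₀ = φ b * aeval y r := by
    rw [← aeval_cor, hR, map_mul, aeval_C]
    rfl
  have h2 : eval₂ φ y S₀ = φ c * aeval y s := by
    rw [← aeval_cor, hS, map_mul, aeval_C]
    rfl
  refine ⟨R₀ * C c, S₀ * C b, ?_, ?_⟩
  · rw [eval₂_mul, eval₂_C, h2]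
    exact mul_ne_zero (mul_ne_zero hc hs) hb
  · rw [eval₂_mul, eval₂_C, eval₂_mul, eval₂_C, h1, h2]
    field_simp

private theorem spc_common {τ κ : Type} [Fintype κ] (y : τ → M) {x : κ → M}
    (hx : ∀ i, x i ∈ IntermediateField.adjoin (Subfield.closure (Set.range φ)) (Set.range y)) :
    ∃ (Q : MvPolynomial τ A) (P : κ → MvPolynomial τ A), eval₂ φ y Q ≠ 0 ∧ ∀ i, x i * eval₂ φ y Q = eval₂ φ y (P i) := by
  classical
  choose P Q hQ hP using fun i => spc_frac φ y (hx i)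
  refine ⟨∏ i, Q i, fun i => P i * ∏ j ∈ Finset.univ.erase i, Q j, ?_, fun i => ?_⟩
  · have h1 : eval₂ φ y (∏ i, Q i) = ∏ i, eval₂ φ y (Q i) := map_prod (eval₂Hom φ y) _ _
    rw [h1]
    exact Finset.prod_ne_zero_iff.2 fun i _ => hQ i
  · rw [eval₂_mul, ← hP i, ← Finset.mul_prod_erase Finset.univ Q (Finset.mem_univ i), eval₂_mul]
    ring

end

variable {N : ℕ} {OO : Subalgebra ℂ (ℂ → ℂ)} {U : Set ℂ}

private theorem gm_eq_zero {z₀ : ℂ} {f : ℂ → ℂ} (hf : AnalyticAt ℂ f z₀) : gm z₀ f hf = 0 ↔ ∀ᶠ z in 𝓝 z₀, f z = 0 := by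
  have h1 : gm z₀ (fun _ => 0) analyticAt_const = 0 := by
    rw [gm_const 0 analyticAt_const (Eventually.of_forall fun _ => rfl), map_zero]
  rw [← h1, gm_inj]
  rfl

private theorem gm_sum {z₀ : ℂ} {κ : Type*} (s : Finset κ) {f : κ → ℂ → ℂ} (hf : ∀ i, AnalyticAt ℂ (f i) z₀) (h : AnalyticAt ℂ (fun z => ∑ i ∈ s, f i z) z₀) :
    gm z₀ (fun z => ∑ i ∈ s, f i z) h = ∑ i ∈ s, gm z₀ (f i) (hf i) := by
  classical
  induction s using Finset.induction_on with
  | empty =>
    rw [Finset.sum_empty, gm_eq_zero]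
    exact Eventually.of_forall fun z => Finset.sum_empty
  | insert a s ha ih =>
    have h1 : AnalyticAt ℂ (fun z => ∑ i ∈ s, f i z) z₀ := Finset.analyticAt_fun_sum _ fun i _ => hf i
    rw [Finset.sum_insert ha, ← ih h1]
    exact gm_add (hf a) h1 h (Eventually.of_forall fun z => Finset.sum_insert ha)

theorem exists_vf (hO : IsSmallRing OO U) (hU : IsOpen U) {x V : ℂ → Fin (N + 1) → ℂ} {z₁ : ℂ} (hz : z₁ ∈ U) (hx : AnalyticAt ℂ x z₁) (hV : AnalyticAt ℂ V z₁)
    (hR : RelP OO x V z₁) :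
    ∀ᶠ w₁ in 𝓝[≠] z₁, ∃ A : Ph N → MvPolynomial (Ph N) OO,
      (∀ R : MvPolynomial (Ph N) OO, (∀ᶠ w in 𝓝 w₁, evO OO (fun w => pt (x w) (deriv x w)) R w = 0) →
        ∀ᶠ w in 𝓝 w₁, ∑ i, evO OO (fun w => pt (x w) (deriv x w)) (pderiv i R) w * evO OO (fun w => pt (x w) (deriv x w)) (A i) w = 0) ∧
      ∀ s, evO OO (fun w => pt (x w) (deriv x w)) (A s) w₁ = pt (V w₁) (deriv V w₁) s := by
  classical
  -- the ball
  have hU1 : ∀ᶠ w in 𝓝 z₁, w ∈ U := hU.mem_nhds hz
  obtain ⟨δ, hδ, hball⟩ := Metric.eventually_nhds_iff_ball.1 (hU1.and hx.eventually_analyticAt)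
  set Y : ℂ → Ph N → ℂ := fun w => pt (x w) (deriv x w) with hYdef
  have hYan : ∀ w, AnalyticAt ℂ x w → AnalyticAt ℂ Y w := by
    intro w hw
    rw [analyticAt_pi_iff]
    rintro (b | b)
    · exact (analyticAt_pi_iff.1 hw) b
    · exact (analyticAt_pi_iff.1 hw.deriv) b
  have hev : ∀ R : MvPolynomial (Ph N) OO, AnalyticOnNhd ℂ (evO OO Y R) (ball z₁ δ) := by
    intro R w hw
    obtain ⟨φ, -, h⟩ := gm_evO (OO := OO) (fun g hg => hO.an g hg w (hball w hw).1) (hYan w (hball w hw).2)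
    exact (h R).choose
  -- the identity theorem on the ball
  have hid : ∀ f : ℂ → ℂ, AnalyticOnNhd ℂ f (ball z₁ δ) → ∀ a ∈ ball z₁ δ, ∀ b ∈ ball z₁ δ, (∀ᶠ w in 𝓝 a, f w = 0) → ∀ᶠ w in 𝓝 b, f w = 0 := by
    intro f hf a ha b hb h
    have h1 := hf.eqOn_zero_of_preconnected_of_eventuallyEq_zero (convex_ball z₁ δ).isPreconnected ha h
    filter_upwards [isOpen_ball.mem_nhds hb] with w hw
    exact h1 hw
  have hz1 : z₁ ∈ ball z₁ δ := mem_ball_self hδ
  have hO' : ∀ g ∈ OO, AnalyticAt ℂ g z₁ := fun g hg => hO.an g hg z₁ hz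
  have hy : AnalyticAt ℂ Y z₁ := hYan z₁ hx
  have hv : AnalyticAt ℂ (fun w => pt (V w) (deriv V w)) z₁ := by
    rw [analyticAt_pi_iff]
    rintro (b | b)
    · exact (analyticAt_pi_iff.1 hV) b
    · exact (analyticAt_pi_iff.1 hV.deriv) b
  obtain ⟨φ, hφ, hφR⟩ := gm_evO (OO := OO) hO' hy
  set y : Ph N → Gm z₁ := fun s => gm z₁ (fun z => Y z s) ((analyticAt_pi_iff.mp hy) s) with hydef
  set D : Ph N → Gm z₁ := fun s => gm z₁ (fun z => pt (V z) (deriv V z) s) ((analyticAt_pi_iff.mp hv) s) with hDdef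
  have hchar : CharZero (Gm z₁) := charZero_of_injective_algebraMap (algebraMap ℂ (Gm z₁)).injective
  have hzero : ∀ R : MvPolynomial (Ph N) OO, eval₂ φ y R = 0 ↔ ∀ᶠ w in 𝓝 z₁, evO OO Y R w = 0 := by
    intro R
    obtain ⟨h1, h2⟩ := hφR R
    rw [h2, gm_eq_zero]
  obtain ⟨r, σ, A, hA1, hA2, hA3, hA4⟩ := exists_dualP (Subfield.closure (Set.range φ)) y
  -- `D` satisfies the linearised relations
  have hD : ∀ R : MvPolynomial (Ph N) (Subfield.closure (Set.range φ)), aeval y R = 0 → ∑ s, aeval y (pderiv s R) * D s = 0 := by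
    refine spc_lin φ y D fun R₀ h1 => ?_
    have h2 := hR R₀ ((hzero R₀).1 h1)
    have h5 : ∀ s, AnalyticAt ℂ (fun w => evO OO Y (pderiv s R₀) w * pt (V w) (deriv V w) s) z₁ :=
      fun s => (hev _ z₁ hz1).mul ((analyticAt_pi_iff.mp hv) s)
    have h6 : ∀ s, eval₂ φ y (pderiv s R₀) * D s = gm z₁ (fun w => evO OO Y (pderiv s R₀) w * pt (V w) (deriv V w) s) (h5 s) := by
      intro s
      obtain ⟨h7, h8⟩ := hφR (pderiv s R₀)
      rw [h8]
      exact (gm_mul h7 ((analyticAt_pi_iff.mp hv) s) (h5 s) (Eventually.of_forall fun _ => rfl)).symm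
    rw [Finset.sum_congr rfl fun s _ => h6 s, ← gm_sum Finset.univ h5 (Finset.analyticAt_fun_sum _ fun s _ => h5 s), gm_eq_zero]
    exact h2
  have hDA := hA4 D hD
  -- the common denominator
  obtain ⟨Q, P, hQ, hP⟩ := spc_common φ y (κ := Fin r × Ph N) (x := fun i => A i.1 i.2) fun i => hA1 i.1 i.2
  have hQ' : ∀ᶠ w in 𝓝[≠] z₁, evO OO Y Q w ≠ 0 := by
    rcases (hev Q z₁ hz1).eventually_eq_zero_or_eventually_ne_zero with h | h
    · exact absurd ((hzero Q).2 h) hQ
    · exact h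
  -- the values
  have hval : ∀ s, ∀ᶠ w in 𝓝 z₁, evO OO Y Q w * pt (V w) (deriv V w) s = ∑ m, pt (V w) (deriv V w) (σ m) * evO OO Y (P (m, s)) w := by
    intro s
    have h1 : D s * eval₂ φ y Q = ∑ m, D (σ m) * eval₂ φ y (P (m, s)) := by
      rw [hDA s, Finset.sum_mul]
      refine Finset.sum_congr rfl fun m _ => ?_
      rw [← hP (m, s), mul_assoc]
    have hl : AnalyticAt ℂ (fun w => evO OO Y Q w * pt (V w) (deriv V w) s) z₁ := (hev Q z₁ hz1).mul ((analyticAt_pi_iff.mp hv) s)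
    have h2 : ∀ m, AnalyticAt ℂ (fun w => pt (V w) (deriv V w) (σ m) * evO OO Y (P (m, s)) w) z₁ :=
      fun m => ((analyticAt_pi_iff.mp hv) (σ m)).mul (hev _ z₁ hz1)
    have h3 : gm z₁ _ hl = gm z₁ (fun w => ∑ m, pt (V w) (deriv V w) (σ m) * evO OO Y (P (m, s)) w) (Finset.analyticAt_fun_sum _ fun m _ => h2 m) := by
      rw [gm_sum Finset.univ h2]
      obtain ⟨h7, h8⟩ := hφR Q
      rw [gm_mul h7 ((analyticAt_pi_iff.mp hv) s) hl (Eventually.of_forall fun _ => rfl), ← h8, mul_comm]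
      rw [show gm z₁ (fun z => pt (V z) (deriv V z) s) ((analyticAt_pi_iff.mp hv) s) = D s from rfl, h1]
      refine Finset.sum_congr rfl fun m _ => ?_
      obtain ⟨h9, h10⟩ := hφR (P (m, s))
      rw [h10]
      exact (gm_mul ((analyticAt_pi_iff.mp hv) (σ m)) h9 (h2 m) (Eventually.of_forall fun _ => rfl)).symm
    exact gm_inj.1 h3
  have hball0 : ∀ᶠ w in 𝓝 z₁, w ∈ ball z₁ δ := isOpen_ball.mem_nhds hz1
  have hball' : ∀ᶠ w in 𝓝[≠] z₁, w ∈ ball z₁ δ := hball0.filter_mono nhdsWithin_le_nhds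
  filter_upwards [hQ', (eventually_all.2 hval).filter_mono nhdsWithin_le_nhds, hball'] with w₁ hQw hvw hw₁
  refine ⟨fun s => ∑ m, C (algebraMap ℂ OO (pt (V w₁) (deriv V w₁) (σ m) / evO OO Y Q w₁)) * P (m, s), ?_, ?_⟩
  · intro R hR0
    have h1 := hid _ (hev R) w₁ hw₁ z₁ hz1 hR0
    have h2 : aeval y (map (cor φ) R) = 0 := by
      rw [aeval_cor]
      exact (hzero R).2 h1
    -- the relation for the coefficients
    have h3 : ∀ m, ∀ᶠ w in 𝓝 z₁, evO OO Y (∑ s, pderiv s R * P (m, s)) w = 0 := by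
      intro m
      rw [← hzero]
      have h4 := hA3 m _ h2
      have h5 : eval₂ φ y (∑ s, pderiv s R * P (m, s)) = ∑ s, eval₂ φ y (pderiv s R) * eval₂ φ y (P (m, s)) := by
        have h6 : eval₂ φ y (∑ s, pderiv s R * P (m, s)) = ∑ s, eval₂ φ y (pderiv s R * P (m, s)) := map_sum (eval₂Hom φ y) _ _
        rw [h6]
        exact Finset.sum_congr rfl fun s _ => eval₂_mul _ _
      rw [h5]
      have h7 : ∀ s, eval₂ φ y (pderiv s R) * eval₂ φ y (P (m, s)) = aeval y (pderiv s (map (cor φ) R)) * A m s * eval₂ φ y Q := by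
        intro s
        rw [← hP (m, s), pderiv_map, aeval_cor]
        ring
      rw [Finset.sum_congr rfl fun s _ => h7 s, ← Finset.sum_mul, h4, zero_mul]
    have hlin : ∀ w, (∑ i, evO OO Y (pderiv i R) w * evO OO Y (∑ m, C (algebraMap ℂ OO (pt (V w₁) (deriv V w₁) (σ m) / evO OO Y Q w₁)) * P (m, i)) w) =
        ∑ m, (pt (V w₁) (deriv V w₁) (σ m) / evO OO Y Q w₁) * evO OO Y (∑ s, pderiv s R * P (m, s)) w := by
      intro w
      have h8 : ∀ (κ : Type) [Fintype κ] (f : κ → MvPolynomial (Ph N) OO), evO OO Y (∑ i, f i) w = ∑ i, evO OO Y (f i) w := by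
        intro κ _ f
        exact map_sum (eval₂Hom (ev0 OO w) (Y w)) _ _
      have h9 : ∀ f g : MvPolynomial (Ph N) OO, evO OO Y (f * g) w = evO OO Y f w * evO OO Y g w := fun f g => eval₂_mul _ _
      have h10 : ∀ c : ℂ, evO OO Y (C (algebraMap ℂ OO c)) w = c := by
        intro c
        show eval₂ (ev0 OO w) (Y w) (C (algebraMap ℂ OO c)) = c
        rw [eval₂_C]
        rfl
      simp only [h8, h9, h10]
      simp only [Finset.mul_sum]
      rw [Finset.sum_comm]
      refine Finset.sum_congr rfl fun m _ => Finset.sum_congr rfl fun s _ => ?_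
      ring
    have h4 : ∀ᶠ w in 𝓝 w₁, ∀ m, evO OO Y (∑ s, pderiv s R * P (m, s)) w = 0 :=
      eventually_all.2 fun m => hid _ (hev _) z₁ hz1 w₁ hw₁ (h3 m)
    filter_upwards [h4] with w h5
    rw [hlin w]
    exact Finset.sum_eq_zero fun m _ => by rw [h5 m, mul_zero]
  · intro s
    have h8 : ∀ (κ : Type) [Fintype κ] (f : κ → MvPolynomial (Ph N) OO), evO OO Y (∑ i, f i) w₁ = ∑ i, evO OO Y (f i) w₁ := by
      intro κ _ f
      exact map_sum (eval₂Hom (ev0 OO w₁) (Y w₁)) _ _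
    have h9 : ∀ f g : MvPolynomial (Ph N) OO, evO OO Y (f * g) w₁ = evO OO Y f w₁ * evO OO Y g w₁ := fun f g => eval₂_mul _ _
    have h10 : ∀ c : ℂ, evO OO Y (C (algebraMap ℂ OO c)) w₁ = c := by
      intro c
      show eval₂ (ev0 OO w₁) (Y w₁) (C (algebraMap ℂ OO c)) = c
      rw [eval₂_C]
      rfl
    simp only [h8, h9, h10]
    have h11 := hvw s
    have h12 : evO OO Y Q w₁ * ∑ m, pt (V w₁) (deriv V w₁) (σ m) / evO OO Y Q w₁ * evO OO Y (P (m, s)) w₁ = evO OO Y Q w₁ * pt (V w₁) (deriv V w₁) s := by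
      rw [h11, Finset.mul_sum]
      refine Finset.sum_congr rfl fun m _ => ?_
      field_simp
    exact mul_left_cancel₀ hQw h12

end Pool.Agent.GL
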