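import Pool.Agent.GL.MnU
import Pool.Agent.GL.Grow
import Pool.Agent.GA.Bas
import Pool.Agent.GA.Ring
import Pool.Agent.GA.SmlArea

/-!
# GL Tau: the height is at most a power of the characteristic at the levels

`Rho B (F w) = (1 + |B|) log ‖F‖ - ∑ log |F i|` is continuous, `≥ 0` and has the sub-mean value property (`log ‖F‖` is the maximum of the `log |F j|`, `log |F i|` is harmonic, `i ∈ B`).  Its mean at the level `t` is `≤ C (t + TT t)` (`mn_upper`,
`mn_log_lower`).  Disc of radius `h = 1 / (4 τ_n)` around `w`: `Rho ≤ (1 / (π h²)) ∫ mn Rho ≤ C (X_n + τ_n) / h ≤ K τ_n ^ 3` (the disc lies in a strip of width `2 h` and one period; `X_n ≤ τ_n`; `GA/RCore`, `GA/SmlCore` have such estimates).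
For `1 ≤ Re w ≤ 2` also by continuity, periodicity and compactness.
-/

set_option autoImplicit false

open Topology Filter Metric MvPolynomial
open Pool.Agent.GG Pool.Agent.GA

namespace Pool.Agent.GL

variable {N : ℕ} {P : Ideal (MvPolynomial (Fin (N + 1)) ℂ)} {B : Finset (Fin (N + 1))} {b : Fin (N + 1)} {F : ℂ → Fin (N + 1) → ℂ} {X : ℕ → ℝ}

private theorem tau_mem (hF : LCurve P B b F) {w : ℂ} (hw : w ∈ HP) : F w ∈ Uc P B b := ⟨hF.curve.cone w hw, hF.one w, hF.ne w hw⟩

private theorem tau_ne (hF : LCurve P B b F) {w : ℂ} (hw : w ∈ HP) : F w ≠ 0 := (hF.curve.cone w hw).1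

private theorem tau_an (hF : LCurve P B b F) {w : ℂ} (hw : w ∈ HP) (j : Fin (N + 1)) : AnalyticAt ℂ (fun w => F w j) w :=
  (analyticAt_pi_iff.1 (hF.curve.an w hw)) j

private theorem tau_cont1 (hF : LCurve P B b F) : ContinuousOn (fun w => Real.log ‖F w‖) HP := fun w hw =>
  ((hF.curve.an w hw).continuousAt.norm.log (norm_ne_zero_iff.2 (tau_ne hF hw))).continuousWithinAt

private theorem tau_cont2 (hF : LCurve P B b F) {i : Fin (N + 1)} (hi : i ∈ B) : ContinuousOn (fun w => Real.log ‖F w i‖) HP := fun w hw =>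
  ((tau_an hF hw i).continuousAt.norm.log (norm_ne_zero_iff.2 (hF.ne w hw i hi))).continuousWithinAt

private theorem tau_rho (x : Fin (N + 1) → ℂ) : Rho B x = (1 + B.card) * Real.log ‖x‖ - ∑ i ∈ B, Real.log ‖x i‖ := by
  unfold Rho
  rw [Finset.sum_sub_distrib, Finset.sum_const, nsmul_eq_mul]
  ring

private theorem tau_cont (hF : LCurve P B b F) : ContinuousOn (fun w => Rho B (F w)) HP := by
  simp only [tau_rho]
  exact (continuousOn_const.mul (tau_cont1 hF)).sub (continuousOn_finsetSum _ fun i hi => tau_cont2 hF hi)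

private theorem tau_line {t : ℝ} (ht : 0 < t) (y : ℝ) : ((t : ℂ) + y * Complex.I) ∈ HP := by
  simpa [HP] using ht

private theorem tau_lineC {u : ℂ → ℝ} (hu : ContinuousOn u HP) {t : ℝ} (ht : 0 < t) : Continuous fun y : ℝ => u (t + y * Complex.I) :=
  hu.comp_continuous (by fun_prop) (tau_line ht)

/-- the mean of the height -/
theorem mn_rho (hF : LCurve P B b F) : ∃ C : ℝ, ∀ t : ℝ, 1 ≤ t → mn (fun w => Rho B (F w)) t ≤ C * (t + TT (AA (sp F)) t) := by
  obtain ⟨C, hC⟩ := mn_upper (F := F) (fun w hw => hF.curve.an w hw) (fun w hw => tau_ne hF hw) hF.curve.periodic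
  have hlow : ∀ i, i ∈ B → ∃ D : ℝ, ∀ t : ℝ, 1 ≤ t → -(D * t) ≤ mn (fun w => Real.log ‖F w i‖) t := fun i hi =>
    mn_log_lower (g := fun w => F w i) (fun w hw => tau_an hF hw i) (fun w hw => hF.ne w hw i hi)
      (fun w hw => by rw [hF.curve.periodic w hw])
  choose! D hD using hlow
  refine ⟨(1 + B.card) * |C| + ∑ i ∈ B, |D i|, fun t ht => ?_⟩
  have ht0 : 0 < t := by linarith
  have e : mn (fun w => Rho B (F w)) t = (1 + B.card) * mn (fun w => Real.log ‖F w‖) t - ∑ i ∈ B, mn (fun w => Real.log ‖F w i‖) t := by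
    unfold mn
    simp only [tau_rho]
    rw [intervalIntegral.integral_sub, intervalIntegral.integral_const_mul, intervalIntegral.integral_finsetSum]
    · exact fun i hi => (tau_lineC (tau_cont2 hF hi) ht0).intervalIntegrable _ _
    · exact ((tau_lineC (tau_cont1 hF) ht0).const_mul _).intervalIntegrable _ _
    · exact (continuous_finsetSum _ fun i hi => tau_lineC (tau_cont2 hF hi) ht0).intervalIntegrable _ _
  have hAA : ∀ x, 0 ≤ AA (sp F) x := fun x =>
    intervalIntegral.integral_nonneg (le_max_right _ _) fun x _ => intervalIntegral.integral_nonneg (by positivity) fun y _ => sq_nonneg _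
  have hTT : 0 ≤ TT (AA (sp F)) t := intervalIntegral.integral_nonneg ht fun x _ => hAA x
  have h1 := hC t ht
  have h2 : ∑ i ∈ B, -(D i * t) ≤ ∑ i ∈ B, mn (fun w => Real.log ‖F w i‖) t := Finset.sum_le_sum fun i hi => hD i hi t ht
  have h3 : ∑ i ∈ B, -(D i * t) = -((∑ i ∈ B, D i) * t) := by
    rw [Finset.sum_neg_distrib, Finset.sum_mul]
  have h4 : ∑ i ∈ B, D i ≤ ∑ i ∈ B, |D i| := Finset.sum_le_sum fun i _ => le_abs_self _
  have h5 : 0 ≤ ∑ i ∈ B, |D i| := Finset.sum_nonneg fun i _ => abs_nonneg _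
  have h6 : mn (fun w => Real.log ‖F w‖) t ≤ |C| * (t + TT (AA (sp F)) t) := h1.trans (mul_le_mul_of_nonneg_right (le_abs_self _) (by linarith))
  have h7 : (0 : ℝ) ≤ 1 + B.card := by positivity
  rw [e]
  calc (1 + B.card) * mn (fun w => Real.log ‖F w‖) t - ∑ i ∈ B, mn (fun w => Real.log ‖F w i‖) t
      ≤ (1 + B.card) * (|C| * (t + TT (AA (sp F)) t)) + (∑ i ∈ B, D i) * t := by
        have := mul_le_mul_of_nonneg_left h6 h7
        linarith
    _ ≤ (1 + B.card) * (|C| * (t + TT (AA (sp F)) t)) + (∑ i ∈ B, |D i|) * (t + TT (AA (sp F)) t) := by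
        have h8 : (∑ i ∈ B, D i) * t ≤ (∑ i ∈ B, |D i|) * t := mul_le_mul_of_nonneg_right h4 ht0.le
        have h9 : (∑ i ∈ B, |D i|) * t ≤ (∑ i ∈ B, |D i|) * (t + TT (AA (sp F)) t) := mul_le_mul_of_nonneg_left (by linarith) h5
        linarith
    _ = ((1 + B.card) * |C| + ∑ i ∈ B, |D i|) * (t + TT (AA (sp F)) t) := by ring

/-- the sub-mean value property -/
private theorem tau_submean (hF : LCurve P B b F) {w : ℂ} {ρ : ℝ} (hρ : 0 < ρ) (hball : closedBall w ρ ⊆ HP) :
    Rho B (F w) ≤ Real.circleAverage (fun z => Rho B (F z)) w ρ := by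
  have hw : w ∈ HP := hball (mem_closedBall_self hρ.le)
  obtain ⟨j, hj⟩ : ∃ j, ‖F w‖ = ‖F w j‖ := by
    obtain ⟨j, -, hj⟩ := Finset.exists_mem_eq_sup' (s := (Finset.univ : Finset (Fin (N + 1)))) ⟨0, Finset.mem_univ 0⟩ fun j => ‖F w j‖
    refine ⟨j, le_antisymm ?_ (norm_le_pi_norm _ _)⟩
    rw [pi_norm_le_iff_of_nonneg (norm_nonneg _)]
    intro l
    rw [← hj]
    exact Finset.le_sup' (fun j => ‖F w j‖) (Finset.mem_univ l)
  obtain ⟨g, hg⟩ : ∃ g : ℂ → ℂ, g = fun z => F z j ^ (1 + B.card) * (∏ i ∈ B, F z i)⁻¹ := ⟨_, rfl⟩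
  have hgan : AnalyticOnNhd ℂ g (closedBall w ρ) := by
    intro z hz
    have hz' := hball hz
    rw [hg]
    refine ((tau_an hF hz' j).pow _).mul (AnalyticAt.inv ?_ ?_)
    · exact Finset.analyticAt_fun_prod _ fun i _ => tau_an hF hz' i
    · exact Finset.prod_ne_zero_iff.2 fun i hi => hF.ne z hz' i hi
  have hlog : ∀ z ∈ HP, F z j ≠ 0 → Real.log ‖g z‖ = (1 + B.card) * Real.log ‖F z j‖ - ∑ i ∈ B, Real.log ‖F z i‖ := by
    intro z hz hzj
    have h1 : ∏ i ∈ B, F z i ≠ 0 := Finset.prod_ne_zero_iff.2 fun i hi => hF.ne z hz i hi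
    rw [hg]
    simp only
    rw [norm_mul, norm_pow, norm_inv, Real.log_mul (by positivity) (by positivity), Real.log_pow, Real.log_inv, norm_prod,
      Real.log_prod fun i hi => norm_ne_zero_iff.2 (hF.ne z hz i hi)]
    push_cast
    ring
  have hle : ∀ z ∈ HP, Real.posLog ‖g z‖ ≤ Rho B (F z) := by
    intro z hz
    have h0 : 0 ≤ Rho B (F z) := rho_nonneg (tau_mem hF hz)
    by_cases hzj : F z j = 0
    · have : g z = 0 := by
        rw [hg]
        simp only
        rw [hzj, zero_pow (by omega), zero_mul]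
      rw [this, norm_zero, Real.posLog_zero]
      exact h0
    · refine max_le h0 ?_
      rw [hlog z hz hzj, tau_rho]
      have h2 : Real.log ‖F z j‖ ≤ Real.log ‖F z‖ := Real.log_le_log (norm_pos_iff.2 hzj) (norm_le_pi_norm _ _)
      have h3 : (0 : ℝ) ≤ 1 + B.card := by positivity
      nlinarith
  have heq : Rho B (F w) ≤ Real.posLog ‖g w‖ := by
    have hj0 : F w j ≠ 0 := by
      rw [← norm_ne_zero_iff, ← hj, norm_ne_zero_iff]
      exact tau_ne hF hw
    refine le_trans (le_of_eq ?_) (le_max_right _ _)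
    rw [hlog w hw hj0, tau_rho, hj]
  refine heq.trans ((posLog_le_circleAverage hρ hgan).trans (Real.circleAverage_mono ?_ ?_ fun z hz => ?_))
  · exact (Real.continuous_posLog.comp_continuousOn ((hgan.continuousOn.mono sphere_subset_closedBall).norm)).circleIntegrable hρ.le
  · exact ((tau_cont hF).mono (sphere_subset_closedBall.trans hball)).circleIntegrable hρ.le
  · rw [abs_of_pos hρ] at hz
    exact hle z (hball (sphere_subset_closedBall hz))

open MeasureTheory Set in
private theorem tau_square {e : ℂ → ℝ} {c : ℂ} {h : ℝ} (hh : 0 < h)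
    (he : ContinuousOn e (Icc (c.re - h) (c.re + h) ×ℂ Icc (c.im - h) (c.im + h))) (he0 : ∀ z ∈ Icc (c.re - h) (c.re + h) ×ℂ Icc (c.im - h) (c.im + h), 0 ≤ e z)
    (hle : ∀ r, 0 < r → r < h → e c ≤ Real.circleAverage e c r) :
    Real.pi * h ^ 2 * e c ≤ ∫ x in (c.re - h)..(c.re + h), ∫ y in (c.im - h)..(c.im + h), e (x + y * Complex.I) := by
  have hsub' : closedBall c h ⊆ Icc (c.re - h) (c.re + h) ×ℂ Icc (c.im - h) (c.im + h) := by
    intro z hz
    have h1 : ‖z - c‖ ≤ h := by simpa [dist_eq_norm] using hz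
    have h2 := (Complex.abs_re_le_norm (z - c)).trans h1
    have h3 := (Complex.abs_im_le_norm (z - c)).trans h1
    rw [Complex.sub_re, abs_le] at h2
    rw [Complex.sub_im, abs_le] at h3
    exact ⟨⟨by linarith, by linarith⟩, ⟨by linarith, by linarith⟩⟩
  have hsub : ball c h ⊆ Icc (c.re - h) (c.re + h) ×ℂ Icc (c.im - h) (c.im + h) := ball_subset_closedBall.trans hsub'
  have hK : IsCompact (Icc (c.re - h) (c.re + h) ×ℂ Icc (c.im - h) (c.im + h)) := isCompact_Icc.reProdIm isCompact_Icc
  have hei : IntegrableOn e (Icc (c.re - h) (c.re + h) ×ℂ Icc (c.im - h) (c.im + h)) := he.integrableOn_compact hK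
  have h1 := area_mean hh (he.mono hsub') hle
  have h3 : ∫ z in ball c h, e z ≤ ∫ z in Icc (c.re - h) (c.re + h) ×ℂ Icc (c.im - h) (c.im + h), e z := by
    refine setIntegral_mono_set hei ?_ (LE.le.eventuallyLE hsub)
    exact (ae_restrict_iff' hK.measurableSet).2 (Eventually.of_forall fun z hz => he0 z hz)
  have h4 : ∫ z in Icc (c.re - h) (c.re + h) ×ℂ Icc (c.im - h) (c.im + h), e z =
      ∫ x in (c.re - h)..(c.re + h), ∫ y in (c.im - h)..(c.im + h), e (x + y * Complex.I) := by
    have h5 := (Complex.volume_preserving_equiv_real_prod.symm).setIntegral_preimage_emb Complex.measurableEquivRealProd.symm.measurableEmbedding e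
      (Icc (c.re - h) (c.re + h) ×ℂ Icc (c.im - h) (c.im + h))
    have h6 : Complex.measurableEquivRealProd.symm ⁻¹' (Icc (c.re - h) (c.re + h) ×ℂ Icc (c.im - h) (c.im + h)) =
        Icc (c.re - h) (c.re + h) ×ˢ Icc (c.im - h) (c.im + h) := by
      ext p
      simp [Complex.mem_reProdIm, Complex.measurableEquivRealProd, Prod.le_def]
      tauto
    rw [h6] at h5
    rw [← h5]
    have h7 : IntegrableOn (fun p : ℝ × ℝ => e (Complex.measurableEquivRealProd.symm p)) (Icc (c.re - h) (c.re + h) ×ˢ Icc (c.im - h) (c.im + h))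
        (volume.prod volume) := by
      have := ((Complex.volume_preserving_equiv_real_prod.symm).integrableOn_comp_preimage Complex.measurableEquivRealProd.symm.measurableEmbedding
        (f := e) (s := Icc (c.re - h) (c.re + h) ×ℂ Icc (c.im - h) (c.im + h))).2 hei
      rw [h6] at this
      exact this
    have h8 := setIntegral_prod (fun p : ℝ × ℝ => e (Complex.measurableEquivRealProd.symm p)) h7
    have h9 : ∀ x y : ℝ, Complex.measurableEquivRealProd.symm (x, y) = x + y * Complex.I := fun x y => by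
      exact Complex.equivRealProdCLM_symm_apply (x, y)
    refine h8.trans ?_
    simp only [h9]
    rw [integral_Icc_eq_integral_Ioc, ← intervalIntegral.integral_of_le (by linarith)]
    refine intervalIntegral.integral_congr fun x _ => ?_
    rw [integral_Icc_eq_integral_Ioc, ← intervalIntegral.integral_of_le (by linarith)]
  rw [← h4]
  exact h1.trans h3

/-- the height at a point is at most the mean over a disc -/
theorem rho_area (hF : LCurve P B b F) {w : ℂ} {h T : ℝ} (h0 : 0 < h) (h1 : h ≤ 1 / 2) (hw : 1 + h ≤ w.re) (hT : ∀ t ∈ Set.Icc (w.re - h) (w.re + h), mn (fun w => Rho B (F w)) t ≤ T) :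
    Rho B (F w) ≤ T / h := by
  have hpi := Real.pi_gt_three
  have hcont := tau_cont hF
  have hnn : ∀ z ∈ HP, 0 ≤ Rho B (F z) := fun z hz => rho_nonneg (tau_mem hF hz)
  have hball : closedBall w h ⊆ HP := by
    intro z hz
    have h2 : ‖z - w‖ ≤ h := by simpa [dist_eq_norm] using hz
    have h3 := (Complex.abs_re_le_norm (z - w)).trans h2
    rw [Complex.sub_re, abs_le] at h3
    change 0 < z.re
    linarith [h3.1]
  have hsq : (Set.Icc (w.re - h) (w.re + h) ×ℂ Set.Icc (w.im - h) (w.im + h)) ⊆ HP := by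
    intro z hz
    have h1 : w.re - h ≤ z.re := hz.1.1
    change 0 < z.re
    linarith
  have h2 := tau_square (e := fun z => Rho B (F z)) (c := w) h0 (hcont.mono hsq) (fun z hz => hnn z (hsq hz))
    fun r hr hrh => tau_submean hF hr ((closedBall_subset_closedBall hrh.le).trans hball)
  have hin : ∀ x : ℝ, 0 < x → (∫ y in (w.im - h)..(w.im + h), Rho B (F (x + y * Complex.I))) ≤ mn (fun w => Rho B (F w)) x := by
    intro x hx
    have hper : Function.Periodic (fun y : ℝ => Rho B (F (x + y * Complex.I))) (2 * Real.pi) := by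
      intro y
      have h2 : (x + (y + 2 * Real.pi : ℝ) * Complex.I : ℂ) = (x + y * Complex.I) + per := by
        rw [per]
        push_cast
        ring
      simp only
      rw [h2, hF.curve.periodic _ (tau_line hx y)]
    have h3 : mn (fun w => Rho B (F w)) x = ∫ y in (w.im - Real.pi)..(w.im + Real.pi), Rho B (F (x + y * Complex.I)) := by
      have := hper.intervalIntegral_add_eq 0 (w.im - Real.pi)
      rw [zero_add, show w.im - Real.pi + 2 * Real.pi = w.im + Real.pi by ring] at this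
      exact this
    rw [h3]
    refine intervalIntegral.integral_mono_interval (by linarith) (by linarith) (by linarith) (Eventually.of_forall fun y => hnn _ (tau_line hx y))
      ((tau_lineC hcont hx).intervalIntegrable _ _)
  have h3 : (∫ x in (w.re - h)..(w.re + h), ∫ y in (w.im - h)..(w.im + h), Rho B (F (x + y * Complex.I))) ≤ ∫ _ in (w.re - h)..(w.re + h), T := by
    refine intervalIntegral.integral_mono_on (by linarith) ?_ intervalIntegrable_const fun x hx => (hin x (by linarith [hx.1])).trans (hT x hx)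
    refine ((sml_continuousOn_int hcont (w.im - h) (w.im + h)).mono ?_).intervalIntegrable
    intro x hx
    rw [Set.uIcc_of_le (by linarith)] at hx
    change 0 < x
    linarith [hx.1]
  rw [intervalIntegral.integral_const, smul_eq_mul] at h3
  have h4 : Real.pi * h ^ 2 * Rho B (F w) ≤ 2 * h * T := by
    have := h2.trans h3
    linarith
  have hwHP : w ∈ HP := hball (mem_closedBall_self h0.le)
  have hR := hnn w hwHP
  rw [le_div_iff₀ h0]
  have h5 : h * (Real.pi * h * Rho B (F w)) ≤ h * (2 * T) := by nlinarith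
  have h6 : Real.pi * h * Rho B (F w) ≤ 2 * T := le_of_mul_le_mul_left h5 h0
  have h7 : 0 ≤ h * Rho B (F w) := by positivity
  nlinarith

theorem rho_levels (hF : LCurve P B b F) (hX : Lev (sp F) X) : ∃ (K : ℝ) (k : ℕ), ∀ (n : ℕ) (w : ℂ), 1 ≤ w.re → w.re ≤ X n - 1 / (2 * tau (sp F) X n) →
    Rho B (F w) ≤ K * tau (sp F) X n ^ k := by
  obtain ⟨C, hC⟩ := mn_rho hF
  -- the compact part
  obtain ⟨K₀, hK₀⟩ : ∃ K₀ : ℝ, ∀ w : ℂ, 1 ≤ w.re → w.re ≤ 2 → Rho B (F w) ≤ K₀ := by
    have hcpt : IsCompact (Set.Icc (1 : ℝ) 2 ×ℂ Set.Icc (0 : ℝ) (2 * Real.pi)) := isCompact_Icc.reProdIm isCompact_Icc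
    have hsub : (Set.Icc (1 : ℝ) 2 ×ℂ Set.Icc (0 : ℝ) (2 * Real.pi)) ⊆ HP := by
      intro z hz
      have h1 : 1 ≤ z.re := hz.1.1
      change 0 < z.re
      linarith
    obtain ⟨K₀, hK₀⟩ := hcpt.bddAbove_image ((tau_cont hF).mono hsub)
    refine ⟨K₀, fun w hw1 hw2 => ?_⟩
    have hline : w = (w.re : ℂ) + w.im * Complex.I := (Complex.re_add_im w).symm
    have hw0 : 0 < w.re := by linarith
    have hper : Function.Periodic (fun y : ℝ => Rho B (F (w.re + y * Complex.I))) (2 * Real.pi) := by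
      intro y
      have h2 : (w.re + (y + 2 * Real.pi : ℝ) * Complex.I : ℂ) = (w.re + y * Complex.I) + per := by
        rw [per]
        push_cast
        ring
      simp only
      rw [h2, hF.curve.periodic _ (tau_line hw0 y)]
    obtain ⟨y, hy, hyw⟩ := hper.exists_mem_Ico₀ Real.two_pi_pos w.im
    have h3 : Rho B (F w) = Rho B (F (w.re + y * Complex.I)) := by
      conv_lhs => rw [hline]
      exact hyw
    rw [h3]
    refine hK₀ ⟨_, ⟨?_, ?_⟩, rfl⟩
    · simpa using ⟨hw1, hw2⟩
    · simpa using ⟨hy.1, hy.2.le⟩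
  have hAA : ∀ x, 0 ≤ AA (sp F) x := fun x =>
    intervalIntegral.integral_nonneg (le_max_right _ _) fun x _ => intervalIntegral.integral_nonneg (by positivity) fun y _ => sq_nonneg _
  refine ⟨max K₀ (8 * |C|), 2, fun n w hw1 hw2 => ?_⟩
  have hτ4 := hX.tau_ge' n
  have hτ : 4 ≤ tau (sp F) X n := by linarith [(Nat.cast_nonneg n : (0 : ℝ) ≤ n)]
  have hτ0 : 0 < tau (sp F) X n := by linarith
  have hτ1 : 1 ≤ tau (sp F) X n ^ 2 := by nlinarith
  set h : ℝ := 1 / (4 * tau (sp F) X n) with hh
  have hh0 : 0 < h := by positivity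
  have hh1 : h ≤ 1 / 2 := by
    rw [hh, div_le_div_iff₀ (by positivity) two_pos]
    linarith
  rcases le_total w.re 2 with hle | hge
  · have h1 := hK₀ w hw1 hle
    have h2 : 0 ≤ Rho B (F w) := rho_nonneg (tau_mem hF (show 0 < w.re by linarith))
    calc Rho B (F w) ≤ K₀ := h1
      _ ≤ K₀ * tau (sp F) X n ^ 2 := le_mul_of_one_le_right (h2.trans h1) hτ1
      _ ≤ _ := mul_le_mul_of_nonneg_right (le_max_left _ _) (by positivity)
  · have hXτ : X n ≤ tau (sp F) X n := by
      have h1 := hX.sub n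
      have h2 := hX.big n
      have h3 : (0 : ℝ) ≤ n := Nat.cast_nonneg n
      nlinarith
    have h2h : 1 / (2 * tau (sp F) X n) = 2 * h := by
      rw [hh]
      field_simp
      norm_num
    have h1 := rho_area hF (w := w) (h := h) (T := |C| * (2 * tau (sp F) X n)) hh0 hh1 (by linarith) fun t ht => ?_
    · have h2 : |C| * (2 * tau (sp F) X n) / h = 8 * |C| * tau (sp F) X n ^ 2 := by
        rw [hh]
        field_simp
        ring
      rw [h2] at h1
      exact h1.trans (mul_le_mul_of_nonneg_right (le_max_right _ _) (by positivity))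
    · have ht1 : 1 ≤ t := by linarith [ht.1]
      have htX : t ≤ X n := by
        have := ht.2
        rw [h2h] at hw2
        linarith
      have hTT : TT (AA (sp F)) t ≤ tau (sp F) X n := by
        unfold tau TT
        exact intervalIntegral.integral_mono_interval le_rfl ht1 htX (Eventually.of_forall fun x => hAA x)
          (sml_AA_mono hF.curve.speed).intervalIntegrable
      have hTT0 : 0 ≤ TT (AA (sp F)) t := intervalIntegral.integral_nonneg ht1 fun x _ => hAA x
      calc mn (fun w => Rho B (F w)) t ≤ C * (t + TT (AA (sp F)) t) := hC t ht1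
        _ ≤ |C| * (t + TT (AA (sp F)) t) := mul_le_mul_of_nonneg_right (le_abs_self _) (by linarith)
        _ ≤ |C| * (2 * tau (sp F) X n) := mul_le_mul_of_nonneg_left (by linarith) (abs_nonneg _)

end Pool.Agent.GL
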