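import Pool.Agent.GL.NaB
import Pool.Agent.GL.Dir
import Pool.Agent.GL.HorL

/-!
# GL VbB: continuation of the family on a convex domain without zeros of `F'`

`GL.na` for `G = gfamL f`, `C l (z, s) = gval (thv θ (F z) (F' z)) l` (analytic on `HP`), `d = 1`.  For a solution `x` over `W ⊆ Ω` (`W` convex, `w₁ ∈ W`) with the values of `Φ₀ (·, s)` near `w₁`: `of_gval` (`lFam_of_nSol`): `x = emb B x'`,
`x' ∈ Uc`, `thv θ x' (x'') = thv θ F F'` of size `≤ T`, so `LL ≤ C T` (`exists_LL_bound`), `Rho (x' z) ≤ M + (|B| + 2) C T D` (`rho_path`).  `K` = the closed ball of the radius of `ePt_bound` for these bounds.  Regularity: `of_gval`, `exists_rowL`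
(`v ≠ 0`: else `thv θ F F' = 0` at a point of the closure and `F' = 0` there by `theta_bdL`).  `Φ (z, 0) = eF B F z`: identity theorem.  `dir_eq` (the value of `∂Φ/∂s` at `(w₁, 0)` is that of `Φ₀`: `Φ (w₁, s) = Φ₀ (w₁, s)` for all `s`).
-/

set_option autoImplicit false

open MvPolynomial Topology Filter Metric
open Pool.Agent.H13.SM (conTan cone)
open Pool.Agent.H62.FC (Homog)
open Pool.Agent.GG Pool.Agent.GA

namespace Pool.Agent.GL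

variable {N : ℕ} {P : Ideal (MvPolynomial (Fin (N + 1)) ℂ)} {B : Finset (Fin (N + 1))} {J : ℕ} {m : Fin J → ℕ} {θ : ∀ k, LogSec P B (m k)} {b : Fin (N + 1)}

private theorem vbB_isOpen_HP : IsOpen HP := isOpen_lt continuous_const Complex.continuous_re

private theorem vbB_ev {w : ℂ} (hw : w ∈ HP) : ∀ᶠ z in 𝓝 w, z ∈ HP := vbB_isOpen_HP.mem_nhds hw

private theorem vbB_mem_Uc {F : ℂ → Fin (N + 1) → ℂ} (hF : LCurve P B b F) {w : ℂ} (hw : w ∈ HP) : F w ∈ Uc P B b :=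
  ⟨hF.curve.cone w hw, hF.one w, hF.ne w hw⟩

private theorem vbB_deriv_mem {F : ℂ → Fin (N + 1) → ℂ} (hF : LCurve P B b F) {w : ℂ} (hw : w ∈ HP) : deriv F w ∈ Tc P b (F w) :=
  deriv_mem_Tc (hF.curve.an w hw) ((vbB_ev hw).mono fun _ hz => vbB_mem_Uc hF hz)

/-- a nonzero vector has a nonzero value -/
private theorem vbB_ne (hP : Homog P) (hθ : LogPolar θ) (hm : ∀ k, 1 ≤ m k) (hb : b ∈ B) {x v x' v' : Fin (N + 1) → ℂ} (hx : x ∈ Uc P B b) (hv : v ∈ Tc P b x)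
    (h0 : v ≠ 0) (hx' : x' ∈ Uc P B b) (hv' : v' ∈ Tc P b x') (h : thv θ x' v' = thv θ x v) : v' ≠ 0 := by
  intro h1
  obtain ⟨c, hc, C, hC, H⟩ := theta_bdL hP hθ hm hb
  obtain ⟨k, hk⟩ := (H x hx v hv).2 h0
  have h2 : thv θ x' v' k = 0 := by
    have h3 := thv_smul (θ := θ) hx' hv' 0 k
    rw [zero_smul, zero_pow (by have := hm k; omega), zero_mul] at h3
    rw [h1]
    exact h3
  rw [← h, h2, norm_zero] at hk
  have hx0 : 0 < ‖x‖ := norm_pos_iff.2 fun h4 => by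
    have h5 := hx.2.1
    rw [h4] at h5
    exact zero_ne_one h5
  have h6 : 0 < LL B x v := add_pos_of_pos_of_nonneg (div_pos (norm_pos_iff.2 h0) hx0) (Finset.sum_nonneg fun _ _ => div_nonneg (norm_nonneg _) (norm_nonneg _))
  have h7 : 0 < c * LL B x v ^ m k := mul_pos hc (pow_pos h6 _)
  linarith

/-- the data of the values of the family -/
private theorem vbB_gval_an {F : ℂ → Fin (N + 1) → ℂ} (hF : LCurve P B b F) {q : ℕ} (l : GIx q J) {p : ℂ × (Fin 1 → ℂ)} (hp : p.1 ∈ HP) :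
    AnalyticAt ℂ (fun q : ℂ × (Fin 1 → ℂ) => gval (thv θ (F q.1) (deriv F q.1)) l) p := by
  rcases l with ((_ | _) | (_ | _)) | ((_ | _) | k)
  · exact analyticAt_const
  · exact analyticAt_const
  · exact analyticAt_const
  · exact analyticAt_const
  · exact analyticAt_const
  · exact analyticAt_const
  · have h1 : AnalyticAt ℂ (fun w => thv θ (F w) (deriv F w) k) p.1 :=
      analyticAt_thv (hF.curve.an _ hp) (hF.curve.an _ hp).deriv ((vbB_ev hp).mono fun w hw => ⟨vbB_mem_Uc hF hw, vbB_deriv_mem hF hw⟩) k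
    exact AnalyticAt.comp (f := fun q : ℂ × (Fin 1 → ℂ) => q.1) h1 analyticAt_fst

/-- a solution of the equations of the family over an open set is a curve in `U` -/
private theorem vbB_sol (f : LFrame θ b) {F : ℂ → Fin (N + 1) → ℂ} {W : Set ℂ} {x : ℂ → Fin (N + 2) → ℂ}
    (hx : ∀ z ∈ W, AnalyticAt ℂ x z ∧ ∀ l, eval (pt (x z) (deriv x z)) (gfamL f l) = gval (thv θ (F z) (deriv F z)) l) :
    ∀ z ∈ W, AnalyticAt ℂ (fun w i => x w (Fin.castSucc i)) z ∧ (fun i => x z (Fin.castSucc i)) ∈ Uc P B b ∧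
      deriv (fun w i => x w (Fin.castSucc i)) z ∈ Tc P b (fun i => x z (Fin.castSucc i)) ∧
      thv θ (fun i => x z (Fin.castSucc i)) (deriv (fun w i => x w (Fin.castSucc i)) z) = thv θ (F z) (deriv F z) ∧
      pt (x z) (deriv x z) = ePt B (fun i => x z (Fin.castSucc i)) (deriv (fun w i => x w (Fin.castSucc i)) z) := by
  intro z hz
  obtain ⟨h1, h2⟩ := hx z hz
  have h3 : ∀ i, AnalyticAt ℂ (fun w => x w i) z := fun i => (analyticAt_pi_iff.1 h1) i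
  have h4 : AnalyticAt ℂ (fun w (i : Fin (N + 1)) => x w (Fin.castSucc i)) z := AnalyticAt.pi fun i => h3 _
  have h5 : deriv (fun w (i : Fin (N + 1)) => x w (Fin.castSucc i)) z = fun i => deriv x z (Fin.castSucc i) := by
    refine (hasDerivAt_pi.2 fun i => ?_).deriv
    exact (hasDerivAt_pi.1 h1.differentiableAt.hasDerivAt) (Fin.castSucc i)
  obtain ⟨a, v, e1, e2, e3, e4⟩ := of_gval f h2
  have e5 : a = fun i => x z (Fin.castSucc i) := by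
    funext i
    have e6 := congrFun e1 (Sum.inl (Fin.castSucc i))
    have e7 : ePt B a v (Sum.inl (Fin.castSucc i)) = a i := by
      show emb B a (Fin.castSucc i) = a i
      unfold emb
      rw [Fin.snoc_castSucc]
    rw [e7] at e6
    exact e6.symm
  have e8 : v = deriv (fun w (i : Fin (N + 1)) => x w (Fin.castSucc i)) z := by
    rw [h5]
    funext i
    have e6 := congrFun e1 (Sum.inr (Fin.castSucc i))
    have e7 : ePt B a v (Sum.inr (Fin.castSucc i)) = v i := by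
      show embV B a v (Fin.castSucc i) = v i
      unfold embV
      rw [Fin.snoc_castSucc]
    rw [e7] at e6
    exact e6.symm
  rw [e5, e8] at e1
  rw [e5] at e2
  rw [e5, e8] at e3
  rw [e5, e8] at e4
  exact ⟨h4, e2, e3, e4, e1⟩

private theorem vbB_eval_curve {F : ℂ → Fin (N + 1) → ℂ} (hF : LCurve P B b F) {w : ℂ} (hw : w ∈ HP) :
    AnalyticAt ℂ (eF B F) w ∧ deriv (eF B F) w = embV B (F w) (deriv F w) :=
  ⟨analyticAt_emb (hF.curve.an w hw) (hF.ne w hw), deriv_emb (hF.curve.an w hw) (hF.ne w hw)⟩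

theorem vb_leg (hP : Homog P) (hθ : LogPolar θ) (hm : ∀ k, 1 ≤ m k) (hb : b ∈ B) (f : LFrame θ b) : ∃ C > 0, ∀ F : ℂ → Fin (N + 1) → ℂ, LCurve P B b F →
    ∀ Ω : Set ℂ, IsOpen Ω → Convex ℝ Ω → Bornology.IsBounded Ω → closure Ω ⊆ HP → (∀ z ∈ closure Ω, deriv F z ≠ 0) →
    ∀ T : ℝ, 1 ≤ T → (∀ z ∈ Ω, ∀ k, ‖thv θ (F z) (deriv F z) k‖ ≤ T) → ∀ D : ℝ, (∀ z ∈ Ω, ∀ z' ∈ Ω, ‖z - z'‖ ≤ D) →
    ∀ w₁ ∈ Ω, ∀ ρ > 0, ∀ (Φ₀ : ℂ × (Fin 1 → ℂ) → Fin (N + 2) → ℂ) (M : ℝ),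
      (∀ s : Fin 1 → ℂ, ‖s‖ < ρ → NSol (gfamL f) (fun l q => gval (thv θ (F q.1) (deriv F q.1)) l) Φ₀ (w₁, s)) → (∀ᶠ z in 𝓝 w₁, Φ₀ (z, 0) = eF B F z) →
      (∀ s : Fin 1 → ℂ, ‖s‖ < ρ → Rho B (fun i => Φ₀ (w₁, s) (Fin.castSucc i)) ≤ M) →
      ∃ Φ : ℂ × (Fin 1 → ℂ) → Fin (N + 2) → ℂ,
        (∀ q : ℂ × (Fin 1 → ℂ), q.1 ∈ Ω → ‖q.2‖ < ρ → NSol (gfamL f) (fun l q => gval (thv θ (F q.1) (deriv F q.1)) l) Φ q) ∧
        (∀ z ∈ Ω, Φ (z, 0) = eF B F z) ∧ (∀ z ∈ Ω, ∀ s : Fin 1 → ℂ, ‖s‖ < ρ → Rho B (fun i => Φ (z, s) (Fin.castSucc i)) ≤ M + C * T * D) ∧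
        ∀ V : ℂ → Fin (N + 2) → ℂ, (∀ z ∈ Ω, AnalyticAt ℂ V z) → (∀ z ∈ Ω, ∀ l, lhs (gfamL f l) (eF B F) V z = 0) → V w₁ = fderiv ℂ Φ₀ (w₁, 0) (0, 1) →
          ∀ z ∈ Ω, V z = fderiv ℂ Φ (z, 0) (0, 1) := by
  obtain ⟨C₁, hC₁, HC⟩ := exists_LL_bound hP hθ hm hb
  refine ⟨(B.card + 2) * C₁, by positivity, ?_⟩
  intro F hF Ω hΩ hc hbd hcl hF' T hT hTh D hD w₁ hw₁ ρ hρ Φ₀ M h₀ h₀F h₀M
  have hΩHP : ∀ z ∈ Ω, z ∈ HP := fun z hz => hcl (subset_closure hz)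
  have hD0 : 0 ≤ D := (norm_nonneg _).trans (hD w₁ hw₁ w₁ hw₁)
  -- the bounds for a solution
  have key : ∀ s : Fin 1 → ℂ, ‖s‖ < ρ → ∀ W : Set ℂ, IsOpen W → Convex ℝ W → w₁ ∈ W → W ⊆ Ω → ∀ x : ℂ → Fin (N + 2) → ℂ,
      (∀ z ∈ W, AnalyticAt ℂ x z ∧ ∀ l, eval (pt (x z) (deriv x z)) (gfamL f l) = gval (thv θ (F z) (deriv F z)) l) → x w₁ = Φ₀ (w₁, s) →
      ∀ z ∈ W, Rho B (fun i => x z (Fin.castSucc i)) ≤ M + (B.card + 2) * C₁ * T * D ∧ LL B (fun i => x z (Fin.castSucc i)) (deriv (fun w i => x w (Fin.castSucc i)) z) ≤ C₁ * T ∧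
        (fun i => x z (Fin.castSucc i)) ∈ Uc P B b ∧ pt (x z) (deriv x z) = ePt B (fun i => x z (Fin.castSucc i)) (deriv (fun w i => x w (Fin.castSucc i)) z) := by
    intro s hs W hW hWc hwW hWΩ x hx hx0 z hz
    have h1 := vbB_sol f hx
    have h2 : ∀ z ∈ W, LL B (fun i => x z (Fin.castSucc i)) (deriv (fun w i => x w (Fin.castSucc i)) z) ≤ C₁ * T := by
      intro z hz
      obtain ⟨_, a2, a3, a4, _⟩ := h1 z hz
      refine HC _ a2 _ a3 T hT fun k => ?_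
      rw [a4]
      exact hTh z (hWΩ hz) k
    have h3 := rho_path (B := B) (b := b) (P := P) hWc (fun z hz => ⟨(h1 z hz).1, (h1 z hz).2.1⟩) h2 hz hwW
    refine ⟨h3.trans ?_, h2 z hz, (h1 z hz).2.1, (h1 z hz).2.2.2.2⟩
    have h4 : Rho B (fun i => x w₁ (Fin.castSucc i)) ≤ M := by
      rw [hx0]
      exact h₀M s hs
    have h5 : (B.card + 2) * (C₁ * T) * ‖z - w₁‖ ≤ (B.card + 2) * (C₁ * T) * D := by
      refine mul_le_mul_of_nonneg_left (hD z (hWΩ hz) w₁ hw₁) ?_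
      have : 0 ≤ T := zero_le_one.trans hT
      positivity
    have h6 : (B.card + 2) * (C₁ * T) * D = (B.card + 2) * C₁ * T * D := by ring
    linarith
  obtain ⟨Mb, hMb⟩ := ePt_bound B (M + (B.card + 2) * C₁ * T * D) (C₁ * T)
  obtain ⟨Φ, hΦ, hΦ₀⟩ := na (gfamL f) (fun l q => gval (thv θ (F q.1) (deriv F q.1)) l) hΩ hc hbd hw₁ hρ
    (fun l q hq _ => vbB_gval_an hF l (hcl hq)) (isCompact_closedBall (0 : Ph (N + 1) → ℂ) Mb)
    (fun q hq _ y _ hy => by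
      obtain ⟨x, v, e1, e2, e3, e4⟩ := of_gval f hy
      obtain ⟨I, hI⟩ := exists_rowL hθ f hb e2 e3 (vbB_ne hP hθ hm hb (vbB_mem_Uc hF (hcl hq)) (vbB_deriv_mem hF (hcl hq)) (hF' _ hq) e2 e3 e4)
      exact ⟨I, by rw [e1]; exact hI⟩) h₀
    (fun s hs W hW hWc hwW hWΩ x hx hx0 z hz => by
      obtain ⟨a1, a2, a3, a4⟩ := key s hs W hW hWc hwW hWΩ x hx hx0.self_of_nhds z hz
      rw [a4, mem_closedBall_zero_iff]
      exact hMb P b _ a3 _ a1 a2)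
  have hsol : ∀ s : Fin 1 → ℂ, ‖s‖ < ρ → ∀ z ∈ Ω, AnalyticAt ℂ (fun z => Φ (z, s)) z ∧
      ∀ l, eval (pt (Φ (z, s)) (deriv (fun z => Φ (z, s)) z)) (gfamL f l) = gval (thv θ (F z) (deriv F z)) l := by
    intro s hs z hz
    obtain ⟨a1, a2⟩ := hΦ (z, s) hz hs
    refine ⟨?_, fun l => a2.self_of_nhds l⟩
    exact AnalyticAt.comp (f := fun z : ℂ => ((z, s) : ℂ × (Fin 1 → ℂ))) a1 (analyticAt_id.prod analyticAt_const)
  have h0ρ : ‖(0 : Fin 1 → ℂ)‖ < ρ := by rwa [norm_zero]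
  have hF0 : ∀ z ∈ Ω, Φ (z, 0) = eF B F z := by
    have b1 : AnalyticOnNhd ℂ (fun z => Φ (z, 0)) Ω := fun z hz => (hsol 0 h0ρ z hz).1
    have b2 : AnalyticOnNhd ℂ (eF B F) Ω := fun z hz => (vbB_eval_curve hF (hΩHP z hz)).1
    have b3 : (fun z => Φ (z, 0)) =ᶠ[𝓝 w₁] eF B F := by
      filter_upwards [hΦ₀ 0 h0ρ, h₀F] with z hz hz'
      rw [hz, hz']
    exact fun z hz => b1.eqOn_of_preconnected_of_eventuallyEq b2 hc.isPreconnected hw₁ b3 hz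
  refine ⟨Φ, hΦ, hF0, fun z hz s hs => (key s hs Ω hΩ hc hw₁ subset_rfl _ (hsol s hs) (hΦ₀ s hs).self_of_nhds z hz).1, ?_⟩
  intro V hV hl hV₁ z hz
  obtain ⟨I, hI⟩ := exists_rowL hθ f hb (vbB_mem_Uc hF (hΩHP w₁ hw₁)) (vbB_deriv_mem hF (hΩHP w₁ hw₁)) (hF' _ (subset_closure hw₁))
  have hev : ∀ z ∈ Ω, (fun z => Φ (z, 0)) =ᶠ[𝓝 z] eF B F := fun z hz => by
    filter_upwards [hΩ.mem_nhds hz] with w hw using hF0 w hw
  refine dir_eq hΩ hc.isPreconnected (gfamL f) (g := fun l z => gval (thv θ (F z) (deriv F z)) l) (Φ := Φ) (fun z hz => hΦ (z, 0) hz h0ρ) hV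
    (fun z hz l => ?_) hw₁ I ?_ ?_ z hz
  · have c1 := hl z hz l
    unfold lhs at c1 ⊢
    rw [(hev z hz).deriv_eq]
    show ∑ s, eval (pt (Φ (z, 0)) (deriv (eF B F) z)) (pderiv s (gfamL f l)) * pt (V z) (deriv V z) s = 0
    rw [hF0 z hz]
    exact c1
  · rw [hF0 w₁ hw₁, (hev w₁ hw₁).deriv_eq, (vbB_eval_curve hF (hΩHP w₁ hw₁)).2]
    exact hI
  · rw [hV₁]
    have d1 : DifferentiableAt ℂ Φ₀ (w₁, 0) := (h₀ 0 h0ρ).1.differentiableAt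
    have d2 : DifferentiableAt ℂ Φ (w₁, 0) := (hΦ (w₁, 0) hw₁ h0ρ).1.differentiableAt
    have hline : HasDerivAt (fun t : ℂ => ((w₁, t • (1 : Fin 1 → ℂ)) : ℂ × (Fin 1 → ℂ))) (0, 1) 0 := by
      have e1 : HasDerivAt (fun t : ℂ => t • (1 : Fin 1 → ℂ)) ((1 : ℂ) • (1 : Fin 1 → ℂ)) 0 := (hasDerivAt_id (0 : ℂ)).smul_const _
      rw [one_smul] at e1
      exact (hasDerivAt_const 0 w₁).prodMk e1
    have d1' : HasDerivAt (fun t : ℂ => Φ₀ (w₁, t • (1 : Fin 1 → ℂ))) (fderiv ℂ Φ₀ (w₁, 0) (0, 1)) 0 := by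
      have e2 : HasFDerivAt Φ₀ (fderiv ℂ Φ₀ (w₁, 0)) ((w₁, (0 : ℂ) • (1 : Fin 1 → ℂ)) : ℂ × (Fin 1 → ℂ)) := by
        rw [zero_smul]
        exact d1.hasFDerivAt
      exact e2.comp_hasDerivAt 0 hline
    have d2' : HasDerivAt (fun t : ℂ => Φ (w₁, t • (1 : Fin 1 → ℂ))) (fderiv ℂ Φ (w₁, 0) (0, 1)) 0 := by
      have e2 : HasFDerivAt Φ (fderiv ℂ Φ (w₁, 0)) ((w₁, (0 : ℂ) • (1 : Fin 1 → ℂ)) : ℂ × (Fin 1 → ℂ)) := by
        rw [zero_smul]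
        exact d2.hasFDerivAt
      exact e2.comp_hasDerivAt 0 hline
    refine d1'.unique (d2'.congr_of_eventuallyEq ?_)
    have e3 : Tendsto (fun t : ℂ => ‖t • (1 : Fin 1 → ℂ)‖) (𝓝 0) (𝓝 0) := by
      have e4 : Continuous fun t : ℂ => ‖t • (1 : Fin 1 → ℂ)‖ := (continuous_id.smul continuous_const).norm
      have e5 := e4.tendsto 0
      rwa [zero_smul, norm_zero] at e5
    filter_upwards [e3.eventually (gt_mem_nhds hρ)] with t ht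
    exact (hΦ₀ _ ht).self_of_nhds.symm

end Pool.Agent.GL
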