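import Pool.Agent.GL.VbA
import Pool.Agent.GL.VbB

/-!
# GL Vb: the variation field is small on the levels

`vb_base`: `w₁`, `ρ`, `Φ₀`, `M₀` (fixed once and for all, independent of `n` and `w`).  Let `n` be given and `w` with `1 < Re w < X n - 1 / τ`, such that the horizontal line through `w` contains no zero of `F'` (it fails for countably many `Im w` only).
Leg 1: a thin neighbourhood of the vertical segment from `w₁` to `c = Re w₁ + i Im w`; leg 2: a thin neighbourhood of the horizontal segment from `c` to `w` (`Vb_nbhd`); closures inside `1 < Re < X n - 1 / τ`, without zeros of `F'`.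
`vb_leg` twice, with `T = K τ ^ k` (`thv_levels`), `D ≤ |Im w₁| + 10` and `D ≤ X n + 2 ≤ 3 τ`: `Rho (Φ (w, s)) ≤ K' τ ^ k'` for `‖s‖ < ρ`, `V = ∂Φ/∂s (·, 0)` on both legs (`RelP.lhs` for `V`,
`eval_curve`, `gfam_small`), in particular at `w`.  `exists_av` at `a = 0` with `R = ρ / 2`, for `t ↦ Φ (w, fun _ => t)` (first `N + 1` coordinates; in `Uc` by `lFam_of_nSol`) and `g t = thv θ (Φ) (∂Φ/∂s) i` (`deriv_mem_Tc`, `analyticAt_thv`, `theta_bdL`):
the claim for `w`.  The other `w` by continuity of `F`, `V` and density (the bound does not depend on `w`).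
-/

set_option autoImplicit false

open MvPolynomial Topology Filter Metric
open Pool.Agent.H13.SM (conTan cone)
open Pool.Agent.H62.FC (Homog)
open Pool.Agent.GG Pool.Agent.GA

namespace Pool.Agent.GL

variable {N : ℕ} {P : Ideal (MvPolynomial (Fin (N + 1)) ℂ)} {B : Finset (Fin (N + 1))} {J : ℕ} {m : Fin J → ℕ} {θ : ∀ k, LogSec P B (m k)} {b : Fin (N + 1)}
  {F : ℂ → Fin (N + 1) → ℂ} {X : ℕ → ℝ}

private theorem Vb_countable {S : Set ℂ} (h : ∀ z ∈ S, ∀ᶠ v in 𝓝[≠] z, v ∉ S) : S.Countable := by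
  have hd : DiscreteTopology S := by
    rw [discreteTopology_subtype_iff]
    intro w hw
    rw [← _root_.disjoint_iff, Filter.disjoint_principal_right]
    exact h w hw
  exact Set.countable_coe_iff.1 (countable_of_Lindelof_of_discrete (X := S))

/-- a thin neighbourhood of a segment -/
private theorem Vb_nbhd {U : Set ℂ} (hU : IsOpen U) {a c : ℂ} (h : segment ℝ a c ⊆ U) :
    ∃ Ω : Set ℂ, IsOpen Ω ∧ Convex ℝ Ω ∧ Bornology.IsBounded Ω ∧ closure Ω ⊆ U ∧ a ∈ Ω ∧ c ∈ Ω ∧ ∀ z ∈ Ω, ∀ z' ∈ Ω, ‖z - z'‖ ≤ dist a c + 2 := by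
  have hcomp : IsCompact (segment ℝ a c) := by
    rw [segment_eq_image]
    exact isCompact_Icc.image (by fun_prop)
  obtain ⟨δ, hδ, h1⟩ := hcomp.exists_cthickening_subset_open hU h
  have hε : 0 < min δ 1 := lt_min hδ one_pos
  refine ⟨thickening (min δ 1) (segment ℝ a c), isOpen_thickening, (convex_segment a c).thickening _, hcomp.isBounded.thickening,
    (closure_thickening_subset_cthickening _ _).trans ((cthickening_mono (min_le_left _ _) _).trans h1), self_subset_thickening hε _ (left_mem_segment ℝ a c),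
    self_subset_thickening hε _ (right_mem_segment ℝ a c), fun z hz z' hz' => ?_⟩
  obtain ⟨y, hy, hzy⟩ := mem_thickening_iff.1 hz
  obtain ⟨y', hy', hzy'⟩ := mem_thickening_iff.1 hz'
  have h2 : dist y y' ≤ dist a c := by
    have h3 := dist_le_diam_of_mem hcomp.isBounded hy hy'
    rwa [← convexHull_pair, convexHull_diam, diam_pair] at h3
  have h4 : dist z z' ≤ dist z y + dist y y' + dist y' z' := dist_triangle4 _ _ _ _
  rw [dist_comm y' z'] at h4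
  rw [← dist_eq_norm]
  have h5 : dist z y < 1 := lt_of_lt_of_le hzy (min_le_right _ _)
  have h6 : dist z' y' < 1 := lt_of_lt_of_le hzy' (min_le_right _ _)
  linarith

private theorem Vb_HP : IsOpen HP := isOpen_lt continuous_const Complex.continuous_re

private theorem Vb_zeros (hF : LCurve P B b F) (hne : ∃ w ∈ HP, deriv F w ≠ 0) {z : ℂ} (hz : z ∈ HP) : ∀ᶠ v in 𝓝[≠] z, deriv F v ≠ 0 := by
  rcases (hF.curve.an z hz).deriv.eventually_eq_zero_or_eventually_ne_zero with h | h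
  · obtain ⟨w₀, hw₀, h0⟩ := hne
    have hU : IsPreconnected HP := (convex_halfSpace_re_gt 0).isPreconnected
    have hA : AnalyticOnNhd ℂ (deriv F) HP := fun w hw => (hF.curve.an w hw).deriv
    exact absurd (hA.eqOn_zero_of_preconnected_of_eventuallyEq_zero hU hz h hw₀) h0
  · exact h

private theorem Vb_emb (x : Fin (N + 1) → ℂ) (i : Fin (N + 1)) : emb B x i.castSucc = x i := by
  simp [emb]

private theorem Vb_const (t : ℂ) : ‖(fun _ : Fin 1 => t)‖ = ‖t‖ := pi_norm_const t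

private theorem Vb_line (w t : ℂ) : HasDerivAt (fun t : ℂ => ((w, fun _ => t) : ℂ × (Fin 1 → ℂ))) ((0, 1) : ℂ × (Fin 1 → ℂ)) t := by
  have h6 : HasDerivAt (fun t : ℂ => (fun _ : Fin 1 => t)) (1 : Fin 1 → ℂ) t := hasDerivAt_pi.2 fun _ => hasDerivAt_id t
  exact (hasDerivAt_const t w).prodMk h6

private theorem Vb_linean (w t : ℂ) : AnalyticAt ℂ (fun t : ℂ => ((w, fun _ => t) : ℂ × (Fin 1 → ℂ))) t := by
  have h6 : AnalyticAt ℂ (fun t : ℂ => (fun _ : Fin 1 => t)) t := analyticAt_pi_iff.2 fun _ => analyticAt_id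
  exact analyticAt_const.prod h6

/-- the value at `w` from a family with small height -/
private theorem Vb_av (hP : Homog P) (hθ : LogPolar θ) (hm : ∀ k, 1 ≤ m k) (hb : b ∈ B) (f : LFrame θ b) : ∃ A > 0, ∀ (F : ℂ → Fin (N + 1) → ℂ) (w : ℂ) (ρ : ℝ),
    0 < ρ → ∀ (Φ : ℂ × (Fin 1 → ℂ) → Fin (N + 2) → ℂ) (M : ℝ),
    (∀ s : Fin 1 → ℂ, ‖s‖ < ρ → NSol (gfamL f) (fun l q => gval (thv θ (F q.1) (deriv F q.1)) l) Φ (w, s)) → Φ (w, 0) = eF B F w →
    (∀ s : Fin 1 → ℂ, ‖s‖ < ρ → Rho B (fun i => Φ (w, s) (Fin.castSucc i)) ≤ M) → ∀ v : Fin (N + 2) → ℂ, v = fderiv ℂ Φ (w, 0) (0, 1) →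
    ∀ i, ‖thv θ (F w) (fun j => v (Fin.castSucc j)) i‖ ≤ A * (A * (M + 1) / ρ) ^ m i := by
  obtain ⟨c₀, -, C₀, hC₀, hbd⟩ := theta_bdL hP hθ hm hb
  obtain ⟨K, hK, hav⟩ := exists_av (N := N) B b
  refine ⟨max C₀ (2 * K), lt_max_of_lt_left hC₀, fun F w ρ hρ Φ M hΦ hΦ0 hM v hv i => ?_⟩
  have hlt : ∀ t ∈ closedBall (0 : ℂ) (ρ / 2), ‖(fun _ : Fin 1 => t)‖ < ρ := by
    intro t ht
    rw [mem_closedBall, dist_zero_right] at ht
    rw [Vb_const]
    linarith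
  have hcs : ∀ t ∈ closedBall (0 : ℂ) (ρ / 2), AnalyticAt ℂ (fun t : ℂ => Φ (w, fun _ => t)) t := fun t ht =>
    AnalyticAt.fun_comp (g := Φ) (f := fun t : ℂ => ((w, fun _ => t) : ℂ × (Fin 1 → ℂ))) (hΦ _ (hlt t ht)).1 (Vb_linean w t)
  have han : ∀ t ∈ closedBall (0 : ℂ) (ρ / 2), AnalyticAt ℂ (fun (t : ℂ) (j : Fin (N + 1)) => Φ (w, fun _ => t) (Fin.castSucc j)) t := fun t ht =>
    analyticAt_pi_iff.2 fun j => (analyticAt_pi_iff.1 (hcs t ht)) j.castSucc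
  have hUc : ∀ t ∈ closedBall (0 : ℂ) (ρ / 2), ∀ᶠ u in 𝓝 t, (fun j : Fin (N + 1) => Φ (w, fun _ => u) (Fin.castSucc j)) ∈ Uc P B b := by
    intro t ht
    have h1 := (lFam_of_nSol f (hΦ _ (hlt t ht))).1.2
    have h2 : Tendsto (fun t : ℂ => ((w, fun _ => t) : ℂ × (Fin 1 → ℂ))) (𝓝 t) (𝓝 (w, fun _ => t)) := (Vb_linean w t).continuousAt.tendsto
    exact (h2.eventually h1).mono fun u hu => hu.1
  have hTc : ∀ t ∈ closedBall (0 : ℂ) (ρ / 2), deriv (fun (t : ℂ) (j : Fin (N + 1)) => Φ (w, fun _ => t) (Fin.castSucc j)) t ∈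
      Tc P b (fun j : Fin (N + 1) => Φ (w, fun _ => t) (Fin.castSucc j)) := by
    intro t ht
    have h1 := deriv_mem_Tc (P := P) (B := B) (b := b) (x := fun (t : ℂ) (j : Fin (N + 1)) => Φ (w, fun _ => t) (Fin.castSucc j)) (z := t) (han t ht) (hUc t ht)
    exact h1
  have hgan : ∀ t ∈ closedBall (0 : ℂ) (ρ / 2), AnalyticAt ℂ (fun t => thv θ (fun j : Fin (N + 1) => Φ (w, fun _ => t) (Fin.castSucc j))
      (deriv (fun (t : ℂ) (j : Fin (N + 1)) => Φ (w, fun _ => t) (Fin.castSucc j)) t) i) t := by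
    intro t ht
    refine analyticAt_thv (b := b) (x := fun (t : ℂ) (j : Fin (N + 1)) => Φ (w, fun _ => t) (Fin.castSucc j))
      (v := deriv (fun (t : ℂ) (j : Fin (N + 1)) => Φ (w, fun _ => t) (Fin.castSucc j))) (han t ht) (han t ht).deriv ?_ i
    filter_upwards [(hUc t ht).eventually_nhds, (han t ht).eventually_analyticAt] with u h1 h2
    have h3 := deriv_mem_Tc (P := P) (B := B) (b := b) (x := fun (t : ℂ) (j : Fin (N + 1)) => Φ (w, fun _ => t) (Fin.castSucc j)) (z := u) h2 h1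
    exact ⟨h1.self_of_nhds, h3⟩
  have h0 : (fun j : Fin (N + 1) => Φ (w, fun _ => (0 : ℂ)) (Fin.castSucc j)) = F w := by
    funext j
    have h1 : Φ (w, fun _ => (0 : ℂ)) = eF B F w := hΦ0
    rw [h1]
    exact Vb_emb _ _
  have hd0 : deriv (fun (t : ℂ) (j : Fin (N + 1)) => Φ (w, fun _ => t) (Fin.castSucc j)) 0 = fun j => v (Fin.castSucc j) := by
    have h1 : HasDerivAt (fun t : ℂ => Φ (w, fun _ => t)) (fderiv ℂ Φ (w, 0) (0, 1)) 0 := by
      have h7 : HasFDerivAt Φ (fderiv ℂ Φ (w, 0)) ((fun t : ℂ => ((w, fun _ => t) : ℂ × (Fin 1 → ℂ))) 0) :=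
        (hΦ 0 (by rw [norm_zero]; exact hρ)).1.differentiableAt.hasFDerivAt
      exact h7.comp_hasDerivAt (0 : ℂ) (Vb_line w 0)
    rw [← hv] at h1
    exact (hasDerivAt_pi.2 fun j : Fin (N + 1) => hasDerivAt_pi.1 h1 j.castSucc).deriv
  have h1 := hav (fun (t : ℂ) (j : Fin (N + 1)) => Φ (w, fun _ => t) (Fin.castSucc j)) 0 (ρ / 2) M (by positivity) han
    (fun t ht => (hUc t ht).self_of_nhds.2.1) (fun t ht => (hUc t ht).self_of_nhds.2.2) (fun t ht => hM _ (hlt t ht))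
    (fun t => thv θ (fun j : Fin (N + 1) => Φ (w, fun _ => t) (Fin.castSucc j))
      (deriv (fun (t : ℂ) (j : Fin (N + 1)) => Φ (w, fun _ => t) (Fin.castSucc j)) t) i) C₀ (m i) hgan hC₀.le
    (fun t ht => (hbd _ (hUc t ht).self_of_nhds _ (hTc t ht)).1 i)
  rw [h0, hd0] at h1
  have hbase : 0 ≤ K * (M + 1) / (ρ / 2) := by
    by_contra hneg
    push Not at hneg
    -- the height is at least `- 1`
    have h2 := hav (fun (t : ℂ) (j : Fin (N + 1)) => Φ (w, fun _ => t) (Fin.castSucc j)) 0 (ρ / 2) M (by positivity) han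
      (fun t ht => (hUc t ht).self_of_nhds.2.1) (fun t ht => (hUc t ht).self_of_nhds.2.2) (fun t ht => hM _ (hlt t ht))
      (fun _ => 0) 1 1 (fun t _ => analyticAt_const) zero_le_one (fun t _ => by
        rw [norm_zero, one_mul, pow_one]
        unfold LL
        positivity)
    rw [norm_zero, one_mul, pow_one] at h2
    linarith
  have hle : K * (M + 1) / (ρ / 2) ≤ max C₀ (2 * K) * (M + 1) / ρ := by
    have h2 : K * (M + 1) / (ρ / 2) = 2 * K * (M + 1) / ρ := by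
      field_simp
    have h3 : 0 ≤ M + 1 := by
      by_contra h4
      push Not at h4
      have h5 : K * (M + 1) / (ρ / 2) < 0 := div_neg_of_neg_of_pos (mul_neg_of_pos_of_neg hK h4) (by positivity)
      linarith
    rw [h2]
    gcongr
    exact le_max_right _ _
  refine h1.trans ?_
  exact mul_le_mul (le_max_left _ _) (pow_le_pow_left₀ hbase hle _) (pow_nonneg hbase _) (le_trans hC₀.le (le_max_left _ _))

/-- the linearised equations -/
private theorem Vb_lhs (hP : Homog P) (hθ : LogPolar θ) (hm : ∀ k, 1 ≤ m k) (hb : b ∈ B) (f : LFrame θ b) (hF : LCurve P B b F) (hX : Lev (sp F) X)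
    {V : ℂ → Fin (N + 2) → ℂ} (hV : ∀ w ∈ HP, AnalyticAt ℂ V w ∧ RelP (GA.OO hX) (eF B F) V w) : ∀ z ∈ HP, ∀ l, lhs (gfamL f l) (eF B F) V z = 0 := by
  intro z hz l
  have h1 : ∀ᶠ v in 𝓝 z, eval (pt (eF B F v) (deriv (eF B F) v)) (gfamL f l) = (fun w => gval (thv θ (F w) (deriv F w)) l) v := by
    filter_upwards [Vb_HP.mem_nhds hz] with v hv
    exact eval_curve f hF l hv
  exact ((hV z hz).2.lhs (gfam_small hP hθ hm hb f hF hX l) h1).self_of_nhds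

/-- the bound at the good points -/
private theorem Vb_point (hP : Homog P) (hθ : LogPolar θ) (hm : ∀ k, 1 ≤ m k) (hb : b ∈ B) (f : LFrame θ b) (hF : LCurve P B b F) (hX : Lev (sp F) X)
    (hne : ∃ w ∈ HP, deriv F w ≠ 0) {V : ℂ → Fin (N + 2) → ℂ} (hV : ∀ w ∈ HP, AnalyticAt ℂ V w ∧ RelP (GA.OO hX) (eF B F) V w) :
    ∃ (K : ℝ) (k : ℕ), ∀ (n : ℕ) (w : ℂ), 1 < w.re → w.re < X n - 1 / tau (sp F) X n → |w.im| ≤ 8 → (∀ z ∈ HP, z.im = w.im → deriv F z ≠ 0) →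
      ∀ i, ‖thv θ (F w) (fun j => V w (Fin.castSucc j)) i‖ ≤ K * tau (sp F) X n ^ k := by
  obtain ⟨w₁, hw1, hw2, hline, ρ, hρ, Φb, M₁, hNS, hΦb0, hΦbV, hΦbM⟩ := vb_base hP hθ hm hb f hF hX hne hV
  obtain ⟨C, hC, hleg⟩ := vb_leg hP hθ hm hb f
  obtain ⟨KT, kT, hT⟩ := thv_levels hP hθ hm hb hF hX
  obtain ⟨A, hA, hav⟩ := Vb_av hP hθ hm hb f
  obtain ⟨D₁, hD₁⟩ : ∃ D₁ : ℝ, D₁ = |w₁.im| + 10 := ⟨_, rfl⟩
  have hD₁0 : 0 ≤ D₁ := by
    rw [hD₁]
    positivity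
  obtain ⟨Q, hQ⟩ : ∃ Q : ℝ, Q = |M₁| + 1 + C * (|KT| + 1) * (D₁ + 3) := ⟨_, rfl⟩
  have hQ0 : 0 < Q := by
    rw [hQ]
    positivity
  obtain ⟨A', hA'⟩ : ∃ A' : ℝ, A' = max 1 (A * Q / ρ) := ⟨_, rfl⟩
  have hA'1 : 1 ≤ A' := hA' ▸ le_max_left _ _
  refine ⟨A * A' ^ (∑ k, m k), (kT + 1) * ∑ k, m k, fun n w hwr hwX hwi hgood i => ?_⟩
  have hτ4 : 4 ≤ tau (sp F) X n := by
    have h1 := hX.tau_ge' n
    have h2 : (0 : ℝ) ≤ n := Nat.cast_nonneg n
    linarith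
  have hXn4 : 4 ≤ X n := by
    have h1 := hX.big n
    have h2 : (0 : ℝ) ≤ n := Nat.cast_nonneg n
    linarith
  have hXτ : X n ≤ tau (sp F) X n := by
    have h1 := hX.sub n
    have h2 : (0 : ℝ) ≤ n := Nat.cast_nonneg n
    nlinarith
  obtain ⟨τ, hτ⟩ : ∃ τ : ℝ, τ = tau (sp F) X n := ⟨_, rfl⟩
  rw [← hτ] at hτ4 hXτ hwX ⊢
  have hτ0 : 0 < τ := by linarith
  have hτi : 1 / τ ≤ 1 / 4 := by gcongr
  have hτi0 : 0 < 1 / τ := by positivity
  obtain ⟨T, hTd⟩ : ∃ T : ℝ, T = (|KT| + 1) * τ ^ kT := ⟨_, rfl⟩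
  have hpow1 : 1 ≤ τ ^ kT := one_le_pow₀ (by linarith)
  have hT1 : 1 ≤ T := by
    rw [hTd]
    have := abs_nonneg KT
    nlinarith
  have hTT : ∀ z : ℂ, 1 ≤ z.re → z.re ≤ X n - 1 / τ → ∀ k, ‖thv θ (F z) (deriv F z) k‖ ≤ T := by
    intro z h1 h2 k
    have h3 := hT n z h1 (by rw [← hτ]; exact h2) k
    rw [← hτ] at h3
    refine h3.trans ?_
    rw [hTd]
    gcongr
    linarith [le_abs_self KT]
  -- the open set
  have hUo : IsOpen {z : ℂ | 1 < z.re ∧ z.re < X n - 1 / τ ∧ deriv F z ≠ 0} := by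
    rw [isOpen_iff_mem_nhds]
    rintro z ⟨h1, h2, h3⟩
    have hz : z ∈ HP := lt_trans one_pos h1
    have h4 : ∀ᶠ v in 𝓝 z, deriv F v ≠ 0 := (hF.curve.an z hz).deriv.continuousAt.eventually_ne h3
    have h5 : ∀ᶠ v : ℂ in 𝓝 z, 1 < v.re := Complex.continuous_re.continuousAt.eventually (lt_mem_nhds h1)
    have h6 : ∀ᶠ v : ℂ in 𝓝 z, v.re < X n - 1 / τ := Complex.continuous_re.continuousAt.eventually (gt_mem_nhds h2)
    filter_upwards [h4, h5, h6] with v h7 h8 h9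
    exact ⟨h8, h9, h7⟩
  have hUHP : {z : ℂ | 1 < z.re ∧ z.re < X n - 1 / τ ∧ deriv F z ≠ 0} ⊆ HP := fun z hz => lt_trans one_pos hz.1
  obtain ⟨c, hcre, hcim⟩ : ∃ c : ℂ, c.re = w₁.re ∧ c.im = w.im := ⟨⟨w₁.re, w.im⟩, rfl, rfl⟩
  have hS1 : segment ℝ w₁ c ⊆ {z : ℂ | 1 < z.re ∧ z.re < X n - 1 / τ ∧ deriv F z ≠ 0} := by
    rintro z ⟨s, t, hs, ht, hst, rfl⟩
    have h1 : (s • w₁ + t • c).re = w₁.re := by
      rw [Complex.add_re, Complex.smul_re, Complex.smul_re, hcre, smul_eq_mul, smul_eq_mul, ← add_mul, hst, one_mul]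
    exact ⟨by rw [h1]; exact hw1, by rw [h1]; linarith, hline _ h1⟩
  have hS2 : segment ℝ c w ⊆ {z : ℂ | 1 < z.re ∧ z.re < X n - 1 / τ ∧ deriv F z ≠ 0} := by
    rintro z ⟨s, t, hs, ht, hst, rfl⟩
    have h1 : (s • c + t • w).im = w.im := by
      rw [Complex.add_im, Complex.smul_im, Complex.smul_im, hcim, smul_eq_mul, smul_eq_mul, ← add_mul, hst, one_mul]
    have h2 : (s • c + t • w).re = s * w₁.re + t * w.re := by
      rw [Complex.add_re, Complex.smul_re, Complex.smul_re, hcre, smul_eq_mul, smul_eq_mul]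
    have h3 : 1 < (s • c + t • w).re := by
      rw [h2]
      rcases eq_or_lt_of_le hs with h4 | h4
      · have h5 : t = 1 := by linarith
        rw [← h4, h5]
        linarith
      · nlinarith
    have h4 : (s • c + t • w).re < X n - 1 / τ := by
      rw [h2]
      rcases eq_or_lt_of_le hs with h4 | h4
      · have h5 : t = 1 := by linarith
        rw [← h4, h5]
        linarith
      · nlinarith
    exact ⟨h3, h4, hgood _ (lt_trans one_pos h3) h1⟩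
  obtain ⟨Ω₁, hΩ₁o, hΩ₁c, hΩ₁b, hΩ₁U, hw₁Ω, hcΩ₁, hΩ₁D⟩ := Vb_nbhd hUo hS1
  obtain ⟨Ω₂, hΩ₂o, hΩ₂c, hΩ₂b, hΩ₂U, hcΩ₂, hwΩ₂, hΩ₂D⟩ := Vb_nbhd hUo hS2
  have hd1 : dist w₁ c ≤ |w₁.im| + 8 := by
    rw [Complex.dist_eq, ← Complex.re_add_im (w₁ - c), Complex.sub_re, Complex.sub_im, hcre, sub_self, Complex.ofReal_zero, zero_add, norm_mul,
      Complex.norm_I, mul_one, Complex.norm_real, Real.norm_eq_abs, hcim]
    exact (abs_sub _ _).trans (by linarith)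
  have hd2 : dist c w ≤ X n := by
    rw [Complex.dist_eq, ← Complex.re_add_im (c - w), Complex.sub_re, Complex.sub_im, hcim, sub_self, Complex.ofReal_zero, zero_mul, add_zero,
      Complex.norm_real, Real.norm_eq_abs, hcre, abs_le]
    constructor <;> linarith
  have hlhs := Vb_lhs hP hθ hm hb f hF hX hV
  obtain ⟨Φ₁, h11, h12, h13, h14⟩ := hleg F hF Ω₁ hΩ₁o hΩ₁c hΩ₁b (hΩ₁U.trans hUHP) (fun z hz => (hΩ₁U hz).2.2) T hT1
    (fun z hz => hTT z (hΩ₁U (subset_closure hz)).1.le (hΩ₁U (subset_closure hz)).2.1.le) D₁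
    (fun z hz z' hz' => (hΩ₁D z hz z' hz').trans (by rw [hD₁]; linarith)) w₁ hw₁Ω ρ hρ Φb M₁ hNS hΦb0 hΦbM
  have hV1 : V c = fderiv ℂ Φ₁ (c, 0) (0, 1) :=
    h14 V (fun z hz => (hV z (hUHP (hΩ₁U (subset_closure hz)))).1) (fun z hz => hlhs z (hUHP (hΩ₁U (subset_closure hz)))) hΦbV.symm c hcΩ₁
  obtain ⟨Φ₂, h21, h22, h23, h24⟩ := hleg F hF Ω₂ hΩ₂o hΩ₂c hΩ₂b (hΩ₂U.trans hUHP) (fun z hz => (hΩ₂U hz).2.2) T hT1
    (fun z hz => hTT z (hΩ₂U (subset_closure hz)).1.le (hΩ₂U (subset_closure hz)).2.1.le) (X n + 2)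
    (fun z hz z' hz' => (hΩ₂D z hz z' hz').trans (by linarith)) c hcΩ₂ ρ hρ Φ₁ (M₁ + C * T * D₁) (fun s hs => h11 (c, s) hcΩ₁ hs)
    (by
      filter_upwards [hΩ₁o.mem_nhds hcΩ₁] with z hz
      exact h12 z hz) (fun s hs => h13 c hcΩ₁ s hs)
  have hV2 : V w = fderiv ℂ Φ₂ (w, 0) (0, 1) :=
    h24 V (fun z hz => (hV z (hUHP (hΩ₂U (subset_closure hz)))).1) (fun z hz => hlhs z (hUHP (hΩ₂U (subset_closure hz)))) hV1 w hwΩ₂
  -- the height
  have hM : M₁ + C * T * D₁ + C * T * (X n + 2) ≤ Q * τ ^ (kT + 1) - 1 := by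
    have h1 : T * (D₁ + (X n + 2)) ≤ (|KT| + 1) * (D₁ + 3) * τ ^ (kT + 1) := by
      have h2 : D₁ + (X n + 2) ≤ (D₁ + 3) * τ := by nlinarith
      calc T * (D₁ + (X n + 2)) ≤ T * ((D₁ + 3) * τ) := mul_le_mul_of_nonneg_left h2 (by linarith)
        _ = (|KT| + 1) * (D₁ + 3) * τ ^ (kT + 1) := by
          rw [hTd]
          ring
    have h3 : |M₁| + 1 ≤ (|M₁| + 1) * τ ^ (kT + 1) := le_mul_of_one_le_right (by positivity) (one_le_pow₀ (by linarith))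
    have h4 := mul_le_mul_of_nonneg_left h1 hC.le
    have h5 := le_abs_self M₁
    rw [hQ]
    have h6 : (|M₁| + 1 + C * (|KT| + 1) * (D₁ + 3)) * τ ^ (kT + 1) = (|M₁| + 1) * τ ^ (kT + 1) + C * ((|KT| + 1) * (D₁ + 3) * τ ^ (kT + 1)) := by ring
    rw [h6]
    have h7 : C * T * D₁ + C * T * (X n + 2) = C * (T * (D₁ + (X n + 2))) := by ring
    linarith
  have hfin := hav F w ρ hρ Φ₂ (Q * τ ^ (kT + 1) - 1) (fun s hs => h21 (w, s) hwΩ₂ hs) (h22 w hwΩ₂) (fun s hs => (h23 w hwΩ₂ s hs).trans hM) (V w) hV2 i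
  refine hfin.trans ?_
  rw [sub_add_cancel]
  have h1 : A * (Q * τ ^ (kT + 1)) / ρ ≤ A' * τ ^ (kT + 1) := by
    have h2 : A * (Q * τ ^ (kT + 1)) / ρ = A * Q / ρ * τ ^ (kT + 1) := by ring
    rw [h2]
    gcongr
    rw [hA']
    exact le_max_right _ _
  have h0 : 0 ≤ A * (Q * τ ^ (kT + 1)) / ρ := by positivity
  have hmi : m i ≤ ∑ k, m k := Finset.single_le_sum (f := m) (fun k _ => Nat.zero_le _) (Finset.mem_univ i)
  calc A * (A * (Q * τ ^ (kT + 1)) / ρ) ^ m i ≤ A * (A' * τ ^ (kT + 1)) ^ m i := by gcongr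
    _ = A * (A' ^ m i * (τ ^ (kT + 1)) ^ m i) := by rw [mul_pow]
    _ ≤ A * (A' ^ (∑ k, m k) * (τ ^ (kT + 1)) ^ (∑ k, m k)) := by
        have h3 : A' ^ m i ≤ A' ^ (∑ k, m k) := pow_le_pow_right₀ hA'1 hmi
        have h4 : (τ ^ (kT + 1)) ^ m i ≤ (τ ^ (kT + 1)) ^ (∑ k, m k) := pow_le_pow_right₀ (one_le_pow₀ (by linarith)) hmi
        gcongr
    _ = A * A' ^ (∑ k, m k) * τ ^ ((kT + 1) * ∑ k, m k) := by
        rw [← pow_mul]
        ring

theorem vbound (hP : Homog P) (hθ : LogPolar θ) (hm : ∀ k, 1 ≤ m k) (hb : b ∈ B) (f : LFrame θ b) (hF : LCurve P B b F) (hX : Lev (sp F) X)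
    (hne : ∃ w ∈ HP, deriv F w ≠ 0) {V : ℂ → Fin (N + 2) → ℂ} (hV : ∀ w ∈ HP, AnalyticAt ℂ V w ∧ RelP (GA.OO hX) (eF B F) V w) :
    ∃ (K : ℝ) (k : ℕ), ∀ (n : ℕ) (w : ℂ), 1 ≤ w.re → w.re ≤ X n - 1 / tau (sp F) X n → 0 ≤ w.im → w.im ≤ 2 * Real.pi →
      ∀ i, ‖thv θ (F w) (fun j => V w (Fin.castSucc j)) i‖ ≤ K * tau (sp F) X n ^ k := by
  obtain ⟨K, k, h⟩ := Vb_point hP hθ hm hb f hF hX hne hV
  refine ⟨K, k, fun n w hw1 hwX hw0 hwπ i => ?_⟩
  have hπ : 2 * Real.pi < 7 := by linarith [Real.pi_lt_d2]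
  have hwHP : w ∈ HP := lt_of_lt_of_le one_pos hw1
  -- continuity at `w`
  have hcont : ContinuousAt (fun z => ‖thv θ (F z) (fun j => V z (Fin.castSucc j)) i‖) w := by
    have hx : AnalyticAt ℂ F w := hF.curve.an w hwHP
    have hU : ∀ᶠ z in 𝓝 w, F z ∈ Uc P B b := by
      filter_upwards [Vb_HP.mem_nhds hwHP] with z hz
      exact ⟨hF.curve.cone z hz, hF.one z, hF.ne z hz⟩
    have h1 := of_lhs f hx hU (V := V) (by
      filter_upwards [Vb_HP.mem_nhds hwHP] with z hz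
      exact Vb_lhs hP hθ hm hb f hF hX hV z hz)
    have hv : AnalyticAt ℂ (fun (z : ℂ) (j : Fin (N + 1)) => V z (Fin.castSucc j)) w :=
      analyticAt_pi_iff.2 fun j => (analyticAt_pi_iff.1 (hV w hwHP).1) j.castSucc
    exact (analyticAt_thv (b := b) hx hv (by
      filter_upwards [hU, h1] with z hz hz1
      exact ⟨hz, hz1.1⟩) i).continuousAt.norm
  -- density
  have hfreq : ∃ᶠ z in 𝓝 w, ‖thv θ (F z) (fun j => V z (Fin.castSucc j)) i‖ ≤ K * tau (sp F) X n ^ k := by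
    rw [Metric.nhds_basis_ball.frequently_iff]
    intro ε hε
    have hS : {z : ℂ | z ∈ HP ∧ deriv F z = 0}.Countable := by
      refine Vb_countable fun z hz => ?_
      filter_upwards [Vb_zeros hF hne hz.1] with v h2 h3
      exact h2 h3.2
    have hlt : 0 < min (ε / 2) 1 := lt_min (half_pos hε) one_pos
    obtain ⟨a, ha, ha1, ha2⟩ := ((hS.image Complex.im).dense_compl ℝ).exists_mem_open (isOpen_Ioo (a := w.im) (b := w.im + min (ε / 2) 1))
      ⟨w.im + min (ε / 2) 1 / 2, by linarith, by linarith⟩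
    have hl1 : min (ε / 2) 1 ≤ ε / 2 := min_le_left _ _
    have hl2 : min (ε / 2) 1 ≤ 1 := min_le_right _ _
    have hτ4 : 4 ≤ tau (sp F) X n := by
      have h1 := hX.tau_ge' n
      have h2 : (0 : ℝ) ≤ n := Nat.cast_nonneg n
      linarith
    have hXn4 : 4 ≤ X n := by
      have h1 := hX.big n
      have h2 : (0 : ℝ) ≤ n := Nat.cast_nonneg n
      linarith
    have hτi : 1 / tau (sp F) X n ≤ 1 / 4 := by gcongr
    have hcl : w.re ∈ closure (Set.Ioo 1 (X n - 1 / tau (sp F) X n)) := by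
      rw [closure_Ioo (by linarith : (1 : ℝ) < X n - 1 / tau (sp F) X n).ne]
      exact ⟨hw1, hwX⟩
    obtain ⟨r, ⟨hr1, hr2⟩, hr3⟩ := Metric.mem_closure_iff.1 hcl (ε / 2) (half_pos hε)
    refine ⟨⟨r, a⟩, ?_, h n ⟨r, a⟩ hr1 hr2 ?_ ?_ i⟩
    · rw [mem_ball, dist_eq_norm]
      refine (Complex.norm_le_abs_re_add_abs_im _).trans_lt ?_
      rw [Complex.sub_re, Complex.sub_im]
      have h3 : |r - w.re| < ε / 2 := by
        rw [← Real.dist_eq, dist_comm]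
        exact hr3
      have h4 : |a - w.im| ≤ ε / 2 := by
        rw [abs_le]
        constructor <;> linarith
      show |r - w.re| + |a - w.im| < ε
      linarith
    · show |a| ≤ 8
      rw [abs_le]
      constructor <;> linarith
    · intro z hz hza h0
      exact ha ⟨z, ⟨hz, h0⟩, hza⟩
  exact le_of_tendsto_of_frequently hcont.tendsto hfreq

end Pool.Agent.GL
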