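import Pool.Agent.GL.CntL
import Pool.Agent.GL.SpC
import Pool.Agent.GL.Disc
import Pool.Agent.GL.Sol

/-!
# GL VbA: a family of solutions with the derivative `V`, near one point

The zeros of `F'` in `HP` are isolated, so countable: choose `w₁` with `1 < Re w₁ < 2`, no zero of `F'` on the vertical line through `w₁` (its real part avoids countably many numbers), and such that `exists_vf` holds at `w₁` for `x = eF B F` and `V`
(it holds at all points of a punctured neighbourhood of every point, so the bad points are isolated as well: countable).  `exists_disc`: `Z' (0) = (V, V') (w₁)`.  `exists_rowL` at `(F w₁, F' w₁)`, `deriv_emb`; `exists_sol` for `G = gfamL f`,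
`g l = gval (thv θ F F') l ∈ GA.OO hX` (`gfam_small`, `eval_curve`).  `fderiv Φ (w₁, 0) (0, 1) = V w₁`: the first half of `Z (s 0) = (Φ (w₁, s), …)`.  Height at `(w₁, s)`: bounded after shrinking `ρ` (continuity; `lFam_of_nSol`: the point is in `Uc`).
-/

set_option autoImplicit false

open MvPolynomial Topology Filter Metric
open Pool.Agent.H13.SM (conTan cone)
open Pool.Agent.H62.FC (Homog)
open Pool.Agent.GG Pool.Agent.GA

namespace Pool.Agent.GL

variable {N : ℕ} {P : Ideal (MvPolynomial (Fin (N + 1)) ℂ)} {B : Finset (Fin (N + 1))} {J : ℕ} {m : Fin J → ℕ} {θ : ∀ k, LogSec P B (m k)} {b : Fin (N + 1)}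
  {F : ℂ → Fin (N + 1) → ℂ} {X : ℕ → ℝ}

private theorem VbA_countable {S : Set ℂ} (h : ∀ z ∈ S, ∀ᶠ v in 𝓝[≠] z, v ∉ S) : S.Countable := by
  have hd : DiscreteTopology S := by
    rw [discreteTopology_subtype_iff]
    intro w hw
    rw [← _root_.disjoint_iff, Filter.disjoint_principal_right]
    exact h w hw
  exact Set.countable_coe_iff.1 (countable_of_Lindelof_of_discrete (X := S))

/-- a point `w₁` with `1 < Re w₁ < 2`: the whole line through it avoids an exceptional set, and it avoids another one -/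
private theorem VbA_exists_line {p q : ℂ → Prop} (hp : ∀ z ∈ HP, ∀ᶠ v in 𝓝[≠] z, p v) (hq : ∀ z ∈ HP, ∀ᶠ v in 𝓝[≠] z, q v) :
    ∃ w₁ : ℂ, 1 < w₁.re ∧ w₁.re < 2 ∧ (∀ z : ℂ, z.re = w₁.re → p z) ∧ q w₁ := by
  have h1 : {z : ℂ | z ∈ HP ∧ ¬ (p z ∧ q z)}.Countable := by
    refine VbA_countable fun z hz => ?_
    filter_upwards [hp z hz.1, hq z hz.1] with v h2 h3 h4 using h4.2 ⟨h2, h3⟩
  have h2 := h1.image Complex.re
  obtain ⟨a, ha, ha2⟩ := (h2.dense_compl ℝ).exists_mem_open (isOpen_Ioo (a := (1 : ℝ)) (b := 2)) ⟨3 / 2, by norm_num, by norm_num⟩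
  have h3 : ∀ z : ℂ, z.re = a → p z ∧ q z := by
    intro z hz
    by_contra h4
    refine ha ⟨z, ⟨?_, h4⟩, hz⟩
    show 0 < z.re
    rw [hz]
    linarith [ha2.1]
  refine ⟨(a : ℂ), by rw [Complex.ofReal_re]; exact ha2.1, by rw [Complex.ofReal_re]; exact ha2.2, fun z hz => ?_, (h3 _ (Complex.ofReal_re a)).2⟩
  rw [Complex.ofReal_re] at hz
  exact (h3 z hz).1

private theorem VbA_rho_cont {x : Fin (N + 1) → ℂ} (hx : x ≠ 0) (h : ∀ i ∈ B, x i ≠ 0) : ContinuousAt (fun y => Rho B y) x := by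
  have h1 : ContinuousAt (fun y : Fin (N + 1) → ℂ => Real.log ‖y‖) x := (continuous_norm.continuousAt).log (norm_ne_zero_iff.2 hx)
  refine h1.add (tendsto_finsetSum _ fun i hi => h1.sub ?_)
  exact ((continuous_apply i).norm.continuousAt).log (norm_ne_zero_iff.2 (h i hi))

theorem vb_base (hP : Homog P) (hθ : LogPolar θ) (hm : ∀ k, 1 ≤ m k) (hb : b ∈ B) (f : LFrame θ b) (hF : LCurve P B b F) (hX : Lev (sp F) X)
    (hne : ∃ w ∈ HP, deriv F w ≠ 0) {V : ℂ → Fin (N + 2) → ℂ} (hV : ∀ w ∈ HP, AnalyticAt ℂ V w ∧ RelP (GA.OO hX) (eF B F) V w) :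
    ∃ w₁ : ℂ, 1 < w₁.re ∧ w₁.re < 2 ∧ (∀ z : ℂ, z.re = w₁.re → deriv F z ≠ 0) ∧ ∃ ρ > 0, ∃ (Φ : ℂ × (Fin 1 → ℂ) → Fin (N + 2) → ℂ) (M : ℝ),
      (∀ s : Fin 1 → ℂ, ‖s‖ < ρ → NSol (gfamL f) (fun l q => gval (thv θ (F q.1) (deriv F q.1)) l) Φ (w₁, s)) ∧ (∀ᶠ z in 𝓝 w₁, Φ (z, 0) = eF B F z) ∧
      fderiv ℂ Φ (w₁, 0) (0, 1) = V w₁ ∧ ∀ s : Fin 1 → ℂ, ‖s‖ < ρ → Rho B (fun i => Φ (w₁, s) (Fin.castSucc i)) ≤ M := by
  have hHP : IsOpen HP := isOpen_lt continuous_const Complex.continuous_re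
  have hO := isSmallRing_OO hX
  have hx : ∀ w ∈ HP, AnalyticAt ℂ (eF B F) w := fun w hw => analyticAt_emb (hF.curve.an w hw) (hF.ne w hw)
  have hdx : ∀ w ∈ HP, deriv (eF B F) w = embV B (F w) (deriv F w) := fun w hw => deriv_emb (hF.curve.an w hw) (hF.ne w hw)
  -- the zeros of `F'` are isolated
  have hz : ∀ z ∈ HP, ∀ᶠ v in 𝓝[≠] z, deriv F v ≠ 0 := by
    intro z hz
    rcases (hF.curve.an z hz).deriv.eventually_eq_zero_or_eventually_ne_zero with h | h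
    · obtain ⟨w₀, hw₀, h0⟩ := hne
      have hU : IsPreconnected HP := (convex_halfSpace_re_gt 0).isPreconnected
      have hA : AnalyticOnNhd ℂ (deriv F) HP := fun w hw => (hF.curve.an w hw).deriv
      exact absurd (hA.eqOn_zero_of_preconnected_of_eventuallyEq_zero hU hz h hw₀) h0
    · exact h
  -- the point `w₁`
  obtain ⟨w₁, h1, h2, h3, A, hA, hAV⟩ := VbA_exists_line hz fun z hz => exists_vf hO hHP hz (hx z hz) (hV z hz).1 (hV z hz).2
  have hw : w₁ ∈ HP := lt_trans one_pos h1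
  refine ⟨w₁, h1, h2, h3, ?_⟩
  -- the disc of initial values
  obtain ⟨Z, hZ, hZ0, hZ1, hZR⟩ := exists_disc (y := fun w => pt (eF B F w) (deriv (eF B F) w)) A hA
  -- the minor
  have hUc : F w₁ ∈ Uc P B b := ⟨hF.curve.cone w₁ hw, hF.one w₁, hF.ne w₁ hw⟩
  have hTc : deriv F w₁ ∈ Tc P b (F w₁) := by
    refine deriv_mem_Tc (B := B) (hF.curve.an w₁ hw) ?_
    filter_upwards [hHP.mem_nhds hw] with w h5
    exact ⟨hF.curve.cone w h5, hF.one w, hF.ne w h5⟩
  obtain ⟨I, hI⟩ := exists_rowL hθ f hb hUc hTc (h3 w₁ rfl)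
  have hI' : eval (pt (eF B F w₁) (deriv (eF B F) w₁)) (vdet (gfamL f) I) ≠ 0 := by
    rw [hdx w₁ hw]
    exact hI
  have hG : ∀ᶠ w in 𝓝 w₁, ∀ l, eval (pt (eF B F w) (deriv (eF B F) w)) (gfamL f l) = (fun w => gval (thv θ (F w) (deriv F w)) l) w := by
    filter_upwards [hHP.mem_nhds hw] with w h5 l
    exact eval_curve f hF l h5
  obtain ⟨ρ, hρ, Φ, hΦ, hΦ1, hΦ2⟩ := exists_sol hO (gfamL f) (g := fun l w => gval (thv θ (F w) (deriv F w)) l) (fun l => gfam_small hP hθ hm hb f hF hX l)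
    hw (hx w₁ hw) hG I hI' hZ hZ0 hZR
  -- the value at `(w₁, s)`
  have hval : ∀ s : Fin 1 → ℂ, ‖s‖ < ρ → Φ (w₁, s) = fun i => Z (s 0) (Sum.inl i) := by
    intro s hs
    funext i
    have h5 := congrFun (hΦ1 s hs) (Sum.inl i)
    exact h5
  have hconst : ∀ t : ℂ, ‖(fun _ : Fin 1 => t)‖ = ‖t‖ := fun t => pi_norm_const t
  -- the derivative in `s`
  have hder : fderiv ℂ Φ (w₁, 0) (0, 1) = V w₁ := by
    have hΦan : AnalyticAt ℂ Φ (w₁, 0) := (hΦ 0 (by rw [norm_zero]; exact hρ)).1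
    have h5 : HasDerivAt (fun t : ℂ => ((w₁, fun _ => t) : ℂ × (Fin 1 → ℂ))) ((0, 1) : ℂ × (Fin 1 → ℂ)) 0 := by
      have h6 : HasDerivAt (fun t : ℂ => (fun _ : Fin 1 => t)) (1 : Fin 1 → ℂ) 0 := hasDerivAt_pi.2 fun _ => hasDerivAt_id (0 : ℂ)
      exact (hasDerivAt_const (0 : ℂ) w₁).prodMk h6
    have h6 : HasDerivAt (fun t : ℂ => Φ (w₁, fun _ => t)) (fderiv ℂ Φ (w₁, 0) (0, 1)) 0 := by
      have h7 : HasFDerivAt Φ (fderiv ℂ Φ (w₁, 0)) ((fun t : ℂ => ((w₁, fun _ => t) : ℂ × (Fin 1 → ℂ))) 0) := hΦan.differentiableAt.hasFDerivAt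
      exact h7.comp_hasDerivAt (0 : ℂ) h5
    have h7 : HasDerivAt (fun t : ℂ => fun i : Fin (N + 2) => Z t (Sum.inl i)) (fun i => deriv Z 0 (Sum.inl i)) 0 :=
      hasDerivAt_pi.2 fun i => hasDerivAt_pi.1 hZ.differentiableAt.hasDerivAt (Sum.inl i)
    have h8 : (fun t : ℂ => Φ (w₁, fun _ => t)) =ᶠ[𝓝 0] fun t : ℂ => fun i : Fin (N + 2) => Z t (Sum.inl i) := by
      filter_upwards [ball_mem_nhds (0 : ℂ) hρ] with t ht
      rw [mem_ball_zero_iff] at ht
      exact hval (fun _ => t) (by rw [hconst]; exact ht)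
    rw [(h7.congr_of_eventuallyEq h8).unique h6 |>.symm]
    funext i
    rw [hZ1, hAV]
    rfl
  -- the height
  have hne0 : F w₁ ≠ 0 := by
    intro h5
    have h6 := hF.one w₁
    rw [h5] at h6
    exact zero_ne_one h6
  have hcont : ContinuousAt (fun t : ℂ => Rho B (fun i : Fin (N + 1) => Z t (Sum.inl i.castSucc))) 0 := by
    have h5 : ContinuousAt (fun t : ℂ => fun i : Fin (N + 1) => Z t (Sum.inl i.castSucc)) 0 :=
      continuousAt_pi.2 fun i => (continuous_apply (Sum.inl i.castSucc : Ph (N + 1))).continuousAt.comp hZ.continuousAt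
    have h6 : (fun i : Fin (N + 1) => Z 0 (Sum.inl i.castSucc)) = F w₁ := by
      funext i
      rw [hZ0]
      show Fin.snoc (α := fun _ => ℂ) (F w₁) _ i.castSucc = F w₁ i
      rw [Fin.snoc_castSucc]
    have h7 : ContinuousAt (fun y => Rho B y) (fun i : Fin (N + 1) => Z 0 (Sum.inl i.castSucc)) := by
      rw [h6]
      exact VbA_rho_cont hne0 (hF.ne w₁ hw)
    exact ContinuousAt.comp (g := fun y => Rho B y) h7 h5
  obtain ⟨r, hr, hrb⟩ := Metric.eventually_nhds_iff_ball.1 (hcont.eventually (gt_mem_nhds (lt_add_one (Rho B (fun i : Fin (N + 1) => Z 0 (Sum.inl i.castSucc))))))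
  refine ⟨min ρ r, lt_min hρ hr, Φ, Rho B (fun i : Fin (N + 1) => Z 0 (Sum.inl i.castSucc)) + 1, fun s hs => hΦ s (hs.trans_le (min_le_left _ _)), hΦ2, hder, fun s hs => ?_⟩
  rw [hval s (hs.trans_le (min_le_left _ _))]
  refine (hrb (s 0) ?_).le
  rw [mem_ball_zero_iff]
  exact ((norm_le_pi_norm s 0).trans_lt hs).trans_le (min_le_right _ _)

end Pool.Agent.GL
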